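import Pool.Agent.H.MP_ac3185_nt.V10.Int
import Pool.Agent.H.MP_ac3185_nt.V7.Base

/-! The classes over `K`. -/

set_option autoImplicit false

open CategoryTheory AlgebraicGeometry NumberField IsDedekindDomain
open scoped MonObj Pointwise

namespace Pool.Agent.H.MP_ac3185_nt

universe u

section base

variable {K : Type u} [Field K] [NumberField K] (L F : IntermediateField K (AlgebraicClosure K))

/-- The primes at which the classes are unramified. -/
def unrO (p : ℕ) (F : IntermediateField K (AlgebraicClosure K))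
    (T O : Set (HeightOneSpectrum (𝓞 F))) : Set (Ideal (𝓞 (AlgebraicClosure K))) :=
  {𝔓 | ∃ v ∉ O, PrimeOver F 𝔓 v ∧ ((p : 𝓞 F) ∉ v.asIdeal ∨ v ∈ T)}

/-- The primes at which the classes have valuation divisible by `p`. -/
def divO (p : ℕ) (F : IntermediateField K (AlgebraicClosure K))
    (T O : Set (HeightOneSpectrum (𝓞 F))) : Set (Ideal (𝓞 (AlgebraicClosure K))) :=
  {𝔓 | ∃ v ∉ O, PrimeOver F 𝔓 v ∧ (p : 𝓞 F) ∈ v.asIdeal ∧ v ∉ T}

theorem v10_stab_unr (p : ℕ) (T O : Set (HeightOneSpectrum (𝓞 F))) :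
    StabU F.fixingSubgroup (unrO p F T O) := by
  rintro g hg 𝔓 ⟨v, hv, hP, hT⟩
  exact ⟨v, hv, v7_over_smul F hg hP, hT⟩

theorem v10_stab_div (p : ℕ) (T O : Set (HeightOneSpectrum (𝓞 F))) :
    StabU F.fixingSubgroup (divO p F T O) := by
  rintro g hg 𝔓 ⟨v, hv, hP, hT⟩
  exact ⟨v, hv, v7_over_smul F hg hP, hT⟩

theorem v10_base {p : ℕ}
    (Rel : Set (((AlgebraicClosure K ≃ₐ[K] AlgebraicClosure K) ⧸ F.fixingSubgroup) → ℤ))
    (T O : Set (HeightOneSpectrum (𝓞 F))) (n : ℕ)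
    (h : PowClasses p (towerClasses p L F Rel T O) n) :
    PowClsG p (L.fixingSubgroup ⊓ (F.fixingSubgroup ⊓ ⊤))
      (selP p L F Rel ⊤ (unrO p F T O) (divO p F T O)) n := by
  classical
  obtain ⟨T', hT', hcov⟩ := h
  have hsup : (L ⊔ F : IntermediateField K (AlgebraicClosure K)).fixingSubgroup =
      L.fixingSubgroup ⊓ F.fixingSubgroup := IntermediateField.fixingSubgroup_sup
  refine ⟨T'.image Subtype.val, Finset.card_image_le.trans hT', ?_⟩
  rintro a ⟨ha0, ha, ⟨d, hd, hN⟩, hRel, hU, hE⟩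
  rw [inf_top_eq] at *
  have haL : a ∈ L ⊔ F := vn_mem _ fun s hs => ha s (by rw [← hsup]; exact hs)
  have hmem : (⟨a, haL⟩ : (L ⊔ F : IntermediateField K (AlgebraicClosure K))) ∈
      towerClasses p L F Rel T O := by
    refine ⟨fun h => ha0 (congrArg Subtype.val h), ⟨d, vn_mem F hd, hN⟩, ?_, ?_, ?_⟩
    · intro c hc
      obtain ⟨d', h1, h2⟩ := hRel c hc
      exact ⟨d', fun s hs h3 => h1 s hs h3, h2⟩
    · intro v hv 𝔓 h𝔓 hT
      obtain ⟨z, hz, h1⟩ := hU 𝔓 ⟨v, hv, h𝔓, hT⟩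
      exact ⟨z, hz, fun s hs hsL => h1 s hs (by rw [← hsup]; exact hsL)⟩
    · intro v hv 𝔓 h𝔓 hp hT
      obtain ⟨b, hb, hb0, h1⟩ := hE 𝔓 ⟨v, hv, h𝔓, hp, hT⟩
      exact ⟨b, vn_mem _ fun s hs => hb s (by rw [← hsup]; exact hs), hb0, h1⟩
  obtain ⟨t, ht, u, hu, hau⟩ := hcov _ hmem
  refine ⟨(t : AlgebraicClosure K), Finset.mem_image_of_mem _ ht, (u : AlgebraicClosure K),
    fun s hs => vn_fix _ u.2 (by rw [hsup]; exact hs), fun h0 => hu (Subtype.ext h0), ?_⟩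
  exact congrArg Subtype.val hau

end base

end Pool.Agent.H.MP_ac3185_nt
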