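import Pool.Agent.H.MP_ac3185_nt.V10.Int
import Pool.Agent.H.MP_ac3185_nt.V4.Local
import Pool.Agent.H.MP_ac3185_nt.V9.Unit
import Pool.Agent.H.MP_ac3185_nt.V9.UnrDiv
import Pool.Agent.H.MP_ac3185_nt.V9.RhoP

/-! Valuations divisible by `p`: norms, unramified extensions of degree `p`, primes not above `p`. -/

set_option autoImplicit false

open CategoryTheory AlgebraicGeometry NumberField IsDedekindDomain
open scoped MonObj Pointwise

namespace Pool.Agent.H.MP_ac3185_nt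

universe u v

section tot

variable {E : Type u} [Field E] [NumberField E] {M : Type v} [Field M] [NumberField M] [Algebra E M]

/-- An extension `M / E` of degree at most `p` with ramification index at least `p` at `w₁` is totally
ramified. -/
private theorem Div_tot {p : ℕ} (hp : 0 < p) (hle : Module.finrank E M ≤ p)
    (w : HeightOneSpectrum (𝓞 E)) (w₁ : PlacesOver M w)
    (hram : p ≤ Ideal.ramificationIdx' w.asIdeal w₁.1.asIdeal) :
    (∀ w₂ : PlacesOver M w, w₂ = w₁) ∧ ∀ x : 𝓞 M,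
      ∃ c : 𝓞 E, x - algebraMap (𝓞 E) (𝓞 M) c ∈ w₁.1.asIdeal := by
  classical
  have hsum := Ideal.sum_ramification_inertia (𝓞 M) E M (p := w.asIdeal) w.ne_bot
  have hin : ∀ w₁ : PlacesOver M w, 0 < Ideal.inertiaDeg' w.asIdeal w₁.1.asIdeal := by
    intro w₁
    have hlo : w₁.1.asIdeal.LiesOver w.asIdeal := ⟨w₁.2.symm⟩
    exact Ideal.inertiaDeg'_pos _ _
  have hra : ∀ w₁ : PlacesOver M w, 0 < Ideal.ramificationIdx' w.asIdeal w₁.1.asIdeal := by
    intro w₁
    have hlo : w₁.1.asIdeal.LiesOver w.asIdeal := ⟨w₁.2.symm⟩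
    exact Nat.pos_of_ne_zero
      (Ideal.IsDedekindDomain.ramificationIdx'_ne_zero_of_liesOver _ w.ne_bot)
  have hmem : ∀ w₁ : PlacesOver M w, w₁.1.asIdeal ∈
      IsDedekindDomain.primesOverFinset w.asIdeal (𝓞 M) := fun w₁ =>
    (IsDedekindDomain.mem_primesOverFinset_iff w.ne_bot _).2 ⟨w₁.1.isPrime, ⟨w₁.2.symm⟩⟩
  have huniq : ∀ w₂ : PlacesOver M w, w₂ = w₁ := by
    intro w₂
    by_contra hne
    have h1 : w₂.1.asIdeal ≠ w₁.1.asIdeal := fun h => hne (Subtype.ext (HeightOneSpectrum.ext h))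
    have h2 : ({w₂.1.asIdeal, w₁.1.asIdeal} : Finset (Ideal (𝓞 M))) ⊆
        IsDedekindDomain.primesOverFinset w.asIdeal (𝓞 M) := by
      intro I hI
      rcases Finset.mem_insert.1 hI with h | h
      · rw [h]
        exact hmem w₂
      · rw [Finset.mem_singleton.1 h]
        exact hmem w₁
    have h3 := Finset.sum_le_sum_of_subset (f := fun P =>
      Ideal.ramificationIdx' w.asIdeal P * Ideal.inertiaDeg' w.asIdeal P) h2
    rw [hsum, Finset.sum_pair h1] at h3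
    have h4 := Nat.mul_le_mul (hra w₂) (hin w₂)
    have h5 := Nat.mul_le_mul hram (hin w₁)
    omega
  refine ⟨huniq, fun x => ?_⟩
  have hlo : w₁.1.asIdeal.LiesOver w.asIdeal := ⟨w₁.2.symm⟩
  have h1 := Finset.single_le_sum (f := fun P =>
    Ideal.ramificationIdx' w.asIdeal P * Ideal.inertiaDeg' w.asIdeal P)
    (fun _ _ => Nat.zero_le _) (hmem w₁)
  rw [hsum] at h1
  have h2 : Ideal.inertiaDeg' w.asIdeal w₁.1.asIdeal = 1 := by
    have h3 := Nat.mul_le_mul_right (Ideal.inertiaDeg' w.asIdeal w₁.1.asIdeal) hram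
    have h4 := (h3.trans h1).trans hle
    have h5 : Ideal.inertiaDeg' w.asIdeal w₁.1.asIdeal ≤ 1 := by
      by_contra hcon
      have h6 := Nat.mul_le_mul_left p (Nat.succ_le_of_lt (not_le.1 hcon))
      omega
    exact le_antisymm h5 (hin w₁)
  rw [Ideal.inertiaDeg'_algebraMap] at h2
  let _ : Field (𝓞 E ⧸ w.asIdeal) := Ideal.Quotient.field w.asIdeal
  have h3 := (finrank_eq_one_iff_of_nonzero' (K := 𝓞 E ⧸ w.asIdeal)
    (1 : 𝓞 M ⧸ w₁.1.asIdeal) one_ne_zero).1 h2 (Ideal.Quotient.mk _ x)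
  obtain ⟨c, hc⟩ := h3
  obtain ⟨c, rfl⟩ := Ideal.Quotient.mk_surjective c
  refine ⟨c, Ideal.Quotient.eq.1 ?_⟩
  rw [← hc, Algebra.smul_def, mul_one]
  rfl

/-- If the valuation of `a` in `E` becomes divisible by `p` in `M`, then the ramification index is
at least `p`. -/
private theorem Div_ram {p : ℕ} (hp : p.Prime) {a : E} (w : HeightOneSpectrum (𝓞 E))
    (w₁ : PlacesOver M w) (h : ¬ (p : ℤ) ∣ vOrd w a)
    (h' : (p : ℤ) ∣ vOrd w₁.1 (algebraMap E M a)) :
    p ≤ Ideal.ramificationIdx' w.asIdeal w₁.1.asIdeal := by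
  have hpZ : Prime (p : ℤ) := Nat.prime_iff_prime_int.1 hp
  have hlo : w₁.1.asIdeal.LiesOver w.asIdeal := ⟨w₁.2.symm⟩
  have h1 := HeightOneSpectrum.valuation_liesOver (K := E) M w w₁.1 a
  have h2 : (Ideal.ramificationIdx' w.asIdeal w₁.1.asIdeal : ℤ) * vOrd w a =
      vOrd w₁.1 (algebraMap E M a) := by
    unfold vOrd
    rw [← h1, WithZero.log_pow]
    simp
  rw [← h2] at h'
  have h3 : (p : ℤ) ∣ (Ideal.ramificationIdx' w.asIdeal w₁.1.asIdeal : ℤ) :=
    (hpZ.dvd_or_dvd h').resolve_right h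
  have h4 : Ideal.ramificationIdx' w.asIdeal w₁.1.asIdeal ≠ 0 :=
    Ideal.IsDedekindDomain.ramificationIdx'_ne_zero_of_liesOver _ w.ne_bot
  exact Nat.le_of_dvd (Nat.pos_of_ne_zero h4) (by exact_mod_cast h3)

end tot

section div

variable {K : Type u} [Field K] [NumberField K] (L : IntermediateField K (AlgebraicClosure K))
  [FiniteDimensional K L]

/-- `a ^ n / N(a)` is a unit at `𝔓`, for `n = [L : K]` prime to `p`. -/
theorem v10_norm_div {p : ℕ} (hp : p.Prime) (hn : (Module.finrank K L).Coprime p)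
    (S : Subgroup (AlgebraicClosure K ≃ₐ[K] AlgebraicClosure K))
    (M : IntermediateField K (AlgebraicClosure K)) [FiniteDimensional K M]
    (hM : M.fixingSubgroup ≤ S) {𝔓 : Ideal (𝓞 (AlgebraicClosure K))} (h𝔓 : FinPrime 𝔓)
    (hD : TransOn L (decompGrp K 𝔓 ⊓ S)) {a d : AlgebraicClosure K}
    (ha0 : a ≠ 0) (ha : FixG (L.fixingSubgroup ⊓ S) a) (hd : FixG S d)
    (hN : normG L S a = d ^ p) : DivG p (L.fixingSubgroup ⊓ S) 𝔓 a := by
  have hP : 𝔓.IsPrime := h𝔓.1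
  have hT : TransOn L S := fun s => by
    obtain ⟨t, ht, h⟩ := hD s
    exact ⟨t, ht.2, h⟩
  have := vn_finiteIndex L
  let _ := L.fixingSubgroup.fintypeQuotientOfFiniteIndex
  have hd0 : d ≠ 0 := by
    rintro rfl
    rw [zero_pow hp.ne_zero] at hN
    exact v4_norm_ne L _ ha0 hN
  have hU : UnitAt 𝔓 (normG L S a / a ^ Module.finrank K L) := by
    rw [v4_norm_prod, ← vn_card L, ← Finset.card_univ, ← Finset.prod_const,
      ← Finset.prod_div_distrib]
    refine UnitAt.prod _ _ fun q _ => ?_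
    obtain ⟨s, rfl⟩ := QuotientGroup.mk_surjective q
    obtain ⟨t, ht, hts⟩ := hD s
    rw [v4_rep_apply L S hT ha _ ht.2 (QuotientGroup.eq.2 hts)]
    exact vu_unitAt h𝔓 ht.1 ha0
  obtain ⟨x, y, hx, hy, h⟩ := hU
  have h1 : d ^ p * (y : AlgebraicClosure K) =
      (x : AlgebraicClosure K) * a ^ Module.finrank K L := by
    rw [← h, hN]
    field_simp
  obtain ⟨m, -, hm⟩ := Nat.exists_mul_mod_eq_one_of_coprime hn hp.one_lt
  obtain ⟨v, hv⟩ : ∃ v, Module.finrank K L * m = p * v + 1 :=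
    ⟨Module.finrank K L * m / p, by
      conv_lhs => rw [← Nat.div_add_mod (Module.finrank K L * m) p]
      rw [hm]⟩
  refine ⟨d ^ m / a ^ v, ?_, div_ne_zero (pow_ne_zero m hd0) (pow_ne_zero v ha0), y ^ m, x ^ m,
    fun hh => hy (hP.mem_of_pow_mem m hh), fun hh => hx (hP.mem_of_pow_mem m hh), ?_⟩
  · intro s hs
    rw [map_div₀, map_pow, map_pow, hd s hs.2, ha s hs]
  · show a * (x : AlgebraicClosure K) ^ m = (d ^ m / a ^ v) ^ p * (y : AlgebraicClosure K) ^ m
    have h2 := congrArg (fun z => z ^ m) h1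
    simp only [mul_pow, ← pow_mul] at h2
    rw [div_pow, ← pow_mul, ← pow_mul, mul_comm m p, div_mul_eq_mul_div, h2, hv, pow_succ,
      mul_comm v p]
    field_simp

/-- The field given by an open subgroup. -/
private theorem Div_field (S : Subgroup (AlgebraicClosure K ≃ₐ[K] AlgebraicClosure K))
    (M : IntermediateField K (AlgebraicClosure K)) [FiniteDimensional K M]
    (hM : M.fixingSubgroup ≤ S) :
    ∃ E : IntermediateField K (AlgebraicClosure K), FiniteDimensional K E ∧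
      E.fixingSubgroup = S := by
  have hG : IsGalois K (AlgebraicClosure K) := IsAlgClosure.isGalois K (AlgebraicClosure K)
  refine ⟨IntermediateField.fixedField S, ?_, ?_⟩
  · have h1 : IntermediateField.fixedField S ≤ M := by
      intro x hx
      rw [IntermediateField.mem_fixedField_iff] at hx
      exact unreven_mem M x fun s hs => hx s (hM hs)
    exact FiniteDimensional.of_injective (IntermediateField.inclusion h1).toLinearMap
      (IntermediateField.inclusion_injective h1)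
  · refine le_antisymm ?_ ?_
    · intro s hs
      refine v4_closed S M hM s fun x hx => ?_
      refine (IntermediateField.mem_fixingSubgroup_iff _ s).1 hs x ?_
      rw [IntermediateField.mem_fixedField_iff]
      exact hx
    · intro s hs
      rw [IntermediateField.mem_fixingSubgroup_iff]
      intro x hx
      rw [IntermediateField.mem_fixedField_iff] at hx
      exact hx s hs

/-- `DivAt p E` is `DivG p` for `Gal(Kbar/E)`. -/
theorem v10_divG_iff (p : ℕ) (E : IntermediateField K (AlgebraicClosure K))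
    (𝔓 : Ideal (𝓞 (AlgebraicClosure K))) (a : AlgebraicClosure K) :
    DivG p E.fixingSubgroup 𝔓 a ↔ DivAt p E 𝔓 a := by
  constructor
  · rintro ⟨b, hb, h⟩
    exact ⟨b, unreven_mem E b hb, h⟩
  · rintro ⟨b, hb, h⟩
    exact ⟨b, fun s hs => (IntermediateField.mem_fixingSubgroup_iff E s).1 hs b hb, h⟩

/-- A subgroup as in `CycStep` has index at most `p`. -/
private theorem Div_index {Γ : Type*} [Group Γ] {p : ℕ} (hp : 0 < p) {S' S : Subgroup Γ}
    (hc : CycStep p S' S) : S'.relIndex S ≤ p := by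
  by_cases hne : ∀ s ∈ S, s ∈ S'
  · rw [Subgroup.relIndex_eq_one.2 hne]
    exact hp
  · push Not at hne
    obtain ⟨σ, hσ, hσ'⟩ := hne
    obtain ⟨-, hg⟩ := hc.gen σ hσ hσ'
    have hsurj : Function.Surjective (fun i : Fin p =>
        (((⟨σ, hσ⟩ : S) ^ (i : ℕ) : S) : S ⧸ S'.subgroupOf S)) := by
      intro q
      obtain ⟨s, rfl⟩ := QuotientGroup.mk_surjective q
      obtain ⟨i, hi, h⟩ := hg s s.2
      refine ⟨⟨i, hi⟩, QuotientGroup.eq.2 ?_⟩
      rw [Subgroup.mem_subgroupOf]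
      exact h
    have h1 := Nat.card_le_card_of_surjective _ hsurj
    rw [Nat.card_fin] at h1
    exact h1

theorem v10_div_down {p : ℕ} (hp : p.Prime)
    (S' S : Subgroup (AlgebraicClosure K ≃ₐ[K] AlgebraicClosure K)) (hc : CycStep p S' S)
    (M : IntermediateField K (AlgebraicClosure K)) [FiniteDimensional K M]
    (hM : M.fixingSubgroup ≤ S') {𝔓 : Ideal (𝓞 (AlgebraicClosure K))} (h𝔓 : FinPrime 𝔓)
    (hI : ∀ s ∈ inertia K 𝔓, s ∈ S → s ∈ S') {a : AlgebraicClosure K} (ha : FixG S a)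
    (h : DivG p S' 𝔓 a) : DivG p S 𝔓 a := by
  have hP : 𝔓.IsPrime := h𝔓.1
  by_cases hne : ∀ s ∈ S, s ∈ S'
  · obtain ⟨b, hb, h1⟩ := h
    exact ⟨b, fun s hs => hb s (hne s hs), h1⟩
  push Not at hne
  obtain ⟨σ, hσ, hσ'⟩ := hne
  have hidx := Div_index hp.pos hc
  have hle := hc.le
  obtain ⟨E, hE, rfl⟩ := Div_field S M (hM.trans hle)
  obtain ⟨E', hE', rfl⟩ := Div_field S' M hM
  have _ : NumberField E := NumberField.of_module_finite K E
  have _ : NumberField E' := NumberField.of_module_finite K E'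
  have hEE : E ≤ E' := fun x hx => unreven_mem E' x fun s hs =>
    (IntermediateField.mem_fixingSubgroup_iff E s).1 (hle hs) x hx
  let _ : Algebra E E' := (IntermediateField.inclusion hEE).toRingHom.toAlgebra
  have _ : IsScalarTower K E E' := IsScalarTower.of_algebraMap_eq fun _ => rfl
  -- the degree
  have hrank : Module.finrank E E' ≤ p := by
    have hG : IsGalois K (AlgebraicClosure K) := IsAlgClosure.isGalois K (AlgebraicClosure K)
    have h1 : Module.finrank K E * Module.finrank E E' = Module.finrank K E' :=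
      Module.finrank_mul_finrank K E E'
    have e1 : Module.finrank K E = E.fixingSubgroup.index :=
      IntermediateField.finrank_eq_fixingSubgroup_index (AlgebraicClosure K) E
    have e2 : Module.finrank K E' = E'.fixingSubgroup.index :=
      IntermediateField.finrank_eq_fixingSubgroup_index (AlgebraicClosure K) E'
    rw [e1, e2, ← Subgroup.relIndex_mul_index hle] at h1
    have h2 : 0 < E.fixingSubgroup.index := by
      rw [← e1]
      exact Module.finrank_pos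
    have h3 : E.fixingSubgroup.index * Module.finrank E E' ≤ E.fixingSubgroup.index * p := by
      rw [h1, mul_comm]
      exact Nat.mul_le_mul_left _ hidx
    exact Nat.le_of_mul_le_mul_left h3 h2
  rw [v10_divG_iff] at h ⊢
  have haE : a ∈ E := unreven_mem E a ha
  have ha0 : a ≠ 0 := by
    rintro rfl
    obtain ⟨b, -, hb0, x, y, hx, -, hxy⟩ := h
    rw [zero_mul] at hxy
    have h1 : (x : AlgebraicClosure K) = 0 :=
      (mul_eq_zero.1 hxy.symm).resolve_left (pow_ne_zero p hb0)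
    apply hx
    have h2 : x = 0 := RingOfIntegers.ext h1
    rw [h2]
    exact zero_mem _
  have haE0 : (⟨a, haE⟩ : E) ≠ 0 := fun h1 => ha0 (congrArg Subtype.val h1)
  have haE0' : (⟨a, hEE haE⟩ : E') ≠ 0 := fun h1 => ha0 (congrArg Subtype.val h1)
  obtain ⟨v, hv⟩ := v2c_above 𝔓 h𝔓
  obtain ⟨⟨w, hwv⟩, hw⟩ := v2_place E hv
  have hcomp : ∀ c : 𝓞 E, algebraMap (𝓞 E') (𝓞 (AlgebraicClosure K))
      (algebraMap (𝓞 E) (𝓞 E') c) = algebraMap (𝓞 E) (𝓞 (AlgebraicClosure K)) c := fun c =>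
    RingOfIntegers.ext rfl
  have hfixE : ∀ s ∈ E.fixingSubgroup, ∀ c : 𝓞 E,
      s • algebraMap (𝓞 E) (𝓞 (AlgebraicClosure K)) c =
        algebraMap (𝓞 E) (𝓞 (AlgebraicClosure K)) c := fun s hs c => by
    apply RingOfIntegers.ext
    exact (IntermediateField.mem_fixingSubgroup_iff E s).1 hs _ (c : E).2
  -- the places of `E'` below `𝔓` and below `σ 𝔓`
  have hbelow : ∀ 𝔔 : Ideal (𝓞 (AlgebraicClosure K)), 𝔔.IsPrime →
      𝔔.comap (algebraMap (𝓞 E) (𝓞 (AlgebraicClosure K))) = w.asIdeal →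
      ∃ w₁ : PlacesOver E' w,
        𝔔.comap (algebraMap (𝓞 E') (𝓞 (AlgebraicClosure K))) = w₁.1.asIdeal := by
    intro 𝔔 hQ hQw
    have hcc : (𝔔.comap (algebraMap (𝓞 E') (𝓞 (AlgebraicClosure K)))).comap
        (algebraMap (𝓞 E) (𝓞 E')) = w.asIdeal := by
      rw [← hQw]
      ext c
      rw [Ideal.mem_comap, Ideal.mem_comap, Ideal.mem_comap, hcomp]
    refine ⟨⟨⟨𝔔.comap (algebraMap (𝓞 E') (𝓞 (AlgebraicClosure K))),
      Ideal.comap_isPrime _ _, ?_⟩, hcc⟩, rfl⟩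
    intro hbot
    apply w.ne_bot
    rw [← hcc, hbot]
    exact Ideal.comap_bot_of_injective _ (FaithfulSMul.algebraMap_injective (𝓞 E) (𝓞 E'))
  obtain ⟨w₁, hw₁⟩ := hbelow 𝔓 hP hw.2
  rw [divAt_iff p E hw haE0]
  by_contra hndvd
  have h1 : (p : ℤ) ∣ vOrd w₁.1 (algebraMap E E' ⟨a, haE⟩) :=
    (divAt_iff p E' (w := w₁.1) ⟨hP, hw₁⟩ haE0').1 h
  obtain ⟨huniq, hres⟩ := Div_tot hp.pos hrank w w₁ (Div_ram hp w w₁ hndvd h1)
  have hσP : (σ • 𝔓).IsPrime := by
    have h1 : σ • 𝔓 = 𝔓.comap (MulSemiringAction.toRingHom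
        (AlgebraicClosure K ≃ₐ[K] AlgebraicClosure K) (𝓞 (AlgebraicClosure K)) σ⁻¹) := by
      ext x
      rw [Ideal.mem_comap, Ideal.mem_pointwise_smul_iff_inv_smul_mem]
      rfl
    rw [h1]
    exact Ideal.comap_isPrime _ _
  obtain ⟨w₂, hw₂⟩ := hbelow (σ • 𝔓) hσP (by
    rw [← hw.2]
    ext c
    rw [Ideal.mem_comap, Ideal.mem_comap, Ideal.mem_pointwise_smul_iff_inv_smul_mem,
      hfixE σ⁻¹ (inv_mem hσ)])
  have hcomap : (σ • 𝔓).comap (algebraMap (𝓞 E') (𝓞 (AlgebraicClosure K))) =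
      ((1 : AlgebraicClosure K ≃ₐ[K] AlgebraicClosure K) • 𝔓).comap
        (algebraMap (𝓞 E') (𝓞 (AlgebraicClosure K))) := by
    rw [one_smul, hw₁, hw₂, huniq w₂]
  obtain ⟨g₀, hg₀, hg₀𝔓⟩ := (same_place_iff E' 𝔓 σ 1).1 hcomap
  rw [one_smul] at hg₀𝔓
  set s₁ := g₀ * σ with hs₁
  have hs₁𝔓 : s₁ • 𝔓 = 𝔓 := by
    rw [hs₁, mul_smul]
    exact hg₀𝔓
  have hs₁E : s₁ ∈ E.fixingSubgroup := mul_mem (hle hg₀) hσ
  have htriv : ∀ x : 𝓞 E', s₁ • algebraMap (𝓞 E') (𝓞 (AlgebraicClosure K)) x -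
      algebraMap (𝓞 E') (𝓞 (AlgebraicClosure K)) x ∈ 𝔓 := by
    intro x
    obtain ⟨c, hc⟩ := hres x
    rw [← hw₁, Ideal.mem_comap, map_sub, hcomp] at hc
    have h1 : s₁ • (algebraMap (𝓞 E') (𝓞 (AlgebraicClosure K)) x -
        algebraMap (𝓞 E) (𝓞 (AlgebraicClosure K)) c) ∈ s₁ • 𝔓 :=
      Ideal.smul_mem_pointwise_smul_iff.2 hc
    rw [hs₁𝔓, smul_sub, hfixE s₁ hs₁E] at h1
    have h2 := sub_mem h1 hc
    rwa [sub_sub_sub_cancel_right] at h2
  obtain ⟨g, hg, hg𝔓, hgs⟩ := v8_res_surj E' 𝔓 s₁ hs₁𝔓 htriv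
  have hin : g⁻¹ * s₁ ∈ inertia K 𝔓 := by
    intro x
    show (g⁻¹ * s₁) • x - x ∈ 𝔓
    have h1 := neg_mem (hgs x)
    rw [neg_sub, ← Ideal.smul_mem_pointwise_smul_iff (a := g⁻¹)] at h1
    have h2 : g⁻¹ • 𝔓 = 𝔓 := by
      rw [inv_smul_eq_iff]
      exact hg𝔓.symm
    rw [h2, smul_sub, inv_smul_smul, ← mul_smul] at h1
    exact h1
  have h2 := hI _ hin (mul_mem (inv_mem (hle hg)) hs₁E)
  have h3 := mul_mem hg h2
  rw [mul_inv_cancel_left] at h3
  have h4 := mul_mem (inv_mem hg₀) h3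
  rw [hs₁, inv_mul_cancel_left] at h4
  exact hσ' h4

omit [NumberField K] in
theorem v10_unr_div {p : ℕ} (hp : p.Prime)
    (S : Subgroup (AlgebraicClosure K ≃ₐ[K] AlgebraicClosure K))
    {𝔓 : Ideal (𝓞 (AlgebraicClosure K))} (h𝔓 : FinPrime 𝔓)
    (hp𝔓 : (p : 𝓞 (AlgebraicClosure K)) ∉ 𝔓) {a : AlgebraicClosure K} (ha : FixG S a)
    (h : DivG p S 𝔓 a) : UnrPG p S 𝔓 a := by
  have hP : 𝔓.IsPrime := h𝔓.1
  obtain ⟨z, hz⟩ := IsAlgClosed.exists_pow_nat_eq a hp.pos
  refine ⟨z, hz, fun s hs hsS => ?_⟩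
  obtain ⟨b, hb, hb0, x, y, hx, hy, hxy⟩ := h
  have h3 : UnitAt 𝔓 ((z / b) ^ p) := by
    refine ⟨x, y, hx, hy, ?_⟩
    rw [div_pow, hz, div_mul_eq_mul_div, hxy, mul_comm, mul_div_assoc,
      div_self (pow_ne_zero p hb0), mul_one]
  have h5 := UnitAt.fixed_pow hp.pos hp𝔓 h3 hs (by rw [div_pow, hz, map_div₀, map_pow,
    ha s hsS, hb s hsS])
  rw [map_div₀, hb s hsS] at h5
  exact (div_left_inj' hb0).1 h5

end div

end Pool.Agent.H.MP_ac3185_nt
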