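import Pool.Agent.H.MP_ac3185_nt.V10.Int
import Pool.Agent.H.MP_ac3185_nt.V8.Index

/-! The cover by cosets given by a function with values in finitely many classes modulo `p`-th
powers. -/

set_option autoImplicit false

open CategoryTheory AlgebraicGeometry NumberField IsDedekindDomain
open scoped MonObj Pointwise

namespace Pool.Agent.H.MP_ac3185_nt

universe u

section index

variable {K : Type u} [Field K]

theorem v10_index {p : ℕ} (S : Subgroup (AlgebraicClosure K ≃ₐ[K] AlgebraicClosure K))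
    (Y : Set (AlgebraicClosure K)) (n : ℕ) (hY : PowClsG p S Y n) {X : Type*} [AddCommGroup X]
    (G D : AddSubgroup X) (c : X → AlgebraicClosure K) (h0 : ∀ P, c P ≠ 0)
    (h1 : ∀ P ∈ G, c P ∈ Y)
    (h2 : ∀ P ∈ G, ∀ Q ∈ G, ∃ w, FixG S w ∧ w ≠ 0 ∧ c P * c Q = c (P + Q) * w ^ p)
    (h3 : ∀ P ∈ G, (∃ w, FixG S w ∧ c P = w ^ p) → P ∈ D) : CosetCover G D n := by
  classical
  obtain ⟨T, hT, hTY⟩ := hY
  have hex : ∀ t : AlgebraicClosure K, ∃ P ∈ G,
      (∃ Q ∈ G, ∃ u, FixG S u ∧ u ≠ 0 ∧ c Q = t * u ^ p) →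
        ∃ u, FixG S u ∧ u ≠ 0 ∧ c P = t * u ^ p := by
    intro t
    by_cases h : ∃ Q ∈ G, ∃ u, FixG S u ∧ u ≠ 0 ∧ c Q = t * u ^ p
    · obtain ⟨Q, hQ, hu⟩ := h
      exact ⟨Q, hQ, fun _ => hu⟩
    · exact ⟨0, G.zero_mem, fun h' => absurd h' h⟩
  choose f hfG hf using hex
  refine ⟨T.image f, Finset.card_image_le.trans hT, ?_, ?_⟩
  · intro t ht
    obtain ⟨s, -, rfl⟩ := Finset.mem_image.1 ht
    exact hfG s
  · intro P hP
    obtain ⟨t, ht, u, hu, hu0, e1⟩ := hTY _ (h1 P hP)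
    obtain ⟨v, hv, hv0, e2⟩ := hf t ⟨P, hP, u, hu, hu0, e1⟩
    refine ⟨f t, Finset.mem_image_of_mem f ht, ?_⟩
    have hPm : P - f t ∈ G := sub_mem hP (hfG t)
    obtain ⟨w, hw, hw0, e3⟩ := h2 (P - f t) hPm (f t) (hfG t)
    rw [sub_add_cancel, e1, e2] at e3
    have ht0 : t ≠ 0 := by
      intro h
      rw [h, zero_mul] at e1
      exact h0 P e1
    refine h3 _ hPm ⟨u * w / v, fun s hs => ?_, ?_⟩
    · rw [map_div₀, map_mul, hu s hs, hw s hs, hv s hs]
    · have hvp : v ^ p ≠ 0 := pow_ne_zero p hv0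
      rw [div_pow, mul_pow, eq_div_iff hvp]
      refine mul_left_cancel₀ ht0 ?_
      calc t * (c (P - f t) * v ^ p) = c (P - f t) * (t * v ^ p) := by ring
        _ = t * (u ^ p * w ^ p) := by rw [e3]; ring

end index

end Pool.Agent.H.MP_ac3185_nt
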