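import Pool.Agent.H.MP_ac3185_nt.V10.Int
import Pool.Agent.H.MP_ac3185_nt.V9.Char

/-! The relations are stable under the Galois group. -/

set_option autoImplicit false

open CategoryTheory AlgebraicGeometry NumberField IsDedekindDomain
open scoped MonObj Pointwise

namespace Pool.Agent.H.MP_ac3185_nt

universe u

section stabrel

variable {K : Type u} [Field K] {p : ℕ} {F : IntermediateField K (AlgebraicClosure K)}
  {A : Over (Spec (.of K))} [GrpObj A] [IsAbVar A] {N N' : AddSubgroup (Pts A (AlgebraicClosure K))}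
  {ψ : Pts A (AlgebraicClosure K) → AlgebraicClosure K}

theorem v10_stab_rel (hf : CharFrame p F N N' ψ) : StabRel (relFam F N' ψ) := by
  intro g c hc x hx
  have h1 := hc (act A g x) (hf.stabN' g x hx)
  rw [← finprod_comp_equiv (MulAction.toPerm g)] at h1
  have h2 : ∀ q : (AlgebraicClosure K ≃ₐ[K] AlgebraicClosure K) ⧸ F.fixingSubgroup,
      conjChar F ψ (MulAction.toPerm g q) (act A g x) ^ c (MulAction.toPerm g q) =
        g (conjChar F ψ q x ^ c (g • q)) := by
    intro q
    rw [map_zpow₀, ← v9_conj_act hf g q hx]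
    rfl
  rw [finprod_congr h2] at h1
  have h3 := MonoidHom.map_finprod_of_injective
    ((g : AlgebraicClosure K →+* AlgebraicClosure K) : AlgebraicClosure K →* AlgebraicClosure K)
    g.injective fun q : (AlgebraicClosure K ≃ₐ[K] AlgebraicClosure K) ⧸ F.fixingSubgroup =>
      conjChar F ψ q x ^ c (g • q)
  have h4 : g (∏ᶠ q, conjChar F ψ q x ^ c (g • q)) = 1 := h3.trans h1
  exact g.injective (h4.trans (map_one g).symm)

end stabrel

end Pool.Agent.H.MP_ac3185_nt
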