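import Mathlib

/-! The filtration of a group of classes by the kernels of the powers of `σ - 1`. -/

set_option autoImplicit false

namespace Pool.Agent.H.MP_ac3185_nt

/-- The additive form, for a group `V` with an endomorphism `s` such that `s ^ p = 1`. -/
theorem Fil_add {p : ℕ} (hp : p.Prime) {V : Type*} [AddCommGroup V] (s : AddMonoid.End V)
    (hs : s ^ p = 1) (X : AddSubgroup V) (hX : ∀ a ∈ X, s a ∈ X)
    (n : ℕ) (T : Finset V) (hT : T.card ≤ n)
    (h : ∀ a ∈ X, (∃ w, s a = a + p • w) → ∃ t ∈ T, ∃ u, a = t + p • u) :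
    ∃ T' : Finset V, T'.card ≤ n ^ p ∧ ∀ a ∈ X, ∃ t ∈ T', ∃ u, a = t + p • u := by
  classical
  obtain ⟨D, hD⟩ : ∃ D : AddMonoid.End V, D = s - 1 := ⟨_, rfl⟩
  have hDa : ∀ a, D a = s a - a := fun a => by rw [hD]; rfl
  have hDs : ∀ j a, (D ^ (j + 1)) a = s ((D ^ j) a) - (D ^ j) a := fun j a => by
    rw [← hDa, pow_succ']
    rfl
  have hDX : ∀ (j : ℕ), ∀ a ∈ X, (D ^ j) a ∈ X := by
    intro j
    induction j with
    | zero => exact fun a ha => by simpa using ha
    | succ j ih =>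
      intro a ha
      rw [hDs]
      exact X.sub_mem (hX _ (ih a ha)) (ih a ha)
  have hp1 : ∀ a, ∃ u, (D ^ p) a = p • u := by
    obtain ⟨r, hr⟩ := (Commute.one_right D).exists_add_pow_prime_eq hp
    intro a
    have h2 : D + 1 = s := by rw [hD, sub_add_cancel]
    rw [h2, hs, one_pow] at hr
    obtain ⟨q, hq⟩ : ∃ q : AddMonoid.End V, q = D * 1 * r := ⟨_, rfl⟩
    have h3 : a = (D ^ p) a + a + p • q a := by
      have h4 := congrArg (fun e : AddMonoid.End V => e a) hr
      have h5 : ((p : AddMonoid.End V) * D * 1 * r) a = p • q a := by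
        rw [mul_assoc, mul_assoc, ← mul_assoc D, ← hq]
        rfl
      have h6 : (D ^ p + 1 + (p : AddMonoid.End V) * D * 1 * r) a =
          (D ^ p) a + a + ((p : AddMonoid.End V) * D * 1 * r) a := rfl
      rw [← h5, ← h6]
      exact h4
    refine ⟨-(q a), ?_⟩
    rw [smul_neg, eq_neg_iff_add_eq_zero]
    have h7 : (D ^ p) a + p • q a + a = 0 + a := by
      calc (D ^ p) a + p • q a + a = (D ^ p) a + a + p • q a := by abel
        _ = a := h3.symm
        _ = 0 + a := (zero_add a).symm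
    exact add_right_cancel h7
  have key : ∀ j : ℕ, ∃ T' : Finset V, T'.card ≤ n ^ j ∧
      ∀ a ∈ X, (∃ w, (D ^ j) a = p • w) → ∃ t ∈ T', ∃ u, a = t + p • u := by
    intro j
    induction j with
    | zero =>
      refine ⟨{0}, by simp, fun a _ ⟨w, hw⟩ => ⟨0, Finset.mem_singleton_self _, w, ?_⟩⟩
      rw [zero_add, ← hw]
      rfl
    | succ j ih =>
      obtain ⟨T', hT', hc⟩ := ih
      let c : V → V := fun t => if ht : ∃ a ∈ X, ∃ u, (D ^ j) a = t + p • u then ht.choose else 0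
      refine ⟨(T' ×ˢ T).image fun q => q.1 + c q.2, ?_, ?_⟩
      · calc _ ≤ (T' ×ˢ T).card := Finset.card_image_le
          _ = T'.card * T.card := Finset.card_product _ _
          _ ≤ n ^ j * n := Nat.mul_le_mul hT' hT
          _ = n ^ (j + 1) := (pow_succ n j).symm
      · rintro a ha ⟨w, hw⟩
        obtain ⟨t, ht, u, hu⟩ := h ((D ^ j) a) (hDX j a ha) ⟨w, by
          rw [← hw, hDs]; abel⟩
        have hex : ∃ a ∈ X, ∃ u, (D ^ j) a = t + p • u := ⟨a, ha, u, hu⟩
        have hct : c t = hex.choose := dif_pos hex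
        obtain ⟨hcX, u', hu'⟩ := hex.choose_spec
        rw [← hct] at hcX hu'
        obtain ⟨t', ht', u'', h''⟩ := hc (a - c t) (X.sub_mem ha hcX) ⟨u - u', by
          rw [map_sub, hu, hu', smul_sub]; abel⟩
        refine ⟨t' + c t, Finset.mem_image.2 ⟨(t', t), Finset.mem_product.2 ⟨ht', ht⟩, rfl⟩, u'', ?_⟩
        rw [sub_eq_iff_eq_add] at h''
        rw [h'']
        abel
  obtain ⟨T', hT', hc⟩ := key p
  exact ⟨T', hT', fun a ha => hc a ha (hp1 a)⟩

/-- If the classes fixed by `σ`, of the elements of `X` modulo the `p`-th powers of the elements of `B`,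
are at most `n` and `σ ^ p = 1` on `B`, then there are at most `n ^ p` classes. -/
theorem v10_fil {p : ℕ} (hp : p.Prime) {Z : Type*} [CommGroup Z] (X B : Subgroup Z) (σ : Z ≃* Z)
    (hXB : X ≤ B) (_ : ∀ u ∈ B, u ^ p ∈ X) (hσB : ∀ u ∈ B, σ u ∈ B) (hσX : ∀ a ∈ X, σ a ∈ X)
    (hσp : ∀ u ∈ B, (σ ^ p) u = u) (n : ℕ) (T : Finset Z) (hT : T.card ≤ n)
    (h : ∀ a ∈ X, (∃ w ∈ B, σ a = a * w ^ p) → ∃ t ∈ T, ∃ u ∈ B, a = t * u ^ p) :
    ∃ T' : Finset Z, T'.card ≤ n ^ p ∧ ∀ a ∈ X, ∃ t ∈ T', ∃ u ∈ B, a = t * u ^ p := by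
  classical
  let s0 : B →* B := (σ.toMonoidHom.comp B.subtype).codRestrict B fun u => hσB u u.2
  let s : AddMonoid.End (Additive B) := MonoidHom.toAdditive s0
  have hs1 : ∀ u : B, ((Additive.toMul (s (Additive.ofMul u)) : B) : Z) = σ u := fun _ => rfl
  have hsj : ∀ (j : ℕ) (u : B), ((Additive.toMul ((s ^ j) (Additive.ofMul u)) : B) : Z) =
      (σ ^ j) u := by
    intro j
    induction j with
    | zero => exact fun u => rfl
    | succ j ih =>
      intro u
      rw [pow_succ', pow_succ', MulAut.mul_apply, ← ih u, ← hs1]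
      rfl
  have hs : s ^ p = 1 := by
    ext u
    change ((Additive.toMul ((s ^ p) (Additive.ofMul (Additive.toMul u))) : B) : Z) =
      ((Additive.toMul u : B) : Z)
    rw [hsj]
    exact hσp _ (Additive.toMul u).2
  let X' : AddSubgroup (Additive B) := Subgroup.toAddSubgroup (X.subgroupOf B)
  have hX' : ∀ u : B, Additive.ofMul u ∈ X' ↔ (u : Z) ∈ X := fun u => Iff.rfl
  obtain ⟨T', hT', hc⟩ := Fil_add hp s hs X' (fun a ha => hσX _ ha) n
    ((T.subtype (· ∈ B)).map ⟨Additive.ofMul, Additive.ofMul.injective⟩) (by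
      rw [Finset.card_map, Finset.card_subtype]
      exact (Finset.card_filter_le _ _).trans hT) (by
      rintro a ha ⟨w, hw⟩
      obtain ⟨t, ht, u, hu, hau⟩ := h ((Additive.toMul a : B) : Z) ha
        ⟨_, (Additive.toMul w).2, congrArg (fun e : Additive B => ((Additive.toMul e : B) : Z)) hw⟩
      have htB : t ∈ B := by
        have : t = ((Additive.toMul a : B) : Z) * (u ^ p)⁻¹ := by rw [hau, mul_inv_cancel_right]
        rw [this]
        exact B.mul_mem (Additive.toMul a).2 (B.inv_mem (B.pow_mem hu p))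
      refine ⟨Additive.ofMul ⟨t, htB⟩, Finset.mem_map.2 ⟨⟨t, htB⟩, Finset.mem_subtype.2 ht, rfl⟩,
        Additive.ofMul ⟨u, hu⟩, ?_⟩
      apply Additive.toMul.injective
      exact Subtype.ext hau)
  refine ⟨T'.image fun e => ((Additive.toMul e : B) : Z), Finset.card_image_le.trans hT', ?_⟩
  intro a ha
  obtain ⟨t, ht, u, hu⟩ := hc (Additive.ofMul ⟨a, hXB ha⟩) ha
  exact ⟨_, Finset.mem_image_of_mem _ ht, _, (Additive.toMul u).2,
    congrArg (fun e : Additive B => ((Additive.toMul e : B) : Z)) hu⟩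

end Pool.Agent.H.MP_ac3185_nt
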