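import Pool.Agent.H.MP_ac3185_nt.V10.Hilb

/-! A relation for an invariant class over `G'` is a relation over `G`, if the norm is a `p`-th
power. -/

set_option autoImplicit false

open NumberField IsDedekindDomain
open scoped Pointwise

namespace Pool.Agent.H.MP_ac3185_nt

universe u

variable {K : Type u} [Field K] [CharZero K] (L F : IntermediateField K (AlgebraicClosure K))
  [FiniteDimensional K L] [FiniteDimensional K F]

/-- The stabilizer of `c`. -/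
private def irStab {K : Type u} [Field K] (F : IntermediateField K (AlgebraicClosure K))
    (c : ((AlgebraicClosure K ≃ₐ[K] AlgebraicClosure K) ⧸ F.fixingSubgroup) → ℤ) :
    Subgroup (AlgebraicClosure K ≃ₐ[K] AlgebraicClosure K) where
  carrier := {s | ∀ q, c (s • q) = c q}
  one_mem' := fun q => by rw [one_smul]
  mul_mem' := fun {s t} hs ht q => by rw [mul_smul, hs, ht]
  inv_mem' := fun {s} hs q => by
    have h1 := hs (s⁻¹ • q)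
    rw [smul_inv_smul] at h1
    exact h1.symm

/-- The norm of the product over the relation. -/
private theorem ir_norm
    (W : Subgroup (AlgebraicClosure K ≃ₐ[K] AlgebraicClosure K))
    (hW : ∀ w ∈ W, ∀ g : AlgebraicClosure K ≃ₐ[K] AlgebraicClosure K,
      g⁻¹ * w * g ∈ F.fixingSubgroup)
    (G' G : Subgroup (AlgebraicClosure K ≃ₐ[K] AlgebraicClosure K)) (hle : G' ≤ G)
    (hconj : ∀ g ∈ G, ∀ s ∈ G', g⁻¹ * s * g ∈ G')
    (hTW : TransOn L (W ⊓ G')) (hTL : TransOn L (F.fixingSubgroup ⊓ G'))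
    (hTF : TransOn F (L.fixingSubgroup ⊓ G'))
    (c : ((AlgebraicClosure K ≃ₐ[K] AlgebraicClosure K) ⧸ F.fixingSubgroup) → ℤ)
    {a : AlgebraicClosure K}
    (ha : FixG (L.fixingSubgroup ⊓ (F.fixingSubgroup ⊓ G)) a) :
    normG L (W ⊓ G') (relP10 F (L.fixingSubgroup ⊓ G') c a) =
      relP10 F (L.fixingSubgroup ⊓ G') c (normG L (F.fixingSubgroup ⊓ G) a) := by
  have hfiL := vn_finiteIndex L
  let _ := L.fixingSubgroup.fintypeQuotientOfFiniteIndex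
  have hfiF := vn_finiteIndex F
  let _ := F.fixingSubgroup.fintypeQuotientOfFiniteIndex
  have hTL' : TransOn L (F.fixingSubgroup ⊓ G) := fun s => by
    obtain ⟨t, ht, hs⟩ := hTL s
    exact ⟨t, ⟨ht.1, hle ht.2⟩, hs⟩
  set Λ := L.fixingSubgroup with hΛ
  rw [v4_norm_prod, v10r_prod, v10r_prod]
  simp only [map_prod, map_zpow₀]
  rw [Finset.prod_comm]
  refine Finset.prod_congr rfl fun q _ => ?_
  rw [Finset.prod_zpow]
  congr 1
  obtain ⟨⟨hτL, hτG⟩, hτq⟩ := v4_rep F (Λ ⊓ G') hTF q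
  set τ := repG F (Λ ⊓ G') q with hτ
  rw [v4_norm_prod, map_prod]
  refine Fintype.prod_equiv (MulAction.toPerm τ⁻¹) _ _ fun r => ?_
  obtain ⟨⟨hρW, hρG⟩, hρr⟩ := v4_rep L (W ⊓ G') hTW r
  set ρ := repG L (W ⊓ G') r with hρ
  have h1 : τ⁻¹ * ρ * τ ∈ F.fixingSubgroup ⊓ G :=
    ⟨hW ρ hρW τ, hle (hconj τ (hle hτG) ρ hρG)⟩
  have h2 : ((τ⁻¹ * ρ * τ : AlgebraicClosure K ≃ₐ[K] AlgebraicClosure K) :
      (AlgebraicClosure K ≃ₐ[K] AlgebraicClosure K) ⧸ Λ) = τ⁻¹ • r := by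
    rw [← hρr, MulAction.Quotient.smul_coe, smul_eq_mul, QuotientGroup.eq]
    have h3 : (τ⁻¹ * ρ * τ)⁻¹ * (τ⁻¹ * ρ) = τ⁻¹ := by group
    rw [h3]
    exact Λ.inv_mem hτL
  rw [MulAction.toPerm_apply, v4_rep_apply L (F.fixingSubgroup ⊓ G) hTL' ha _ h1 h2,
    ← AlgEquiv.mul_apply, ← AlgEquiv.mul_apply]
  congr 1
  group

/-- A relation over `G'` is a relation over `G`, if the norm is a `p`-th power. -/
theorem v10_inv_rel {p : ℕ} (hp : p.Prime) (hn : (Module.finrank K L).Coprime p)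
    (W : Subgroup (AlgebraicClosure K ≃ₐ[K] AlgebraicClosure K))
    (hW : ∀ w ∈ W, ∀ g : AlgebraicClosure K ≃ₐ[K] AlgebraicClosure K,
      g⁻¹ * w * g ∈ F.fixingSubgroup)
    (hWμ : ∀ w ∈ W, ∀ z : AlgebraicClosure K, z ^ p = 1 → w z = z)
    (G' G : Subgroup (AlgebraicClosure K ≃ₐ[K] AlgebraicClosure K)) (hc : CycStep p G' G)
    (hTW : TransOn L (W ⊓ G')) (hTF : TransOn F G')
    (c : ((AlgebraicClosure K ≃ₐ[K] AlgebraicClosure K) ⧸ F.fixingSubgroup) → ℤ)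
    {a d₀ d₁ : AlgebraicClosure K} (ha0 : a ≠ 0)
    (ha : FixG (L.fixingSubgroup ⊓ (F.fixingSubgroup ⊓ G)) a)
    (hd₀ : FixG (F.fixingSubgroup ⊓ G) d₀) (hN : normG L (F.fixingSubgroup ⊓ G) a = d₀ ^ p)
    (hd₁ : FixC (L.fixingSubgroup ⊓ G') c d₁)
    (h₁ : relP10 F (L.fixingSubgroup ⊓ G') c a = d₁ ^ p) :
    ∃ d, FixC (L.fixingSubgroup ⊓ G) c d ∧ relP10 F (L.fixingSubgroup ⊓ G) c a = d ^ p := by
  classical
  have hWF : W ≤ F.fixingSubgroup := fun w hw => by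
    have := hW w hw 1
    simpa using this
  have hTL : TransOn L (F.fixingSubgroup ⊓ G') := fun s => by
    obtain ⟨t, ht, hs⟩ := hTW s
    exact ⟨t, ⟨hWF ht.1, ht.2⟩, hs⟩
  have hTF' : TransOn F (L.fixingSubgroup ⊓ G') := v7r_swap L F hTL hTF
  have hTFG : TransOn F G := fun s => by
    obtain ⟨t, ht, hs⟩ := hTF s
    exact ⟨t, hc.le ht, hs⟩
  have hTFG' : TransOn F (L.fixingSubgroup ⊓ G) := fun s => by
    obtain ⟨t, ht, hs⟩ := hTF' s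
    exact ⟨t, ⟨ht.1, hc.le ht.2⟩, hs⟩
  set Λ := L.fixingSubgroup with hΛ
  set R := irStab F c with hR
  have hRm : ∀ {s}, s ∈ R ↔ ∀ q, c (s • q) = c q := Iff.rfl
  have hWR : W ≤ R := by
    intro w hw q
    obtain ⟨g, rfl⟩ := QuotientGroup.mk_surjective q
    rw [MulAction.Quotient.smul_coe, smul_eq_mul]
    congr 1
    rw [eq_comm, QuotientGroup.eq, ← mul_assoc]
    exact hW w hw g
  have haF : FixG (F.fixingSubgroup ⊓ (Λ ⊓ G)) a :=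
    v10_fix_mono (by rw [← inf_assoc, ← inf_assoc, inf_comm F.fixingSubgroup Λ]) ha
  -- the product `D`
  have hD : relP10 F (Λ ⊓ G) c a = d₁ ^ p := by
    rw [← h₁]
    exact (v10r_low F (Λ ⊓ G) c (inf_le_inf_left _ hc.le) hTF' haF).symm
  have hDfix : FixC (Λ ⊓ G) c (relP10 F (Λ ⊓ G) c a) := v10r_fix F (Λ ⊓ G) c hTFG' haF
  -- the product `Q`
  obtain ⟨Q, hQ⟩ : ∃ Q, Q = relP10 F G c d₀ := ⟨_, rfl⟩
  have hQfix : FixG (R ⊓ G) Q := fun s hs => by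
    rw [hQ]
    exact v10r_fix F G c hTFG hd₀ s hs.2 hs.1
  have hQ' : relP10 F (Λ ⊓ G') c d₀ = Q := by
    rw [hQ]
    exact v10r_low F G c (inf_le_right.trans hc.le) hTF' hd₀
  have hNa : normG L (F.fixingSubgroup ⊓ G) a ≠ 0 := v4_norm_ne L _ ha0
  have hd₀0 : d₀ ≠ 0 := by
    intro h
    rw [hN, h, zero_pow hp.ne_zero] at hNa
    exact hNa rfl
  have hQ0 : Q ≠ 0 := by
    rw [hQ]
    exact v10r_ne F G c hd₀0
  have hd₁0 : d₁ ≠ 0 := by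
    intro h
    have h1 := v10r_ne F (Λ ⊓ G') c ha0
    rw [h₁, h, zero_pow hp.ne_zero] at h1
    exact h1 rfl
  -- norms
  have hWG : W ⊓ G' ≤ R ⊓ G' := inf_le_inf_right _ hWR
  have hTR : TransOn L (R ⊓ G') := fun s => by
    obtain ⟨t, ht, hs⟩ := hTW s
    exact ⟨t, hWG ht, hs⟩
  have hd₁R : FixG (Λ ⊓ (R ⊓ G')) d₁ := fun s hs => hd₁ s ⟨hs.1, hs.2.2⟩ hs.2.1
  have hlow : ∀ x, FixG (Λ ⊓ (R ⊓ G')) x → normG L (W ⊓ G') x = normG L (R ⊓ G') x :=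
    fun x hx => v4_norm_le L (R ⊓ G') (W ⊓ G') hWG hTW hx
  have hNpow : ∀ (x : AlgebraicClosure K) (k : ℕ),
      normG L (W ⊓ G') (x ^ k) = normG L (W ⊓ G') x ^ k := by
    intro x k
    induction k with
    | zero =>
      have := vn_finiteIndex L
      let _ := L.fixingSubgroup.fintypeQuotientOfFiniteIndex
      rw [pow_zero, pow_zero, v4_norm_prod]
      exact Finset.prod_eq_one fun q _ => map_one _
    | succ k ih => rw [pow_succ, pow_succ, v4_norm_mul, ih]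
  have hND : normG L (W ⊓ G') d₁ ^ p = Q ^ p := by
    rw [← hNpow, ← h₁, ir_norm L F W hW G' G hc.le hc.conj hTW hTL hTF' c ha, hN, v10r_pow, hQ']
  obtain ⟨ζ, hζ⟩ : ∃ ζ, ζ = normG L (W ⊓ G') d₁ / Q := ⟨_, rfl⟩
  have hζp : ζ ^ p = 1 := by
    rw [hζ, div_pow, hND, div_self (pow_ne_zero _ hQ0)]
  have hNd₁ : normG L (W ⊓ G') d₁ = ζ * Q := by
    rw [hζ, div_mul_cancel₀ _ hQ0]
  have hζ' : FixG (R ⊓ G') ζ := by
    rw [hζ, hlow d₁ hd₁R]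
    exact v10_fix_div (v4_norm_fix L (R ⊓ G') hTR hd₁R)
      (v10_fix_mono (inf_le_inf_left _ hc.le) hQfix)
  have hζfix : FixG (R ⊓ G) ζ := by
    intro s hs
    by_cases hs' : s ∈ G'
    · exact hζ' s ⟨hs.1, hs'⟩
    · refine v10_mu_fix hp hζp (hζ' (s ^ p) ⟨pow_mem hs.1 p, (hc.gen s hs.2 hs').1⟩)
  -- the root `ζ'`
  obtain ⟨k, hk⟩ : ∃ k : ℕ, ζ ^ (k * Module.finrank K L) = ζ := by
    obtain ⟨k, hk⟩ := Nat.exists_mul_mod_eq_one_of_coprime hn hp.one_lt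
    refine ⟨k, ?_⟩
    rw [mul_comm, pow_eq_pow_mod _ hζp, hk.2, pow_one]
  have hζk : (ζ ^ k) ^ p = 1 := by rw [← pow_mul, mul_comm, pow_mul, hζp, one_pow]
  have hμfix : ∀ z : AlgebraicClosure K, z ^ p = 1 →
      normG L (W ⊓ G') z = z ^ Module.finrank K L := fun z hz =>
    v4_norm_pow L (W ⊓ G') hTW fun s hs => hWμ s hs.1 z hz
  have hζk0 : ζ ^ k ≠ 0 := by
    intro h
    rw [h, zero_pow hp.ne_zero] at hζk
    exact zero_ne_one hζk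
  -- `d₂`
  obtain ⟨d₂, hd₂⟩ : ∃ d₂, d₂ = d₁ / ζ ^ k := ⟨_, rfl⟩
  have hd₂mul : d₁ = ζ ^ k * d₂ := by rw [hd₂, mul_div_cancel₀ _ hζk0]
  have hd₂0 : d₂ ≠ 0 := by
    rw [hd₂]
    exact div_ne_zero hd₁0 hζk0
  have hd₂p : d₂ ^ p = d₁ ^ p := by rw [hd₂, div_pow, hζk, div_one]
  have hd₂R : FixG (Λ ⊓ (R ⊓ G')) d₂ := by
    rw [hd₂]
    exact v10_fix_div hd₁R (v10_fix_pow (v10_fix_mono inf_le_right hζ') k)
  have hNd₂ : normG L (W ⊓ G') d₂ = Q := by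
    have h1 : normG L (W ⊓ G') d₁ = ζ * normG L (W ⊓ G') d₂ := by
      rw [hd₂mul, v4_norm_mul, hμfix _ hζk, ← pow_mul, hk]
    rw [hNd₁] at h1
    have hζ0 : ζ ≠ 0 := by
      intro h
      rw [h, zero_pow hp.ne_zero] at hζp
      exact zero_ne_one hζp
    exact (mul_left_cancel₀ hζ0 h1).symm
  refine ⟨d₂, fun s hs hsR => ?_, by rw [hD, hd₂p]⟩
  have hsR' : s ∈ R := hsR
  -- `s d₂ = ε d₂`
  obtain ⟨ε, hε⟩ : ∃ ε, ε = s d₂ / d₂ := ⟨_, rfl⟩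
  have hsd : s d₂ = ε * d₂ := by rw [hε, div_mul_cancel₀ _ hd₂0]
  have hεp : ε ^ p = 1 := by
    rw [hε, div_pow, ← map_pow, hd₂p, ← hD, hDfix s hs hsR, div_self]
    exact v10r_ne F (Λ ⊓ G) c ha0
  have hconj1 : ∀ g ∈ R ⊓ G', s⁻¹ * g * s ∈ R ⊓ G' := fun g hg =>
    ⟨R.mul_mem (R.mul_mem (R.inv_mem hsR') hg.1) hsR', hc.conj s hs.2 g hg.2⟩
  have hconj2 : ∀ g ∈ R ⊓ G', s * g * s⁻¹ ∈ R ⊓ G' := fun g hg => by
    refine ⟨R.mul_mem (R.mul_mem hsR' hg.1) (R.inv_mem hsR'), ?_⟩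
    have := hc.conj s⁻¹ (G.inv_mem hs.2) g hg.2
    rwa [inv_inv] at this
  have hsd₂R : FixG (Λ ⊓ (R ⊓ G')) (s d₂) := by
    refine v10_fix_conj (S := Λ ⊓ (R ⊓ G')) (fun g hg => ⟨?_, hconj1 g hg.2⟩) hd₂R
    exact Λ.mul_mem (Λ.mul_mem (Λ.inv_mem hs.1) hg.1) hs.1
  have h2 : normG L (W ⊓ G') (s d₂) = Q := by
    rw [hlow _ hsd₂R, v4_norm_conj L (R ⊓ G') hTR hs.1 hconj1 hconj2 hd₂R, ← hlow _ hd₂R, hNd₂]
    exact hQfix s ⟨hsR', hs.2⟩
  rw [hsd, v4_norm_mul, hμfix ε hεp, hNd₂] at h2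
  have h3 : ε ^ Module.finrank K L = 1 := by
    have := mul_right_cancel₀ hQ0 (h2.trans (one_mul Q).symm)
    exact this
  rw [hsd, v10_mu_one hn hεp h3, one_mul]

end Pool.Agent.H.MP_ac3185_nt
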