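import Pool.Agent.H.MP_ac3185_nt.V10.RelP

/-! Unramified classes at a place with one place above it over the field generated by the `p`-th roots
of unity. -/

set_option autoImplicit false

open NumberField IsDedekindDomain
open scoped Pointwise

namespace Pool.Agent.H.MP_ac3185_nt

universe u

section grp

variable {Γ : Type*} [Group Γ] {p : ℕ}

private theorem loc_conj {G' G : Subgroup Γ} (h : CycStep p G' G) {g s : Γ}
    (hg : g ∈ G) (hs : s ∈ G') : g * s * g⁻¹ ∈ G' := by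
  have h1 := h.conj g⁻¹ (G.inv_mem hg) s hs
  rwa [inv_inv] at h1

private theorem loc_comm {G' G : Subgroup Γ} (h : CycStep p G' G) {s ρ : Γ}
    (hs : s ∈ G) (hρ : ρ ∈ G) : s⁻¹ * (ρ⁻¹ * s * ρ) ∈ G' := by
  by_cases hs' : s ∈ G'
  · exact G'.mul_mem (G'.inv_mem hs') (h.conj ρ hρ s hs')
  · obtain ⟨-, h1⟩ := h.gen s hs hs'
    obtain ⟨i, -, hi⟩ := h1 ρ hρ
    have h2 : s⁻¹ * (ρ⁻¹ * s * ρ) =
        (s⁻¹ * ((s ^ i)⁻¹ * ρ)⁻¹ * s) * ((s ^ i)⁻¹ * ρ) := by
      have h3 : s ^ i * s = s * s ^ i := (Commute.refl s).pow_left i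
      have h4 : ρ⁻¹ * s ^ i * s * ((s ^ i)⁻¹ * ρ) = ρ⁻¹ * s * ρ := by
        rw [mul_assoc ρ⁻¹, h3]
        group
      rw [← h4]
      group
    rw [h2]
    exact G'.mul_mem (h.conj s hs _ (G'.inv_mem hi)) hi

/-- If `D` acts transitively on a finite set whose order is prime to `p`, then the orbits of a normal
subgroup `J` of `D` are orbits of a subgroup `J'` with `CycStep p J' J`. -/
theorem v10l_orb {X : Type*} [MulAction Γ X] [Finite X] (hp : p.Prime)
    (hn : (Nat.card X).Coprime p) (D J J' : Subgroup Γ) (hJD : J ≤ D)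
    (hnorm : ∀ g ∈ D, ∀ j ∈ J, g * j * g⁻¹ ∈ J) (hc : CycStep p J' J)
    (htr : ∀ x y : X, ∃ g ∈ D, g • x = y) (x : X) (j : Γ) (hj : j ∈ J) :
    ∃ j' ∈ J', j' • x = j • x := by
  by_cases hσ : ∃ σ ∈ J, σ ∉ J' ∧ σ • x = x
  · obtain ⟨σ, h1, h2, h3⟩ := hσ
    obtain ⟨-, h4⟩ := hc.gen σ h1 h2
    obtain ⟨i, -, hi⟩ := h4 j hj
    refine ⟨σ ^ i * ((σ ^ i)⁻¹ * j) * (σ ^ i)⁻¹, loc_conj hc (J.pow_mem h1 i) hi, ?_⟩
    have h5 : (σ ^ i)⁻¹ • x = x := by
      rw [inv_smul_eq_iff]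
      have h6 : σ ∈ MulAction.stabilizer Γ x := h3
      exact ((MulAction.stabilizer Γ x).pow_mem h6 i).symm
    rw [mul_inv_cancel_left, mul_smul, h5]
  · push Not at hσ
    by_cases hj' : j ∈ J'
    · exact ⟨j, hj', rfl⟩
    exfalso
    have := Fact.mk hp
    -- the order of the class of `j`
    have hJ' : (J'.subgroupOf J).Normal := by
      constructor
      intro a ha g
      rw [Subgroup.mem_subgroupOf] at ha ⊢
      exact loc_conj hc g.2 ha
    have h1 : orderOf ((⟨j, hj⟩ : J) : J ⧸ J'.subgroupOf J) = p := by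
      refine orderOf_eq_prime ?_ ?_
      · rw [← QuotientGroup.mk_pow, QuotientGroup.eq_one_iff, Subgroup.mem_subgroupOf]
        exact (hc.gen j hj hj').1
      · intro h2
        rw [QuotientGroup.eq_one_iff, Subgroup.mem_subgroupOf] at h2
        exact hj' h2
    have h2 : p ∣ (J'.subgroupOf J).index := by
      rw [← h1, Subgroup.index]
      exact orderOf_dvd_natCard _
    have h3 : MulAction.stabilizer J x ≤ J'.subgroupOf J := by
      intro a ha
      rw [Subgroup.mem_subgroupOf]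
      by_contra h4
      exact hσ a a.2 h4 ha
    have h4 : p ∣ (MulAction.orbit J x).ncard := by
      rw [← MulAction.index_stabilizer]
      exact h2.trans (Subgroup.index_dvd_of_le h3)
    -- the orbits of `J` are blocks
    have : MulAction.IsPretransitive D X := ⟨fun a b => by
      obtain ⟨g, hg, h⟩ := htr a b
      exact ⟨⟨g, hg⟩, h⟩⟩
    have hN : (J.subgroupOf D).Normal := by
      constructor
      intro a ha g
      rw [Subgroup.mem_subgroupOf] at ha ⊢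
      exact hnorm g g.2 a ha
    have h5 : MulAction.orbit (J.subgroupOf D) x = MulAction.orbit J x := by
      ext y
      constructor
      · rintro ⟨g, rfl⟩
        exact ⟨⟨(g : D), Subgroup.mem_subgroupOf.1 g.2⟩, rfl⟩
      · rintro ⟨g, rfl⟩
        exact ⟨⟨⟨g, hJD g.2⟩, Subgroup.mem_subgroupOf.2 g.2⟩, rfl⟩
    have h6 : (MulAction.orbit J x).ncard ∣ Nat.card X := by
      rw [← h5]
      exact (MulAction.IsBlock.orbit_of_normal (G := D) (N := J.subgroupOf D) x).ncard_dvd_card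
        (MulAction.nonempty_orbit x)
    have h7 : p ∣ 1 := by
      rw [← Nat.Coprime.gcd_eq_one hn]
      exact Nat.dvd_gcd (h4.trans h6) dvd_rfl
    exact hp.one_lt.ne' (Nat.dvd_one.1 h7)

end grp

section loc

/-- The inertia group is normal in the decomposition group. -/
private theorem loc_inertia {K : Type u} [Field K] (𝔓 : Ideal (𝓞 (AlgebraicClosure K)))
    {t s : AlgebraicClosure K ≃ₐ[K] AlgebraicClosure K} (ht : t ∈ decompGrp K 𝔓)
    (hs : s ∈ inertiaGrp K 𝔓) : t⁻¹ * s * t ∈ inertiaGrp K 𝔓 := by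
  intro x
  have h1 : galInt (t⁻¹ * s * t) x - x = galInt t⁻¹ (galInt s (galInt t x) - galInt t x) := by
    rw [pla_sub, pla_mul, pla_mul, pla_inv]
  rw [h1]
  have h2 := (decompGrp K 𝔓).inv_mem ht
  exact (h2 _).2 (hs (galInt t x))

private theorem loc_le {K : Type u} [Field K] (𝔓 : Ideal (𝓞 (AlgebraicClosure K))) :
    inertiaGrp K 𝔓 ≤ decompGrp K 𝔓 := by
  intro s hs x
  have h1 : galInt s x - x ∈ 𝔓 := hs x
  constructor
  · intro h2
    have h3 := 𝔓.sub_mem h2 h1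
    rwa [sub_sub_cancel] at h3
  · intro h2
    have h3 := 𝔓.add_mem h1 h2
    rwa [sub_add_cancel] at h3

variable {K : Type u} [Field K] [CharZero K] (L : IntermediateField K (AlgebraicClosure K))
  [FiniteDimensional K L]

theorem v10_loc {p : ℕ} (hp : p.Prime) (hn : (Module.finrank K L).Coprime p)
    (S' S : Subgroup (AlgebraicClosure K ≃ₐ[K] AlgebraicClosure K)) (hc : CycStep p S' S)
    (𝔓 : Ideal (𝓞 (AlgebraicClosure K)))
    (hD : TransOn L (decompGrp K 𝔓 ⊓ S ⊓ (muField K p).fixingSubgroup)) {a d : AlgebraicClosure K}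
    (ha0 : a ≠ 0) (ha : FixG (L.fixingSubgroup ⊓ S) a) (hd : FixG S d) (hN : normG L S a = d ^ p)
    (h : UnrPG p (L.fixingSubgroup ⊓ S') 𝔓 a) : UnrPG p (L.fixingSubgroup ⊓ S) 𝔓 a := by
  have := vn_finiteIndex L
  let _ := L.fixingSubgroup.fintypeQuotientOfFiniteIndex
  have hTS : TransOn L S := fun s => by
    obtain ⟨t, ht, h1⟩ := hD s
    exact ⟨t, ht.1.2, h1⟩
  obtain ⟨z, hz, hzI⟩ := h
  have hz0 : z ≠ 0 := by
    rintro rfl
    rw [zero_pow hp.ne_zero] at hz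
    exact ha0 hz.symm
  refine ⟨z, hz, fun s hs hsS => ?_⟩
  by_contra hne
  have hχ0 : (s z / z) ^ p = 1 := by
    rw [div_pow, ← map_pow, hz, ha s hsS, div_self ha0]
  have hsz : s z = (s z / z) * z := by field_simp
  set χ := s z / z with hχ
  have hχ1 : χ ≠ 1 := by
    intro h1
    rw [h1, one_mul] at hsz
    exact hne hsz
  have hsS' : s ∉ S' := fun h1 => hne (hzI s hs ⟨hsS.1, h1⟩)
  -- automorphisms which fix `χ` fix the roots of unity
  have hmu : ∀ t : AlgebraicClosure K ≃ₐ[K] AlgebraicClosure K, t χ = χ →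
      t ∈ (muField K p).fixingSubgroup := by
    intro t ht
    rw [v10_mem_mu]
    intro w hw
    have := Fact.mk hp
    have hprim : IsPrimitiveRoot χ p := IsPrimitiveRoot.iff_orderOf.2 (orderOf_eq_prime hχ0 hχ1)
    have : NeZero p := ⟨hp.ne_zero⟩
    obtain ⟨k, -, rfl⟩ := hprim.eq_pow_of_pow_eq_one hw
    rw [map_pow, ht]
  have hfix : ∀ t ∈ inertia K 𝔓, t ∈ L.fixingSubgroup ⊓ S' → t χ = χ := by
    intro t ht htS
    have h1 : (s⁻¹ * t * s) z = z := by
      refine hzI _ ?_ ⟨?_, hc.conj s hsS.2 t htS.2⟩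
      · exact (inertiaGrp K 𝔓).mul_mem ((inertiaGrp K 𝔓).mul_mem ((inertiaGrp K 𝔓).inv_mem hs) ht) hs
      · exact L.fixingSubgroup.mul_mem (L.fixingSubgroup.mul_mem
          (L.fixingSubgroup.inv_mem hsS.1) htS.1) hsS.1
    have h2 : t (s z) = s z := by
      have h3 : s ((s⁻¹ * t * s) z) = t (s z) := by
        rw [← AlgEquiv.mul_apply, ← AlgEquiv.mul_apply]
        congr 1
        group
      rw [← h3, h1]
    have h4 : t z = z := hzI t ht htS
    rw [hχ, map_div₀, h2, h4]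
  have hsmu : s ∈ (muField K p).fixingSubgroup := by
    have h1 : (s ^ p) χ = χ := by
      refine hfix _ ((inertiaGrp K 𝔓).pow_mem hs p) ⟨L.fixingSubgroup.pow_mem hsS.1 p, ?_⟩
      exact (hc.gen s hsS.2 hsS').1
    exact hmu s (v10_mu_fix hp hχ0 h1)
  -- the groups
  set D : Subgroup (AlgebraicClosure K ≃ₐ[K] AlgebraicClosure K) :=
    decompGrp K 𝔓 ⊓ S ⊓ (muField K p).fixingSubgroup with hDdef
  set J : Subgroup (AlgebraicClosure K ≃ₐ[K] AlgebraicClosure K) :=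
    inertiaGrp K 𝔓 ⊓ S ⊓ (muField K p).fixingSubgroup with hJdef
  have hJD : J ≤ D := fun t ht => ⟨⟨loc_le 𝔓 ht.1.1, ht.1.2⟩, ht.2⟩
  have hnorm : ∀ g ∈ D, ∀ j ∈ J, g * j * g⁻¹ ∈ J := by
    intro g hg j hj
    refine ⟨⟨?_, S.mul_mem (S.mul_mem hg.1.2 hj.1.2) (S.inv_mem hg.1.2)⟩,
      (muField K p).fixingSubgroup.mul_mem ((muField K p).fixingSubgroup.mul_mem hg.2 hj.2)
        ((muField K p).fixingSubgroup.inv_mem hg.2)⟩
    have h1 := loc_inertia 𝔓 ((decompGrp K 𝔓).inv_mem hg.1.1) hj.1.1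
    rwa [inv_inv] at h1
  have hcJ : CycStep p (J ⊓ S') J := by
    refine ⟨inf_le_left, fun g hg t ht => ⟨?_, hc.conj g hg.1.2 t ht.2⟩, fun σ hσ hσ' => ?_⟩
    · exact J.mul_mem (J.mul_mem (J.inv_mem hg) ht.1) hg
    · have h1 : σ ∉ S' := fun h2 => hσ' ⟨hσ, h2⟩
      obtain ⟨h2, h3⟩ := hc.gen σ hσ.1.2 h1
      refine ⟨⟨J.pow_mem hσ p, h2⟩, fun t ht => ?_⟩
      obtain ⟨i, hi, h4⟩ := h3 t ht.1.2
      exact ⟨i, hi, J.mul_mem (J.inv_mem (J.pow_mem hσ i)) ht, h4⟩
  have hcard : (Nat.card ((AlgebraicClosure K ≃ₐ[K] AlgebraicClosure K) ⧸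
      L.fixingSubgroup)).Coprime p := by
    rw [Nat.card_eq_fintype_card, vn_card]
    exact hn
  have htr : ∀ x y : (AlgebraicClosure K ≃ₐ[K] AlgebraicClosure K) ⧸ L.fixingSubgroup,
      ∃ g ∈ D, g • x = y := by
    intro x y
    obtain ⟨h1, h2⟩ := v4_rep L D hD x
    obtain ⟨h3, h4⟩ := v4_rep L D hD y
    refine ⟨repG L D y * (repG L D x)⁻¹, D.mul_mem h3 (D.inv_mem h1), ?_⟩
    have h5 : (repG L D y * (repG L D x)⁻¹) •
        ((repG L D x : AlgebraicClosure K ≃ₐ[K] AlgebraicClosure K) :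
          (AlgebraicClosure K ≃ₐ[K] AlgebraicClosure K) ⧸ L.fixingSubgroup) =
        ((repG L D y * (repG L D x)⁻¹ * repG L D x :
          AlgebraicClosure K ≃ₐ[K] AlgebraicClosure K) :
          (AlgebraicClosure K ≃ₐ[K] AlgebraicClosure K) ⧸ L.fixingSubgroup) := rfl
    rw [inv_mul_cancel_right, h2, h4] at h5
    exact h5
  have horb := v10l_orb hp hcard D J (J ⊓ S') hJD hnorm hcJ htr
  -- the representatives
  let o : (AlgebraicClosure K ≃ₐ[K] AlgebraicClosure K) ⧸ L.fixingSubgroup →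
      (AlgebraicClosure K ≃ₐ[K] AlgebraicClosure K) ⧸ L.fixingSubgroup := fun q =>
    (Quotient.mk (MulAction.orbitRel (J ⊓ S' : Subgroup _) _) q).out
  have ho : ∀ q, ∃ i ∈ J ⊓ S', i • o q = q := by
    intro q
    have h1 : (MulAction.orbitRel (J ⊓ S' : Subgroup _) _) (o q) q := Quotient.mk_out q
    have h2 := (MulAction.orbitRel (J ⊓ S' : Subgroup _) _).symm h1
    obtain ⟨i, hi⟩ := h2
    exact ⟨i, i.2, hi⟩
  have ho' : ∀ j ∈ J, ∀ q, o (j • q) = o q := by
    intro j hj q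
    obtain ⟨j', hj', h1⟩ := horb q j hj
    rw [← h1]
    have h2 : (Quotient.mk (MulAction.orbitRel (J ⊓ S' : Subgroup _) _) (j' • q)) =
        Quotient.mk (MulAction.orbitRel (J ⊓ S' : Subgroup _) _) q :=
      Quotient.sound ⟨⟨j', hj'⟩, rfl⟩
    show (Quotient.mk (MulAction.orbitRel (J ⊓ S' : Subgroup _) _) (j' • q)).out = _
    rw [h2]
  choose i hi hio using ho
  let ρ : (AlgebraicClosure K ≃ₐ[K] AlgebraicClosure K) ⧸ L.fixingSubgroup →
      (AlgebraicClosure K ≃ₐ[K] AlgebraicClosure K) := fun q => i q * repG L D (o q)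
  have hρD : ∀ q, ρ q ∈ D := fun q => D.mul_mem (hJD (hi q).1) (v4_rep L D hD (o q)).1
  have hρq : ∀ q, (ρ q : (AlgebraicClosure K ≃ₐ[K] AlgebraicClosure K) ⧸ L.fixingSubgroup) = q := by
    intro q
    have h1 : (ρ q : (AlgebraicClosure K ≃ₐ[K] AlgebraicClosure K) ⧸ L.fixingSubgroup) =
        i q • ((repG L D (o q) : AlgebraicClosure K ≃ₐ[K] AlgebraicClosure K) :
          (AlgebraicClosure K ≃ₐ[K] AlgebraicClosure K) ⧸ L.fixingSubgroup) := rfl
    rw [h1, (v4_rep L D hD (o q)).2, hio]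
  have hsJ : s ∈ J := ⟨⟨hs, hsS.2⟩, hsmu⟩
  have hmove : ∀ q, s (ρ q z) = χ * ρ (s • q) z := by
    intro q
    have h1 : o (s • q) = o q := ho' s hsJ q
    set r := repG L D (o q) with hr
    have hrD : r ∈ D := (v4_rep L D hD (o q)).1
    set t := (ρ (s • q))⁻¹ * s * ρ q with ht
    have ht' : t = r⁻¹ * ((i (s • q))⁻¹ * s * i q) * r := by
      have h2 : ρ (s • q) = i (s • q) * r := by
        show i (s • q) * repG L D (o (s • q)) = _
        rw [h1]
      have h3 : ρ q = i q * r := rfl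
      rw [ht, h2, h3]
      group
    have htI : t ∈ inertiaGrp K 𝔓 := by
      rw [ht']
      refine loc_inertia 𝔓 hrD.1.1 ?_
      exact (inertiaGrp K 𝔓).mul_mem ((inertiaGrp K 𝔓).mul_mem
        ((inertiaGrp K 𝔓).inv_mem (hi _).1.1.1) hs) (hi q).1.1.1
    have htL : t ∈ L.fixingSubgroup := by
      rw [ht, mul_assoc]
      refine QuotientGroup.eq.1 ?_
      rw [hρq]
      have h2 : ((s * ρ q : AlgebraicClosure K ≃ₐ[K] AlgebraicClosure K) :
          (AlgebraicClosure K ≃ₐ[K] AlgebraicClosure K) ⧸ L.fixingSubgroup) =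
          s • (ρ q : (AlgebraicClosure K ≃ₐ[K] AlgebraicClosure K) ⧸ L.fixingSubgroup) := rfl
      rw [h2, hρq]
    have htS : s⁻¹ * t ∈ S' := by
      have h2 : s⁻¹ * t = (s⁻¹ * (r⁻¹ * (i (s • q))⁻¹ * r) * s) * (s⁻¹ * (r⁻¹ * s * r)) *
          (r⁻¹ * i q * r) := by
        rw [ht']
        group
      rw [h2]
      refine S'.mul_mem (S'.mul_mem (hc.conj s hsS.2 _ (hc.conj r hrD.1.2 _
        (S'.inv_mem (hi _).2))) (loc_comm hc hsS.2 hrD.1.2)) (hc.conj r hrD.1.2 _ (hi q).2)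
    have h2 : (s⁻¹ * t) z = z := hzI _
      ((inertiaGrp K 𝔓).mul_mem ((inertiaGrp K 𝔓).inv_mem hs) htI)
      ⟨L.fixingSubgroup.mul_mem (L.fixingSubgroup.inv_mem hsS.1) htL, htS⟩
    have h3 : t z = χ * z := by
      rw [← hsz]
      have h4 : s ((s⁻¹ * t) z) = t z := by
        rw [← AlgEquiv.mul_apply, mul_inv_cancel_left]
      rw [← h4, h2]
    have h5 : s (ρ q z) = ρ (s • q) (t z) := by
      rw [← AlgEquiv.mul_apply, ← AlgEquiv.mul_apply, ht]
      congr 1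
      group
    rw [h5, h3, map_mul, v10_mem_mu.1 (hρD (s • q)).2 χ hχ0]
  -- the product
  set Z := ∏ q : (AlgebraicClosure K ≃ₐ[K] AlgebraicClosure K) ⧸ L.fixingSubgroup, ρ q z with hZ
  have hZ0 : Z ≠ 0 := by
    rw [hZ, Finset.prod_ne_zero_iff]
    intro q _ h1
    exact hz0 ((map_eq_zero_iff _ (ρ q).injective).1 h1)
  have hsZ : s Z = χ ^ Module.finrank K L * Z := by
    rw [hZ, map_prod, Finset.prod_congr rfl (fun q _ => hmove q), Finset.prod_mul_distrib,
      Finset.prod_const, Finset.card_univ, vn_card]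
    congr 1
    exact Fintype.prod_equiv (MulAction.toPerm s) _ _ fun q => rfl
  have hZp : Z ^ p = d ^ p := by
    rw [← hN, v4_norm_prod, hZ, ← Finset.prod_pow]
    refine Finset.prod_congr rfl fun q _ => ?_
    rw [← map_pow, hz]
    exact (v4_rep_apply L S hTS ha q (hρD q).1.2 (hρq q)).symm
  have hd0 : d ≠ 0 := by
    rintro rfl
    rw [zero_pow hp.ne_zero] at hN
    exact v4_norm_ne L _ ha0 hN
  have hsZ' : s Z = Z := by
    have h1 : (Z / d) ^ p = 1 := by
      rw [div_pow, hZp, div_self (pow_ne_zero p hd0)]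
    have h2 : Z = (Z / d) * d := by field_simp
    rw [h2, map_mul, v10_mem_mu.1 hsmu _ h1, hd s hsS.2]
  have h8 : χ ^ Module.finrank K L = 1 := by
    rw [hsZ'] at hsZ
    exact (mul_right_cancel₀ hZ0 (by rw [one_mul]; exact hsZ)).symm
  exact hχ1 (v10_mu_one hn hχ0 h8)

end loc

end Pool.Agent.H.MP_ac3185_nt
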