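import Pool.Agent.H.MP_ac3185_nt.V10.RelP
import Pool.Agent.H.MP_ac3185_nt.R.PlA

/-! The classes over the field given by `G` form a group which is stable under the automorphisms that
normalize `G`. -/

set_option autoImplicit false

open CategoryTheory AlgebraicGeometry NumberField IsDedekindDomain
open scoped MonObj Pointwise

namespace Pool.Agent.H.MP_ac3185_nt

universe u

section stab

variable {K : Type u} [Field K] [CharZero K] (L F : IntermediateField K (AlgebraicClosure K))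
  [FiniteDimensional K L] [FiniteDimensional K F] {p : ℕ}
  (Rel : Set (((AlgebraicClosure K ≃ₐ[K] AlgebraicClosure K) ⧸ F.fixingSubgroup) → ℤ))
  (G : Subgroup (AlgebraicClosure K ≃ₐ[K] AlgebraicClosure K))
  (U E : Set (Ideal (𝓞 (AlgebraicClosure K))))

theorem v10_sel_mul (hE : ∀ 𝔓 ∈ E, 𝔓.IsPrime) {a b : AlgebraicClosure K}
    (ha : a ∈ selP p L F Rel G U E) (hb : b ∈ selP p L F Rel G U E) :
    a * b ∈ selP p L F Rel G U E := by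
  obtain ⟨a0, a1, ⟨d, hd, hd'⟩, a3, a4, a5⟩ := ha
  obtain ⟨b0, b1, ⟨e, he, he'⟩, b3, b4, b5⟩ := hb
  refine ⟨mul_ne_zero a0 b0, fun s hs => ?_, ⟨d * e, fun s hs => ?_, ?_⟩, fun c hc => ?_,
    fun 𝔓 h𝔓 => ?_, fun 𝔓 h𝔓 => ?_⟩
  · rw [map_mul, a1 s hs, b1 s hs]
  · rw [map_mul, hd s hs, he s hs]
  · rw [v4_norm_mul, hd', he', mul_pow]
  · obtain ⟨f, hf, hf'⟩ := a3 c hc
    obtain ⟨g, hg, hg'⟩ := b3 c hc
    refine ⟨f * g, fun s hs hsc => ?_, ?_⟩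
    · rw [map_mul, hf s hs hsc, hg s hs hsc]
    · rw [v10r_mul, hf', hg', mul_pow]
  · obtain ⟨z, hz, hz'⟩ := a4 𝔓 h𝔓
    obtain ⟨w, hw, hw'⟩ := b4 𝔓 h𝔓
    refine ⟨z * w, by rw [mul_pow, hz, hw], fun s hs hsG => ?_⟩
    rw [map_mul, hz' s hs hsG, hw' s hs hsG]
  · obtain ⟨z, hz, hz0, x, y, hx, hy, hxy⟩ := a5 𝔓 h𝔓
    obtain ⟨w, hw, hw0, x', y', hx', hy', hxy'⟩ := b5 𝔓 h𝔓
    have hpr := hE 𝔓 h𝔓
    refine ⟨z * w, fun s hs => ?_, mul_ne_zero hz0 hw0, x * x', y * y', ?_, ?_, ?_⟩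
    · rw [map_mul, hz s hs, hw s hs]
    · exact fun h => (hpr.mem_or_mem h).elim hx hx'
    · exact fun h => (hpr.mem_or_mem h).elim hy hy'
    · show a * b * ((y : AlgebraicClosure K) * (y' : AlgebraicClosure K)) =
        (z * w) ^ p * ((x : AlgebraicClosure K) * (x' : AlgebraicClosure K))
      rw [mul_pow]
      linear_combination (b * (y' : AlgebraicClosure K)) * hxy +
        (z ^ p * (x : AlgebraicClosure K)) * hxy'

theorem v10_sel_inv {a : AlgebraicClosure K} (ha : a ∈ selP p L F Rel G U E) :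
    a⁻¹ ∈ selP p L F Rel G U E := by
  obtain ⟨a0, a1, ⟨d, hd, hd'⟩, a3, a4, a5⟩ := ha
  refine ⟨inv_ne_zero a0, fun s hs => ?_, ⟨d⁻¹, fun s hs => ?_, ?_⟩, fun c hc => ?_,
    fun 𝔓 h𝔓 => ?_, fun 𝔓 h𝔓 => ?_⟩
  · rw [map_inv₀, a1 s hs]
  · rw [map_inv₀, hd s hs]
  · have h1 : normG L (F.fixingSubgroup ⊓ G) (a * a⁻¹) = 1 := by
      rw [mul_inv_cancel₀ a0]
      unfold normG
      exact finprod_eq_one_of_forall_eq_one fun q => map_one _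
    rw [v4_norm_mul] at h1
    rw [eq_inv_of_mul_eq_one_right h1, hd', inv_pow]
  · obtain ⟨f, hf, hf'⟩ := a3 c hc
    refine ⟨f⁻¹, fun s hs hsc => ?_, ?_⟩
    · rw [map_inv₀, hf s hs hsc]
    · rw [v10r_inv, hf', inv_pow]
  · obtain ⟨z, hz, hz'⟩ := a4 𝔓 h𝔓
    refine ⟨z⁻¹, by rw [inv_pow, hz], fun s hs hsG => ?_⟩
    rw [map_inv₀, hz' s hs hsG]
  · obtain ⟨z, hz, hz0, x, y, hx, hy, hxy⟩ := a5 𝔓 h𝔓
    refine ⟨z⁻¹, fun s hs => ?_, inv_ne_zero hz0, y, x, hy, hx, ?_⟩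
    · rw [map_inv₀, hz s hs]
    · rw [inv_pow]
      have h0 := pow_ne_zero p hz0
      field_simp
      linear_combination -hxy

theorem v10_sel_pow (hE : ∀ 𝔓 ∈ E, 𝔓.IsPrime) (hT : TransOn L (F.fixingSubgroup ⊓ G))
    (hTF : TransOn F (L.fixingSubgroup ⊓ G)) {y : AlgebraicClosure K}
    (hy : FixG (L.fixingSubgroup ⊓ (F.fixingSubgroup ⊓ G)) y) (hy0 : y ≠ 0) :
    y ^ p ∈ selP p L F Rel G U E := by
  have hy' : FixG (F.fixingSubgroup ⊓ (L.fixingSubgroup ⊓ G)) y := fun s hs =>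
    hy s ⟨hs.2.1, hs.1, hs.2.2⟩
  refine ⟨pow_ne_zero p hy0, fun s hs => ?_, ⟨_, v4_norm_fix L _ hT hy, ?_⟩, fun c hc => ?_,
    fun 𝔓 h𝔓 => ⟨y, rfl, fun s _ hs => hy s hs⟩, fun 𝔓 h𝔓 => ?_⟩
  · rw [map_pow, hy s hs]
  · clear hE hTF hy hy' hy0
    induction p with
    | zero =>
      rw [pow_zero, pow_zero]
      unfold normG
      exact finprod_eq_one_of_forall_eq_one fun q => map_one _
    | succ n ih => rw [pow_succ, v4_norm_mul, ih, pow_succ]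
  · exact ⟨relP10 F (L.fixingSubgroup ⊓ G) c y, v10r_fix F _ c hTF hy', v10r_pow F _ c y p⟩
  · have h1 : (1 : 𝓞 (AlgebraicClosure K)) ∉ 𝔓 := fun h =>
      (hE 𝔓 h𝔓).ne_top ((Ideal.eq_top_iff_one 𝔓).2 h)
    exact ⟨y, hy, hy0, 1, 1, h1, h1, rfl⟩

theorem v10_sel_conj (hRel : StabRel Rel) (hU : StabU F.fixingSubgroup U)
    (hE : StabU F.fixingSubgroup E) (hT : TransOn L (F.fixingSubgroup ⊓ G))
    (hTF : TransOn F (L.fixingSubgroup ⊓ G)) {σ : AlgebraicClosure K ≃ₐ[K] AlgebraicClosure K}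
    (hσL : σ ∈ L.fixingSubgroup) (hσF : σ ∈ F.fixingSubgroup)
    (hσ : ∀ s ∈ G, σ⁻¹ * s * σ ∈ G) (hσ' : ∀ s ∈ G, σ * s * σ⁻¹ ∈ G) {a : AlgebraicClosure K}
    (ha : a ∈ selP p L F Rel G U E) : σ a ∈ selP p L F Rel G U E := by
  obtain ⟨a0, a1, ⟨d, hd, hd'⟩, a3, a4, a5⟩ := ha
  -- conjugation of the groups
  have hcL : ∀ s ∈ L.fixingSubgroup, σ⁻¹ * s * σ ∈ L.fixingSubgroup := fun s hs =>
    mul_mem (mul_mem (inv_mem hσL) hs) hσL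
  have hcF : ∀ s ∈ F.fixingSubgroup, σ⁻¹ * s * σ ∈ F.fixingSubgroup := fun s hs =>
    mul_mem (mul_mem (inv_mem hσF) hs) hσF
  have hcF' : ∀ s ∈ F.fixingSubgroup, σ * s * σ⁻¹ ∈ F.fixingSubgroup := fun s hs =>
    mul_mem (mul_mem hσF hs) (inv_mem hσF)
  have hcL' : ∀ s ∈ L.fixingSubgroup, σ * s * σ⁻¹ ∈ L.fixingSubgroup := fun s hs =>
    mul_mem (mul_mem hσL hs) (inv_mem hσL)
  have hmov : ∀ (s : AlgebraicClosure K ≃ₐ[K] AlgebraicClosure K) (x : AlgebraicClosure K),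
      (σ⁻¹ * s * σ) x = x → s (σ x) = σ x := by
    intro s x h
    have h1 := congrArg σ h
    rw [← AlgEquiv.mul_apply] at h1
    have h2 : σ * (σ⁻¹ * s * σ) = s * σ := by group
    rwa [h2, AlgEquiv.mul_apply] at h1
  have hfix : ∀ S : Subgroup (AlgebraicClosure K ≃ₐ[K] AlgebraicClosure K),
      (∀ s ∈ S, σ⁻¹ * s * σ ∈ S) → ∀ {x : AlgebraicClosure K}, FixG S x → FixG S (σ x) :=
    fun S hS x hx s hs => hmov s x (hx _ (hS s hs))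
  have hLFG : ∀ s ∈ L.fixingSubgroup ⊓ (F.fixingSubgroup ⊓ G),
      σ⁻¹ * s * σ ∈ L.fixingSubgroup ⊓ (F.fixingSubgroup ⊓ G) := fun s hs =>
    ⟨hcL s hs.1, hcF s hs.2.1, hσ s hs.2.2⟩
  have hback : ∀ 𝔓 : Ideal (𝓞 (AlgebraicClosure K)), σ • (σ⁻¹ • 𝔓) = 𝔓 := fun 𝔓 =>
    smul_inv_smul σ 𝔓
  refine ⟨fun h => a0 ((map_eq_zero σ).1 h), hfix _ hLFG a1, ⟨σ d, hfix (F.fixingSubgroup ⊓ G)
    (fun s hs => ⟨hcF s hs.1, hσ s hs.2⟩) hd, ?_⟩, fun c hc => ?_, fun 𝔓 h𝔓 => ?_, fun 𝔓 h𝔓 => ?_⟩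
  · rw [v4_norm_conj L (F.fixingSubgroup ⊓ G) hT hσL (fun g hg => ⟨hcF g hg.1, hσ g hg.2⟩)
      (fun g hg => ⟨hcF' g hg.1, hσ' g hg.2⟩) a1, hd', map_pow]
  · obtain ⟨f, hf, hf'⟩ := a3 _ (hRel σ c hc)
    have ha' : FixG (F.fixingSubgroup ⊓ (L.fixingSubgroup ⊓ G)) (σ a) := fun s hs =>
      hfix _ hLFG a1 s ⟨hs.2.1, hs.1, hs.2.2⟩
    refine ⟨σ f, fun s hs hsc => hmov s f (hf _ ⟨hcL s hs.1, hσ s hs.2⟩ fun q => ?_), ?_⟩
    · show c (σ • ((σ⁻¹ * s * σ) • q)) = c (σ • q)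
      rw [← mul_smul]
      have h2 : σ * (σ⁻¹ * s * σ) = s * σ := by group
      rw [h2, mul_smul, hsc]
    · rw [v10r_shift F (L.fixingSubgroup ⊓ G) c (σ := σ) (a := a) (a' := σ a) (fun q => ?_), hf',
        map_pow]
      obtain ⟨r1, r2⟩ := v4_rep F (L.fixingSubgroup ⊓ G) hTF q
      have r3 : ((σ * repG F (L.fixingSubgroup ⊓ G) q * σ⁻¹ :
          AlgebraicClosure K ≃ₐ[K] AlgebraicClosure K) :
          (AlgebraicClosure K ≃ₐ[K] AlgebraicClosure K) ⧸ F.fixingSubgroup) = σ • q := by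
        have h3 : ((σ * repG F (L.fixingSubgroup ⊓ G) q :
            AlgebraicClosure K ≃ₐ[K] AlgebraicClosure K) :
            (AlgebraicClosure K ≃ₐ[K] AlgebraicClosure K) ⧸ F.fixingSubgroup) = σ • q := by
          rw [← smul_eq_mul, ← MulAction.Quotient.smul_coe, r2]
        rw [← h3, QuotientGroup.eq]
        have h4 : (σ * repG F (L.fixingSubgroup ⊓ G) q * σ⁻¹)⁻¹ *
            (σ * repG F (L.fixingSubgroup ⊓ G) q) = σ := by group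
        rw [h4]
        exact hσF
      rw [v4_rep_apply F (L.fixingSubgroup ⊓ G) hTF ha' (σ • q)
        ⟨hcL' _ r1.1, hσ' _ r1.2⟩ r3, ← AlgEquiv.mul_apply]
      have h5 : σ * repG F (L.fixingSubgroup ⊓ G) q * σ⁻¹ * σ =
          σ * repG F (L.fixingSubgroup ⊓ G) q := by group
      rw [h5, AlgEquiv.mul_apply]
  · obtain ⟨z, hz, hz'⟩ := a4 (σ⁻¹ • 𝔓) (hU _ (inv_mem hσF) 𝔓 h𝔓)
    refine ⟨σ z, by rw [← map_pow, hz], fun s hs hsG => hmov s z (hz' _ ?_ (hLFG s hsG))⟩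
    rw [← hback 𝔓] at hs
    exact (inertia_smul _ σ s).1 hs
  · obtain ⟨b, hb, hb0, x, y, hx, hy, hxy⟩ := a5 (σ⁻¹ • 𝔓) (hE _ (inv_mem hσF) 𝔓 h𝔓)
    refine ⟨σ b, hfix _ hLFG hb, fun h => hb0 ((map_eq_zero σ).1 h), galInt σ x, galInt σ y, ?_, ?_,
      ?_⟩
    · rw [← hback 𝔓]
      exact fun h => hx ((pla_mem _ σ x).1 h)
    · rw [← hback 𝔓]
      exact fun h => hy ((pla_mem _ σ y).1 h)
    · have h1 := congrArg σ hxy
      rw [map_mul, map_mul, map_pow] at h1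
      exact h1

end stab

end Pool.Agent.H.MP_ac3185_nt
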