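import Pool.Agent.H.MP_ac3185_nt.V10.Int
import Pool.Agent.H.MP_ac3185_nt.V4.Trans

/-! Group theory of one step of a Galois `p`-extension. -/

set_option autoImplicit false

open CategoryTheory AlgebraicGeometry NumberField IsDedekindDomain
open scoped MonObj Pointwise

namespace Pool.Agent.H.MP_ac3185_nt

universe u

section trans

theorem v10_conj {Γ : Type*} [Group Γ] {p : ℕ} {G' G : Subgroup Γ} (h : CycStep p G' G) {g s : Γ}
    (hg : g ∈ G) (hs : s ∈ G') : g * s * g⁻¹ ∈ G' := by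
  have h1 := h.conj g⁻¹ (inv_mem hg) s hs
  rwa [inv_inv] at h1

theorem v10_comm {Γ : Type*} [Group Γ] {p : ℕ} {G' G : Subgroup Γ} (h : CycStep p G' G) {s ρ : Γ}
    (hs : s ∈ G) (hρ : ρ ∈ G) : s⁻¹ * (ρ⁻¹ * s * ρ) ∈ G' := by
  by_cases hs' : s ∈ G'
  · exact mul_mem (inv_mem hs') (h.conj ρ hρ s hs')
  · obtain ⟨i, -, hi⟩ := (h.gen s hs hs').2 ρ hρ
    obtain ⟨g, hg⟩ : ∃ g, g = (s ^ i)⁻¹ * ρ := ⟨_, rfl⟩
    rw [← hg] at hi
    have hρg : ρ = s ^ i * g := by rw [hg, mul_inv_cancel_left]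
    have h1 : s⁻¹ * (ρ⁻¹ * s * ρ) = s⁻¹ * g⁻¹ * s * g := by
      have h2 : (s ^ i)⁻¹ * s * s ^ i = s := by
        rw [mul_assoc, (Commute.self_pow s i).eq, inv_mul_cancel_left]
      rw [hρg, mul_inv_rev]
      calc s⁻¹ * (g⁻¹ * (s ^ i)⁻¹ * s * (s ^ i * g))
          = s⁻¹ * (g⁻¹ * ((s ^ i)⁻¹ * s * s ^ i) * g) := by group
        _ = s⁻¹ * g⁻¹ * s * g := by rw [h2]; group
    rw [h1]
    exact mul_mem (h.conj s hs _ (inv_mem hi)) hi

theorem v10_inf {Γ : Type*} [Group Γ] {p : ℕ} {G' G : Subgroup Γ} (S : Subgroup Γ)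
    (h : CycStep p G' G) : CycStep p (S ⊓ G') (S ⊓ G) := by
  refine ⟨inf_le_inf_left S h.le, fun g hg s hs => ?_, fun σ hσ hσ' => ?_⟩
  · exact Subgroup.mem_inf.2 ⟨S.mul_mem (S.mul_mem (S.inv_mem hg.1) hs.1) hg.1,
      h.conj g hg.2 s hs.2⟩
  · have h1 : σ ∉ G' := fun h2 => hσ' ⟨hσ.1, h2⟩
    refine ⟨Subgroup.mem_inf.2 ⟨S.pow_mem hσ.1 p, (h.gen σ hσ.2 h1).1⟩, fun s hs => ?_⟩
    obtain ⟨i, hi, h2⟩ := (h.gen σ hσ.2 h1).2 s hs.2
    exact ⟨i, hi, Subgroup.mem_inf.2 ⟨S.mul_mem (S.inv_mem (S.pow_mem hσ.1 i)) hs.1, h2⟩⟩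

variable {K : Type u} [Field K] [CharZero K] (L : IntermediateField K (AlgebraicClosure K))
  [FiniteDimensional K L]

theorem v10_sigma {p : ℕ} (hp : p.Prime) (hn : (Module.finrank K L).Coprime p)
    (S G' G : Subgroup (AlgebraicClosure K ≃ₐ[K] AlgebraicClosure K)) (hS : TransOn L S)
    (hSG : S ≤ G) (h : CycStep p G' G) (hne : ∃ s ∈ S, s ∉ G') :
    ∃ σ ∈ L.fixingSubgroup, σ ∈ S ∧ σ ∉ G' := by
  by_contra hcon
  push Not at hcon
  obtain ⟨a, ha, haG⟩ := hne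
  have hN : (G'.subgroupOf S).Normal := by
    refine ⟨fun n hn g => ?_⟩
    exact v10_conj h (hSG g.2) hn
  have h3 : p ∣ G'.relIndex S := by
    have hord : orderOf (((⟨a, ha⟩ : S) : S ⧸ G'.subgroupOf S)) = p := by
      have : Fact p.Prime := ⟨hp⟩
      refine orderOf_eq_prime ?_ ?_
      · rw [← QuotientGroup.mk_pow, QuotientGroup.eq_one_iff]
        exact (h.gen a (hSG ha) haG).1
      · intro h1
        rw [QuotientGroup.eq_one_iff] at h1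
        exact haG h1
    have h4 := orderOf_dvd_natCard (((⟨a, ha⟩ : S) : S ⧸ G'.subgroupOf S))
    rw [hord] at h4
    exact h4
  have h4 : L.fixingSubgroup ⊓ S ≤ G' := fun σ hσ => hcon σ hσ.1 hσ.2
  have h5 : G'.relIndex S ∣ (L.fixingSubgroup ⊓ S).relIndex S :=
    Subgroup.relIndex_dvd_of_le_left S h4
  rw [Subgroup.inf_relIndex_right, v4_relIndex L S hS] at h5
  exact hp.one_lt.ne' (Nat.eq_one_of_dvd_coprimes hn (h3.trans h5) dvd_rfl)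

theorem v10_trans {p : ℕ} (hp : p.Prime) (hn : (Module.finrank K L).Coprime p)
    (S G' G : Subgroup (AlgebraicClosure K ≃ₐ[K] AlgebraicClosure K)) (hS : TransOn L S)
    (hSG : S ≤ G) (h : CycStep p G' G) : TransOn L (S ⊓ G') := by
  intro s
  obtain ⟨t, ht, hts⟩ := hS s
  by_cases htG : t ∈ G'
  · exact ⟨t, ⟨ht, htG⟩, hts⟩
  · obtain ⟨σ, hσL, hσS, hσG⟩ := v10_sigma L hp hn S G' G hS hSG h ⟨t, ht, htG⟩
    obtain ⟨i, -, hi⟩ := (h.gen σ (hSG hσS) hσG).2 t⁻¹ (inv_mem (hSG ht))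
    have h1 := inv_mem hi
    rw [mul_inv_rev, inv_inv, inv_inv] at h1
    refine ⟨t * σ ^ i, ⟨mul_mem ht (pow_mem hσS i), h1⟩, ?_⟩
    rw [mul_inv_rev, mul_assoc]
    exact mul_mem (inv_mem (pow_mem hσL i)) hts

end trans

end Pool.Agent.H.MP_ac3185_nt
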