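import Pool.Agent.H.MP_ac3185_nt.V10.Inv
import Pool.Agent.H.MP_ac3185_nt.V10.InvRel
import Pool.Agent.H.MP_ac3185_nt.V10.Trans
import Pool.Agent.H.MP_ac3185_nt.V10.Fil
import Pool.Agent.H.MP_ac3185_nt.V10.Loc
import Pool.Agent.H.MP_ac3185_nt.V10.Div
import Pool.Agent.H.MP_ac3185_nt.V10.Stab

/-! One step of the tower. -/

set_option autoImplicit false

open CategoryTheory AlgebraicGeometry NumberField IsDedekindDomain
open scoped MonObj Pointwise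

namespace Pool.Agent.H.MP_ac3185_nt

universe u

variable {K : Type u} [Field K] [NumberField K] (L F : IntermediateField K (AlgebraicClosure K))
  [FiniteDimensional K L] [FiniteDimensional K F]

/-- An invariant class is the class of an element over `G`. -/
theorem v10_down {p : ℕ} (hp : p.Prime) (hn : (Module.finrank K L).Coprime p)
    (Rel : Set (((AlgebraicClosure K ≃ₐ[K] AlgebraicClosure K) ⧸ F.fixingSubgroup) → ℤ))
    (W : Subgroup (AlgebraicClosure K ≃ₐ[K] AlgebraicClosure K))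
    (hW : ∀ w ∈ W, ∀ g : AlgebraicClosure K ≃ₐ[K] AlgebraicClosure K,
      g⁻¹ * w * g ∈ F.fixingSubgroup)
    (hWμ : ∀ w ∈ W, ∀ z : AlgebraicClosure K, z ^ p = 1 → w z = z)
    (G' G : Subgroup (AlgebraicClosure K ≃ₐ[K] AlgebraicClosure K)) (hc : CycStep p G' G)
    (M : IntermediateField K (AlgebraicClosure K)) [FiniteDimensional K M]
    (hM : M.fixingSubgroup ≤ G') (hTW : TransOn L (W ⊓ G')) (hTF : TransOn F G')
    (U E : Set (Ideal (𝓞 (AlgebraicClosure K))))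
    (hU : ∀ 𝔓 ∈ U, FinPrime 𝔓 ∧ ((∀ s ∈ inertia K 𝔓, s ∈ F.fixingSubgroup ⊓ G → s ∈ G') ∨
      (TransOn L (decompGrp K 𝔓 ⊓ (F.fixingSubgroup ⊓ G)) ∧
        (p : 𝓞 (AlgebraicClosure K)) ∉ 𝔓) ∨
      TransOn L (decompGrp K 𝔓 ⊓ (F.fixingSubgroup ⊓ G) ⊓ (muField K p).fixingSubgroup)))
    (hE : ∀ 𝔓 ∈ E, FinPrime 𝔓 ∧ ((∀ s ∈ inertia K 𝔓, s ∈ F.fixingSubgroup ⊓ G → s ∈ G') ∨
      TransOn L (decompGrp K 𝔓 ⊓ (F.fixingSubgroup ⊓ G))))
    {a : AlgebraicClosure K} (ha : a ∈ selP p L F Rel G' U E)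
    {σ : AlgebraicClosure K ≃ₐ[K] AlgebraicClosure K}
    (hσL : σ ∈ L.fixingSubgroup) (hσF : σ ∈ F.fixingSubgroup) (hσ : σ ∈ G) (hσ' : σ ∉ G')
    {w : AlgebraicClosure K} (hw : FixG (L.fixingSubgroup ⊓ (F.fixingSubgroup ⊓ G')) w)
    (hw0 : w ≠ 0) (h : σ a = a * w ^ p) :
    ∃ y, y ≠ 0 ∧ FixG (L.fixingSubgroup ⊓ (F.fixingSubgroup ⊓ G')) y ∧
      a * y ^ p ∈ selP p L F Rel G U E := by
  obtain ⟨ha0, haf, ⟨d, hd, hN⟩, hrel, hunr, hdiv⟩ := ha
  have hWF : W ≤ F.fixingSubgroup := fun w hw => by simpa using hW w hw 1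
  obtain ⟨y, hy0, hyf, hyfix, e, he, hNe⟩ := v10_inv_norm L F hp hn W hWF hWμ G' G hc M hM hTW ha0
    haf hd hN hσL hσF hσ hσ' hw hw0 h
  have hay0 : a * y ^ p ≠ 0 := mul_ne_zero ha0 (pow_ne_zero _ hy0)
  have hT' : TransOn L (F.fixingSubgroup ⊓ G') := fun s => by
    obtain ⟨t, ht, hts⟩ := hTW s
    exact ⟨t, ⟨hWF ht.1, ht.2⟩, hts⟩
  have hTF' : TransOn F (L.fixingSubgroup ⊓ G') := v7r_swap L F hT' hTF
  have hcomm : ∀ X : Subgroup (AlgebraicClosure K ≃ₐ[K] AlgebraicClosure K),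
      L.fixingSubgroup ⊓ (F.fixingSubgroup ⊓ X) = F.fixingSubgroup ⊓ (L.fixingSubgroup ⊓ X) := by
    intro X
    rw [← inf_assoc, ← inf_assoc, inf_comm L.fixingSubgroup]
  have hMF : (F ⊔ M).fixingSubgroup ≤ F.fixingSubgroup ⊓ G' := by
    rw [IntermediateField.fixingSubgroup_sup]
    exact inf_le_inf_left _ hM
  have hMH : (L ⊔ (F ⊔ M)).fixingSubgroup ≤ L.fixingSubgroup ⊓ (F.fixingSubgroup ⊓ G') := by
    rw [IntermediateField.fixingSubgroup_sup]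
    exact inf_le_inf_left _ hMF
  have hfd1 : FiniteDimensional K (F ⊔ M : IntermediateField K (AlgebraicClosure K)) :=
    IntermediateField.finiteDimensional_sup F M
  have hfd2 : FiniteDimensional K (L ⊔ (F ⊔ M) : IntermediateField K (AlgebraicClosure K)) :=
    IntermediateField.finiteDimensional_sup L (F ⊔ M)
  have hle : F.fixingSubgroup ⊓ G' ≤ F.fixingSubgroup ⊓ G := inf_le_inf_left _ hc.le
  have hcS : CycStep p (F.fixingSubgroup ⊓ G') (F.fixingSubgroup ⊓ G) := v10_inf _ hc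
  have hcH : CycStep p (L.fixingSubgroup ⊓ (F.fixingSubgroup ⊓ G'))
      (L.fixingSubgroup ⊓ (F.fixingSubgroup ⊓ G)) := v10_inf _ hcS
  -- the local conditions over `G'`
  have hunr' : ∀ 𝔓 ∈ U, UnrPG p (L.fixingSubgroup ⊓ (F.fixingSubgroup ⊓ G')) 𝔓 (a * y ^ p) := by
    intro 𝔓 h𝔓
    obtain ⟨z, hz, hzf⟩ := hunr 𝔓 h𝔓
    exact ⟨z * y, by rw [mul_pow, hz], fun s hs hsS => by rw [map_mul, hzf s hs hsS, hyf s hsS]⟩
  have hdiv' : ∀ 𝔓 ∈ E, DivG p (L.fixingSubgroup ⊓ (F.fixingSubgroup ⊓ G')) 𝔓 (a * y ^ p) := by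
    intro 𝔓 h𝔓
    obtain ⟨b, hb, hb0, u, v, hu, hv, huv⟩ := hdiv 𝔓 h𝔓
    refine ⟨b * y, v10_fix_mul hb hyf, mul_ne_zero hb0 hy0, u, v, hu, hv, ?_⟩
    rw [mul_pow]
    linear_combination (y ^ p) * huv
  refine ⟨y, hy0, hyf, hay0, hyfix, ⟨e, he, hNe⟩, ?_, ?_, ?_⟩
  · intro c hcRel
    obtain ⟨d₁, hd₁, h₁⟩ := hrel c hcRel
    refine v10_inv_rel L F hp hn W hW hWμ G' G hc hTW hTF c hay0 hyfix he hNe
      (d₁ := d₁ * relP10 F (L.fixingSubgroup ⊓ G') c y) ?_ ?_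
    · intro s hs hsc
      rw [map_mul, hd₁ s hs hsc, v10r_fix F (L.fixingSubgroup ⊓ G') c hTF'
        (by rw [← hcomm]; exact hyf) s hs hsc]
    · rw [v10r_mul, v10r_pow, h₁, mul_pow]
  · intro 𝔓 h𝔓
    obtain ⟨h1, h2 | ⟨h2, h3⟩ | h2⟩ := hU 𝔓 h𝔓
    · obtain ⟨z, hz, hzf⟩ := hunr' 𝔓 h𝔓
      exact ⟨z, hz, fun s hs hsS => hzf s hs ⟨hsS.1, hsS.2.1, h2 s hs hsS.2⟩⟩
    · exact v10_unr_div hp _ h1 h3 hyfix
        (v10_norm_div L hp hn _ (F ⊔ M) (hMF.trans hle) h1 h2 hay0 hyfix he hNe)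
    · exact v10_loc L hp hn _ _ hcS 𝔓 h2 hay0 hyfix he hNe (hunr' 𝔓 h𝔓)
  · intro 𝔓 h𝔓
    obtain ⟨h1, h2 | h2⟩ := hE 𝔓 h𝔓
    · exact v10_div_down hp _ _ hcH (L ⊔ (F ⊔ M)) hMH h1
        (fun s hs hsS => ⟨hsS.1, hsS.2.1, h2 s hs hsS.2⟩) hyfix (hdiv' 𝔓 h𝔓)
    · exact v10_norm_div L hp hn _ (F ⊔ M) (hMF.trans hle) h1 h2 hay0 hyfix he hNe

/-- One step of the tower. -/
theorem v10_step {p : ℕ} (hp : p.Prime) (hn : (Module.finrank K L).Coprime p)
    (Rel : Set (((AlgebraicClosure K ≃ₐ[K] AlgebraicClosure K) ⧸ F.fixingSubgroup) → ℤ))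
    (hRel : StabRel Rel)
    (W : Subgroup (AlgebraicClosure K ≃ₐ[K] AlgebraicClosure K))
    (hW : ∀ w ∈ W, ∀ g : AlgebraicClosure K ≃ₐ[K] AlgebraicClosure K,
      g⁻¹ * w * g ∈ F.fixingSubgroup)
    (hWμ : ∀ w ∈ W, ∀ z : AlgebraicClosure K, z ^ p = 1 → w z = z)
    (G' G : Subgroup (AlgebraicClosure K ≃ₐ[K] AlgebraicClosure K)) (hc : CycStep p G' G)
    (M : IntermediateField K (AlgebraicClosure K)) [FiniteDimensional K M]
    (hM : M.fixingSubgroup ≤ G') (hTW : TransOn L (W ⊓ G)) (hTF : TransOn F M.fixingSubgroup)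
    (U E : Set (Ideal (𝓞 (AlgebraicClosure K))))
    (hUs : StabU F.fixingSubgroup U) (hEs : StabU F.fixingSubgroup E)
    (hU : ∀ 𝔓 ∈ U, FinPrime 𝔓 ∧ ((∀ s ∈ inertia K 𝔓, s ∈ F.fixingSubgroup ⊓ G → s ∈ G') ∨
      (TransOn L (decompGrp K 𝔓 ⊓ (F.fixingSubgroup ⊓ G)) ∧
        (p : 𝓞 (AlgebraicClosure K)) ∉ 𝔓) ∨
      TransOn L (decompGrp K 𝔓 ⊓ (F.fixingSubgroup ⊓ G) ⊓ (muField K p).fixingSubgroup)))
    (hE : ∀ 𝔓 ∈ E, FinPrime 𝔓 ∧ ((∀ s ∈ inertia K 𝔓, s ∈ F.fixingSubgroup ⊓ G → s ∈ G') ∨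
      TransOn L (decompGrp K 𝔓 ⊓ (F.fixingSubgroup ⊓ G))))
    (n : ℕ) (h : PowClsG p (L.fixingSubgroup ⊓ (F.fixingSubgroup ⊓ G))
      (selP p L F Rel G U E) n) :
    PowClsG p (L.fixingSubgroup ⊓ (F.fixingSubgroup ⊓ G')) (selP p L F Rel G' U E) (n ^ p) := by
  classical
  obtain ⟨T, hTn, hT⟩ := h
  by_cases hne : ∃ s ∈ G, s ∉ G'
  swap
  · have hGG : G' = G := le_antisymm hc.le fun s hs => by_contra fun h => hne ⟨s, hs, h⟩
    rw [hGG]
    exact ⟨T, hTn.trans (Nat.le_self_pow hp.ne_zero n), hT⟩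
  have hTW' : TransOn L (W ⊓ G') := by
    have h1 := v10_trans L hp hn (W ⊓ G) G' G hTW inf_le_right hc
    rwa [inf_assoc, inf_eq_right.2 hc.le] at h1
  have hWF : W ≤ F.fixingSubgroup := fun w hw => by simpa using hW w hw 1
  have hTF' : TransOn F G' := fun s => by
    obtain ⟨t, ht, hts⟩ := hTF s
    exact ⟨t, hM ht, hts⟩
  have hTL' : TransOn L (F.fixingSubgroup ⊓ G') := fun s => by
    obtain ⟨t, ht, hts⟩ := hTW' s
    exact ⟨t, ⟨hWF ht.1, ht.2⟩, hts⟩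
  have hTFL : TransOn F (L.fixingSubgroup ⊓ G') := v7r_swap L F hTL' hTF'
  -- `σ`
  obtain ⟨σ, hσL, hσF, hσ, hσ'⟩ : ∃ σ, σ ∈ L.fixingSubgroup ∧ σ ∈ F.fixingSubgroup ∧ σ ∈ G ∧
      σ ∉ G' := by
    obtain ⟨g, hg, hg'⟩ := hne
    obtain ⟨s, hs, hsg⟩ := hTF' g
    obtain ⟨t, ⟨htF, htG⟩, htg⟩ := hTL' (s⁻¹ * g)
    refine ⟨t⁻¹ * (s⁻¹ * g), htg, F.fixingSubgroup.mul_mem (F.fixingSubgroup.inv_mem htF) hsg,
      G.mul_mem (G.inv_mem (hc.le htG)) (G.mul_mem (G.inv_mem (hc.le hs)) hg), fun h => hg' ?_⟩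
    have h1 := G'.mul_mem hs (G'.mul_mem htG h)
    rwa [mul_inv_cancel_left, mul_inv_cancel_left] at h1
  have hσp : σ ^ p ∈ G' := (hc.gen σ hσ hσ').1
  set H' := L.fixingSubgroup ⊓ (F.fixingSubgroup ⊓ G') with hH'
  have hσpH : σ ^ p ∈ H' := ⟨L.fixingSubgroup.pow_mem hσL p, F.fixingSubgroup.pow_mem hσF p, hσp⟩
  have hG' : ∀ s ∈ G', σ⁻¹ * s * σ ∈ G' := hc.conj σ hσ
  have hG'' : ∀ s ∈ G', σ * s * σ⁻¹ ∈ G' := fun s hs => by
    have := hc.conj σ⁻¹ (G.inv_mem hσ) s hs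
    rwa [inv_inv] at this
  have hcH : ∀ s ∈ H', σ⁻¹ * s * σ ∈ H' := fun s hs =>
    ⟨L.fixingSubgroup.mul_mem (L.fixingSubgroup.mul_mem (L.fixingSubgroup.inv_mem hσL) hs.1) hσL,
      F.fixingSubgroup.mul_mem (F.fixingSubgroup.mul_mem (F.fixingSubgroup.inv_mem hσF) hs.2.1) hσF,
      hG' s hs.2.2⟩
  have hEP : ∀ 𝔓 ∈ E, 𝔓.IsPrime := fun 𝔓 h => (hE 𝔓 h).1.1
  let B : Subgroup (AlgebraicClosure K)ˣ :=
    { carrier := {x | FixG H' (x : AlgebraicClosure K)}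
      one_mem' := fun s _ => map_one s
      mul_mem' := fun {x y} hx hy => by
        show FixG H' ((x * y : (AlgebraicClosure K)ˣ) : AlgebraicClosure K)
        rw [Units.val_mul]
        exact v10_fix_mul hx hy
      inv_mem' := fun {x} hx => by
        show FixG H' ((x⁻¹ : (AlgebraicClosure K)ˣ) : AlgebraicClosure K)
        rw [Units.val_inv_eq_inv_val]
        exact v10_fix_inv hx }
  have hone : (1 : AlgebraicClosure K) ∈ selP p L F Rel G' U E := by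
    have := v10_sel_pow (p := p) L F Rel G' U E hEP hTL' hTFL (y := 1) (fun s _ => map_one s)
      one_ne_zero
    rwa [one_pow] at this
  let X : Subgroup (AlgebraicClosure K)ˣ :=
    { carrier := {x | (x : AlgebraicClosure K) ∈ selP p L F Rel G' U E}
      one_mem' := by
        show ((1 : (AlgebraicClosure K)ˣ) : AlgebraicClosure K) ∈ selP p L F Rel G' U E
        rw [Units.val_one]
        exact hone
      mul_mem' := fun {x y} hx hy => by
        show ((x * y : (AlgebraicClosure K)ˣ) : AlgebraicClosure K) ∈ selP p L F Rel G' U E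
        rw [Units.val_mul]
        exact v10_sel_mul L F Rel G' U E hEP hx hy
      inv_mem' := fun {x} hx => by
        show ((x⁻¹ : (AlgebraicClosure K)ˣ) : AlgebraicClosure K) ∈ selP p L F Rel G' U E
        rw [Units.val_inv_eq_inv_val]
        exact v10_sel_inv L F Rel G' U E hx }
  let τ : (AlgebraicClosure K)ˣ ≃* (AlgebraicClosure K)ˣ :=
    Units.mapEquiv (σ : AlgebraicClosure K ≃* AlgebraicClosure K)
  have hτ : ∀ x : (AlgebraicClosure K)ˣ, ((τ x : (AlgebraicClosure K)ˣ) : AlgebraicClosure K) =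
      σ (x : AlgebraicClosure K) := fun x => rfl
  have hτpow : ∀ (k : ℕ) (x : (AlgebraicClosure K)ˣ),
      (((τ ^ k) x : (AlgebraicClosure K)ˣ) : AlgebraicClosure K) =
        (σ ^ k) (x : AlgebraicClosure K) := by
    intro k
    induction k with
    | zero => intro x; simp
    | succ k ih =>
      intro x
      rw [pow_succ', pow_succ', MulAut.mul_apply, hτ, ih, AlgEquiv.mul_apply]
  let j : AlgebraicClosure K → (AlgebraicClosure K)ˣ := fun t =>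
    if h : t = 0 then 1 else Units.mk0 t h
  have hj : ∀ t, t ≠ 0 → ((j t : (AlgebraicClosure K)ˣ) : AlgebraicClosure K) = t := by
    intro t ht
    show (((if h : t = 0 then 1 else Units.mk0 t h) : (AlgebraicClosure K)ˣ) :
      AlgebraicClosure K) = t
    rw [dif_neg ht, Units.val_mk0]
  obtain ⟨T', hT'n, hT'⟩ := v10_fil hp X B τ
    (fun x hx => hx.2.1)
    (fun u hu => by
      show ((u ^ p : (AlgebraicClosure K)ˣ) : AlgebraicClosure K) ∈ selP p L F Rel G' U E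
      rw [Units.val_pow_eq_pow_val]
      exact v10_sel_pow L F Rel G' U E hEP hTL' hTFL hu u.ne_zero)
    (fun u hu => by
      show FixG H' ((τ u : (AlgebraicClosure K)ˣ) : AlgebraicClosure K)
      rw [hτ]
      exact v10_fix_conj hcH hu)
    (fun a ha => by
      show ((τ a : (AlgebraicClosure K)ˣ) : AlgebraicClosure K) ∈ selP p L F Rel G' U E
      rw [hτ]
      exact v10_sel_conj L F Rel G' U E hRel hUs hEs hTL' hTFL hσL hσF hG' hG'' ha)
    (fun u hu => Units.ext (by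
      rw [hτpow]
      exact hu _ hσpH))
    n (T.image j) (Finset.card_image_le.trans hTn) (by
      rintro a ha ⟨w, hw, haw⟩
      have haw' : σ (a : AlgebraicClosure K) = (a : AlgebraicClosure K) *
          (w : AlgebraicClosure K) ^ p := by
        rw [← hτ, haw, Units.val_mul, Units.val_pow_eq_pow_val]
      obtain ⟨y, hy0, hyf, hay⟩ := v10_down L F hp hn Rel W hW hWμ G' G hc M hM hTW' hTF' U E hU hE
        ha hσL hσF hσ hσ' hw w.ne_zero haw'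
      obtain ⟨t, ht, u, huf, hu0, hau⟩ := hT _ hay
      have ht0 : t ≠ 0 := by
        intro h0
        rw [h0, zero_mul] at hau
        exact (mul_ne_zero a.ne_zero (pow_ne_zero p hy0)) hau
      refine ⟨j t, Finset.mem_image_of_mem _ ht, Units.mk0 (u / y) (div_ne_zero hu0 hy0),
        v10_fix_div (v10_fix_mono (inf_le_inf_left _ (inf_le_inf_left _ hc.le)) huf) hyf, ?_⟩
      apply Units.ext
      rw [Units.val_mul, hj t ht0, Units.val_pow_eq_pow_val, Units.val_mk0, div_pow,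
        mul_div_assoc', ← hau, mul_div_cancel_right₀ _ (pow_ne_zero p hy0)])
  refine ⟨T'.image (Units.val : (AlgebraicClosure K)ˣ → AlgebraicClosure K),
    Finset.card_image_le.trans hT'n, ?_⟩
  intro a ha
  obtain ⟨t, ht, u, hu, hau⟩ := hT' (Units.mk0 a ha.1) ha
  refine ⟨_, Finset.mem_image_of_mem _ ht, (u : AlgebraicClosure K), hu, u.ne_zero, ?_⟩
  have h1 := congrArg (fun x : (AlgebraicClosure K)ˣ => (x : AlgebraicClosure K)) hau
  simpa only [Units.val_mk0, Units.val_mul, Units.val_pow_eq_pow_val] using h1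

end Pool.Agent.H.MP_ac3185_nt
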