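import Pool.Agent.H.MP_ac3185_nt.V10.Grp
import Pool.Agent.H.MP_ac3185_nt.V10.Step

/-! The classes over the fields contained in a Galois `p`-extension of `K`: all steps. -/

set_option autoImplicit false

open CategoryTheory AlgebraicGeometry NumberField IsDedekindDomain
open scoped MonObj Pointwise

namespace Pool.Agent.H.MP_ac3185_nt

universe u

variable {K : Type u} [Field K] [NumberField K] (L F : IntermediateField K (AlgebraicClosure K))
  [FiniteDimensional K L] [FiniteDimensional K F]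

/-- The number of the classes over `M` is at most the power with exponent `[M : K]` of the number of
the classes over `K`. -/
theorem v10_tower {p : ℕ} (hp : p.Prime) (hn : (Module.finrank K L).Coprime p)
    (Rel : Set (((AlgebraicClosure K ≃ₐ[K] AlgebraicClosure K) ⧸ F.fixingSubgroup) → ℤ))
    (hRel : StabRel Rel)
    (W : Subgroup (AlgebraicClosure K ≃ₐ[K] AlgebraicClosure K))
    (hW : ∀ w ∈ W, ∀ g : AlgebraicClosure K ≃ₐ[K] AlgebraicClosure K,
      g⁻¹ * w * g ∈ F.fixingSubgroup)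
    (hWμ : ∀ w ∈ W, ∀ z : AlgebraicClosure K, z ^ p = 1 → w z = z) (hlin : TransOn L W)
    (M E' : IntermediateField K (AlgebraicClosure K)) [FiniteDimensional K M]
    [FiniteDimensional K E'] [IsGalois K E'] (hME : M ≤ E') (hp2 : IsPGroup p (E' ≃ₐ[K] E'))
    (hTF : TransOn F M.fixingSubgroup)
    (U E : Set (Ideal (𝓞 (AlgebraicClosure K))))
    (hUs : StabU F.fixingSubgroup U) (hEs : StabU F.fixingSubgroup E)
    (hU : ∀ 𝔓 ∈ U, LocU p L F M 𝔓) (hE : ∀ 𝔓 ∈ E, LocE L F M 𝔓)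
    (n : ℕ) (h : PowClsG p (L.fixingSubgroup ⊓ (F.fixingSubgroup ⊓ ⊤))
      (selP p L F Rel ⊤ U E) n) :
    PowClsG p (L.fixingSubgroup ⊓ (F.fixingSubgroup ⊓ M.fixingSubgroup))
      (selP p L F Rel M.fixingSubgroup U E) (n ^ Module.finrank K M) := by
  refine (v10_ind hp M E' hME hp2 (fun d G => (∀ S, TransOn L S → TransOn L (S ⊓ G)) ∧
    PowClsG p (L.fixingSubgroup ⊓ (F.fixingSubgroup ⊓ G)) (selP p L F Rel G U E) (n ^ d))
    ⟨fun S hS => by rwa [inf_top_eq], by rwa [pow_one]⟩ ?_).2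
  rintro d G' G hMG' hc ⟨hT, hP⟩
  refine ⟨fun S hS => ?_, ?_⟩
  · have := v10_trans L hp hn (S ⊓ G) G' G (hT S hS) inf_le_right hc
    rwa [inf_assoc, inf_eq_right.2 hc.le] at this
  rw [mul_comm, pow_mul]
  refine v10_step L F hp hn Rel hRel W hW hWμ G' G hc M hMG' (hT W hlin) hTF U E hUs hEs ?_ ?_ _ hP
  · intro 𝔓 h𝔓
    obtain ⟨h1, h2 | ⟨h2, h3⟩ | h2⟩ := hU 𝔓 h𝔓
    · exact ⟨h1, Or.inl fun s hs hs' => hMG' (h2 s hs hs'.1)⟩
    · refine ⟨h1, Or.inr (Or.inl ⟨?_, h3⟩)⟩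
      have := hT _ h2
      rwa [inf_assoc] at this
    · refine ⟨h1, Or.inr (Or.inr ?_)⟩
      have := hT _ h2
      rw [IntermediateField.fixingSubgroup_sup] at this
      have h4 : decompGrp K 𝔓 ⊓ (F.fixingSubgroup ⊓ (muField K p).fixingSubgroup) ⊓ G =
          decompGrp K 𝔓 ⊓ (F.fixingSubgroup ⊓ G) ⊓ (muField K p).fixingSubgroup := by
        rw [inf_assoc, inf_assoc, inf_assoc, inf_assoc, inf_comm G]
      rwa [h4] at this
  · intro 𝔓 h𝔓
    obtain ⟨h1, h2 | h2⟩ := hE 𝔓 h𝔓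
    · exact ⟨h1, Or.inl fun s hs hs' => hMG' (h2 s hs hs'.1)⟩
    · refine ⟨h1, Or.inr ?_⟩
      have := hT _ h2
      rwa [inf_assoc] at this

end Pool.Agent.H.MP_ac3185_nt
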