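import Pool.Agent.H.MP_ac3185_nt.V10.GenPM
import Pool.Agent.H.MP_ac3185_nt.V10.Tower
import Pool.Agent.H.MP_ac3185_nt.V10.Base
import Pool.Agent.H.MP_ac3185_nt.V10.StabRel
import Pool.Agent.H.MP_ac3185_nt.V10.Div
import Pool.Agent.H.MP_ac3185_nt.V10.Index
import Pool.Agent.H.MP_ac3185_nt.V9.ChainP

/-! One layer and the composition of the layers, over the fields in a Galois `p`-extension. -/

set_option autoImplicit false

open CategoryTheory AlgebraicGeometry NumberField IsDedekindDomain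
open scoped MonObj Pointwise

namespace Pool.Agent.H.MP_ac3185_nt

universe u

variable {K : Type u} [Field K] [NumberField K]

/-- `L` is linearly disjoint from the field given by `v9Triv`. -/
theorem v10_lin {p : ℕ} {L F : IntermediateField K (AlgebraicClosure K)}
    {A : Over (Spec (.of K))} [GrpObj A] [IsAbVar A]
    {N N' : AddSubgroup (Pts A (AlgebraicClosure K))}
    {ψ : Pts A (AlgebraicClosure K) → AlgebraicClosure K} (hf : CharFrame p F N N' ψ)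
    (hlin : ∀ s, ∃ t ∈ L.fixingSubgroup, (∀ x, InSub N' x → InSub N (act A (t⁻¹ * s) x - x)) ∧
      ∀ z : AlgebraicClosure K, z ^ p = 1 → (t⁻¹ * s) z = z) : TransOn L (v9Triv hf) := by
  intro s
  obtain ⟨t, ht, h1, h2⟩ := hlin s⁻¹
  have h3 : t⁻¹ * s⁻¹ ∈ v9Triv hf := ⟨h1, h2⟩
  refine ⟨(t⁻¹ * s⁻¹)⁻¹, (v9Triv hf).inv_mem h3, ?_⟩
  have h4 : (t⁻¹ * s⁻¹)⁻¹⁻¹ * s = t⁻¹ := by group
  rw [h4]
  exact L.fixingSubgroup.inv_mem ht

theorem v10_layer {p : ℕ} (hp : p.Prime) (L : IntermediateField K (AlgebraicClosure K))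
    [FiniteDimensional K L] (hn : (Module.finrank K L).Coprime p)
    (M E : IntermediateField K (AlgebraicClosure K)) [FiniteDimensional K M]
    [FiniteDimensional K E] [IsGalois K E] (hME : M ≤ E) (hE : IsPGroup p (E ≃ₐ[K] E))
    (F : IntermediateField K (AlgebraicClosure K)) [FiniteDimensional K F]
    (T O : Set (HeightOneSpectrum (𝓞 F))) (ρ : ℕ)
    {A : Over (Spec (.of K))} [GrpObj A] [IsAbVar A]
    {N N' : AddSubgroup (Pts A (AlgebraicClosure K))}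
    {ψ : Pts A (AlgebraicClosure K) → AlgebraicClosure K}
    (hρ : PowClasses p (towerClasses p L F (relFam F N' ψ) T O) (p ^ ρ))
    (hf : TowerLayer p L M F T O N N' ψ) :
    CosetCover (ratPts A (L.fixingSubgroup ⊓ M.fixingSubgroup) N')
      (ratPts A M.fixingSubgroup N' ⊔ ratPts A (L.fixingSubgroup ⊓ M.fixingSubgroup) N)
      (p ^ (ρ * Module.finrank K M)) := by
  have hcf := hf.toCharFrame
  have hW := v10_lin hcf hf.lin
  -- transitivity passes to `M`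
  have hsub : ∀ S, TransOn L S → TransOn L (S ⊓ M.fixingSubgroup) := fun S hS =>
    v10_trans_sub hp L M E hn hME hE S hS
  -- the local conditions
  have hfin : ∀ {v : HeightOneSpectrum (𝓞 F)} {𝔓}, PrimeOver F 𝔓 v → FinPrime 𝔓 :=
    fun h => v6_finPrime h
  have hpm : ∀ {v : HeightOneSpectrum (𝓞 F)} {𝔓}, PrimeOver F 𝔓 v →
      ((p : 𝓞 (AlgebraicClosure K)) ∈ 𝔓 ↔ (p : 𝓞 F) ∈ v.asIdeal) := fun h => v9_p_mem h
  have hU : ∀ 𝔓 ∈ unrO p F T O, LocU p L F M 𝔓 := by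
    rintro 𝔓 ⟨v, hv, h𝔓, hcase⟩
    refine ⟨hfin h𝔓, ?_⟩
    by_cases hpv : (p : 𝓞 F) ∈ v.asIdeal
    · rcases hf.unrT v hv (hcase.resolve_left (not_not.2 hpv)) hpv with h | h
      · exact Or.inr (Or.inr (h 𝔓 h𝔓))
      · exact Or.inl (h 𝔓 h𝔓)
    · rcases hf.unr v hv with h | h
      · exact Or.inr (Or.inl ⟨h 𝔓 h𝔓, fun hm => hpv ((hpm h𝔓).1 hm)⟩)
      · exact Or.inl (h 𝔓 h𝔓)
  have hV : ∀ 𝔓 ∈ divO p F T O, LocE L F M 𝔓 := by
    rintro 𝔓 ⟨v, hv, h𝔓, -, -⟩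
    refine ⟨hfin h𝔓, ?_⟩
    rcases hf.unr v hv with h | h
    · exact Or.inr (h 𝔓 h𝔓)
    · exact Or.inl (h 𝔓 h𝔓)
  -- the classes over `M`
  have hcls := v10_tower L F hp hn (relFam F N' ψ) (v10_stab_rel hcf) (v9Triv hcf)
    (fun w hw g => by
      have h1 := v9_triv_conj hcf (s := g⁻¹) hw
      rw [inv_inv] at h1
      exact hcf.sub _ h1.1 h1.2)
    (fun w hw => hw.2) hW M E hME hE hf.disj (unrO p F T O) (divO p F T O)
    (v10_stab_unr F p T O) (v10_stab_div F p T O) hU hV (p ^ ρ) (v10_base L F _ T O _ hρ)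
  rw [← pow_mul] at hcls
  -- the points
  obtain ⟨c, h0, h1, h2, h3, h4, h5, h6, h7⟩ := v10_genM L M F hp hn hcf hf.disj (fun s => by
    obtain ⟨t, ⟨ht1, ht2⟩, ht⟩ := hsub _ hW s
    exact ⟨t, ht2, ht1.1, ht1.2, ht⟩)
  have hdiv : ∀ (v : HeightOneSpectrum (𝓞 F)) (𝔓 : Ideal (𝓞 (AlgebraicClosure K))),
      PrimeOver F 𝔓 v → OneOver L F v →
      ∀ P ∈ ratPts A (L.fixingSubgroup ⊓ M.fixingSubgroup) N',
        DivG p (L.fixingSubgroup ⊓ (F.fixingSubgroup ⊓ M.fixingSubgroup)) 𝔓 (c P) := by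
    intro v 𝔓 h𝔓 hv P hP
    obtain ⟨d, hd, hd'⟩ := h2 P hP
    have hfd : FiniteDimensional K (F ⊔ M : IntermediateField K (AlgebraicClosure K)) :=
      IntermediateField.finiteDimensional_sup F M
    have h8 : TransOn L (decompGrp K 𝔓 ⊓ (F.fixingSubgroup ⊓ M.fixingSubgroup)) := by
      rw [← inf_assoc]
      exact hsub _ (hv 𝔓 h𝔓)
    exact v10_norm_div L hp hn (F.fixingSubgroup ⊓ M.fixingSubgroup) (F ⊔ M)
      (le_of_eq (IntermediateField.fixingSubgroup_sup)) (hfin h𝔓) h8 (h0 P) (h1 P hP) hd hd'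
  have hunr : ∀ (v : HeightOneSpectrum (𝓞 F)) (𝔓 : Ideal (𝓞 (AlgebraicClosure K))),
      PrimeOver F 𝔓 v → (p : 𝓞 F) ∉ v.asIdeal →
      ∀ P ∈ ratPts A (L.fixingSubgroup ⊓ M.fixingSubgroup) N',
        DivG p (L.fixingSubgroup ⊓ (F.fixingSubgroup ⊓ M.fixingSubgroup)) 𝔓 (c P) →
        UnrPG p (L.fixingSubgroup ⊓ (F.fixingSubgroup ⊓ M.fixingSubgroup)) 𝔓 (c P) := by
    intro v 𝔓 h𝔓 hpv P hP h
    exact v10_unr_div hp _ (hfin h𝔓) (fun hm => hpv ((hpm h𝔓).1 hm)) (h1 P hP) h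
  refine v10_index (L.fixingSubgroup ⊓ (F.fixingSubgroup ⊓ M.fixingSubgroup))
    (selP p L F (relFam F N' ψ) M.fixingSubgroup (unrO p F T O) (divO p F T O)) _ hcls _ _ c h0
    (fun P hP => ⟨h0 P, h1 P hP, h2 P hP, fun f hf' => h3 f hf' P hP, ?_, ?_⟩) h4 h7
  · rintro 𝔓 ⟨v, hv, h𝔓, hcase⟩
    by_cases hvT : v ∈ T
    · exact h5 𝔓 (hf.etale v hv hvT 𝔓 h𝔓) P hP
    · have hpv : (p : 𝓞 F) ∉ v.asIdeal := hcase.resolve_right hvT
      rcases hf.away v hv hpv with h | h | h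
      · exact hunr v 𝔓 h𝔓 hpv P hP (hdiv v 𝔓 h𝔓 h P hP)
      · exact h5 𝔓 (h 𝔓 h𝔓) P hP
      · exact hunr v 𝔓 h𝔓 hpv P hP (h6 𝔓 (h 𝔓 h𝔓) P hP)
  · rintro 𝔓 ⟨v, hv, h𝔓, hpv, hvT⟩
    rcases hf.above v hv hvT hpv with h | h
    · exact hdiv v 𝔓 h𝔓 h P hP
    · exact h6 𝔓 (h 𝔓 h𝔓) P hP

theorem v10_chain {p : ℕ} (hp : p.Prime) (L : IntermediateField K (AlgebraicClosure K))
    [FiniteDimensional K L] (hn : (Module.finrank K L).Coprime p)
    (M E : IntermediateField K (AlgebraicClosure K)) [FiniteDimensional K M]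
    [FiniteDimensional K E] [IsGalois K E] (hME : M ≤ E) (hE : IsPGroup p (E ≃ₐ[K] E))
    (A : Over (Spec (.of K))) [GrpObj A] [IsAbVar A]
    (N : AddSubgroup (Pts A (AlgebraicClosure K))) (b : ℕ) (hc : TowerChain p L M A N b) :
    CosetCover (ratPts A (L.fixingSubgroup ⊓ M.fixingSubgroup) N)
      (ratPts A M.fixingSubgroup N ⊔ ratPts A (L.fixingSubgroup ⊓ M.fixingSubgroup) ⊥)
      (p ^ (b * Module.finrank K M)) := by
  induction hc with
  | zero =>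
    rw [zero_mul, pow_zero]
    exact v8_cover_refl _ le_sup_right
  | @step N N' ψ b ρ F hF T O _ hf hρ ih =>
    have hle : N ≤ N' := hf.le
    have h1 := v8_cover_comp (ratPts_mono A M.fixingSubgroup hle)
      (ratPts_mono A (L.fixingSubgroup ⊓ M.fixingSubgroup) hle) ih
      (v10_layer hp L hn M E hME hE F T O ρ hρ hf)
    rwa [← pow_add, ← add_mul] at h1

end Pool.Agent.H.MP_ac3185_nt
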