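import Pool.Agent.H.MP_ac3185_nt.V10.Defs
import Pool.Agent.H.MP_ac3185_nt.V8.Div
import Pool.Agent.H.MP_ac3185_nt.helper85.RankG

/-! The conclusions on the rank of `A(LM)` over `A(M)`, from a cover of `A(LM)` by cosets of
`A(M) + p ^ m A(LM)`. -/

set_option autoImplicit false

open CategoryTheory AlgebraicGeometry NumberField IsDedekindDomain
open scoped MonObj

namespace Pool.Agent.H.MP_ac3185_nt

universe u

variable {K : Type u} [Field K] [NumberField K]

omit [NumberField K] in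
theorem v10_cover (A : Over (Spec (.of K))) [GrpObj A] [IsAbVar A]
    (L M : IntermediateField K (AlgebraicClosure K)) (n k : ℕ)
    (N : AddSubgroup (Pts A (AlgebraicClosure K))) (hN : ∀ x, x ∈ N ↔ n • x = 0)
    (hdiv : ∀ x : Pts A (AlgebraicClosure K), ∃ y, n • y = x)
    (hc : CosetCover (ratPts A (L.fixingSubgroup ⊓ M.fixingSubgroup) N)
      (ratPts A M.fixingSubgroup N ⊔ ratPts A (L.fixingSubgroup ⊓ M.fixingSubgroup) ⊥) k) :
    MulCoverOver A L M n k := by
  have hsup : (L ⊔ M).fixingSubgroup = L.fixingSubgroup ⊓ M.fixingSubgroup :=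
    IntermediateField.fixingSubgroup_sup
  obtain ⟨T, hT, h1, h2⟩ := v8_div A (L.fixingSubgroup ⊓ M.fixingSubgroup) M.fixingSubgroup n N hN
    hdiv _ hc
  refine ⟨T, hT, fun t ht s hs => h1 t ht s (hsup ▸ hs), fun y hy => ?_⟩
  obtain ⟨t, ht, y0, x, h3, h4, h5⟩ := h2 y fun s hs => hy s (hsup ▸ hs)
  exact ⟨t, ht, y0, x, h3, fun s hs => h4 s (hsup ▸ hs), h5⟩

/-- If `x` lies in `A(M) + p ^ k A(E)` for all `k`, then `x` has a multiple in `A(M)`. -/
theorem v10_multiple (p : ℕ) [hp : Fact p.Prime] {M E : IntermediateField K (AlgebraicClosure K)}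
    (hME : M ≤ E) [FiniteDimensional K E] (A : Over (Spec (.of K))) [GrpObj A] [IsAbVar A]
    (x : Pts A E) (hs : ∀ k : ℕ, ∃ y z, x = ptsa_j A hME y + (p ^ k : ℕ) • z) :
    ∃ N : ℕ, N.Coprime p ∧ ∃ y, ptsa_j A hME y =
      (N * (E.fixingSubgroup.subgroupOf M.fixingSubgroup).index) • x := by
  have hfi : E.fixingSubgroup.FiniteIndex := vn_finiteIndex E
  have hfi' : (E.fixingSubgroup.subgroupOf M.fixingSubgroup).FiniteIndex := inferInstance
  let H := E.fixingSubgroup.subgroupOf M.fixingSubgroup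
  let _ : Fintype (M.fixingSubgroup ⧸ H) := H.fintypeQuotientOfFiniteIndex
  let Q := M.fixingSubgroup ⧸ H
  obtain ⟨n, hn⟩ : ∃ n, n = H.index := ⟨_, rfl⟩
  have hcard : Fintype.card Q = n := by
    rw [hn, Subgroup.index, Nat.card_eq_fintype_card]
  have hE : ∀ s : M.fixingSubgroup, s ∈ H → ∀ y : Pts A E, galHom A s.1 (toBar A E y) =
      toBar A E y := fun s hs y => sp_bar_fix A E s.1 (Subgroup.mem_subgroupOf.1 hs) y
  have htr : ∀ x : Pts A E, ∃ y : Pts A M,
      toBar A E (ptsa_j A hME y) = ∑ q : Q, galHom A q.out.1 (toBar A E x) := by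
    intro x
    obtain ⟨y, hy⟩ := sp_bar_of_fixed A M (∑ q : Q, galHom A q.out.1 (toBar A E x)) (fun g hg =>
      vd_trace H (fun s : M.fixingSubgroup => galHom A s.1)
        (fun s s' => ptsb_galHom_mul A s.1 s'.1) (toBar A E x) (fun s hs' => hE s hs' x) ⟨g, hg⟩)
    exact ⟨y, by rw [sp_bar_j, hy]⟩
  choose T hT using htr
  let j := ptsa_j A hME
  have hinj := sp_bar_inj A E
  have hj : ∀ y, T (j y) = n • y := by
    intro y
    apply sp_j_inj A hME
    apply hinj
    rw [hT]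
    have h1 : ∀ q : Q, galHom A q.out.1 (toBar A E (j y)) = toBar A E (j y) := by
      intro q
      have h2 : toBar A E (j y) = toBar A M y := sp_bar_j A _ y
      rw [h2]
      exact sp_bar_fix A M _ q.out.2 y
    rw [Finset.sum_congr rfl fun q _ => h1 q, Finset.sum_const, Finset.card_univ, hcard, map_nsmul,
      map_nsmul]
  have hTadd : ∀ x z, T (x + z) = T x + T z := by
    intro x z
    apply sp_j_inj A hME
    apply hinj
    rw [hT, map_add (ptsa_j A _), map_add (toBar A E) (ptsa_j A _ (T x)), hT, hT,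
      ← Finset.sum_add_distrib]
    exact Finset.sum_congr rfl fun q _ => by rw [map_add, map_add]
  let T' : Pts A E →+ Pts A M := AddMonoidHom.mk' T hTadd
  let Dn : Pts A E →+ Pts A E := n • AddMonoidHom.id _ - j.comp T'
  have hD : ∀ x, Dn x = n • x - j (T x) := fun x => rfl
  have hDj : ∀ y, Dn (j y) = 0 := by
    intro y
    rw [hD, hj, map_nsmul, sub_self]
  obtain ⟨N, hN, h1⟩ := vp_torsion p E A (Dn x) (by
    intro k
    obtain ⟨y, z, h2⟩ := hs k
    refine ⟨Dn z, ?_⟩
    rw [h2, map_add, hDj, zero_add, map_nsmul])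
  refine ⟨N, hN, N • T x, ?_⟩
  rw [hD, smul_sub, sub_eq_zero] at h1
  show ptsa_j A hME (N • T x) = (N * H.index) • x
  rw [map_nsmul, ← hn, mul_smul]
  exact h1.symm

/-- If `A(E) = A(M) + p ^ m A(E)`, `m > 0`, then every point of `A(E)` has a multiple in `A(M)` by an
integer prime to `p`. -/
theorem v10_zero (p : ℕ) [hp : Fact p.Prime] {M E : IntermediateField K (AlgebraicClosure K)}
    (hME : M ≤ E) [FiniteDimensional K E] (A : Over (Spec (.of K))) [GrpObj A] [IsAbVar A]
    (m : ℕ) (hm : 0 < m)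
    (key : ∀ x : Pts A E, ∃ y z, x = ptsa_j A hME y + (p ^ m : ℕ) • z) (x : Pts A E) :
    ∃ N : ℕ, N.Coprime p ∧ ∃ y, ptsa_j A hME y = N • x := by
  have hfi : E.fixingSubgroup.FiniteIndex := vn_finiteIndex E
  have hfi' : (E.fixingSubgroup.subgroupOf M.fixingSubgroup).FiniteIndex := inferInstance
  set j := ptsa_j A hME with hj
  have key2 : ∀ (k : ℕ) (x : Pts A E), ∃ y z, x = j y + ((p ^ m) ^ k : ℕ) • z := by
    intro k
    induction k with
    | zero => exact fun x => ⟨0, x, by rw [map_zero, pow_zero, one_smul, zero_add]⟩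
    | succ k ih =>
      intro x
      obtain ⟨y, z, h1⟩ := ih x
      obtain ⟨y', z', h2⟩ := key z
      refine ⟨y + ((p ^ m) ^ k : ℕ) • y', z', ?_⟩
      rw [h1, h2, smul_add, map_add, map_nsmul, pow_succ, mul_smul, add_assoc]
  have key3 : ∀ (k : ℕ) (x : Pts A E), ∃ y z, x = j y + (p ^ k : ℕ) • z := by
    intro k x
    obtain ⟨y, z, h1⟩ := key2 k x
    refine ⟨y, (p ^ (m * k - k) : ℕ) • z, ?_⟩
    rw [h1, ← mul_smul, ← pow_mul, ← pow_add]
    congr 3
    have : k ≤ m * k := Nat.le_mul_of_pos_left k hm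
    omega
  obtain ⟨n, hn⟩ : ∃ n, n = (E.fixingSubgroup.subgroupOf M.fixingSubgroup).index := ⟨_, rfl⟩
  have hn0 : n ≠ 0 := hn ▸ hfi'.index_ne_zero
  obtain ⟨k, n', hn', hnk⟩ := Nat.exists_eq_pow_mul_and_not_dvd hn0 p hp.out.ne_one
  obtain ⟨y, z, hxz⟩ := key3 k x
  obtain ⟨N, hN, w, hw⟩ := v10_multiple p hME A z (fun k => key3 k z)
  refine ⟨N * n', ?_, (N * n') • y + w, ?_⟩
  · exact Nat.Coprime.mul_left hN ((Nat.Prime.coprime_iff_not_dvd hp.out).2 hn').symm
  · rw [map_add, map_nsmul, hw, ← hn, hnk, hxz, smul_add, ← mul_smul]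
    congr 2
    ring

/-- The conclusions on the rank, with `B = b [M : K]`. -/
theorem v10_rank {p : ℕ} (hp : p.Prime) (L M : IntermediateField K (AlgebraicClosure K))
    [FiniteDimensional K L] [FiniteDimensional K M] (A : Over (Spec (.of K))) [GrpObj A] [IsAbVar A]
    (m B : ℕ) (hc : MulCoverOver A L M (p ^ m) (p ^ B)) :
    (B = 0 → 0 < m → ∀ x, FixPt A (L ⊔ M).fixingSubgroup x →
      ∃ N : ℕ, N.Coprime p ∧ FixPt A M.fixingSubgroup (N • x)) ∧
    (B < m → rk A (L ⊔ M) = rk A M) ∧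
    (Module.Finite ℤ (Pts A (L ⊔ M : IntermediateField K (AlgebraicClosure K))) →
      rk A M ≤ rk A (L ⊔ M) ∧ m * (rk A (L ⊔ M) - rk A M) ≤ B) := by
  classical
  have hpf : Fact p.Prime := ⟨hp⟩
  obtain ⟨E, hE⟩ : ∃ E, E = L ⊔ M := ⟨_, rfl⟩
  have hME : M ≤ E := hE ▸ le_sup_right
  have hfd : FiniteDimensional K E := hE ▸ IntermediateField.finiteDimensional_sup L M
  unfold MulCoverOver at hc
  rw [← hE] at hc ⊢
  obtain ⟨T, hT, hT1, hT2⟩ := hc
  set j := ptsa_j A hME with hj
  have hinj := sp_bar_inj A E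
  have hinj' : Function.Injective j.toIntLinearMap := sp_j_inj A _
  have key : ∀ x : Pts A E, ∃ t ∈ T, ∃ y z,
      toBar A E x = t + toBar A E (j y + (p ^ m : ℕ) • z) := by
    intro x
    obtain ⟨t, ht, y0, z, hy0, hz, he⟩ := hT2 (toBar A E x) (fun s hs' => sp_bar_fix A E s hs' x)
    obtain ⟨y1, rfl⟩ := sp_bar_of_fixed A M y0 hy0
    obtain ⟨z1, rfl⟩ := sp_bar_of_fixed A E z hz
    refine ⟨t, ht, y1, z1, ?_⟩
    rw [he, map_add, hj, sp_bar_j, map_nsmul]
  refine ⟨fun hB hm x hx => ?_, fun hBm => ?_, fun hMW => ?_⟩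
  · -- one coset
    have hone : T.card ≤ 1 := by rw [hB, pow_zero] at hT; exact hT
    have key1 : ∀ x : Pts A E, ∃ y z, x = j y + (p ^ m : ℕ) • z := by
      intro x
      obtain ⟨t, ht, y, z, h1⟩ := key x
      obtain ⟨t0, ht0, y0, z0, h0⟩ := key 0
      have h2 : t = t0 := Finset.card_le_one.1 hone t ht t0 ht0
      refine ⟨y - y0, z - z0, ?_⟩
      apply hinj
      rw [map_zero] at h0
      have h3 : t0 = -toBar A E (j y0 + (p ^ m : ℕ) • z0) := by
        rw [eq_neg_iff_add_eq_zero]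
        exact h0.symm
      rw [h1, h2, h3, ← map_neg, ← map_add]
      congr 1
      rw [map_sub, smul_sub]
      abel
    obtain ⟨x', rfl⟩ := sp_bar_of_fixed A E x hx
    obtain ⟨N, hN, y, hy⟩ := v10_zero p hME A m hm key1 x'
    refine ⟨N, hN, fun s hs => ?_⟩
    rw [← map_nsmul, ← hy, sp_bar_j]
    exact sp_bar_fix A M s hs y
  · -- no new points
    choose τ hτ y z hyz using key
    have h1 : ∀ x x', τ x = τ x' → x - x' ∈ wgPow p j.range m := by
      intro x x' hxx
      rw [mem_wgPow]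
      refine ⟨j (y x - y x'), ⟨_, rfl⟩, z x - z x', ?_⟩
      apply hinj
      rw [map_sub, hyz x, hyz x', hxx, map_sub j, smul_sub]
      rw [show j (y x) - j (y x') + ((p ^ m : ℕ) • z x - (p ^ m : ℕ) • z x') =
        (j (y x) + (p ^ m : ℕ) • z x) - (j (y x') + (p ^ m : ℕ) • z x') by abel, map_sub]
      abel
    let F : T → Pts A E ⧸ wgPow p j.range m := fun t =>
      if ht : ∃ x, τ x = t then QuotientAddGroup.mk ht.choose else 0
    have hF : Function.Surjective F := by
      intro q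
      obtain ⟨x, rfl⟩ := QuotientAddGroup.mk_surjective q
      refine ⟨⟨τ x, hτ x⟩, ?_⟩
      have ht : ∃ x', τ x' = ((⟨τ x, hτ x⟩ : T) : Pts A (AlgebraicClosure K)) := ⟨x, rfl⟩
      have e : F ⟨τ x, hτ x⟩ = QuotientAddGroup.mk ht.choose := dif_pos ht
      rw [e, QuotientAddGroup.eq]
      have h2 := h1 x ht.choose ht.choose_spec.symm
      rwa [sub_eq_neg_add] at h2
    have hfin : Finite (Pts A E ⧸ wgPow p j.range m) := Finite.of_surjective F hF
    have hcard : (wgPow p j.range m).index ≤ p ^ B := by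
      have h2 := Nat.card_le_card_of_surjective F hF
      have h3 : Nat.card T = T.card := by rw [Nat.card_eq_fintype_card, Fintype.card_coe]
      exact (h2.trans_eq h3).trans hT
    have h0 : (wgPow p j.range m).index ≠ 0 := by
      show Nat.card (Pts A E ⧸ wgPow p j.range m) ≠ 0
      exact Nat.card_pos.ne'
    obtain ⟨k, hk⟩ := wgPow_stationary p hp j.range m h0
      (hcard.trans_lt (Nat.pow_lt_pow_right hp.one_lt hBm))
    have hfi : E.fixingSubgroup.FiniteIndex := vn_finiteIndex E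
    have hfi' : (E.fixingSubgroup.subgroupOf M.fixingSubgroup).FiniteIndex := inferInstance
    have h2 : ∀ x : Pts A E, ∃ N : ℕ, 0 < N ∧ N • x ∈ j.range := by
      intro x
      obtain ⟨N, hN, w, hw⟩ := v10_multiple p hME A ((p ^ k : ℕ) • x) (by
        intro t
        have h3 : (p ^ k : ℕ) • x ∈ wgPow p j.range (k + t) :=
          hk t ((mem_wgPow p _ k _).2 ⟨0, zero_mem _, x, by rw [zero_add]⟩)
        obtain ⟨_, ⟨a, rfl⟩, c, h4⟩ := (mem_wgPow p _ _ _).1 h3
        refine ⟨a, (p ^ k : ℕ) • c, ?_⟩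
        rw [h4, ← mul_smul, ← pow_add, add_comm t k])
      refine ⟨N * (E.fixingSubgroup.subgroupOf M.fixingSubgroup).index * p ^ k, ?_, w, ?_⟩
      · have hN0 : N ≠ 0 := by
          rintro rfl
          rw [Nat.coprime_zero_left] at hN
          exact hp.one_lt.ne' hN
        have h5 := Nat.pos_of_ne_zero hN0
        have h6 := Nat.pos_of_ne_zero hfi'.index_ne_zero
        have h7 := hp.pos
        exact Nat.mul_pos (Nat.mul_pos h5 h6) (Nat.pow_pos h7)
      · rw [mul_smul]
        exact hw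
    have h4 : Module.rank ℤ (Pts A M) = Module.rank ℤ (Pts A E) := by
      rw [← vp_rank_eq (LinearMap.range j.toIntLinearMap) (fun x => by
        obtain ⟨N, hN, y, hy⟩ := h2 x
        exact ⟨N, hN.ne', y, hy⟩)]
      exact (LinearEquiv.ofInjective j.toIntLinearMap hinj').rank_eq
    unfold rk Module.finrank
    rw [h4]
  · -- the bound
    let N : Submodule ℤ (Pts A E) := LinearMap.range j.toIntLinearMap
    have h4 : Module.finrank ℤ (Pts A M) = Module.finrank ℤ N :=
      (LinearEquiv.ofInjective j.toIntLinearMap hinj').finrank_eq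
    have hc : ∀ t : T, ∃ t' : Pts A E, toBar A E t' = (t : Pts A (AlgebraicClosure K)) := by
      rintro ⟨t, ht⟩
      obtain ⟨t', ht'⟩ := sp_bar_of_fixed A E t (hT1 t ht)
      exact ⟨t', ht'⟩
    choose τ hτ using hc
    have h5 := wg_group N p hp m B (Finset.univ.image τ) (by
        refine Finset.card_image_le.trans ?_
        rw [Finset.card_univ, Fintype.card_coe]
        exact hT) fun y => by
      obtain ⟨t, ht, y1, z1, he⟩ := key y
      refine ⟨τ ⟨t, ht⟩, Finset.mem_image_of_mem _ (Finset.mem_univ _), j y1, ⟨y1, rfl⟩, z1, ?_⟩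
      apply hinj
      rw [he, map_add (toBar A E) (τ ⟨t, ht⟩), hτ]
    unfold rk
    rw [h4]
    exact h5

end Pool.Agent.H.MP_ac3185_nt
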