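import Pool.Agent.H.MP_ac3185_nt.V9.Defs
import Pool.Agent.H.MP_ac3185_nt.V7.Defs

/-! Definitions for the descent with a prime number `p` over the fields `M` in a Galois extension of
`K` whose degree is a power of `p`. -/

set_option autoImplicit false

open CategoryTheory AlgebraicGeometry NumberField IsDedekindDomain
open scoped MonObj

namespace Pool.Agent.H.MP_ac3185_nt

universe u

section field

variable {K : Type u} [Field K]

/-- The field generated by the `p`-th roots of unity. -/
noncomputable def muField (K : Type u) [Field K] (p : ℕ) :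
    IntermediateField K (AlgebraicClosure K) :=
  IntermediateField.adjoin K {z | z ^ p = 1}

/-- The families `c` of integers, indexed by the cosets of `Gal(Kbar/F)`, such that for all `x` in `N'`
the product of the `ψ_q(x) ^ c(q)` over the conjugates `ψ_q` of `ψ` is `1`. -/
def relFam (F : IntermediateField K (AlgebraicClosure K)) {A : Over (Spec (.of K))} [GrpObj A]
    [IsAbVar A] (N' : AddSubgroup (Pts A (AlgebraicClosure K)))
    (ψ : Pts A (AlgebraicClosure K) → AlgebraicClosure K) :
    Set (((AlgebraicClosure K ≃ₐ[K] AlgebraicClosure K) ⧸ F.fixingSubgroup) → ℤ) :=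
  {c | ∀ x, InSub N' x → ∏ᶠ q, conjChar F ψ q x ^ c q = 1}

end field

section numberField

variable {K : Type u} [Field K] [NumberField K]

/-- There is only one place of `LF(μ_p)` above each place of `F(μ_p)` above the finite place `v` of
`F`. -/
def OneOverMu (p : ℕ) (L F : IntermediateField K (AlgebraicClosure K))
    (v : HeightOneSpectrum (𝓞 F)) : Prop :=
  ∀ 𝔓 : Ideal (𝓞 (AlgebraicClosure K)), PrimeOver F 𝔓 v →
    TransOn L (decompGrp K 𝔓 ⊓ (F ⊔ muField K p).fixingSubgroup)

/-- The `a ≠ 0` in `LF` with the following properties: the norm of `a` to `F` is a `p`-th power in `F`;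
for all families `c` of integers in `Rel`, indexed by the cosets of `Gal(Kbar/F)`, the product of the
`(τ a) ^ c(τ)`, for the representatives `τ` in `Gal(Kbar/L)` of the cosets, is the `p`-th power of an
element fixed by all `s` in `Gal(Kbar/L)` with `c(s τ) = c(τ)` for all `τ`; `LF(a^(1/p)) / LF` is
unramified at the finite places above the places `v` of `F` outside `O` which do not lie above `p` or are
in `T`; the valuation of `a` is divisible by `p` at the places above the other places of `F` outside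
`O`. -/
def towerClasses (p : ℕ) (L F : IntermediateField K (AlgebraicClosure K))
    (Rel : Set (((AlgebraicClosure K ≃ₐ[K] AlgebraicClosure K) ⧸ F.fixingSubgroup) → ℤ))
    (T O : Set (HeightOneSpectrum (𝓞 F))) :
    Set (L ⊔ F : IntermediateField K (AlgebraicClosure K)) :=
  {a | a ≠ 0 ∧ (∃ d ∈ F, normG L F.fixingSubgroup (a : AlgebraicClosure K) = d ^ p) ∧
    (∀ c ∈ Rel, ∃ d : AlgebraicClosure K,
      (∀ s ∈ L.fixingSubgroup, (∀ q, c (s • q) = c q) → s d = d) ∧
      ∏ᶠ q, repG F L.fixingSubgroup q (a : AlgebraicClosure K) ^ c q = d ^ p) ∧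
    (∀ v ∉ O, ∀ 𝔓, PrimeOver F 𝔓 v → (p : 𝓞 F) ∉ v.asIdeal ∨ v ∈ T →
      UnrP p (L ⊔ F) 𝔓 (a : AlgebraicClosure K)) ∧
    ∀ v ∉ O, ∀ 𝔓, PrimeOver F 𝔓 v → (p : 𝓞 F) ∈ v.asIdeal → v ∉ T →
      DivAt p (L ⊔ F) 𝔓 (a : AlgebraicClosure K)}

/-- `N ≤ N'` are subgroups of `A(Kbar)` and `ψ` a character with `CharFrame p F N N' ψ` such that: `F` and
`M` are linearly disjoint, and `L` is linearly disjoint from the field given by the automorphisms which
act trivially on `N' / N` and on the `p`-th roots of unity;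
for the finite places `v` of `F` outside `O`: there is only one place of `LF` above `v` or `MF / F` is
unramified at `v`, and if `v` is in `T` and lies above `p`, then there is only one place of `LF(μ_p)`
above each place of `F(μ_p)` above `v` or `MF / F` is unramified at `v`;
if `v` is in `T`, then `ψ` is etale at `v`; if `v` is not in `T` and lies above `p`, then there is only
one place of `LF` above `v` or the fibres of `ψ` over `LM` are divisible by `p` at `v`; if `v` does not
lie above `p`, then one of these two conditions holds or `ψ` is etale at `v`. -/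
structure TowerLayer (p : ℕ) (L M F : IntermediateField K (AlgebraicClosure K))
    (T O : Set (HeightOneSpectrum (𝓞 F))) {A : Over (Spec (.of K))} [GrpObj A] [IsAbVar A]
    (N N' : AddSubgroup (Pts A (AlgebraicClosure K)))
    (ψ : Pts A (AlgebraicClosure K) → AlgebraicClosure K) : Prop
    extends CharFrame p F N N' ψ where
  disj : TransOn F M.fixingSubgroup
  lin : ∀ s, ∃ t ∈ L.fixingSubgroup, (∀ x, InSub N' x → InSub N (act A (t⁻¹ * s) x - x)) ∧
    ∀ z : AlgebraicClosure K, z ^ p = 1 → (t⁻¹ * s) z = z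
  unr : ∀ v ∉ O, OneOver L F v ∨ UnramifiedOver M F v
  unrT : ∀ v ∉ O, v ∈ T → (p : 𝓞 F) ∈ v.asIdeal → OneOverMu p L F v ∨ UnramifiedOver M F v
  etale : ∀ v ∉ O, v ∈ T → ∀ 𝔓, PrimeOver F 𝔓 v → EtaleChar F N' ψ 𝔓
  above : ∀ v ∉ O, v ∉ T → (p : 𝓞 F) ∈ v.asIdeal → OneOver L F v ∨
    ∀ 𝔓, PrimeOver F 𝔓 v → DivChar p (L ⊔ M) F N' ψ ∅ 𝔓
  away : ∀ v ∉ O, (p : 𝓞 F) ∉ v.asIdeal → OneOver L F v ∨
    (∀ 𝔓, PrimeOver F 𝔓 v → EtaleChar F N' ψ 𝔓) ∨
    ∀ 𝔓, PrimeOver F 𝔓 v → DivChar p (L ⊔ M) F N' ψ ∅ 𝔓

/-- `TowerChain p L M A N b`: there are subgroups `0 = N_0 ≤ ⋯ ≤ N_r = N` of `A(Kbar)` such that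
`TowerLayer p L M F T O N_(i-1) N_i ψ` holds for all `i` (where `F`, `ψ`, `T`, `O` depend on `i`), and
`b` is the sum over `i` of numbers `ρ` such that `towerClasses p L F (relFam F N_i ψ) T O` consists of at
most `p ^ ρ` classes modulo `p`-th powers. -/
inductive TowerChain (p : ℕ) (L M : IntermediateField K (AlgebraicClosure K))
    (A : Over (Spec (.of K))) [GrpObj A] [IsAbVar A] :
    AddSubgroup (Pts A (AlgebraicClosure K)) → ℕ → Prop
  | zero : TowerChain p L M A ⊥ 0
  | step (N N' : AddSubgroup (Pts A (AlgebraicClosure K)))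
      (ψ : Pts A (AlgebraicClosure K) → AlgebraicClosure K) (b ρ : ℕ)
      (F : IntermediateField K (AlgebraicClosure K)) [FiniteDimensional K F]
      (T O : Set (HeightOneSpectrum (𝓞 F))) :
      TowerChain p L M A N b → TowerLayer p L M F T O N N' ψ →
      PowClasses p (towerClasses p L F (relFam F N' ψ) T O) (p ^ ρ) →
      TowerChain p L M A N' (b + ρ)

/-- `A(LM)` is the union of at most `k` cosets `t + (A(M) + n A(LM))`. -/
def MulCoverOver (A : Over (Spec (.of K))) [GrpObj A] [IsAbVar A]
    (L M : IntermediateField K (AlgebraicClosure K)) (n k : ℕ) : Prop :=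
  ∃ T : Finset (Pts A (AlgebraicClosure K)), T.card ≤ k ∧
    (∀ t ∈ T, FixPt A (L ⊔ M).fixingSubgroup t) ∧
    ∀ y, FixPt A (L ⊔ M).fixingSubgroup y → ∃ t ∈ T, ∃ y₀ x,
      FixPt A M.fixingSubgroup y₀ ∧ FixPt A (L ⊔ M).fixingSubgroup x ∧ y = t + (y₀ + n • x)

end numberField

end Pool.Agent.H.MP_ac3185_nt
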