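import Pool.Agent.H.MP_ac3185_nt.V10.Trans

/-! Induction over the subextensions of a Galois `p`-extension. -/

set_option autoImplicit false

open NumberField IsDedekindDomain

namespace Pool.Agent.H.MP_ac3185_nt

universe u

/-- In a `p`-group `G / N` a proper subgroup `H / N` is contained in a normal subgroup of index `p`. -/
theorem v10_group {A : Type*} [Group A] {p : ℕ} (hp : p.Prime) (N H G : Subgroup A) [N.Normal]
    (hNH : N ≤ H) (hHG : H ≤ G) {k n : ℕ} (hn : N.relIndex H = p ^ n)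
    (hk : N.relIndex G = p ^ (k + 1)) (hnk : n ≤ k) :
    ∃ G' : Subgroup A, H ≤ G' ∧ N.relIndex G' = p ^ k ∧ CycStep p G' G := by
  classical
  have : Fact p.Prime := ⟨hp⟩
  have hcard : Nat.card (G ⧸ N.subgroupOf G) = p ^ (k + 1) := hk
  have : Finite (G ⧸ N.subgroupOf G) :=
    Nat.finite_of_card_ne_zero (by rw [hcard]; exact pow_ne_zero _ hp.ne_zero)
  have hHb : Nat.card ((H.subgroupOf G).map (QuotientGroup.mk' (N.subgroupOf G))) = p ^ n := by
    rw [← Subgroup.relIndex_ker, QuotientGroup.ker_mk', Subgroup.relIndex_subgroupOf hHG, hn]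
  obtain ⟨B, hB, hHB⟩ := Sylow.exists_subgroup_card_pow_prime_le (p := p) (n := n) (m := k)
    (by rw [hcard]; exact pow_dvd_pow p (Nat.le_succ k)) _ hHb hnk
  have hidx : B.index = p := by
    have h1 := B.card_mul_index
    rw [hB, hcard, pow_succ] at h1
    exact Nat.eq_of_mul_eq_mul_left (pow_pos hp.pos k) h1
  have hBn : B.Normal := Subgroup.normal_of_index_eq_minFac_card (by
    rw [hidx, hcard, hp.pow_minFac (Nat.succ_ne_zero k)])
  let G1 : Subgroup G := B.comap (QuotientGroup.mk' (N.subgroupOf G))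
  have hG1n : G1.Normal := hBn.comap _
  have hidx1 : G1.index = p := by
    rw [← hidx]
    exact Subgroup.index_comap_of_surjective _ (QuotientGroup.mk'_surjective _)
  have hsub : (G1.map G.subtype).subgroupOf G = G1 :=
    Subgroup.comap_map_eq_self_of_injective G.subtype_injective G1
  have hmem : ∀ (s : A) (hs : s ∈ G), s ∈ G1.map G.subtype ↔ (⟨s, hs⟩ : G) ∈ G1 := by
    intro s hs
    have : (⟨s, hs⟩ : G) ∈ (G1.map G.subtype).subgroupOf G ↔ s ∈ G1.map G.subtype :=
      Subgroup.mem_subgroupOf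
    rw [← this, hsub]
  have hHle : H ≤ G1.map G.subtype := by
    intro s hs
    rw [hmem s (hHG hs)]
    exact hHB (Subgroup.mem_map_of_mem _ (Subgroup.mem_subgroupOf.2 hs))
  have hGle : G1.map G.subtype ≤ G := G.map_subtype_le G1
  refine ⟨G1.map G.subtype, hHle, ?_, hGle, ?_, ?_⟩
  · have h1 := Subgroup.relIndex_mul_relIndex N (G1.map G.subtype) G (hNH.trans hHle) hGle
    have h2 : (G1.map G.subtype).relIndex G = p := by
      rw [Subgroup.relIndex, hsub, hidx1]
    rw [h2, hk, pow_succ] at h1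
    exact Nat.eq_of_mul_eq_mul_right hp.pos h1
  · intro g hg s hs
    have hsG := hGle hs
    rw [hmem s hsG] at hs
    rw [hmem (g⁻¹ * s * g) (G.mul_mem (G.mul_mem (G.inv_mem hg) hsG) hg)]
    have := hG1n.conj_mem ⟨s, hsG⟩ hs (⟨g, hg⟩ : G)⁻¹
    rw [inv_inv] at this
    exact this
  · intro σ hσ hσ'
    rw [hmem σ hσ] at hσ'
    have hc : Nat.card (G ⧸ G1) = p := hidx1
    have hne : ((⟨σ, hσ⟩ : G) : G ⧸ G1) ≠ 1 := fun h =>
      hσ' ((QuotientGroup.eq_one_iff (⟨σ, hσ⟩ : G)).1 h)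
    have hpow : ((⟨σ, hσ⟩ : G) : G ⧸ G1) ^ p = 1 := by
      have h1 : ((⟨σ, hσ⟩ : G) : G ⧸ G1) ^ Nat.card (G ⧸ G1) = 1 := pow_card_eq_one'
      rwa [hc] at h1
    refine ⟨?_, fun s hs => ?_⟩
    · rw [hmem _ (G.pow_mem hσ p)]
      exact (QuotientGroup.eq_one_iff (⟨σ ^ p, G.pow_mem hσ p⟩ : G)).1 hpow
    · obtain ⟨i, hi⟩ := Submonoid.mem_powers_iff _ _ |>.1
        (mem_powers_of_prime_card (g' := ((⟨s, hs⟩ : G) : G ⧸ G1)) hc hne)
      refine ⟨i % p, Nat.mod_lt _ hp.pos, ?_⟩
      have hi' : ((⟨σ, hσ⟩ : G) : G ⧸ G1) ^ (i % p) = ((⟨s, hs⟩ : G) : G ⧸ G1) := by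
        rw [← hi]
        conv_rhs => rw [← Nat.div_add_mod i p, pow_add, pow_mul, hpow, one_pow, one_mul]
      rw [hmem _ (G.mul_mem (G.inv_mem (G.pow_mem hσ _)) hs)]
      exact QuotientGroup.eq.1 hi'

section grp

variable {K : Type u} [Field K] [CharZero K]

theorem v10_ind {p : ℕ} (hp : p.Prime) (M E : IntermediateField K (AlgebraicClosure K))
    [FiniteDimensional K M] [FiniteDimensional K E] [IsGalois K E] (hME : M ≤ E)
    (hE : IsPGroup p (E ≃ₐ[K] E))
    (P : ℕ → Subgroup (AlgebraicClosure K ≃ₐ[K] AlgebraicClosure K) → Prop) (h0 : P 1 ⊤)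
    (hstep : ∀ d G' G, M.fixingSubgroup ≤ G' → CycStep p G' G → P d G → P (p * d) G') :
    P (Module.finrank K M) M.fixingSubgroup := by
  have : Fact p.Prime := ⟨hp⟩
  have hGal : IsGalois K (AlgebraicClosure K) := IsAlgClosure.isGalois K (AlgebraicClosure K)
  have hker : (AlgEquiv.restrictNormalHom (F := K) (K₁ := AlgebraicClosure K) E).ker
      = E.fixingSubgroup := E.restrictNormalHom_ker
  have hnormal : E.fixingSubgroup.Normal := hker ▸ MonoidHom.normal_ker _
  have hle : E.fixingSubgroup ≤ M.fixingSubgroup :=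
    IntermediateField.fixingSubgroup_antitone hME
  obtain ⟨k, hk⟩ := IsPGroup.iff_card.1 hE
  have htop : E.fixingSubgroup.relIndex ⊤ = p ^ k := by
    rw [Subgroup.relIndex_top_right, ← hker, Subgroup.index_ker,
      MonoidHom.range_eq_top.2 (AlgEquiv.restrictNormalHom_surjective (AlgebraicClosure K)),
      Subgroup.card_top, hk]
  have hmul := Subgroup.relIndex_mul_relIndex E.fixingSubgroup M.fixingSubgroup ⊤ hle le_top
  obtain ⟨n, hnk, hn⟩ := (Nat.dvd_prime_pow hp).1
    (htop ▸ Dvd.intro _ hmul : E.fixingSubgroup.relIndex M.fixingSubgroup ∣ p ^ k)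
  have key : ∀ (j : ℕ) (d : ℕ) (G : Subgroup (AlgebraicClosure K ≃ₐ[K] AlgebraicClosure K)),
      M.fixingSubgroup ≤ G → E.fixingSubgroup.relIndex G = p ^ (n + j) → P d G →
      P (p ^ j * d) M.fixingSubgroup := by
    intro j
    induction j with
    | zero =>
      intro d G hMG hj hP
      have h1 := Subgroup.relIndex_mul_relIndex E.fixingSubgroup M.fixingSubgroup G hle hMG
      rw [hn, hj, add_zero] at h1
      have h3 : M.fixingSubgroup.relIndex G = 1 :=
        Nat.eq_of_mul_eq_mul_left (pow_pos hp.pos n) (by rw [h1, mul_one])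
      have hG : G = M.fixingSubgroup := le_antisymm (Subgroup.relIndex_eq_one.1 h3) hMG
      subst hG
      rwa [pow_zero, one_mul]
    | succ j ih =>
      intro d G hMG hj hP
      obtain ⟨G', hMG', hj', hc⟩ := v10_group hp E.fixingSubgroup M.fixingSubgroup G hle hMG
        hn (k := n + j) (by rw [hj]; rfl) (Nat.le_add_right n j)
      have := ih (p * d) G' hMG' hj' (hstep d G' G hMG' hc hP)
      rwa [← mul_assoc, ← pow_succ] at this
  have hfin : Module.finrank K M = p ^ (k - n) * 1 := by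
    rw [IntermediateField.finrank_eq_fixingSubgroup_index, ← Subgroup.relIndex_top_right, mul_one]
    rw [hn, htop] at hmul
    refine Nat.eq_of_mul_eq_mul_left (pow_pos hp.pos n) ?_
    rw [hmul, ← pow_add, Nat.add_sub_cancel' hnk]
  rw [hfin]
  exact key (k - n) 1 ⊤ le_top (by rw [htop, Nat.add_sub_cancel' hnk]) h0

/-- For a subgroup `S` which acts transitively on the embeddings of `L`, so does `S ∩ Gal(Kbar/M)`. -/
theorem v10_trans_sub {p : ℕ} (hp : p.Prime) (L M E : IntermediateField K (AlgebraicClosure K))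
    [FiniteDimensional K L] [FiniteDimensional K M] [FiniteDimensional K E] [IsGalois K E]
    (hn : (Module.finrank K L).Coprime p) (hME : M ≤ E) (hE : IsPGroup p (E ≃ₐ[K] E))
    (S : Subgroup (AlgebraicClosure K ≃ₐ[K] AlgebraicClosure K)) (hS : TransOn L S) :
    TransOn L (S ⊓ M.fixingSubgroup) := by
  refine v10_ind hp M E hME hE (fun _ G => TransOn L (S ⊓ G)) (by rwa [inf_top_eq]) ?_
  intro d G' G _ hc hG
  have := v10_trans L hp hn (S ⊓ G) G' G hG inf_le_right hc
  rwa [inf_assoc, inf_eq_right.2 hc.le] at this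

end grp

end Pool.Agent.H.MP_ac3185_nt
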