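import Pool.Agent.H.MP_ac3185_nt.V10.Relax
import Pool.Agent.H.MP_ac3185_nt.V10.Grp
import Pool.Agent.H.MP_ac3185_nt.V9.FinalP
import Pool.Agent.H.MP_ac3185_nt.V4.Types

/-! Existence of the layers over all fields `M` contained in a Galois `p`-extension of `K` which is
unramified outside a finite set, for every abelian variety `A` and every prime number `p`. -/

set_option autoImplicit false

open CategoryTheory AlgebraicGeometry NumberField IsDedekindDomain
open scoped MonObj Pointwise

namespace Pool.Agent.H.MP_ac3185_nt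

universe u

variable {K : Type u} [Field K] [NumberField K]

omit [NumberField K] in
/-- Composition of the layers. -/
theorem v10_towerChain (p : ℕ) (L M : IntermediateField K (AlgebraicClosure K))
    (A : Over (Spec (.of K))) [GrpObj A] [IsAbVar A] (r : ℕ)
    (N : ℕ → AddSubgroup (Pts A (AlgebraicClosure K)))
    (ψ : ℕ → Pts A (AlgebraicClosure K) → AlgebraicClosure K)
    (F : ℕ → IntermediateField K (AlgebraicClosure K))
    (T O : ∀ i, Set (HeightOneSpectrum (𝓞 (F i)))) (ρ : ℕ → ℕ) (h0 : N 0 = ⊥)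
    (hF : ∀ i, FiniteDimensional K (F i))
    (hl : ∀ i < r, TowerLayer p L M (F i) (T i) (O i) (N i) (N (i + 1)) (ψ i))
    (hρ : ∀ i < r, PowClasses p
      (towerClasses p L (F i) (relFam (F i) (N (i + 1)) (ψ i)) (T i) (O i)) (p ^ ρ i)) :
    TowerChain p L M A (N r) (∑ i ∈ Finset.range r, ρ i) := by
  induction r with
  | zero =>
    rw [Finset.sum_range_zero, h0]
    exact TowerChain.zero
  | succ r ih =>
    rw [Finset.sum_range_succ]
    have hFr := hF r
    exact TowerChain.step (N r) (N (r + 1)) (ψ r) _ (ρ r) (F r) (T r) (O r)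
      (ih (fun i hi => hl i (Nat.lt_succ_of_lt hi)) (fun i hi => hρ i (Nat.lt_succ_of_lt hi)))
      (hl r (Nat.lt_succ_self r)) (hρ r (Nat.lt_succ_self r))

omit [NumberField K] in
/-- A layer over `M`, if `L` is linearly disjoint from the field of the points killed by `p` and the
`p`-th roots of unity, `F` and `M` are linearly disjoint and `M F / F` is unramified outside `O`. -/
theorem v10_layerAt {p : ℕ} {L M F : IntermediateField K (AlgebraicClosure K)}
    {A : Over (Spec (.of K))} [GrpObj A] [IsAbVar A]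
    {N N' : AddSubgroup (Pts A (AlgebraicClosure K))}
    {ψ : Pts A (AlgebraicClosure K) → AlgebraicClosure K} (hf : CharFrame p F N N' ψ)
    (h2 : ∀ x ∈ N', p • x = 0)
    (hlin : ∀ s, ∃ t ∈ L.fixingSubgroup, (∀ x : Pts A (AlgebraicClosure K), p • x = 0 →
      act A (t⁻¹ * s) x = x) ∧ ∀ z : AlgebraicClosure K, z ^ p = 1 → (t⁻¹ * s) z = z)
    (hFM : TransOn F M.fixingSubgroup) (O : Set (HeightOneSpectrum (𝓞 F)))
    (hM : ∀ v ∉ O, UnramifiedOver M F v)
    (hO : ∀ v ∉ O, (p : 𝓞 F) ∉ v.asIdeal ∧ ∀ 𝔓, PrimeOver F 𝔓 v → EtaleChar F N' ψ 𝔓) :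
    TowerLayer p L M F ∅ O N N' ψ where
  toCharFrame := hf
  disj := hFM
  lin := fun s => by
    obtain ⟨t, ht, h, hz⟩ := hlin s
    refine ⟨t, ht, fun x hx => ?_, hz⟩
    rw [h x (h2 x hx), sub_self]
    exact N.zero_mem
  unr := fun v hv => Or.inr (hM v hv)
  unrT := fun v _ hvT => absurd hvT (Set.notMem_empty v)
  etale := fun v _ hvT => absurd hvT (Set.notMem_empty v)
  above := fun v hv _ hpv => absurd hpv (hO v hv).1
  away := fun v hv _ => Or.inr (Or.inl (hO v hv).2)

/-- For every abelian variety `A` over `K` and every prime number `p` there are a finite set `S₀` of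
places of `K` such that `A` has good reduction outside `S₀`, and fields `F_i`, `i < r`, in
`K(A[p], μ_p)` of degree prime to `p` over `K`, such that for all `L / K` of degree prime to `p` which
are linearly disjoint from `K(A[p], μ_p)`, all finite sets `S` of places which contain `S₀` and all `M`
contained in a Galois extension of `K` whose degree is a power of `p`, `M / K` unramified outside `S`,
there is a chain over `M` for `A[p]` with an explicit bound, which does not depend on `M`. -/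
theorem v10_final {p : ℕ} (hp : p.Prime) (A : Over (Spec (.of K))) [GrpObj A] [IsAbVar A] :
    ∃ (S₀ : Finset (HeightOneSpectrum (𝓞 K))) (r : ℕ)
      (F : ℕ → IntermediateField K (AlgebraicClosure K))
      (S' : Finset (HeightOneSpectrum (𝓞 K)) → ∀ i, Finset (HeightOneSpectrum (𝓞 (F i)))),
      (∀ v ∉ S₀, ∀ 𝔓, Above 𝔓 v → GoodAt A 𝔓) ∧
      (∀ S i v, v ∈ S' S i ↔ ∃ v₀ ∈ S, Divides (F i) v v₀) ∧
      (∀ i < r, FiniteDimensional K (F i) ∧ (Module.finrank K (F i)).Coprime p ∧
        ∀ s, (∀ x : Pts A (AlgebraicClosure K), p • x = 0 → act A s x = x) →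
          (∀ z : AlgebraicClosure K, z ^ p = 1 → s z = z) → s ∈ (F i).fixingSubgroup) ∧
      ∀ (L : IntermediateField K (AlgebraicClosure K)) [FiniteDimensional K L],
        (Module.finrank K L).Coprime p →
        (∀ s, ∃ t ∈ L.fixingSubgroup, (∀ x : Pts A (AlgebraicClosure K), p • x = 0 →
          act A (t⁻¹ * s) x = x) ∧ ∀ z : AlgebraicClosure K, z ^ p = 1 → (t⁻¹ * s) z = z) →
        ∀ S : Finset (HeightOneSpectrum (𝓞 K)), S₀ ⊆ S →
        ∀ (M E : IntermediateField K (AlgebraicClosure K)) [FiniteDimensional K M]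
          [FiniteDimensional K E] [IsGalois K E], M ≤ E → IsPGroup p (E ≃ₐ[K] E) →
        (∀ v ∉ S, UnramifiedIn M v) →
        ∀ N : AddSubgroup (Pts A (AlgebraicClosure K)), (∀ x, x ∈ N ↔ p • x = 0) →
          TowerChain p L M A N
            (∑ i ∈ Finset.range r, (rhoBoundP p L (F i) + excessOver L (F i) (S' S i))) := by
  classical
  obtain ⟨S₁, r, N, ψ, F, h0, hr, h2, hF, hi⟩ := v9_exists hp A
  obtain ⟨S₂, hS₂⟩ := v8_bad A
  have hfin : ∀ (S : Finset (HeightOneSpectrum (𝓞 K))) (i : ℕ),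
      {v : HeightOneSpectrum (𝓞 (F i)) | ∃ v₀ ∈ S, Divides (F i) v v₀}.Finite :=
    fun S i => by
      have hFi := hF i
      exact v8x_finite (F i) S
  refine ⟨S₁ ∪ S₂, r, F, fun S i => (hfin S i).toFinset, fun v hv => hS₂ v fun h =>
    hv (Finset.mem_union_right _ h), fun S i v => (hfin S i).mem_toFinset, fun i hir =>
    ⟨hF i, (hi i hir).1.cop, (hi i hir).2.1⟩,
    fun L _ hn hlin S hS M E _ _ _ hME hE hM Np hNp => ?_⟩
  have hNr : Np = N r := by
    ext x
    rw [hNp, hr]
  rw [hNr]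
  refine v10_towerChain p L M A r N ψ F (fun _ => ∅)
    (fun i => ((hfin S i).toFinset : Set (HeightOneSpectrum (𝓞 (F i))))) _ h0 hF
    (fun i hir => ?_) (fun i hir => ?_)
  · obtain ⟨hf, -, -, hEt⟩ := hi i hir
    have hFi := hF i
    have hdisj : TransOn (F i) M.fixingSubgroup := by
      have h1 : TransOn (F i) (⊤ : Subgroup (AlgebraicClosure K ≃ₐ[K] AlgebraicClosure K)) :=
        fun s => ⟨s, Subgroup.mem_top s, by rw [inv_mul_cancel]; exact one_mem _⟩
      have h2 := v10_trans_sub hp (F i) M E hf.cop hME hE ⊤ h1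
      rwa [top_inf_eq] at h2
    have hnot : ∀ v : HeightOneSpectrum (𝓞 (F i)),
        v ∉ ((hfin S i).toFinset : Set (HeightOneSpectrum (𝓞 (F i)))) →
        ∀ v₀ ∈ S, ¬ Divides (F i) v v₀ := fun v hv v₀ hv₀ hd =>
      hv (Finset.mem_coe.2 ((hfin S i).mem_toFinset.2 ⟨v₀, hv₀, hd⟩))
    refine v10_layerAt hf.toCharFrame (h2 _) hlin hdisj _ (fun v hv 𝔓 h𝔓 s hs _ => ?_)
      (fun v hv => hEt v fun v₀ hv₀ hd =>
        hnot v hv v₀ (hS (Finset.mem_union_left _ hv₀)) hd)
    obtain ⟨v₀, hv₀⟩ := v8x_under (F i) v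
    exact hM v₀ (fun h => hnot v hv v₀ h hv₀) 𝔓 (v8x_above hv₀ h𝔓) hs
  · obtain ⟨hf, -, hu, -⟩ := hi i hir
    have hFi := hF i
    have hT : TransOn L (F i).fixingSubgroup := by
      refine v9_transOn L (F i) hf.toCharFrame fun s => ?_
      obtain ⟨t, ht, h, hz⟩ := hlin s
      refine ⟨t, ht, fun x hx => ?_, hz⟩
      rw [h x (h2 _ x hx), sub_self]
      exact (N i).zero_mem
    exact v10_relax L (F i) hp hn hT _ ∅ _ (fun v _ => Set.notMem_empty v) _
      (v9_rhoBound hp L (F i) hn hf.cop hT (relFam (F i) (N (i + 1)) (ψ i)) ∅ hu)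

end Pool.Agent.H.MP_ac3185_nt
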