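import Pool.Agent.H.MP_ac3185_nt.V9.Gen

/-! The class modulo `p`-th powers attached to a point which is rational over `LM` modulo `N'`. -/

set_option autoImplicit false

open CategoryTheory AlgebraicGeometry NumberField IsDedekindDomain
open scoped MonObj

namespace Pool.Agent.H.MP_ac3185_nt

universe u

section rep

variable {K : Type u} [Field K] {A : Over (Spec (.of K))} [GrpObj A] [IsAbVar A] {p : ℕ}
  (L F : IntermediateField K (AlgebraicClosure K))
  (G : Subgroup (AlgebraicClosure K ≃ₐ[K] AlgebraicClosure K))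
  {N N' : AddSubgroup (Pts A (AlgebraicClosure K))}
  {ψ : Pts A (AlgebraicClosure K) → AlgebraicClosure K}

/-- `L` and the fields given by `G` and `F` are linearly disjoint. -/
theorem v10_transOn (hf : CharFrame p F N N' ψ)
    (hlin : ∀ s, ∃ t ∈ G, t ∈ v9Triv hf ∧ t⁻¹ * s ∈ L.fixingSubgroup) :
    TransOn L (F.fixingSubgroup ⊓ G) := by
  intro s
  obtain ⟨t, htG, ht, h1⟩ := hlin s
  exact ⟨t, ⟨hf.sub t ht.1 ht.2, htG⟩, h1⟩

/-- Representatives of the cosets of `Gal(Kbar/F)` in `Gal(Kbar/L) ∩ G`. -/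
theorem v10_transF (hf : CharFrame p F N N' ψ)
    (hlin : ∀ s, ∃ t ∈ G, t ∈ v9Triv hf ∧ t⁻¹ * s ∈ L.fixingSubgroup) (hF : TransOn F G) :
    TransOn F (L.fixingSubgroup ⊓ G) := by
  intro s
  obtain ⟨g, hg, hgs⟩ := hF s
  obtain ⟨t, htG, ht, h1⟩ := hlin g⁻¹
  refine ⟨(t⁻¹ * g⁻¹)⁻¹, Subgroup.mem_inf.2 ⟨inv_mem h1,
    inv_mem (mul_mem (inv_mem htG) (inv_mem hg))⟩, ?_⟩
  have h2 : ((t⁻¹ * g⁻¹)⁻¹)⁻¹ * s = t⁻¹ * (g⁻¹ * s) := by group
  rw [h2]
  exact mul_mem (inv_mem (hf.sub t ht.1 ht.2)) hgs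

/-- The core condition for the subgroup `G`. -/
theorem v10_core (hf : CharFrame p F N N' ψ) (hF : TransOn F G)
    {x : Pts A (AlgebraicClosure K)} (hx : x ∈ N') (h : ∀ g ∈ G, ψ (act A g x) = 1) : x ∈ N := by
  refine hf.core x hx fun g => ?_
  obtain ⟨m, hm, hmg⟩ := hF g⁻¹
  have h1 := h m⁻¹ (inv_mem hm)
  have h2 := hf.gal _ (inv_mem hmg) _ (hf.stabN' m⁻¹ x hx)
  rw [← v2s_act_mul, h1, map_one] at h2
  have h3 : (m⁻¹ * g⁻¹)⁻¹ * m⁻¹ = g := by group
  rwa [h3] at h2

end rep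

section split

variable {K : Type u} [Field K] {A : Over (Spec (.of K))} [GrpObj A] [IsAbVar A] {p : ℕ}
  (L F : IntermediateField K (AlgebraicClosure K))
  (G : Subgroup (AlgebraicClosure K ≃ₐ[K] AlgebraicClosure K))
  {N N' : AddSubgroup (Pts A (AlgebraicClosure K))}
  {ψ : Pts A (AlgebraicClosure K) → AlgebraicClosure K}

/-- If `β` is rational over `LM` modulo `N'` and `ψ(s β - β) = 1` for all `s` in `Gal(Kbar/LFM)`, then
`β` is the sum of a point which is rational over `M` modulo `N'` and a point rational over `LM`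
modulo `N`; here `G = Gal(Kbar/M)`. -/
theorem v10_split [CharZero K] [FiniteDimensional K L]
    (hn : (Module.finrank K L).Coprime p) (hf : CharFrame p F N N' ψ) (hF : TransOn F G)
    (hlin : ∀ s, ∃ t ∈ G, t ∈ v9Triv hf ∧ t⁻¹ * s ∈ L.fixingSubgroup)
    {β : Pts A (AlgebraicClosure K)} (hβ : β ∈ ratPts A (L.fixingSubgroup ⊓ G) N')
    (hH : ∀ s ∈ L.fixingSubgroup, s ∈ F.fixingSubgroup → s ∈ G → ψ (act A s β - β) = 1) :
    ∃ y0 x, y0 ∈ ratPts A G N' ∧ x ∈ ratPts A (L.fixingSubgroup ⊓ G) N ∧ β = y0 + x := by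
  classical
  have hfi := vn_finiteIndex L
  let _ := L.fixingSubgroup.fintypeQuotientOfFiniteIndex
  -- modulo `N`, `β` is fixed by the elements which act trivially on `N' / N`
  have hfix : ∀ v ∈ L.fixingSubgroup, v ∈ G → v ∈ v9Triv hf → act A v β - β ∈ N := by
    intro v hv hvG hvW
    refine v10_core F G hf hF (hβ v ⟨hv, hvG⟩) fun g0 hg0 => ?_
    obtain ⟨t, htG, ht, hts⟩ := hlin g0⁻¹
    set l := t⁻¹ * g0⁻¹ with hl
    have hlG : l ∈ G := mul_mem (inv_mem htG) (inv_mem hg0)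
    have hlL : l⁻¹ ∈ L.fixingSubgroup := inv_mem hts
    have hlG' : l⁻¹ ∈ G := inv_mem hlG
    have hv' : l⁻¹ * v * l ∈ v9Triv hf := by
      have h2 := v9_triv_conj hf (s := l⁻¹) hvW
      rwa [inv_inv] at h2
    have hvL : l⁻¹ * v * l ∈ L.fixingSubgroup := mul_mem (mul_mem hlL hv) hts
    have hvG' : l⁻¹ * v * l ∈ G := mul_mem (mul_mem hlG' hvG) hlG
    have e1 : ψ (act A l⁻¹ (act A v β - β)) = 1 := by
      have h4 : act A l⁻¹ (act A v β - β) = (act A (l⁻¹ * v * l) β - β) +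
          (act A (l⁻¹ * v * l) (act A l⁻¹ β - β) - (act A l⁻¹ β - β)) := by
        have h5 : act A (l⁻¹ * v * l) (act A l⁻¹ β) = act A l⁻¹ (act A v β) := by
          rw [← v2s_act_mul, ← v2s_act_mul]
          congr 1
          group
        rw [v2s_act_sub, v2s_act_sub, h5]
        abel
      rw [h4, v9_congr hf (hβ _ ⟨hvL, hvG'⟩) (by
        rw [add_sub_cancel_left]
        exact hv'.1 _ (hβ _ ⟨hlL, hlG'⟩))]
      exact hH _ hvL (hf.sub _ hv'.1 hv'.2) hvG'
    have e2 : act A g0 (act A v β - β) - act A l⁻¹ (act A v β - β) ∈ N := by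
      have h5 : g0 = l⁻¹ * t⁻¹ := by
        rw [hl]
        group
      have h6 : t⁻¹ ∈ v9Triv hf := inv_mem ht
      have h7 := hf.stabN l⁻¹ _ (h6.1 _ (hβ v ⟨hv, hvG⟩))
      rw [v2s_act_sub, ← v2s_act_mul, ← h5] at h7
      exact h7
    rw [v9_congr hf (hf.stabN' _ _ (hβ v ⟨hv, hvG⟩)) e2]
    exact e1
  -- representatives which act trivially on `N' / N`
  have hrep : ∀ q : (AlgebraicClosure K ≃ₐ[K] AlgebraicClosure K) ⧸ L.fixingSubgroup,
      ∃ w, w ∈ G ∧ w ∈ v9Triv hf ∧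
        (w : (AlgebraicClosure K ≃ₐ[K] AlgebraicClosure K) ⧸ L.fixingSubgroup) = q := by
    intro q
    obtain ⟨g, rfl⟩ := QuotientGroup.mk_surjective q
    obtain ⟨t, htG, ht, hts⟩ := hlin g
    refine ⟨t, htG, ht, ?_⟩
    rw [QuotientGroup.eq]
    exact hts
  choose ρ hρG hρ hρq using hrep
  obtain ⟨β2, hβ2⟩ : ∃ β2, β2 = ∑ q, act A (ρ q) β := ⟨_, rfl⟩
  have hβ2G : β2 ∈ ratPts A G N' := by
    rw [hβ2]
    exact v8_trace L G hf.stabN' ρ hρG hρq β hβ
  have hcard : Fintype.card ((AlgebraicClosure K ≃ₐ[K] AlgebraicClosure K) ⧸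
      L.fixingSubgroup) = Module.finrank K L := vn_card L
  have hdiff : ∀ g ∈ L.fixingSubgroup, g ∈ G →
      (act A g β2 - β2) - Module.finrank K L • (act A g β - β) ∈ N := by
    intro g hg hgG
    let w : (AlgebraicClosure K ≃ₐ[K] AlgebraicClosure K) ⧸ L.fixingSubgroup →
      AlgebraicClosure K ≃ₐ[K] AlgebraicClosure K := fun q => (ρ (g • q))⁻¹ * (g * ρ q)
    have hgw : ∀ q, g * ρ q = ρ (g • q) * w q := fun q => by
      show g * ρ q = ρ (g • q) * ((ρ (g • q))⁻¹ * (g * ρ q))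
      rw [mul_inv_cancel_left]
    have hwL : ∀ q, w q ∈ L.fixingSubgroup := by
      intro q
      show (ρ (g • q))⁻¹ * (g * ρ q) ∈ L.fixingSubgroup
      have h1 : ((g * ρ q : AlgebraicClosure K ≃ₐ[K] AlgebraicClosure K) :
          (AlgebraicClosure K ≃ₐ[K] AlgebraicClosure K) ⧸ L.fixingSubgroup) = g • q := by
        rw [← smul_eq_mul, ← MulAction.Quotient.smul_coe, hρq]
      rw [← QuotientGroup.eq, hρq, h1]
    have hwG : ∀ q, w q ∈ G := fun q =>
      mul_mem (inv_mem (hρG _)) (mul_mem hgG (hρG q))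
    have hwg : ∀ q, act A (w q) β - act A g β ∈ N := by
      intro q
      have h1 : w q * g⁻¹ ∈ v9Triv hf := by
        have h2 : w q * g⁻¹ = (ρ (g • q))⁻¹ * (g * ρ q * g⁻¹) := by
          show (ρ (g • q))⁻¹ * (g * ρ q) * g⁻¹ = _
          group
        rw [h2]
        exact mul_mem (inv_mem (hρ _)) (v9_triv_conj hf (hρ q))
      have h2 : w q * g⁻¹ ∈ L.fixingSubgroup := mul_mem (hwL q) (inv_mem hg)
      have h2' : w q * g⁻¹ ∈ G := mul_mem (hwG q) (inv_mem hgG)
      have h3 : w q = (w q * g⁻¹) * g := by group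
      have h4 := N.add_mem (h1.1 _ (hβ g ⟨hg, hgG⟩)) (hfix _ h2 h2' h1)
      rw [v2s_act_sub, ← v2s_act_mul, ← h3] at h4
      have h5 : act A (w q) β - act A (w q * g⁻¹) β - (act A g β - β) +
          (act A (w q * g⁻¹) β - β) = act A (w q) β - act A g β := by abel
      rwa [h5] at h4
    have h1 : ∀ q, act A g (act A (ρ q) β) - (act A (ρ (g • q)) β + (act A g β - β)) ∈ N := by
      intro q
      have h2 := N.add_mem ((hρ (g • q)).1 _ (hβ g ⟨hg, hgG⟩))
        (hf.stabN (ρ (g • q)) _ (hwg q))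
      rw [v2s_act_sub, v2s_act_sub, ← v2s_act_mul _ _ (w q), ← hgw, v2s_act_mul] at h2
      have h5 : act A (ρ (g • q)) (act A g β) - act A (ρ (g • q)) β - (act A g β - β) +
          (act A g (act A (ρ q) β) - act A (ρ (g • q)) (act A g β)) =
          act A g (act A (ρ q) β) - (act A (ρ (g • q)) β + (act A g β - β)) := by abel
      rwa [h5] at h2
    have e2 : ∑ q, act A (ρ (g • q)) β = ∑ q, act A (ρ q) β :=
      Equiv.sum_comp (MulAction.toPerm g) (fun q : (AlgebraicClosure K ≃ₐ[K]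
        AlgebraicClosure K) ⧸ L.fixingSubgroup => act A (ρ q) β)
    have h2 := N.sum_mem (t := Finset.univ) fun q _ => h1 q
    rw [Finset.sum_sub_distrib, Finset.sum_add_distrib, e2, Finset.sum_const, Finset.card_univ,
      hcard, ← v2s_act_sum, ← hβ2] at h2
    have h5 : act A g β2 - (β2 + Module.finrank K L • (act A g β - β)) =
        (act A g β2 - β2) - Module.finrank K L • (act A g β - β) := by abel
    rwa [h5] at h2
  -- Bezout
  obtain ⟨a, b, hab⟩ : ∃ a b : ℤ, a * Module.finrank K L + b * p = 1 := by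
    have h1 := Nat.gcd_eq_gcd_ab (Module.finrank K L) p
    rw [hn, Nat.cast_one] at h1
    exact ⟨(Module.finrank K L).gcdA p, (Module.finrank K L).gcdB p, by
      rw [h1, mul_comm, mul_comm ((Module.finrank K L).gcdB p)]⟩
  have hzs : ∀ (s : AlgebraicClosure K ≃ₐ[K] AlgebraicClosure K) (k : ℤ)
      (x : Pts A (AlgebraicClosure K)), act A s (k • x) = k • act A s x :=
    fun s k x => map_zsmul (galHom A s) k x
  refine ⟨a • β2, β - a • β2, (ratPts A G N').zsmul_mem hβ2G a, fun s hs => ?_, by abel⟩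
  have h1 := N.neg_mem (N.zsmul_mem (hdiff s hs.1 hs.2) a)
  have h2 : b • (p • (act A s β - β)) ∈ N := N.zsmul_mem (v9_smul_mem hf (hβ s hs)) b
  have h3 := N.add_mem h1 h2
  have h4 : -(a • (act A s β2 - β2 - Module.finrank K L • (act A s β - β))) +
      b • (p • (act A s β - β)) = act A s (β - a • β2) - (β - a • β2) := by
    have h5 : act A s β - β = (a * Module.finrank K L + b * p : ℤ) • (act A s β - β) := by
      rw [hab, one_smul]
    have h6 : act A s (β - a • β2) - (β - a • β2) =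
        (act A s β - β) - a • (act A s β2 - β2) := by
      rw [v2s_act_sub, hzs, smul_sub]
      abel
    rw [h6]
    conv_rhs => rw [h5]
    rw [add_smul, mul_smul, mul_smul, natCast_zsmul, natCast_zsmul, smul_sub a]
    abel
  rwa [h4] at h3

end split

section rel

variable {K : Type u} [Field K] {A : Over (Spec (.of K))} [GrpObj A] [IsAbVar A] {p : ℕ}
  (L F : IntermediateField K (AlgebraicClosure K))
  (G : Subgroup (AlgebraicClosure K ≃ₐ[K] AlgebraicClosure K))
  {N N' : AddSubgroup (Pts A (AlgebraicClosure K))}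
  {ψ : Pts A (AlgebraicClosure K) → AlgebraicClosure K}

/-- The product of the powers of the conjugates of `u ^ p` over a relation is a `p`-th power. -/
theorem v10_rel [CharZero K] [FiniteDimensional K F] (hf : CharFrame p F N N' ψ)
    (hT' : TransOn F (L.fixingSubgroup ⊓ G))
    (f : ((AlgebraicClosure K ≃ₐ[K] AlgebraicClosure K) ⧸ F.fixingSubgroup) → ℤ)
    (hrel : ∀ x ∈ N', ∏ᶠ q, conjChar F ψ q x ^ f q = 1)
    {β : Pts A (AlgebraicClosure K)} {u : AlgebraicClosure K}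
    (hβ : β ∈ ratPts A (L.fixingSubgroup ⊓ G) N')
    (hu : ∀ s ∈ L.fixingSubgroup, s ∈ F.fixingSubgroup → s ∈ G →
      s u = ψ (act A s β - β) * u) :
    ∃ d : AlgebraicClosure K,
      (∀ s ∈ L.fixingSubgroup, s ∈ G → (∀ q, f (s • q) = f q) → s d = d) ∧
      ∏ᶠ q, repG F (L.fixingSubgroup ⊓ G) q (u ^ p) ^ f q = d ^ p := by
  classical
  have hfi := vn_finiteIndex F
  let _ := F.fixingSubgroup.fintypeQuotientOfFiniteIndex
  set τ := repG F (L.fixingSubgroup ⊓ G) with hτ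
  have hτL : ∀ q, τ q ∈ L.fixingSubgroup ⊓ G := fun q =>
    (v4_rep F (L.fixingSubgroup ⊓ G) hT' q).1
  have hτq : ∀ q, (τ q : (AlgebraicClosure K ≃ₐ[K] AlgebraicClosure K) ⧸ F.fixingSubgroup) = q :=
    fun q => (v4_rep F (L.fixingSubgroup ⊓ G) hT' q).2
  have hk : ∀ q, act A (τ q) β - β ∈ N' := fun q => hβ _ (hτL q)
  let κ : ((AlgebraicClosure K ≃ₐ[K] AlgebraicClosure K) ⧸ F.fixingSubgroup) →
    AlgebraicClosure K := fun q => conjChar F ψ q (act A (τ q) β - β)
  have hκ0 : ∀ q, κ q ≠ 0 := fun q => v9_conj_ne hf q (hk q)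
  have hκp : ∀ q, κ q ^ p = 1 := fun q => v9_conj_pow hf q (hk q)
  obtain ⟨E, hE⟩ : ∃ E, E = ∏ q, κ q ^ f q := ⟨_, rfl⟩
  obtain ⟨U, hU⟩ : ∃ U, U = ∏ q, τ q u ^ f q := ⟨_, rfl⟩
  have hE0 : E ≠ 0 := by
    rw [hE, Finset.prod_ne_zero_iff]
    exact fun q _ => zpow_ne_zero _ (hκ0 q)
  have hEp : E ^ p = 1 := by
    rw [hE, ← Finset.prod_pow]
    refine Finset.prod_eq_one fun q _ => ?_
    rw [← zpow_natCast, ← zpow_mul, mul_comm, zpow_mul, zpow_natCast, hκp, one_zpow]
  refine ⟨U / E, fun s hs hsG hsf => ?_, ?_⟩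
  swap
  · rw [finprod_eq_prod_of_fintype, div_pow, hEp, div_one, hU, ← Finset.prod_pow]
    refine Finset.prod_congr rfl fun q _ => ?_
    rw [map_pow, ← zpow_natCast, ← zpow_natCast, ← zpow_mul, ← zpow_mul, mul_comm]
  -- the action of `s`
  have hy : act A s β - β ∈ N' := hβ s ⟨hs, hsG⟩
  have h1 : ∀ q, s (τ q u) = s (κ q) * conjChar F ψ (s • q) (act A s β - β) / κ (s • q) *
      τ (s • q) u := by
    intro q
    obtain ⟨w, hw⟩ : ∃ w, w = (τ (s • q))⁻¹ * (s * τ q) := ⟨_, rfl⟩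
    have hsw : s * τ q = τ (s • q) * w := by rw [hw, mul_inv_cancel_left]
    have hwF : w ∈ F.fixingSubgroup := by
      have h1 : ((s * τ q : AlgebraicClosure K ≃ₐ[K] AlgebraicClosure K) :
          (AlgebraicClosure K ≃ₐ[K] AlgebraicClosure K) ⧸ F.fixingSubgroup) = s • q := by
        rw [← smul_eq_mul, ← MulAction.Quotient.smul_coe, hτq]
      rw [hw, ← QuotientGroup.eq, hτq, h1]
    have hwL : w ∈ L.fixingSubgroup ⊓ G := by
      rw [hw]
      exact mul_mem (inv_mem (hτL _)) (mul_mem ⟨hs, hsG⟩ (hτL q))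
    have h2 : s (τ q u) = τ (s • q) (ψ (act A w β - β)) * τ (s • q) u := by
      rw [← AlgEquiv.mul_apply, hsw, AlgEquiv.mul_apply, hu w hwL.1 hwF hwL.2, map_mul]
    have h3 : τ (s • q) (ψ (act A w β - β)) =
        conjChar F ψ (s • q) (act A (τ (s • q)) (act A w β - β)) := by
      have h4 := v9_conj hf (τ (s • q)) (hf.stabN' (τ (s • q)) _ (hβ w hwL))
      rw [hτq, ← v2s_act_mul, inv_mul_cancel, v2s_act_one] at h4
      exact h4.symm
    have h4 : act A (τ (s • q)) (act A w β - β) =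
        act A s (act A (τ q) β - β) + (act A s β - β) - (act A (τ (s • q)) β - β) := by
      rw [v2s_act_sub, ← v2s_act_mul, ← hsw, v2s_act_sub, ← v2s_act_mul]
      abel
    rw [h2, h3, h4, v9_conj_sub hf _ (N'.add_mem (hf.stabN' s _ (hk q)) hy) (hk _),
      v9_conj_mul hf _ (hf.stabN' s _ (hk q)) hy, v9_conj_act hf s q (hk q)]
  have hre : ∀ φ : (AlgebraicClosure K ≃ₐ[K] AlgebraicClosure K) ⧸ F.fixingSubgroup →
      AlgebraicClosure K, ∏ q, φ (s • q) = ∏ q, φ q := fun φ =>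
    Equiv.prod_comp (MulAction.toPerm s) φ
  have hy1 : ∏ q, conjChar F ψ (s • q) (act A s β - β) ^ f q = 1 := by
    have h2 := hre fun q => conjChar F ψ q (act A s β - β) ^ f q
    rw [← finprod_eq_prod_of_fintype (fun q => conjChar F ψ q (act A s β - β) ^ f q),
      hrel _ hy] at h2
    rw [← h2]
    exact Finset.prod_congr rfl fun q _ => by rw [hsf q]
  have hκ1 : ∏ q, κ (s • q) ^ f q = E := by
    rw [hE, ← hre fun q => κ q ^ f q]
    exact Finset.prod_congr rfl fun q _ => by rw [hsf q]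
  have hU1 : ∏ q, τ (s • q) u ^ f q = U := by
    rw [hU, ← hre fun q => τ q u ^ f q]
    exact Finset.prod_congr rfl fun q _ => by rw [hsf q]
  have hsE : s E = ∏ q, s (κ q) ^ f q := by
    rw [hE, map_prod]
    exact Finset.prod_congr rfl fun q _ => map_zpow₀ s _ _
  have hsU : s U = s E / E * U := by
    rw [hU, map_prod, hsE, ← hκ1, ← hU, ← hU1]
    have h2 : ∀ q, s (τ q u ^ f q) = s (κ q) ^ f q *
        conjChar F ψ (s • q) (act A s β - β) ^ f q / κ (s • q) ^ f q * τ (s • q) u ^ f q := by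
      intro q
      rw [map_zpow₀, h1 q, mul_zpow, div_zpow, mul_zpow]
    rw [Finset.prod_congr rfl fun q _ => h2 q, Finset.prod_mul_distrib, Finset.prod_div_distrib,
      Finset.prod_mul_distrib, hy1, mul_one]
  have hsE0 : s E ≠ 0 := (map_ne_zero s).2 hE0
  rw [map_div₀, hsU]
  field_simp

end rel

section pt

variable {K : Type u} [Field K] {A : Over (Spec (.of K))} [GrpObj A] [IsAbVar A]
  {p : ℕ} (L F M : IntermediateField K (AlgebraicClosure K))
  {N N' : AddSubgroup (Pts A (AlgebraicClosure K))}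
  {ψ : Pts A (AlgebraicClosure K) → AlgebraicClosure K}

/-- The cocycle attached to a point is given by an element of `Kbar`. -/
theorem v10_data [CharZero K] [FiniteDimensional K L] [FiniteDimensional K F]
    [FiniteDimensional K M] (hf : CharFrame p F N N' ψ) (b : Pts A (AlgebraicClosure K))
    (hb : b ∈ ratPts A (L.fixingSubgroup ⊓ M.fixingSubgroup) N') :
    ∃ r : AlgebraicClosure K, r ≠ 0 ∧ ∀ s ∈ L.fixingSubgroup, s ∈ F.fixingSubgroup →
      s ∈ M.fixingSubgroup → s r = ψ (act A s b - b) * r := by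
  have hfd1 : FiniteDimensional K (L ⊔ F : IntermediateField K (AlgebraicClosure K)) :=
    IntermediateField.finiteDimensional_sup L F
  have hfd : FiniteDimensional K (L ⊔ F ⊔ M : IntermediateField K (AlgebraicClosure K)) :=
    IntermediateField.finiteDimensional_sup _ M
  obtain ⟨E, hE, hEb⟩ := vf_finite A b
  obtain ⟨r, hr, h⟩ := v9_hilbert90 (L ⊔ F ⊔ M) E (fun s => ψ (act A s b - b)) (by
      intro s hs t ht
      show ψ (act A (s * t) b - b) = ψ (act A s b - b) * s (ψ (act A t b - b))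
      have hs' := (v8_sup L F M).1 hs
      have ht' := (v8_sup L F M).1 ht
      rw [v6_act_diff, hf.mul _ (hf.stabN' s _ (hb t ⟨ht'.1, ht'.2.2⟩)) _
        (hb s ⟨hs'.1, hs'.2.2⟩), hf.gal s hs'.2.1 _ (hb t ⟨ht'.1, ht'.2.2⟩), mul_comm]) (by
      intro s _ hs
      show ψ (act A s b - b) = 1
      have h1 : act A s b = b := hEb s hs
      rw [h1, sub_self]
      exact hf.triv 0 N.zero_mem)
  exact ⟨r, hr, fun s hs hs' hs'' => h s ((v8_sup L F M).2 ⟨hs, hs', hs''⟩)⟩

/-- Parallel transfer from `Gal(Kbar/L) ∩ G` to `G`, for a subgroup `G` of `Gal(Kbar/F)`. -/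
theorem v10_par (hf : CharFrame p F N N' ψ)
    (G : Subgroup (AlgebraicClosure K ≃ₐ[K] AlgebraicClosure K)) (hGF : G ≤ F.fixingSubgroup)
    [Fintype ((AlgebraicClosure K ≃ₐ[K] AlgebraicClosure K) ⧸ L.fixingSubgroup)]
    (ρ : (AlgebraicClosure K ≃ₐ[K] AlgebraicClosure K) ⧸ L.fixingSubgroup →
      AlgebraicClosure K ≃ₐ[K] AlgebraicClosure K)
    (hρ : ∀ q, ρ q ∈ G ∧
      (ρ q : (AlgebraicClosure K ≃ₐ[K] AlgebraicClosure K) ⧸ L.fixingSubgroup) = q)
    (r : AlgebraicClosure K) (b : Pts A (AlgebraicClosure K))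
    (hb : b ∈ ratPts A (L.fixingSubgroup ⊓ G) N')
    (h : ∀ s ∈ L.fixingSubgroup, s ∈ G → s r = ψ (act A s b - b) * r)
    (g : AlgebraicClosure K ≃ₐ[K] AlgebraicClosure K) (hg : g ∈ G) :
    g (∏ q, ρ q r) = ψ (act A g (∑ q, act A (ρ q) b) - ∑ q, act A (ρ q) b) * ∏ q, ρ q r := by
  classical
  let w : (AlgebraicClosure K ≃ₐ[K] AlgebraicClosure K) ⧸ L.fixingSubgroup →
    AlgebraicClosure K ≃ₐ[K] AlgebraicClosure K := fun q => (ρ (g • q))⁻¹ * (g * ρ q)
  have hw : ∀ q, w q ∈ L.fixingSubgroup ∧ w q ∈ G := by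
    intro q
    constructor
    · show (ρ (g • q))⁻¹ * (g * ρ q) ∈ L.fixingSubgroup
      have h1 : ((g * ρ q : AlgebraicClosure K ≃ₐ[K] AlgebraicClosure K) :
          (AlgebraicClosure K ≃ₐ[K] AlgebraicClosure K) ⧸ L.fixingSubgroup) = g • q := by
        rw [← smul_eq_mul, ← MulAction.Quotient.smul_coe, (hρ q).2]
      rw [← QuotientGroup.eq, (hρ _).2, h1]
    · exact mul_mem (inv_mem (hρ _).1) (mul_mem hg (hρ q).1)
  have hgw : ∀ q, g * ρ q = ρ (g • q) * w q := fun q => by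
    show g * ρ q = ρ (g • q) * ((ρ (g • q))⁻¹ * (g * ρ q))
    rw [mul_inv_cancel_left]
  have h1 : ∀ q, g (ρ q r) = ψ (act A (ρ (g • q)) (act A (w q) b - b)) * ρ (g • q) r := by
    intro q
    rw [← AlgEquiv.mul_apply, hgw, AlgEquiv.mul_apply, h _ (hw q).1 (hw q).2, map_mul,
      hf.gal _ (hGF (hρ _).1) _ (hb _ (hw q))]
  have h2 : ∀ q, act A g (act A (ρ q) b) =
      act A (ρ (g • q)) b + act A (ρ (g • q)) (act A (w q) b - b) := by
    intro q
    rw [← v2s_act_mul, hgw, v2s_act_mul, v2s_act_sub]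
    abel
  have e1 : ∏ q, ρ (g • q) r = ∏ q, ρ q r :=
    Equiv.prod_comp (MulAction.toPerm g) (fun q : (AlgebraicClosure K ≃ₐ[K]
        AlgebraicClosure K) ⧸ L.fixingSubgroup => ρ q r)
  have e2 : ∑ q, act A (ρ (g • q)) b = ∑ q, act A (ρ q) b :=
    Equiv.sum_comp (MulAction.toPerm g) (fun q : (AlgebraicClosure K ≃ₐ[K]
        AlgebraicClosure K) ⧸ L.fixingSubgroup => act A (ρ q) b)
  have h3 : act A g (∑ q, act A (ρ q) b) - ∑ q, act A (ρ q) b =
      ∑ q, act A (ρ (g • q)) (act A (w q) b - b) := by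
    rw [v2s_act_sum, Finset.sum_congr rfl fun q _ => h2 q, Finset.sum_add_distrib, e2,
      add_sub_cancel_left]
  rw [h3, map_prod, Finset.prod_congr rfl fun q _ => h1 q, Finset.prod_mul_distrib, e1,
    v9_pt_sum F hf _ _ fun q _ => hf.stabN' _ _ (hb _ (hw q))]

/-- The element attached to a point `P`: with `n = [L : K]` and `β = n P - Tr P`. -/
theorem v10_pt [CharZero K] [FiniteDimensional K L] [FiniteDimensional K F]
    [FiniteDimensional K M] (hT : TransOn L (F.fixingSubgroup ⊓ M.fixingSubgroup))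
    (hf : CharFrame p F N N' ψ) (P : Pts A (AlgebraicClosure K))
    (hP : P ∈ ratPts A (L.fixingSubgroup ⊓ M.fixingSubgroup) N') :
    ∃ u : AlgebraicClosure K, u ≠ 0 ∧
      (∀ s ∈ L.fixingSubgroup, s ∈ F.fixingSubgroup → s ∈ M.fixingSubgroup → s u =
        ψ (act A s (Module.finrank K L • P -
            v8Tr A L (F.fixingSubgroup ⊓ M.fixingSubgroup) P) -
          (Module.finrank K L • P - v8Tr A L (F.fixingSubgroup ⊓ M.fixingSubgroup) P)) * u) ∧
      normG L (F.fixingSubgroup ⊓ M.fixingSubgroup) (u ^ p) = 1 := by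
  have hfi := vn_finiteIndex L
  let _ := L.fixingSubgroup.fintypeQuotientOfFiniteIndex
  obtain ⟨n, hn⟩ : ∃ n, n = Module.finrank K L := ⟨_, rfl⟩
  rw [← hn]
  obtain ⟨G, hG⟩ : ∃ G, G = F.fixingSubgroup ⊓ M.fixingSubgroup := ⟨_, rfl⟩
  rw [← hG] at hT ⊢
  have hGF : G ≤ F.fixingSubgroup := by
    rw [hG]
    exact inf_le_left
  have hGM : G ≤ M.fixingSubgroup := by
    rw [hG]
    exact inf_le_right
  obtain ⟨r, hr, h0⟩ := v10_data L F M hf P hP
  have hPG : P ∈ ratPts A (L.fixingSubgroup ⊓ G) N' := fun s hs => hP s ⟨hs.1, hGM hs.2⟩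
  have h : ∀ s ∈ L.fixingSubgroup, s ∈ G → s r = ψ (act A s P - P) * r := fun s hs hs' =>
    h0 s hs (hGF hs') (hGM hs')
  obtain ⟨R, hR⟩ : ∃ R, R = ∏ q, repG L G q r := ⟨_, rfl⟩
  obtain ⟨S, hS⟩ : ∃ S, S = ∑ q, act A (repG L G q) P := ⟨_, rfl⟩
  have hTr : v8Tr A L G P = S := by
    rw [hS]
    exact finsum_eq_sum_of_fintype _
  have hSker : S ∈ ratPts A G N' := by
    rw [hS]
    exact v8_trace L G hf.stabN' _ (fun q => (v4_rep L G hT q).1)
      (fun q => (v4_rep L G hT q).2) P hPG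
  have hRS : ∀ g ∈ G, g R = ψ (act A g S - S) * R := by
    intro g hg
    rw [hR, hS]
    exact v10_par L F hf G hGF _ (v4_rep L G hT) r P hPG h g hg
  have hnr : normG L G r = R := by
    rw [hR]
    exact finprod_eq_prod_of_fintype _
  have hR0 : R ≠ 0 := by
    rw [← hnr]
    exact v4_norm_ne L G hr
  have hnpow : ∀ (a : AlgebraicClosure K) (k : ℕ), normG L G (a ^ k) = normG L G a ^ k := by
    intro a k
    rw [v4_norm_prod, v4_norm_prod, ← Finset.prod_pow]
    exact Finset.prod_congr rfl fun q _ => map_pow _ _ _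
  have hNfix : FixG G (R ^ p) := by
    intro g hg
    rw [map_pow, hRS g hg, mul_pow, hf.pow _ (hSker g hg), one_mul]
  refine ⟨r ^ n / R, div_ne_zero (pow_ne_zero n hr) hR0, ?_, ?_⟩
  · intro s hs hsF hsM
    have hs' : s ∈ G := by
      rw [hG]
      exact ⟨hsF, hsM⟩
    rw [hTr]
    have k1 : act A s (n • P) = n • act A s P := map_nsmul (galHom A s) n P
    have h1 : act A s (n • P - S) - (n • P - S) = n • (act A s P - P) - (act A s S - S) := by
      rw [v2s_act_sub, k1, smul_sub]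
      abel
    have h2 := v9_pt_sub F hf (N'.nsmul_mem (hPG s ⟨hs, hs'⟩) n) (hSker s hs')
    have h3 : ψ (act A s S - S) ≠ 0 := v9_ne hf (hSker s hs')
    rw [h1, map_div₀, map_pow, h s hs hs', hRS s hs', mul_pow,
      ← v9_pt_nsmul F hf (hPG s ⟨hs, hs'⟩) n, ← h2]
    field_simp
  · have h1 : (r ^ n / R) ^ p * R ^ p = (r ^ p) ^ n := by
      rw [div_pow, div_mul_cancel₀ _ (pow_ne_zero p hR0), ← pow_mul, ← pow_mul, mul_comm]
    have h2 : normG L G ((r ^ n / R) ^ p) * normG L G (R ^ p) = (R ^ p) ^ n := by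
      rw [← v4_norm_mul, h1, hnpow, hnpow, hnr]
    rw [v4_norm_pow L _ hT hNfix, ← hn] at h2
    exact mul_right_cancel₀ (pow_ne_zero n (pow_ne_zero p hR0)) (by rw [h2, one_mul])

end pt

section gen

variable {K : Type u} [Field K] [CharZero K] {A : Over (Spec (.of K))} [GrpObj A] [IsAbVar A] {p : ℕ}
  {N N' : AddSubgroup (Pts A (AlgebraicClosure K))}
  {ψ : Pts A (AlgebraicClosure K) → AlgebraicClosure K}

/-- The element `u` with `u ^ p = c(P)`, over the base `M`: there are functions `u` and `β` such that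
for all points `P` which are rational over `LM` modulo `N'`: `β(P)` is rational over `LM` modulo `N'`;
`s (u P) = ψ(s β(P) - β(P)) u P` for `s` in `Gal(Kbar/LFM)`; the norm of `u ^ p` to `FM` is `1`; the
relations; `u P * u Q / u (P + Q)` is in `LFM`; and `P` is in the group generated by the points rational
over `M` modulo `N'` and the points rational over `LM` modulo `N`, if `u P ^ p` is a `p`-th power
in `LFM`. -/
theorem v10_gen (L F M : IntermediateField K (AlgebraicClosure K)) [FiniteDimensional K L]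
    [FiniteDimensional K F] [FiniteDimensional K M] (hp : p.Prime)
    (hn : (Module.finrank K L).Coprime p) (hf : CharFrame p F N N' ψ)
    (hF : TransOn F M.fixingSubgroup)
    (hlin : ∀ s, ∃ t ∈ M.fixingSubgroup, ((∀ x, InSub N' x → InSub N (act A t x - x)) ∧
      ∀ z : AlgebraicClosure K, z ^ p = 1 → t z = z) ∧ t⁻¹ * s ∈ L.fixingSubgroup) :
    ∃ (u : Pts A (AlgebraicClosure K) → AlgebraicClosure K)
      (β : Pts A (AlgebraicClosure K) → Pts A (AlgebraicClosure K)), (∀ P, u P ≠ 0) ∧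
      (∀ P Q, β (P + Q) = β P + β Q) ∧
      ∀ P ∈ ratPts A (L.fixingSubgroup ⊓ M.fixingSubgroup) N',
        β P ∈ ratPts A (L.fixingSubgroup ⊓ M.fixingSubgroup) N' ∧
        (∀ s ∈ L.fixingSubgroup, s ∈ F.fixingSubgroup → s ∈ M.fixingSubgroup →
          s (u P) = ψ (act A s (β P) - β P) * u P) ∧
        normG L (F.fixingSubgroup ⊓ M.fixingSubgroup) (u P ^ p) = 1 ∧
        (∀ f : ((AlgebraicClosure K ≃ₐ[K] AlgebraicClosure K) ⧸ F.fixingSubgroup) → ℤ,
          (∀ x ∈ N', ∏ᶠ q, conjChar F ψ q x ^ f q = 1) →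
          ∃ d : AlgebraicClosure K, (∀ s ∈ L.fixingSubgroup, s ∈ M.fixingSubgroup →
            (∀ q, f (s • q) = f q) → s d = d) ∧
            ∏ᶠ q, repG F (L.fixingSubgroup ⊓ M.fixingSubgroup) q (u P ^ p) ^ f q = d ^ p) ∧
        (∀ Q ∈ ratPts A (L.fixingSubgroup ⊓ M.fixingSubgroup) N', ∀ s ∈ L.fixingSubgroup,
          s ∈ F.fixingSubgroup → s ∈ M.fixingSubgroup →
            s (u P * u Q / u (P + Q)) = u P * u Q / u (P + Q)) ∧
        (∀ w : AlgebraicClosure K, (∀ s ∈ L.fixingSubgroup, s ∈ F.fixingSubgroup →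
          s ∈ M.fixingSubgroup → s w = w) → u P ^ p = w ^ p →
          P ∈ ratPts A M.fixingSubgroup N' ⊔
            ratPts A (L.fixingSubgroup ⊓ M.fixingSubgroup) N) := by
  classical
  have hlin' : ∀ s, ∃ t ∈ M.fixingSubgroup, t ∈ v9Triv hf ∧ t⁻¹ * s ∈ L.fixingSubgroup := hlin
  have hT := v10_transOn L F M.fixingSubgroup hf hlin'
  have hT' := v10_transF L F M.fixingSubgroup hf hlin' hF
  set β : Pts A (AlgebraicClosure K) → Pts A (AlgebraicClosure K) := fun P =>
    Module.finrank K L • P - v8Tr A L (F.fixingSubgroup ⊓ M.fixingSubgroup) P with hβdef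
  have hβadd : ∀ P Q, β (P + Q) = β P + β Q := by
    intro P Q
    show _ • (P + Q) - _ = (_ • P - _) + (_ • Q - _)
    rw [v8_tr_add, smul_add]
    abel
  have hfi := vn_finiteIndex L
  let _ := L.fixingSubgroup.fintypeQuotientOfFiniteIndex
  have hpt : ∀ P : Pts A (AlgebraicClosure K), ∃ u : AlgebraicClosure K, u ≠ 0 ∧
      (P ∈ ratPts A (L.fixingSubgroup ⊓ M.fixingSubgroup) N' →
        (∀ s ∈ L.fixingSubgroup, s ∈ F.fixingSubgroup → s ∈ M.fixingSubgroup →
          s u = ψ (act A s (β P) - β P) * u) ∧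
        normG L (F.fixingSubgroup ⊓ M.fixingSubgroup) (u ^ p) = 1) := by
    intro P
    by_cases hP : P ∈ ratPts A (L.fixingSubgroup ⊓ M.fixingSubgroup) N'
    · obtain ⟨u, hu, hs, hd⟩ := v10_pt L F M hT hf P hP
      exact ⟨u, hu, fun _ => ⟨hs, hd⟩⟩
    · exact ⟨1, one_ne_zero, fun h => absurd h hP⟩
  choose u hu0 hall using hpt
  have hTr : ∀ P ∈ ratPts A (L.fixingSubgroup ⊓ M.fixingSubgroup) N',
      v8Tr A L (F.fixingSubgroup ⊓ M.fixingSubgroup) P ∈ ratPts A M.fixingSubgroup N' := by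
    intro P hP
    unfold v8Tr
    rw [finsum_eq_sum_of_fintype]
    exact v8_trace L M.fixingSubgroup hf.stabN' _ (fun q => (v4_rep L _ hT q).1.2)
      (fun q => (v4_rep L _ hT q).2) P hP
  have hβ : ∀ P ∈ ratPts A (L.fixingSubgroup ⊓ M.fixingSubgroup) N',
      β P ∈ ratPts A (L.fixingSubgroup ⊓ M.fixingSubgroup) N' := by
    intro P hP
    exact (ratPts A (L.fixingSubgroup ⊓ M.fixingSubgroup) N').sub_mem
      ((ratPts A (L.fixingSubgroup ⊓ M.fixingSubgroup) N').nsmul_mem hP _)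
      fun s hs => hTr P hP s hs.2
  refine ⟨u, β, hu0, hβadd, fun P hP => ?_⟩
  obtain ⟨h1, h2⟩ := hall P hP
  refine ⟨hβ P hP, h1, h2, ?_, ?_, ?_⟩
  · intro f hrel
    exact v10_rel L F M.fixingSubgroup hf hT' f hrel (hβ P hP) h1
  · intro Q hQ s hs hs' hs''
    have hPQ := (ratPts A (L.fixingSubgroup ⊓ M.fixingSubgroup) N').add_mem hP hQ
    have h3 : act A s (β (P + Q)) - β (P + Q) = (act A s (β P) - β P) +
        (act A s (β Q) - β Q) := by
      rw [hβadd, v8_act_add]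
      abel
    rw [map_div₀, map_mul, h1 s hs hs' hs'', (hall Q hQ).1 s hs hs' hs'',
      (hall _ hPQ).1 s hs hs' hs'', h3, hf.mul _ (hβ P hP s ⟨hs, hs''⟩) _
        (hβ Q hQ s ⟨hs, hs''⟩)]
    have h4 := v9_ne hf (hβ P hP s ⟨hs, hs''⟩)
    have h5 := v9_ne hf (hβ Q hQ s ⟨hs, hs''⟩)
    have h6 := hu0 (P + Q)
    field_simp
  · intro w hws hw'
    have hw0 : w ≠ 0 := by
      intro h
      rw [h, zero_pow hp.ne_zero] at hw'
      exact pow_ne_zero p (hu0 P) hw'
    obtain ⟨ζ, hζ⟩ : ∃ ζ, ζ = u P / w := ⟨_, rfl⟩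
    have hζp : ζ ^ p = 1 := by
      rw [hζ, div_pow, hw', div_self (pow_ne_zero p hw0)]
    have huζ : u P = ζ * w := by
      rw [hζ, div_mul_cancel₀ _ hw0]
    have hζ0 : ζ ≠ 0 := by
      intro h
      rw [h, zero_mul] at huζ
      exact hu0 P huζ
    have hψ : ∀ s ∈ L.fixingSubgroup, s ∈ F.fixingSubgroup → s ∈ M.fixingSubgroup →
        s ζ = ψ (act A s (β P) - β P) * ζ := by
      intro s hs hs' hs''
      have h3 := h1 s hs hs' hs''
      rw [huζ, map_mul, hws s hs hs' hs'', ← mul_assoc] at h3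
      exact mul_right_cancel₀ hw0 h3
    have hmain : ∃ k ∈ N', ∀ s ∈ L.fixingSubgroup, s ∈ F.fixingSubgroup →
        s ∈ M.fixingSubgroup → ψ (act A s (β P - k) - (β P - k)) = 1 := by
      by_cases htriv : ∀ x ∈ N', ψ x = 1
      · refine ⟨0, N'.zero_mem, fun s hs hs' hs'' => ?_⟩
        rw [sub_zero]
        exact htriv _ (hβ P hP s ⟨hs, hs''⟩)
      · push Not at htriv
        obtain ⟨x, hx, hx1⟩ := htriv
        obtain ⟨k, hk, hkζ⟩ := v9_root_value hp hf hx hx1 hζp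
        refine ⟨k, hk, fun s hs hs' hs'' => ?_⟩
        have h3 : act A s (β P - k) - (β P - k) =
            (act A s (β P) - β P) - (act A s k - k) := by
          rw [v2s_act_sub]
          abel
        have h4 : ψ (act A s k - k) = s ζ / ζ := by
          rw [v9_sub hf (hf.stabN' s k hk) hk, hf.gal s hs' k hk, hkζ]
        have h5 : ψ (act A s (β P) - β P) = s ζ / ζ := by
          rw [hψ s hs hs' hs'', mul_div_cancel_right₀ _ hζ0]
        rw [h3, v9_sub hf (hβ P hP s ⟨hs, hs''⟩) (N'.sub_mem (hf.stabN' s k hk) hk), h4, h5]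
        exact div_self (div_ne_zero ((map_ne_zero s).2 hζ0) hζ0)
    obtain ⟨k, hk, hk1⟩ := hmain
    have hkG : k ∈ ratPts A M.fixingSubgroup N' := fun s _ => N'.sub_mem (hf.stabN' s k hk) hk
    have hkL : β P - k ∈ ratPts A (L.fixingSubgroup ⊓ M.fixingSubgroup) N' :=
      (ratPts A (L.fixingSubgroup ⊓ M.fixingSubgroup) N').sub_mem (hβ P hP)
        fun s hs => hkG s hs.2
    obtain ⟨y0, x, hy0, hx, hyx⟩ := v10_split L F M.fixingSubgroup hn hf hF hlin' hkL hk1
    have hnP : Module.finrank K L • P ∈ ratPts A M.fixingSubgroup N' ⊔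
        ratPts A (L.fixingSubgroup ⊓ M.fixingSubgroup) N := by
      have h3 : Module.finrank K L • P =
          (v8Tr A L (F.fixingSubgroup ⊓ M.fixingSubgroup) P + k + y0) + x := by
        have h4 : Module.finrank K L • P =
            v8Tr A L (F.fixingSubgroup ⊓ M.fixingSubgroup) P + β P := by
          show _ = _ + (_ - _)
          abel
        rw [h4, add_assoc, add_assoc, ← hyx]
        abel
      rw [h3]
      exact AddSubgroup.add_mem_sup ((ratPts A M.fixingSubgroup N').add_mem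
        ((ratPts A M.fixingSubgroup N').add_mem (hTr P hP) hkG) hy0) hx
    have hpP : p • P ∈ ratPts A M.fixingSubgroup N' ⊔
        ratPts A (L.fixingSubgroup ⊓ M.fixingSubgroup) N := by
      apply AddSubgroup.mem_sup_right
      intro s hs
      have h3 : act A s (p • P) - p • P = p • (act A s P - P) := by
        have h4 : act A s (p • P) = p • act A s P := map_nsmul (galHom A s) p P
        rw [h4, smul_sub]
      rw [h3]
      exact v9_smul_mem hf (hP s hs)
    obtain ⟨a, b, hab⟩ : ∃ a b : ℤ, a * Module.finrank K L + b * p = 1 := by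
      have h3 := Nat.gcd_eq_gcd_ab (Module.finrank K L) p
      rw [hn, Nat.cast_one] at h3
      exact ⟨(Module.finrank K L).gcdA p, (Module.finrank K L).gcdB p, by
        rw [h3, mul_comm, mul_comm ((Module.finrank K L).gcdB p)]⟩
    have h3 : P = a • (Module.finrank K L • P) + b • (p • P) := by
      rw [← natCast_zsmul, ← natCast_zsmul, smul_smul, smul_smul, ← add_smul, hab, one_smul]
    rw [h3]
    exact add_mem ((ratPts A M.fixingSubgroup N' ⊔
        ratPts A (L.fixingSubgroup ⊓ M.fixingSubgroup) N).zsmul_mem hnP a)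
      ((ratPts A M.fixingSubgroup N' ⊔
        ratPts A (L.fixingSubgroup ⊓ M.fixingSubgroup) N).zsmul_mem hpP b)

end gen

end Pool.Agent.H.MP_ac3185_nt
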