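import Pool.Agent.H.MP_ac3185_nt.V10.Int
import Pool.Agent.H.MP_ac3185_nt.V10.GenM

/-! The class modulo `p`-th powers attached to a point which is rational over `LM` modulo `N'`, in the
notation for subgroups of the Galois group. -/

set_option autoImplicit false

open CategoryTheory AlgebraicGeometry NumberField IsDedekindDomain
open scoped MonObj

namespace Pool.Agent.H.MP_ac3185_nt

universe u

/-- The conclusion of the general step over `M`. -/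
def GenForPM {K : Type u} [Field K] [NumberField K] (p : ℕ)
    (L M F : IntermediateField K (AlgebraicClosure K)) (A : Over (Spec (.of K)))
    [GrpObj A] [IsAbVar A] (N N' : AddSubgroup (Pts A (AlgebraicClosure K)))
    (ψ : Pts A (AlgebraicClosure K) → AlgebraicClosure K) : Prop :=
  ∃ c : Pts A (AlgebraicClosure K) → AlgebraicClosure K,
    (∀ P, c P ≠ 0) ∧
    (∀ P ∈ ratPts A (L.fixingSubgroup ⊓ M.fixingSubgroup) N',
      FixG (L.fixingSubgroup ⊓ (F.fixingSubgroup ⊓ M.fixingSubgroup)) (c P)) ∧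
    (∀ P ∈ ratPts A (L.fixingSubgroup ⊓ M.fixingSubgroup) N',
      ∃ d, FixG (F.fixingSubgroup ⊓ M.fixingSubgroup) d ∧
        normG L (F.fixingSubgroup ⊓ M.fixingSubgroup) (c P) = d ^ p) ∧
    (∀ f ∈ relFam F N' ψ, ∀ P ∈ ratPts A (L.fixingSubgroup ⊓ M.fixingSubgroup) N',
      ∃ d, FixC (L.fixingSubgroup ⊓ M.fixingSubgroup) f d ∧
        relP10 F (L.fixingSubgroup ⊓ M.fixingSubgroup) f (c P) = d ^ p) ∧
    (∀ P ∈ ratPts A (L.fixingSubgroup ⊓ M.fixingSubgroup) N',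
      ∀ Q ∈ ratPts A (L.fixingSubgroup ⊓ M.fixingSubgroup) N',
        ∃ w, FixG (L.fixingSubgroup ⊓ (F.fixingSubgroup ⊓ M.fixingSubgroup)) w ∧ w ≠ 0 ∧
          c P * c Q = c (P + Q) * w ^ p) ∧
    (∀ 𝔓, EtaleChar F N' ψ 𝔓 → ∀ P ∈ ratPts A (L.fixingSubgroup ⊓ M.fixingSubgroup) N',
      UnrPG p (L.fixingSubgroup ⊓ (F.fixingSubgroup ⊓ M.fixingSubgroup)) 𝔓 (c P)) ∧
    (∀ 𝔓, DivChar p (L ⊔ M) F N' ψ ∅ 𝔓 →
      ∀ P ∈ ratPts A (L.fixingSubgroup ⊓ M.fixingSubgroup) N',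
      DivG p (L.fixingSubgroup ⊓ (F.fixingSubgroup ⊓ M.fixingSubgroup)) 𝔓 (c P)) ∧
    (∀ P ∈ ratPts A (L.fixingSubgroup ⊓ M.fixingSubgroup) N',
      (∃ w, FixG (L.fixingSubgroup ⊓ (F.fixingSubgroup ⊓ M.fixingSubgroup)) w ∧ c P = w ^ p) →
      P ∈ ratPts A M.fixingSubgroup N' ⊔ ratPts A (L.fixingSubgroup ⊓ M.fixingSubgroup) N)

theorem v10_genM {K : Type u} [Field K] [NumberField K]
    (L M F : IntermediateField K (AlgebraicClosure K)) [FiniteDimensional K L]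
    [FiniteDimensional K M] [FiniteDimensional K F] {A : Over (Spec (.of K))} [GrpObj A] [IsAbVar A]
    {N N' : AddSubgroup (Pts A (AlgebraicClosure K))}
    {ψ : Pts A (AlgebraicClosure K) → AlgebraicClosure K} {p : ℕ} (hp : p.Prime)
    (hn : (Module.finrank K L).Coprime p) (hf : CharFrame p F N N' ψ)
    (hTF : TransOn F M.fixingSubgroup)
    (hlin : ∀ s, ∃ t ∈ M.fixingSubgroup, (∀ x ∈ N', act A t x - x ∈ N) ∧
      (∀ z : AlgebraicClosure K, z ^ p = 1 → t z = z) ∧ t⁻¹ * s ∈ L.fixingSubgroup) :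
    GenForPM p L M F A N N' ψ := by
  obtain ⟨u, β, hu0, -, hall⟩ := v10_gen L F M hp hn hf hTF (fun s => by
    obtain ⟨t, h1, h2, h3, h4⟩ := hlin s
    exact ⟨t, h1, ⟨h2, h3⟩, h4⟩)
  -- the group of the field `LMF`
  have hsup : ∀ s, s ∈ ((L ⊔ M) ⊔ F : IntermediateField K (AlgebraicClosure K)).fixingSubgroup ↔
      s ∈ L.fixingSubgroup ⊓ (F.fixingSubgroup ⊓ M.fixingSubgroup) := by
    intro s
    rw [IntermediateField.fixingSubgroup_sup, IntermediateField.fixingSubgroup_sup]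
    constructor
    · rintro ⟨⟨h1, h2⟩, h3⟩
      exact ⟨h1, h3, h2⟩
    · rintro ⟨h1, h3, h2⟩
      exact ⟨⟨h1, h2⟩, h3⟩
  have hfix : ∀ P ∈ ratPts A (L.fixingSubgroup ⊓ M.fixingSubgroup) N',
      FixG (L.fixingSubgroup ⊓ (F.fixingSubgroup ⊓ M.fixingSubgroup)) (u P ^ p) := by
    rintro P hP s ⟨h1, h2, h3⟩
    obtain ⟨hβ, hs, -⟩ := hall P hP
    rw [map_pow, hs s h1 h2 h3, mul_pow, hf.pow _ (hβ s ⟨h1, h3⟩), one_mul]
  refine ⟨fun P => u P ^ p, fun P => pow_ne_zero p (hu0 P), hfix, fun P hP => ?_,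
    fun f hrel P hP => ?_, fun P hP Q hQ => ?_, fun 𝔓 hE P hP => ?_, fun 𝔓 hE P hP => ?_,
    fun P hP hw => ?_⟩
  · exact ⟨1, fun s _ => map_one s, by rw [(hall P hP).2.2.1, one_pow]⟩
  · obtain ⟨d, hd, hd'⟩ := (hall P hP).2.2.2.1 f hrel
    exact ⟨d, fun s hs hq => hd s hs.1 hs.2 hq, hd'⟩
  · refine ⟨u P * u Q / u (P + Q), fun s hs => (hall P hP).2.2.2.2.1 Q hQ s hs.1 hs.2.1 hs.2.2,
      div_ne_zero (mul_ne_zero (hu0 P) (hu0 Q)) (hu0 _), ?_⟩
    rw [div_pow, mul_pow, mul_div_cancel₀ _ (pow_ne_zero p (hu0 (P + Q)))]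
  · obtain ⟨hβ, hs, -⟩ := hall P hP
    refine ⟨u P, rfl, fun s hsI hsG => ?_⟩
    obtain ⟨R, _, r, hr, hr'⟩ := hE
    have h3 : ψ (act A s (β P) - β P) = 1 := by
      apply hr' _ (hβ s ⟨hsG.1, hsG.2.2⟩)
      rw [map_sub, hr s hsI hsG.2.1, sub_self]
    rw [hs s hsG.1 hsG.2.1 hsG.2.2, h3, one_mul]
  · obtain ⟨hβ, hs, -⟩ := hall P hP
    obtain ⟨b, hb, hb0, x, y, hx, hy, h⟩ := hE (β P) (u P) (hu0 P)
      (by
        apply vn_mem
        intro s hsG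
        exact hfix P hP s ((hsup s).1 hsG))
      (by
        intro s hsG
        rw [IntermediateField.fixingSubgroup_sup] at hsG
        exact hβ s hsG)
      (by
        intro s hsG
        obtain ⟨h1, h2, h3⟩ := (hsup s).1 hsG
        exact hs s h1 h2 h3)
      (by
        intro v hv
        simp at hv)
    exact ⟨b, fun s hsG => vn_fix _ hb ((hsup s).2 hsG), hb0, x, y, hx, hy, h⟩
  · obtain ⟨w, hw1, hw2⟩ := hw
    exact (hall P hP).2.2.2.2.2 w (fun s h1 h2 h3 => hw1 s ⟨h1, h2, h3⟩) hw2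

end Pool.Agent.H.MP_ac3185_nt
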