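import Pool.Agent.H.MP_ac3185_nt.V10.RelP
import Pool.Agent.H.MP_ac3185_nt.V4.Trans

/-! Hilbert 90 for one step. -/

set_option autoImplicit false

open NumberField IsDedekindDomain
open scoped Pointwise

namespace Pool.Agent.H.MP_ac3185_nt

universe u

variable {K : Type u} [Field K]

theorem v10_fix_mul {S : Subgroup (AlgebraicClosure K ≃ₐ[K] AlgebraicClosure K)}
    {x y : AlgebraicClosure K} (hx : FixG S x) (hy : FixG S y) : FixG S (x * y) := fun s hs => by
  rw [map_mul, hx s hs, hy s hs]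

theorem v10_fix_pow {S : Subgroup (AlgebraicClosure K ≃ₐ[K] AlgebraicClosure K)}
    {x : AlgebraicClosure K} (hx : FixG S x) (n : ℕ) : FixG S (x ^ n) := fun s hs => by
  rw [map_pow, hx s hs]

theorem v10_fix_inv {S : Subgroup (AlgebraicClosure K ≃ₐ[K] AlgebraicClosure K)}
    {x : AlgebraicClosure K} (hx : FixG S x) : FixG S x⁻¹ := fun s hs => by
  rw [map_inv₀, hx s hs]

theorem v10_fix_div {S : Subgroup (AlgebraicClosure K ≃ₐ[K] AlgebraicClosure K)}
    {x y : AlgebraicClosure K} (hx : FixG S x) (hy : FixG S y) : FixG S (x / y) := fun s hs => by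
  rw [map_div₀, hx s hs, hy s hs]

theorem v10_fix_prod {S : Subgroup (AlgebraicClosure K ≃ₐ[K] AlgebraicClosure K)} {ι : Type*}
    (J : Finset ι) (x : ι → AlgebraicClosure K) (hx : ∀ i ∈ J, FixG S (x i)) :
    FixG S (∏ i ∈ J, x i) := fun s hs => by
  rw [map_prod]
  exact Finset.prod_congr rfl fun i hi => hx i hi s hs

theorem v10_fix_sum {S : Subgroup (AlgebraicClosure K ≃ₐ[K] AlgebraicClosure K)} {ι : Type*}
    (J : Finset ι) (x : ι → AlgebraicClosure K) (hx : ∀ i ∈ J, FixG S (x i)) :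
    FixG S (∑ i ∈ J, x i) := fun s hs => by
  rw [map_sum]
  exact Finset.sum_congr rfl fun i hi => hx i hi s hs

theorem v10_fix_mono {S S' : Subgroup (AlgebraicClosure K ≃ₐ[K] AlgebraicClosure K)} (h : S' ≤ S)
    {x : AlgebraicClosure K} (hx : FixG S x) : FixG S' x := fun s hs => hx s (h hs)

/-- The action of an element which normalizes `S`. -/
theorem v10_fix_conj {S : Subgroup (AlgebraicClosure K ≃ₐ[K] AlgebraicClosure K)}
    {σ : AlgebraicClosure K ≃ₐ[K] AlgebraicClosure K} (h : ∀ s ∈ S, σ⁻¹ * s * σ ∈ S)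
    {x : AlgebraicClosure K} (hx : FixG S x) : FixG S (σ x) := by
  intro s hs
  have h1 := hx _ (h s hs)
  have h2 : s (σ x) = σ ((σ⁻¹ * s * σ) x) := by
    rw [← AlgEquiv.mul_apply, ← AlgEquiv.mul_apply]
    congr 1
    group
  rw [h2, h1]

theorem v10_fix_iter {S : Subgroup (AlgebraicClosure K ≃ₐ[K] AlgebraicClosure K)}
    {σ : AlgebraicClosure K ≃ₐ[K] AlgebraicClosure K} (h : ∀ s ∈ S, σ⁻¹ * s * σ ∈ S)
    {x : AlgebraicClosure K} (hx : FixG S x) (i : ℕ) : FixG S ((σ ^ i) x) := by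
  induction i with
  | zero => simpa using hx
  | succ i ih =>
    rw [pow_succ', AlgEquiv.mul_apply]
    exact v10_fix_conj h ih

/-- `∏_{i < k + 1} σ^i x = x σ(∏_{i < k} σ^i x)`. -/
theorem v10_prod_succ (σ : AlgebraicClosure K ≃ₐ[K] AlgebraicClosure K) (x : AlgebraicClosure K)
    (k : ℕ) : ∏ i ∈ Finset.range (k + 1), (σ ^ i) x =
      x * σ (∏ i ∈ Finset.range k, (σ ^ i) x) := by
  rw [Finset.prod_range_succ', map_prod, mul_comm]
  congr 1
  refine Finset.prod_congr rfl fun i _ => ?_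
  rw [pow_succ', AlgEquiv.mul_apply]

/-- If `σ^p` is in the open subgroup `S`, normalized by `σ`, and `σ` is not, then an element with
`∏_{i < p} σ^i w = 1` fixed by `S` is of the form `c / σ(c)`. -/
theorem v10_hilb [CharZero K] {p : ℕ} (hp : p.Prime)
    (S : Subgroup (AlgebraicClosure K ≃ₐ[K] AlgebraicClosure K))
    (M : IntermediateField K (AlgebraicClosure K)) [FiniteDimensional K M]
    (hM : M.fixingSubgroup ≤ S) {σ : AlgebraicClosure K ≃ₐ[K] AlgebraicClosure K} (hσ : σ ∉ S)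
    (hσp : σ ^ p ∈ S) (hconj : ∀ s ∈ S, σ⁻¹ * s * σ ∈ S) {w : AlgebraicClosure K}
    (hw : FixG S w) (hN : ∏ i ∈ Finset.range p, (σ ^ i) w = 1) :
    ∃ c, c ≠ 0 ∧ FixG S c ∧ w * σ c = c := by
  classical
  -- the multiplicative monoid of the elements fixed by `S`
  let B : Submonoid (AlgebraicClosure K) :=
    { carrier := {x | FixG S x}
      one_mem' := fun s _ => map_one s
      mul_mem' := fun hx hy => v10_fix_mul hx hy }
  let f : ℕ → (B →* AlgebraicClosure K) := fun i =>
    ((σ ^ i : AlgebraicClosure K ≃ₐ[K] AlgebraicClosure K) :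
      AlgebraicClosure K →* AlgebraicClosure K).comp B.subtype
  have hf : ∀ i (x : B), f i x = (σ ^ i) (x : AlgebraicClosure K) := fun i x => rfl
  have hpow : ∀ k : ℕ, 0 < k → k < p → σ ^ k ∉ S := by
    intro k hk0 hkp h
    have hcop : k.Coprime p := (Nat.coprime_of_lt_prime hk0.ne' hkp hp).symm
    apply hσ
    have h1 : (σ : AlgebraicClosure K ≃ₐ[K] AlgebraicClosure K) ^ ((Nat.gcd k p : ℕ) : ℤ) ∈ S := by
      rw [Nat.gcd_eq_gcd_ab, zpow_add, zpow_mul, zpow_mul, zpow_natCast, zpow_natCast]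
      exact S.mul_mem (S.zpow_mem h _) (S.zpow_mem hσp _)
    rwa [Nat.Coprime.gcd_eq_one hcop, Nat.cast_one, zpow_one] at h1
  have hinj : Set.InjOn f (Finset.range p : Set ℕ) := by
    have key : ∀ i j : ℕ, i < j → j < p → f i = f j → False := by
      intro i j hij hj h
      refine hpow (j - i) (by omega) (by omega) (v4_closed S M hM _ fun x hx => ?_)
      have h1 : (σ ^ i) x = (σ ^ j) x := by
        have := DFunLike.congr_fun h (⟨x, hx⟩ : B)
        rwa [hf, hf] at this
      have h2 : (σ ^ j) x = (σ ^ i) ((σ ^ (j - i)) x) := by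
        rw [← AlgEquiv.mul_apply, ← pow_add, Nat.add_sub_cancel' hij.le]
      exact (σ ^ i).injective (h2.symm.trans h1.symm)
    intro i hi j hj h
    rcases lt_trichotomy i j with h1 | h1 | h1
    · exact (key i j h1 (Finset.mem_range.1 hj) h).elim
    · exact h1
    · exact (key j i h1 (Finset.mem_range.1 hi) h.symm).elim
  let g : ℕ → AlgebraicClosure K := fun k => ∏ i ∈ Finset.range k, (σ ^ i) w
  have hlin : ∃ θ : B, ∑ k ∈ Finset.range p, g k * (σ ^ k) (θ : AlgebraicClosure K) ≠ 0 := by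
    by_contra hcon
    have hcon : ∀ θ : B, ∑ k ∈ Finset.range p, g k * (σ ^ k) (θ : AlgebraicClosure K) = 0 :=
      fun θ => by_contra fun h => hcon ⟨θ, h⟩
    have hli := (linearIndependent_monoidHom B (AlgebraicClosure K)).comp
      (fun i : Finset.range p => f i) (fun i j h => Subtype.ext (hinj i.2 j.2 h))
    rw [Fintype.linearIndependent_iff] at hli
    have h0 := hli (fun i => g i) (by
      funext θ
      have h1 := hcon θ
      rw [← Finset.sum_coe_sort] at h1
      rw [Finset.sum_apply, Pi.zero_apply]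
      exact h1) ⟨0, Finset.mem_range.2 hp.pos⟩
    exact one_ne_zero (α := AlgebraicClosure K) h0
  obtain ⟨θ, hθ⟩ := hlin
  refine ⟨_, hθ, ?_, ?_⟩
  · refine v10_fix_sum _ _ fun k _ => v10_fix_mul ?_ (v10_fix_iter hconj θ.2 k)
    exact v10_fix_prod _ _ fun i _ => v10_fix_iter hconj hw i
  · rw [map_sum, Finset.mul_sum]
    have h1 : ∀ k, w * σ (g k * (σ ^ k) (θ : AlgebraicClosure K)) =
        g (k + 1) * (σ ^ (k + 1)) (θ : AlgebraicClosure K) := by
      intro k
      show w * σ (g k * (σ ^ k) (θ : AlgebraicClosure K)) =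
        (∏ i ∈ Finset.range (k + 1), (σ ^ i) w) * _
      rw [v10_prod_succ, map_mul, pow_succ', AlgEquiv.mul_apply, mul_assoc]
    rw [Finset.sum_congr rfl fun k _ => h1 k]
    have h2 := Finset.sum_range_succ' (fun k => g k * (σ ^ k) (θ : AlgebraicClosure K)) p
    have h3 := Finset.sum_range_succ (fun k => g k * (σ ^ k) (θ : AlgebraicClosure K)) p
    have h4 : g p * (σ ^ p) (θ : AlgebraicClosure K) = g 0 * (σ ^ 0) (θ : AlgebraicClosure K) := by
      have h5 : g p = 1 := hN
      have h6 : g 0 = 1 := Finset.prod_range_zero _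
      rw [h5, h6, θ.2 _ hσp, pow_zero, AlgEquiv.one_apply]
    rw [h4] at h3
    exact add_right_cancel (h2.symm.trans h3)

end Pool.Agent.H.MP_ac3185_nt
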