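import Pool.Agent.H.MP_ac3185_nt.V10.Defs

/-! Definitions for the proof of the theorem on `p`-extensions: the classes over the field fixed by a
subgroup `G` of the Galois group. -/

set_option autoImplicit false

open CategoryTheory AlgebraicGeometry NumberField IsDedekindDomain
open scoped MonObj Pointwise

namespace Pool.Agent.H.MP_ac3185_nt

universe u

variable {K : Type u} [Field K]

/-- The place of the field given by `S` below `𝔓` is unramified in the field with a `p`-th root of `a`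
adjoined: some `p`-th root of `a` is fixed by the elements of `S` in the inertia group. -/
def UnrPG (p : ℕ) (S : Subgroup (AlgebraicClosure K ≃ₐ[K] AlgebraicClosure K))
    (𝔓 : Ideal (𝓞 (AlgebraicClosure K))) (a : AlgebraicClosure K) : Prop :=
  ∃ z : AlgebraicClosure K, z ^ p = a ∧ ∀ s ∈ inertia K 𝔓, s ∈ S → s z = z

/-- The valuation of `a` at the place of the field given by `S` below `𝔓` is divisible by `p`. -/
def DivG (p : ℕ) (S : Subgroup (AlgebraicClosure K ≃ₐ[K] AlgebraicClosure K))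
    (𝔓 : Ideal (𝓞 (AlgebraicClosure K))) (a : AlgebraicClosure K) : Prop :=
  ∃ b, FixG S b ∧ b ≠ 0 ∧ ∃ x y : 𝓞 (AlgebraicClosure K), x ∉ 𝔓 ∧ y ∉ 𝔓 ∧
    a * (y : AlgebraicClosure K) = b ^ p * (x : AlgebraicClosure K)

/-- The product of the powers with exponents `c q` of the conjugates of `a`, with representatives of the
cosets of `Gal(Kbar/F)` in `S`. -/
noncomputable def relP10 (F : IntermediateField K (AlgebraicClosure K))
    (S : Subgroup (AlgebraicClosure K ≃ₐ[K] AlgebraicClosure K))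
    (c : ((AlgebraicClosure K ≃ₐ[K] AlgebraicClosure K) ⧸ F.fixingSubgroup) → ℤ)
    (a : AlgebraicClosure K) : AlgebraicClosure K :=
  ∏ᶠ q, repG F S q a ^ c q

/-- The element `d` is fixed by the `s` in `S` with `c(s q) = c(q)` for all `q`. -/
def FixC {F : IntermediateField K (AlgebraicClosure K)}
    (S : Subgroup (AlgebraicClosure K ≃ₐ[K] AlgebraicClosure K))
    (c : ((AlgebraicClosure K ≃ₐ[K] AlgebraicClosure K) ⧸ F.fixingSubgroup) → ℤ)
    (d : AlgebraicClosure K) : Prop :=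
  ∀ s ∈ S, (∀ q, c (s • q) = c q) → s d = d

/-- The elements `a ≠ 0` of the field given by `Gal(Kbar/LF) ∩ G` with these properties: the norm to the
field given by `Gal(Kbar/F) ∩ G` is a `p`-th power in it; the relations; unramified at the primes in `U`,
with valuations divisible by `p` at the primes in `E`. -/
def selP (p : ℕ) (L F : IntermediateField K (AlgebraicClosure K))
    (Rel : Set (((AlgebraicClosure K ≃ₐ[K] AlgebraicClosure K) ⧸ F.fixingSubgroup) → ℤ))
    (G : Subgroup (AlgebraicClosure K ≃ₐ[K] AlgebraicClosure K))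
    (U E : Set (Ideal (𝓞 (AlgebraicClosure K)))) : Set (AlgebraicClosure K) :=
  {a | a ≠ 0 ∧ FixG (L.fixingSubgroup ⊓ (F.fixingSubgroup ⊓ G)) a ∧
    (∃ d, FixG (F.fixingSubgroup ⊓ G) d ∧ normG L (F.fixingSubgroup ⊓ G) a = d ^ p) ∧
    (∀ c ∈ Rel, ∃ d, FixC (L.fixingSubgroup ⊓ G) c d ∧
      relP10 F (L.fixingSubgroup ⊓ G) c a = d ^ p) ∧
    (∀ 𝔓 ∈ U, UnrPG p (L.fixingSubgroup ⊓ (F.fixingSubgroup ⊓ G)) 𝔓 a) ∧
    ∀ 𝔓 ∈ E, DivG p (L.fixingSubgroup ⊓ (F.fixingSubgroup ⊓ G)) 𝔓 a}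

/-- The elements of `X` lie in at most `n` classes modulo the `p`-th powers of the nonzero elements fixed
by `S`. -/
def PowClsG (p : ℕ) (S : Subgroup (AlgebraicClosure K ≃ₐ[K] AlgebraicClosure K))
    (X : Set (AlgebraicClosure K)) (n : ℕ) : Prop :=
  ∃ T : Finset (AlgebraicClosure K), T.card ≤ n ∧
    ∀ a ∈ X, ∃ t ∈ T, ∃ u, FixG S u ∧ u ≠ 0 ∧ a = t * u ^ p

/-- A set of families which is stable under the Galois group. -/
def StabRel {F : IntermediateField K (AlgebraicClosure K)}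
    (Rel : Set (((AlgebraicClosure K ≃ₐ[K] AlgebraicClosure K) ⧸ F.fixingSubgroup) → ℤ)) : Prop :=
  ∀ g : AlgebraicClosure K ≃ₐ[K] AlgebraicClosure K, ∀ c ∈ Rel, (fun q => c (g • q)) ∈ Rel

/-- `G'` is a normal subgroup of `G` of index `1` or `p`. -/
structure CycStep {Γ : Type*} [Group Γ] (p : ℕ) (G' G : Subgroup Γ) : Prop where
  le : G' ≤ G
  conj : ∀ g ∈ G, ∀ s ∈ G', g⁻¹ * s * g ∈ G'
  gen : ∀ σ ∈ G, σ ∉ G' → σ ^ p ∈ G' ∧ ∀ s ∈ G, ∃ i < p, (σ ^ i)⁻¹ * s ∈ G'

/-- The local condition for the primes at which the classes are unramified: `M` is unramified over `F`,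
or there is one place above the place of `F` and `p` is not in `𝔓`, or there is one place above the
place of `F(μ_p)`. -/
def LocU (p : ℕ) (L F M : IntermediateField K (AlgebraicClosure K))
    (𝔓 : Ideal (𝓞 (AlgebraicClosure K))) : Prop :=
  FinPrime 𝔓 ∧ ((∀ s ∈ inertia K 𝔓, s ∈ F.fixingSubgroup → s ∈ M.fixingSubgroup) ∨
    (TransOn L (decompGrp K 𝔓 ⊓ F.fixingSubgroup) ∧ (p : 𝓞 (AlgebraicClosure K)) ∉ 𝔓) ∨
    TransOn L (decompGrp K 𝔓 ⊓ (F ⊔ muField K p).fixingSubgroup))

/-- The local condition for the primes at which the valuations are divisible by `p`. -/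
def LocE (L F M : IntermediateField K (AlgebraicClosure K))
    (𝔓 : Ideal (𝓞 (AlgebraicClosure K))) : Prop :=
  FinPrime 𝔓 ∧ ((∀ s ∈ inertia K 𝔓, s ∈ F.fixingSubgroup → s ∈ M.fixingSubgroup) ∨
    TransOn L (decompGrp K 𝔓 ⊓ F.fixingSubgroup))

end Pool.Agent.H.MP_ac3185_nt
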