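import Pool.Agent.H.MP_ac3185_nt.V10.Hilb

/-! The invariant classes. -/

set_option autoImplicit false

open NumberField IsDedekindDomain
open scoped Pointwise

namespace Pool.Agent.H.MP_ac3185_nt

universe u

variable {K : Type u} [Field K] [CharZero K] (L F : IntermediateField K (AlgebraicClosure K))
  [FiniteDimensional K L] [FiniteDimensional K F]

/-- The first part: an invariant class has an invariant representative, whose norm is a `p`-th
power. -/
theorem v10_inv_norm {p : ℕ} (hp : p.Prime) (hn : (Module.finrank K L).Coprime p)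
    (W : Subgroup (AlgebraicClosure K ≃ₐ[K] AlgebraicClosure K)) (hWF : W ≤ F.fixingSubgroup)
    (hWμ : ∀ w ∈ W, ∀ z : AlgebraicClosure K, z ^ p = 1 → w z = z)
    (G' G : Subgroup (AlgebraicClosure K ≃ₐ[K] AlgebraicClosure K)) (hc : CycStep p G' G)
    (M : IntermediateField K (AlgebraicClosure K)) [FiniteDimensional K M]
    (hM : M.fixingSubgroup ≤ G') (hTW : TransOn L (W ⊓ G'))
    {a d : AlgebraicClosure K} (ha0 : a ≠ 0)
    (ha : FixG (L.fixingSubgroup ⊓ (F.fixingSubgroup ⊓ G')) a)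
    (hd : FixG (F.fixingSubgroup ⊓ G') d) (hN : normG L (F.fixingSubgroup ⊓ G') a = d ^ p)
    {σ : AlgebraicClosure K ≃ₐ[K] AlgebraicClosure K}
    (hσL : σ ∈ L.fixingSubgroup) (hσF : σ ∈ F.fixingSubgroup) (hσ : σ ∈ G) (hσ' : σ ∉ G')
    {w : AlgebraicClosure K} (hw : FixG (L.fixingSubgroup ⊓ (F.fixingSubgroup ⊓ G')) w)
    (hw0 : w ≠ 0) (h : σ a = a * w ^ p) :
    ∃ y, y ≠ 0 ∧ FixG (L.fixingSubgroup ⊓ (F.fixingSubgroup ⊓ G')) y ∧
      FixG (L.fixingSubgroup ⊓ (F.fixingSubgroup ⊓ G)) (a * y ^ p) ∧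
      ∃ e, FixG (F.fixingSubgroup ⊓ G) e ∧
        normG L (F.fixingSubgroup ⊓ G) (a * y ^ p) = e ^ p := by
  set S' := F.fixingSubgroup ⊓ G' with hS'
  set S := F.fixingSubgroup ⊓ G with hS
  have hle : S' ≤ S := inf_le_inf_left _ hc.le
  have hWS : W ⊓ G' ≤ S' := inf_le_inf_right _ hWF
  have hT' : TransOn L S' := fun s => by
    obtain ⟨t, ht, hts⟩ := hTW s
    exact ⟨t, hWS ht, hts⟩
  have hT : TransOn L S := fun s => by
    obtain ⟨t, ht, hts⟩ := hT' s
    exact ⟨t, hle ht, hts⟩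
  have hG' : ∀ s ∈ G', σ⁻¹ * s * σ ∈ G' := hc.conj σ hσ
  have hG'' : ∀ s ∈ G', σ * s * σ⁻¹ ∈ G' := fun s hs => by
    have := hc.conj σ⁻¹ (G.inv_mem hσ) s hs
    rwa [inv_inv] at this
  have hcS : ∀ s ∈ S', σ⁻¹ * s * σ ∈ S' := fun s hs =>
    ⟨F.fixingSubgroup.mul_mem (F.fixingSubgroup.mul_mem (F.fixingSubgroup.inv_mem hσF) hs.1) hσF,
      hG' s hs.2⟩
  have hcS' : ∀ s ∈ S', σ * s * σ⁻¹ ∈ S' := fun s hs =>
    ⟨F.fixingSubgroup.mul_mem (F.fixingSubgroup.mul_mem hσF hs.1) (F.fixingSubgroup.inv_mem hσF),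
      hG'' s hs.2⟩
  have hcH : ∀ s ∈ L.fixingSubgroup ⊓ S', σ⁻¹ * s * σ ∈ L.fixingSubgroup ⊓ S' := fun s hs =>
    ⟨L.fixingSubgroup.mul_mem (L.fixingSubgroup.mul_mem (L.fixingSubgroup.inv_mem hσL) hs.1) hσL,
      hcS s hs.2⟩
  have hσp : σ ^ p ∈ G' := (hc.gen σ hσ hσ').1
  have hσpS : σ ^ p ∈ S' := ⟨pow_mem hσF p, hσp⟩
  have hσpH : σ ^ p ∈ L.fixingSubgroup ⊓ S' := ⟨pow_mem hσL p, hσpS⟩
  -- the norm
  have hNW : ∀ x, FixG (L.fixingSubgroup ⊓ S') x → normG L (W ⊓ G') x = normG L S' x :=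
    fun x hx => v4_norm_le L S' (W ⊓ G') hWS hTW hx
  have hNσ : ∀ x, FixG (L.fixingSubgroup ⊓ S') x → normG L S' (σ x) = σ (normG L S' x) :=
    fun x hx => v4_norm_conj L S' hT' hσL hcS hcS' hx
  have hNpow : ∀ (x : AlgebraicClosure K) (k : ℕ), normG L S' (x ^ k) = normG L S' x ^ k := by
    intro x k
    induction k with
    | zero =>
      rw [pow_zero, pow_zero, v4_norm_pow L S' hT' (fun s _ => map_one s), one_pow]
    | succ k ih => rw [pow_succ, v4_norm_mul, ih, pow_succ]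
  have hNμ : ∀ z, z ^ p = 1 → FixG (L.fixingSubgroup ⊓ S') z →
      normG L S' z = z ^ Module.finrank K L := fun z hz hzf => by
    rw [← hNW z hzf]
    exact v4_norm_pow L (W ⊓ G') hTW fun s hs => hWμ s hs.1 z hz
  -- the norm of `w` along `σ`
  set ζ := ∏ i ∈ Finset.range p, (σ ^ i) w with hζdef
  have hit : ∀ i, FixG (L.fixingSubgroup ⊓ S') ((σ ^ i) w) := v10_fix_iter hcH hw
  have hζf : FixG (L.fixingSubgroup ⊓ S') ζ := v10_fix_prod _ _ fun i _ => hit i
  have hσa : ∀ k, (σ ^ k) a = a * (∏ i ∈ Finset.range k, (σ ^ i) w) ^ p := by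
    intro k
    induction k with
    | zero => simp
    | succ k ih =>
      rw [v10_prod_succ, pow_succ', AlgEquiv.mul_apply, ih, map_mul, map_pow, h, mul_pow, mul_assoc]
  have hζp : ζ ^ p = 1 := by
    have h1 := hσa p
    rw [ha _ hσpH] at h1
    exact (mul_right_eq_self₀.1 h1.symm).resolve_right ha0
  have hd0 : d ≠ 0 := by
    intro h0
    rw [h0, zero_pow hp.ne_zero] at hN
    exact v4_norm_ne L S' ha0 hN
  set ν := normG L S' w with hν
  have hν0 : ν ≠ 0 := v4_norm_ne L S' hw0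
  have hνf : FixG S' ν := v4_norm_fix L S' hT' hw
  set ε := σ d / (d * ν) with hε
  have hεf : FixG S' ε := v10_fix_div (v10_fix_conj hcS hd) (v10_fix_mul hd hνf)
  have hεp : ε ^ p = 1 := by
    rw [hε, div_pow, div_eq_one_iff_eq (pow_ne_zero _ (mul_ne_zero hd0 hν0)), mul_pow, ← map_pow,
      ← hN, ← hNσ a ha, h, v4_norm_mul, hNpow]
  have hεσ : σ ε = ε := v10_mu_fix hp hεp (hεf _ hσpS)
  have hσd : σ d = ε * (d * ν) := by
    rw [hε, div_mul_cancel₀ _ (mul_ne_zero hd0 hν0)]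
  have hσdk : ∀ k, (σ ^ k) d = ε ^ k * (d * ∏ i ∈ Finset.range k, (σ ^ i) ν) := by
    intro k
    induction k with
    | zero => simp
    | succ k ih =>
      rw [v10_prod_succ, pow_succ', AlgEquiv.mul_apply, ih, map_mul, map_mul, map_pow, hεσ, hσd,
        pow_succ]
      ring
  have hνprod : ∏ i ∈ Finset.range p, (σ ^ i) ν = normG L S' ζ := by
    have h1 : ∀ i, (σ ^ i) ν = normG L S' ((σ ^ i) w) := by
      intro i
      induction i with
      | zero => simp [hν]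
      | succ i ih =>
        rw [pow_succ', AlgEquiv.mul_apply, AlgEquiv.mul_apply, ih, hNσ _ (hit i)]
    have h2 : ∀ J : Finset ℕ, normG L S' (∏ i ∈ J, (σ ^ i) w) =
        ∏ i ∈ J, normG L S' ((σ ^ i) w) := by
      classical
      intro J
      induction J using Finset.induction_on with
      | empty =>
        rw [Finset.prod_empty, Finset.prod_empty, v4_norm_pow L S' hT' (fun s _ => map_one s),
          one_pow]
      | insert i J hi ih => rw [Finset.prod_insert hi, Finset.prod_insert hi, v4_norm_mul, ih]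
    rw [hζdef, h2]
    exact Finset.prod_congr rfl fun i _ => h1 i
  have hζ1 : ζ = 1 := by
    refine v10_mu_one hn hζp ?_
    have h1 := hσdk p
    rw [hd _ hσpS, hεp, one_mul, hνprod, hNμ ζ hζp hζf] at h1
    exact (mul_right_eq_self₀.1 h1.symm).resolve_right hd0
  -- Hilbert 90
  have hMH : (L ⊔ F ⊔ M).fixingSubgroup ≤ L.fixingSubgroup ⊓ S' := by
    rw [IntermediateField.fixingSubgroup_sup, IntermediateField.fixingSubgroup_sup]
    rintro s ⟨⟨h1, h2⟩, h3⟩
    exact ⟨h1, h2, hM h3⟩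
  have hfd1 : FiniteDimensional K (L ⊔ F : IntermediateField K (AlgebraicClosure K)) :=
    IntermediateField.finiteDimensional_sup L F
  have hfd2 : FiniteDimensional K (L ⊔ F ⊔ M : IntermediateField K (AlgebraicClosure K)) :=
    IntermediateField.finiteDimensional_sup (L ⊔ F) M
  obtain ⟨c, hc0, hcf, hcσ⟩ := v10_hilb hp (L.fixingSubgroup ⊓ S') (L ⊔ F ⊔ M) hMH
    (fun h => hσ' h.2.2) hσpH hcH hw hζ1
  set a₁ := a * c ^ p with ha₁
  have ha₁0 : a₁ ≠ 0 := mul_ne_zero ha0 (pow_ne_zero _ hc0)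
  have ha₁f' : FixG (L.fixingSubgroup ⊓ S') a₁ := v10_fix_mul ha (v10_fix_pow hcf p)
  have ha₁σ : σ a₁ = a₁ := by
    rw [ha₁, map_mul, map_pow, h, mul_assoc, ← mul_pow, hcσ]
  have hup : ∀ x, σ x = x → FixG (L.fixingSubgroup ⊓ S') x → FixG (L.fixingSubgroup ⊓ S) x := by
    intro x hx hxf s hs
    obtain ⟨i, -, hi⟩ := (hc.gen σ hσ hσ').2 s hs.2.2
    have h1 : (σ ^ i)⁻¹ * s ∈ L.fixingSubgroup ⊓ S' :=
      ⟨L.fixingSubgroup.mul_mem (L.fixingSubgroup.inv_mem (L.fixingSubgroup.pow_mem hσL i)) hs.1,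
        F.fixingSubgroup.mul_mem (F.fixingSubgroup.inv_mem (F.fixingSubgroup.pow_mem hσF i)) hs.2.1,
        hi⟩
    have h2 : ∀ i : ℕ, (σ ^ i) x = x := by
      intro i
      induction i with
      | zero => simp
      | succ i ih => rw [pow_succ', AlgEquiv.mul_apply, ih, hx]
    have h3 := congrArg (σ ^ i) (hxf _ h1)
    rw [← AlgEquiv.mul_apply, mul_inv_cancel_left, h2] at h3
    exact h3
  have ha₁f : FixG (L.fixingSubgroup ⊓ S) a₁ := hup a₁ ha₁σ ha₁f'
  set e := normG L S a₁ with he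
  have hef : FixG S e := v4_norm_fix L S hT ha₁f
  have hee : e = (d * normG L S' c) ^ p := by
    rw [he, ← v4_norm_le L S S' hle hT' ha₁f, ha₁, v4_norm_mul, hNpow, hN, mul_pow]
  -- `1 + n k = p t`
  obtain ⟨k, t, hkt⟩ : ∃ k t : ℕ, 1 + Module.finrank K L * k = p * t := by
    have h1 : ∃ k : ℕ, (1 + Module.finrank K L * k : ZMod p) = 0 := by
      have := Fact.mk hp
      have hn' : (Module.finrank K L : ZMod p) ≠ 0 := by
        intro h0
        rw [ZMod.natCast_eq_zero_iff] at h0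
        have h1 := Nat.eq_one_of_dvd_coprimes hn h0 dvd_rfl
        exact hp.one_lt.ne' h1
      refine ⟨(-(Module.finrank K L : ZMod p)⁻¹).val, ?_⟩
      rw [ZMod.natCast_zmod_val, mul_neg, mul_inv_cancel₀ hn', add_neg_cancel]
    obtain ⟨k, hk⟩ := h1
    have h2 : ((1 + Module.finrank K L * k : ℕ) : ZMod p) = 0 := by
      push_cast
      exact hk
    obtain ⟨t, ht⟩ := (ZMod.natCast_eq_zero_iff _ _).1 h2
    exact ⟨k, t, ht⟩
  set f := d * normG L S' c with hf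
  have hff : FixG S' f := v10_fix_mul hd (v4_norm_fix L S' hT' hcf)
  have hf0 : f ≠ 0 := mul_ne_zero hd0 (v4_norm_ne L S' hc0)
  have hy : a * (c * f ^ k) ^ p = a₁ * e ^ k := by
    rw [ha₁, hee, mul_pow]
    ring
  refine ⟨c * f ^ k, mul_ne_zero hc0 (pow_ne_zero _ hf0),
    v10_fix_mul hcf (v10_fix_mono inf_le_right (v10_fix_pow hff k)), ?_, e ^ t,
    v10_fix_pow hef t, ?_⟩
  · rw [hy]
    exact v10_fix_mul ha₁f (v10_fix_mono inf_le_right (v10_fix_pow hef k))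
  · rw [hy, v4_norm_mul, v4_norm_pow L S hT (v10_fix_pow hef k), ← he, ← pow_mul, ← pow_succ',
      ← pow_mul, mul_comm t p, ← hkt]
    congr 1
    ring

end Pool.Agent.H.MP_ac3185_nt
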