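import Pool.Agent.H.MP_ac3185_nt.V2.SignDefs

/-! The number of places of `LM` modulo `p - 1`, for `M` in a Galois extension whose degree is a power
of `p`. -/

set_option autoImplicit false

open NumberField IsDedekindDomain
open scoped Pointwise

namespace Pool.Agent.H.MP_ac3185_nt

universe u

section group

theorem v10q_pow {p : ℕ} (hp : p.Prime) (k : ℕ) : p ^ k ≡ 1 [MOD (p - 1)] := by
  have h : p ≡ 1 [MOD (p - 1)] := ((Nat.modEq_iff_dvd' hp.one_le).2 dvd_rfl).symm
  have h1 := h.pow k
  rwa [one_pow] at h1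

/-- A sum of numbers which are `1` modulo `m`. -/
theorem v10q_sum {m : ℕ} {X : Type*} [Finite X] {Y : X → Type*} [∀ x, Finite (Y x)]
    (h : ∀ x, Nat.card (Y x) ≡ 1 [MOD m]) : Nat.card (Σ x, Y x) ≡ Nat.card X [MOD m] := by
  have _ : Fintype X := Fintype.ofFinite X
  rw [Nat.card_sigma, ← ZMod.natCast_eq_natCast_iff]
  push_cast
  rw [Finset.sum_congr rfl fun x _ => (ZMod.natCast_eq_natCast_iff _ _ _).2 (h x)]
  rw [Nat.cast_one, Finset.sum_const, nsmul_eq_mul, mul_one, Finset.card_univ,
    Nat.card_eq_fintype_card]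

/-- The number of orbits of a `p`-group, modulo `p - 1`. -/
theorem v10q_orb {p : ℕ} (hp : p.Prime) {G X : Type*} [Group G] [MulAction G X] [Finite X]
    (hG : IsPGroup p G) :
    Nat.card X ≡ Nat.card (MulAction.orbitRel.Quotient G X) [MOD (p - 1)] := by
  have _ : Fact p.Prime := ⟨hp⟩
  have hfin : Finite (MulAction.orbitRel.Quotient G X) := Quotient.finite _
  rw [Nat.card_congr (MulAction.selfEquivSigmaOrbits' G X)]
  refine v10q_sum fun ω => ?_
  induction ω using Quotient.inductionOn' with
  | h x =>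
    obtain ⟨k, hk⟩ := hG.card_orbit x
    have h4 : Nat.card (MulAction.orbitRel.Quotient.orbit
        (Quotient.mk'' x : MulAction.orbitRel.Quotient G X)) =
        Nat.card (MulAction.orbit G x) := rfl
    rw [h4, hk]
    exact v10q_pow hp k

end group

section general

variable {N F : Type*} [Field N] [NumberField N] [Field F] [NumberField F] [Algebra N F]
  [IsGalois N F]

omit [NumberField N] in
/-- Infinite places in a Galois extension whose group is a `p`-group. -/
theorem v10q_inf {p : ℕ} (hp : p.Prime) (hG : IsPGroup p (F ≃ₐ[N] F)) :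
    Nat.card (InfinitePlace F) ≡ Nat.card (InfinitePlace N) [MOD (p - 1)] := by
  rw [← Nat.card_congr (InfinitePlace.orbitRelEquiv (k := N) (K := F))]
  exact v10q_orb hp hG

/-- The places above a finite place in a Galois extension whose group is a `p`-group. -/
theorem v10q_fib {p : ℕ} (hp : p.Prime) (hG : IsPGroup p (F ≃ₐ[N] F))
    (y : HeightOneSpectrum (𝓞 N)) :
    Finite {w : HeightOneSpectrum (𝓞 F) // w.asIdeal.comap (algebraMap (𝓞 N) (𝓞 F)) = y.asIdeal} ∧
    Nat.card {w : HeightOneSpectrum (𝓞 F) //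
      w.asIdeal.comap (algebraMap (𝓞 N) (𝓞 F)) = y.asIdeal} ≡ 1 [MOD (p - 1)] := by
  have _ : Fact p.Prime := ⟨hp⟩
  have hyp : y.asIdeal.IsPrime := y.isPrime
  have hym : y.asIdeal.IsMaximal := y.isMaximal
  let e : {w : HeightOneSpectrum (𝓞 F) // w.asIdeal.comap (algebraMap (𝓞 N) (𝓞 F)) = y.asIdeal} ≃
      y.asIdeal.primesOver (𝓞 F) :=
    { toFun := fun w => ⟨w.1.asIdeal, w.1.isPrime, ⟨w.2.symm⟩⟩
      invFun := fun P => ⟨⟨P.1, P.2.1, fun h => y.ne_bot (by
        have h1 := P.2.2.1
        rw [h] at h1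
        rw [h1]
        exact Ideal.comap_bot_of_injective _ (FaithfulSMul.algebraMap_injective (𝓞 N) (𝓞 F)))⟩,
        P.2.2.1.symm⟩
      left_inv := fun w => rfl
      right_inv := fun P => rfl }
  have hfin : Finite (y.asIdeal.primesOver (𝓞 F)) :=
    Algebra.QuasiFinite.finite_primesOver y.asIdeal
  refine ⟨Finite.of_equiv _ e.symm, ?_⟩
  rw [Nat.card_congr e]
  have h := Ideal.ncard_primesOver_mul_ramificationIdxIn_mul_inertiaDegIn y.asIdeal (𝓞 F)
    (F ≃ₐ[N] F)
  obtain ⟨k, hk⟩ := IsPGroup.iff_card.1 hG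
  have h1 : Nat.card (y.asIdeal.primesOver (𝓞 F)) ∣ p ^ k := by
    rw [← hk, ← h]
    exact Dvd.intro _ rfl
  obtain ⟨j, -, hj⟩ := (Nat.dvd_prime_pow hp).1 h1
  rw [hj]
  exact v10q_pow hp j

end general

section tower

variable {K : Type u} [Field K] [NumberField K]

/-- `NE / N` is Galois. -/
theorem v10q_gal (N E : IntermediateField K (AlgebraicClosure K)) [Normal K E]
    (F : IntermediateField K (AlgebraicClosure K)) (hF : F = N ⊔ E) (hN : N ≤ F) :
    letI _ : Algebra N F := (IntermediateField.inclusion hN).toRingHom.toAlgebra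
    IsGalois N F := by
  let _ : Algebra N F := (IntermediateField.inclusion hN).toRingHom.toAlgebra
  have : IsGalois K (AlgebraicClosure K) := IsAlgClosure.isGalois K (AlgebraicClosure K)
  have : IsGalois N (AlgebraicClosure K) := IsGalois.tower_top_of_isGalois K N (AlgebraicClosure K)
  have h1 : Normal N (IntermediateField.extendScalars hN) := by
    rw [IntermediateField.normal_iff_forall_map_le']
    rintro σ y ⟨x, hx, rfl⟩
    have hx' : x ∈ F := hx
    have hσ : ∀ z ∈ N ⊔ E, (σ.restrictScalars K) z ∈ N ⊔ E := by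
      have h2 : (N ⊔ E).map (σ.restrictScalars K : AlgebraicClosure K →ₐ[K] AlgebraicClosure K) ≤
          N ⊔ E := by
        rw [IntermediateField.map_sup]
        refine sup_le_sup ?_ ?_
        · rintro _ ⟨z, hz, rfl⟩
          have h3 : σ z = z := σ.commutes ⟨z, hz⟩
          have h4 : (σ.restrictScalars K : AlgebraicClosure K →ₐ[K] AlgebraicClosure K) z = z := h3
          show (σ.restrictScalars K : AlgebraicClosure K →ₐ[K] AlgebraicClosure K) z ∈ N
          rw [h4]
          exact hz
        · exact (IntermediateField.normal_iff_forall_map_le'.1 inferInstance) (σ.restrictScalars K)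
      intro z hz
      exact h2 ⟨z, hz, rfl⟩
    have h5 : σ x ∈ F := by
      rw [hF]
      exact hσ x (hF ▸ hx')
    exact h5
  have h2 : Normal N F := by
    refine Normal.of_algEquiv (E := IntermediateField.extendScalars hN) ?_
    exact AlgEquiv.ofRingEquiv (f := RingEquiv.refl F) fun x => rfl
  exact ⟨⟩

/-- `Gal(NE/N)` is a `p`-group if `Gal(E/K)` is a `p`-group. -/
theorem v10q_group {p : ℕ} (N E : IntermediateField K (AlgebraicClosure K)) [Normal K E]
    (hE : IsPGroup p (E ≃ₐ[K] E)) (F : IntermediateField K (AlgebraicClosure K)) (hF : F = N ⊔ E)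
    (hN : N ≤ F) :
    letI _ : Algebra N F := (IntermediateField.inclusion hN).toRingHom.toAlgebra
    IsPGroup p (F ≃ₐ[N] F) := by
  let _ : Algebra N F := (IntermediateField.inclusion hN).toRingHom.toAlgebra
  have : IsScalarTower K N F := IsScalarTower.of_algebraMap_eq fun x => rfl
  intro g
  have hg : ∀ z : F, ((g z : F) : AlgebraicClosure K) =
      (g.restrictScalars K).liftNormal (AlgebraicClosure K) (z : AlgebraicClosure K) :=
    fun z => ((g.restrictScalars K).liftNormal_commutes (AlgebraicClosure K) z).symm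
  set σ : AlgebraicClosure K ≃ₐ[K] AlgebraicClosure K :=
    (g.restrictScalars K).liftNormal (AlgebraicClosure K) with hσ
  obtain ⟨k, hk⟩ := hE (AlgEquiv.restrictNormalHom E σ)
  refine ⟨k, ?_⟩
  have h1 : σ ^ p ^ k ∈ E.fixingSubgroup := by
    rw [IntermediateField.mem_fixingSubgroup_iff]
    intro x hx
    rw [← map_pow] at hk
    have h2 := AlgEquiv.restrictNormal_commutes (σ ^ p ^ k) E ⟨x, hx⟩
    have h3 : (σ ^ p ^ k).restrictNormal E ⟨x, hx⟩ = ⟨x, hx⟩ := by
      have h4 : AlgEquiv.restrictNormalHom E (σ ^ p ^ k) ⟨x, hx⟩ = ⟨x, hx⟩ := by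
        rw [hk, AlgEquiv.one_apply]
      exact h4
    rw [h3] at h2
    exact h2.symm
  have h2 : σ ∈ N.fixingSubgroup := by
    rw [IntermediateField.mem_fixingSubgroup_iff]
    intro x hx
    have h3 := g.commutes ⟨x, hx⟩
    have h4 := hg (algebraMap N F ⟨x, hx⟩)
    rw [h3] at h4
    exact h4.symm
  have h3 : σ ^ p ^ k ∈ F.fixingSubgroup := by
    rw [hF, IntermediateField.fixingSubgroup_sup]
    exact ⟨Subgroup.pow_mem _ h2 _, h1⟩
  have h4 : ∀ (n : ℕ) (z : F), (((g ^ n) z : F) : AlgebraicClosure K) = (σ ^ n) z := by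
    intro n
    induction n with
    | zero =>
      intro z
      rw [pow_zero, pow_zero, AlgEquiv.one_apply, AlgEquiv.one_apply]
    | succ n ih =>
      intro z
      rw [pow_succ, pow_succ, AlgEquiv.mul_apply, AlgEquiv.mul_apply, ih, hg]
  ext z
  rw [h4, AlgEquiv.one_apply]
  exact (IntermediateField.mem_fixingSubgroup_iff F _).1 h3 z z.2

variable {p : ℕ} (hp : p.Prime) (N E : IntermediateField K (AlgebraicClosure K))
  [FiniteDimensional K N] [FiniteDimensional K E] [IsGalois K E] (hE : IsPGroup p (E ≃ₐ[K] E))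
  (F : IntermediateField K (AlgebraicClosure K)) (hF : F = N ⊔ E)

include hp hE hF

theorem v10q_infF : Nat.card (InfinitePlace F) ≡ Nat.card (InfinitePlace N) [MOD (p - 1)] := by
  have hN : N ≤ F := hF ▸ le_sup_left
  have : FiniteDimensional K F := hF ▸ inferInstance
  have : NumberField F := NumberField.of_module_finite K F
  have : NumberField N := NumberField.of_module_finite K N
  let _ : Algebra N F := (IntermediateField.inclusion hN).toRingHom.toAlgebra
  have : IsGalois N F := v10q_gal N E F hF hN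
  exact v10q_inf hp (v10q_group N E hE F hF hN)

theorem v10q_placeF (v : HeightOneSpectrum (𝓞 K)) :
    placeCount F v ≡ placeCount N v [MOD (p - 1)] := by
  have hN : N ≤ F := hF ▸ le_sup_left
  have : FiniteDimensional K F := hF ▸ inferInstance
  have : NumberField F := NumberField.of_module_finite K F
  have : NumberField N := NumberField.of_module_finite K N
  let _ : Algebra N F := (IntermediateField.inclusion hN).toRingHom.toAlgebra
  have : IsGalois N F := v10q_gal N E F hF hN
  have hG : IsPGroup p (F ≃ₐ[N] F) := v10q_group N E hE F hF hN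
  have hT : ∀ x : 𝓞 K, algebraMap (𝓞 N) (𝓞 F) (algebraMap (𝓞 K) (𝓞 N) x) =
      algebraMap (𝓞 K) (𝓞 F) x := by
    intro x
    apply RingOfIntegers.ext
    rfl
  have hc : ∀ w : HeightOneSpectrum (𝓞 F), (w.asIdeal.comap (algebraMap (𝓞 N) (𝓞 F))).comap
      (algebraMap (𝓞 K) (𝓞 N)) = w.asIdeal.comap (algebraMap (𝓞 K) (𝓞 F)) := by
    intro w
    ext x
    rw [Ideal.mem_comap, Ideal.mem_comap, Ideal.mem_comap, hT]
  have hvp : v.asIdeal.IsPrime := v.isPrime
  have hfin0 : Finite (v.asIdeal.primesOver (𝓞 N)) :=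
    Algebra.QuasiFinite.finite_primesOver v.asIdeal
  have hfin : Finite {y : HeightOneSpectrum (𝓞 N) // Divides N y v} :=
    Finite.of_injective (fun y => (⟨y.1.asIdeal, y.1.isPrime, ⟨(y.2 : _ = _).symm⟩⟩ :
      v.asIdeal.primesOver (𝓞 N))) fun y z h =>
        Subtype.ext (HeightOneSpectrum.ext (congrArg (fun P => P.1) h))
  let e : {w : HeightOneSpectrum (𝓞 F) // Divides F w v} ≃
      Σ y : {y : HeightOneSpectrum (𝓞 N) // Divides N y v},
        {w : HeightOneSpectrum (𝓞 F) //
          w.asIdeal.comap (algebraMap (𝓞 N) (𝓞 F)) = y.1.asIdeal} :=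
    { toFun := fun w => ⟨⟨⟨w.1.asIdeal.comap (algebraMap (𝓞 N) (𝓞 F)), Ideal.comap_isPrime _ _,
          fun h => v.ne_bot (by
            have h1 : w.1.asIdeal.comap (algebraMap (𝓞 K) (𝓞 F)) = v.asIdeal := w.2
            rw [← h1, ← hc, h]
            exact Ideal.comap_bot_of_injective _
              (FaithfulSMul.algebraMap_injective (𝓞 K) (𝓞 N)))⟩, (hc w.1).trans w.2⟩,
          ⟨w.1, rfl⟩⟩
      invFun := fun q => ⟨q.2.1, by
        have h1 := hc q.2.1
        rw [q.2.2] at h1
        exact h1.symm.trans q.1.2⟩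
      left_inv := fun w => rfl
      right_inv := fun q => by
        obtain ⟨⟨⟨I, hI, hI0⟩, hy⟩, ⟨w, hw⟩⟩ := q
        have h1 : w.asIdeal.comap (algebraMap (𝓞 N) (𝓞 F)) = I := hw
        subst h1
        rfl }
  unfold placeCount
  rw [Nat.card_congr e]
  have hfin2 : ∀ y : {y : HeightOneSpectrum (𝓞 N) // Divides N y v},
      Finite {w : HeightOneSpectrum (𝓞 F) //
        w.asIdeal.comap (algebraMap (𝓞 N) (𝓞 F)) = y.1.asIdeal} := fun y =>
    (v10q_fib hp hG y.1).1
  exact v10q_sum fun y => (v10q_fib hp hG y.1).2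

end tower

section main

variable {K : Type u} [Field K] [NumberField K]

/-- The number of places of `LM` above `v` is the number of places of `L` above `v`, modulo `p - 1`. -/
theorem v10_place_mod {p : ℕ} (hp : p.Prime) (L M E : IntermediateField K (AlgebraicClosure K))
    [FiniteDimensional K L] [FiniteDimensional K M] [FiniteDimensional K E] [IsGalois K E]
    (hME : M ≤ E) (hE : IsPGroup p (E ≃ₐ[K] E)) (v : HeightOneSpectrum (𝓞 K)) :
    placeCount (L ⊔ M) v ≡ placeCount L v [MOD (p - 1)] := by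
  have h1 := v10q_placeF hp (L ⊔ M) E hE (L ⊔ E)
    (by rw [sup_assoc, sup_eq_right.2 hME]) v
  have h2 := v10q_placeF hp L E hE (L ⊔ E) rfl v
  exact h1.symm.trans h2

/-- The number of infinite places of `LM` is the number of infinite places of `L`, modulo `p - 1`. -/
theorem v10_inf_mod {p : ℕ} (hp : p.Prime) (L M E : IntermediateField K (AlgebraicClosure K))
    [FiniteDimensional K L] [FiniteDimensional K M] [FiniteDimensional K E] [IsGalois K E]
    (hME : M ≤ E) (hE : IsPGroup p (E ≃ₐ[K] E)) :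
    Nat.card (InfinitePlace (L ⊔ M : IntermediateField K (AlgebraicClosure K))) ≡
      Nat.card (InfinitePlace L) [MOD (p - 1)] := by
  have h1 := v10q_infF hp (L ⊔ M) E hE (L ⊔ E)
    (by rw [sup_assoc, sup_eq_right.2 hME])
  have h2 := v10q_infF hp L E hE (L ⊔ E) rfl
  exact h1.symm.trans h2

end main

end Pool.Agent.H.MP_ac3185_nt
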