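import Mathlib

/-! Linear algebra: the rank of a module with a free action of a cyclic group of prime order `p`, modulo
`p - 1`. -/

set_option autoImplicit false

namespace Pool.Agent.H.MP_ac3185_nt

/-- An operator `T` with `1 + T + ... + T ^ (p - 1) = 0` on a vector space over `ℚ`: the dimension is
divisible by `p - 1`. -/
theorem v10_cyc_dvd {p : ℕ} (hp : p.Prime) (W : Type*) [AddCommGroup W] [Module ℚ W]
    (T : Module.End ℚ W) (hT : ∑ i ∈ Finset.range p, T ^ i = 0) :
    (p - 1) ∣ Module.finrank ℚ W := by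
  have hfact : Fact p.Prime := ⟨hp⟩
  have hirr : Fact (Irreducible (Polynomial.cyclotomic p ℚ)) :=
    ⟨Polynomial.cyclotomic.irreducible_rat hp.pos⟩
  have hz : Polynomial.aeval T (Polynomial.cyclotomic p ℚ) = 0 := by
    rw [Polynomial.cyclotomic_prime]
    simpa using hT
  have hI : ∀ a ∈ Ideal.span {Polynomial.cyclotomic p ℚ}, Polynomial.aeval T a = 0 := by
    intro a ha
    obtain ⟨b, rfl⟩ := Ideal.mem_span_singleton'.1 ha
    rw [map_mul, hz, mul_zero]
  let f : AdjoinRoot (Polynomial.cyclotomic p ℚ) →ₐ[ℚ] Module.End ℚ W :=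
    Ideal.Quotient.liftₐ (Ideal.span {Polynomial.cyclotomic p ℚ}) (Polynomial.aeval T) hI
  letI : Module (AdjoinRoot (Polynomial.cyclotomic p ℚ)) W := Module.compHom W f.toRingHom
  have hst : IsScalarTower ℚ (AdjoinRoot (Polynomial.cyclotomic p ℚ)) W := by
    refine ⟨fun q x w => ?_⟩
    have h1 : f (q • x) = q • f x := map_smul f q x
    exact congrArg (fun g : Module.End ℚ W => g w) h1
  have h2 := Module.finrank_mul_finrank ℚ (AdjoinRoot (Polynomial.cyclotomic p ℚ)) W
  have h3 : Module.finrank ℚ (AdjoinRoot (Polynomial.cyclotomic p ℚ)) = p - 1 := by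
    rw [(AdjoinRoot.powerBasis hirr.out.ne_zero).finrank, AdjoinRoot.powerBasis_dim,
      Polynomial.natDegree_cyclotomic, Nat.totient_prime hp]
  rw [← h2, h3]
  exact Dvd.intro _ rfl

/-- The same for a module over `ℤ`. -/
theorem v10_cyc_dvd_int {p : ℕ} (hp : p.Prime) (U : Type*) [AddCommGroup U] (T : Module.End ℤ U)
    (hT : ∑ i ∈ Finset.range p, T ^ i = 0) : (p - 1) ∣ Module.finrank ℤ U := by
  have h1 : Module.finrank ℚ (TensorProduct ℤ ℚ U) = Module.finrank ℤ U :=
    (TensorProduct.isBaseChange ℤ U ℚ).finrank_eq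
  rw [← h1]
  refine v10_cyc_dvd hp _ (LinearMap.baseChange ℚ T) ?_
  have h2 : LinearMap.baseChange ℚ T = Module.End.baseChangeHom ℤ ℚ U T := rfl
  rw [h2]
  simp only [← map_pow]
  rw [← map_sum, hT, map_zero]

/-- The rank of `V` and the rank of the invariants of an operator of period `p`, modulo `p - 1`. -/
theorem v10_rank_step {p : ℕ} (hp : p.Prime) (V : Type*) [AddCommGroup V] [Module.Finite ℤ V]
    (S : Module.End ℤ V) (hS : S ^ p = 1) :
    Module.finrank ℤ V ≡ Module.finrank ℤ (LinearMap.ker (S - 1)) [MOD (p - 1)] := by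
  have hst : ∀ x ∈ LinearMap.range (S - 1), S x ∈ LinearMap.range (S - 1) := by
    rintro _ ⟨y, rfl⟩
    exact ⟨S y, by simp⟩
  have hsum : (∑ i ∈ Finset.range p, S ^ i) * (S - 1) = 0 := by
    rw [geom_sum_mul, hS, sub_self]
  have h2 : ∑ i ∈ Finset.range p, (S.restrict hst) ^ i = 0 := by
    ext ⟨x, y, rfl⟩
    have h3 := congrArg (fun F : Module.End ℤ V => F y) hsum
    simp only [LinearMap.sum_apply, Module.End.mul_apply, LinearMap.zero_apply] at h3
    simp only [LinearMap.sum_apply, LinearMap.zero_apply, Submodule.coe_sum, Submodule.coe_zero]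
    rw [← h3]
    refine Finset.sum_congr rfl fun i _ => ?_
    rw [Module.End.pow_restrict i hst]
    rfl
  obtain ⟨t, ht⟩ := v10_cyc_dvd_int hp _ (S.restrict hst) h2
  have h5 := (LinearMap.ker (S - 1)).finrank_quotient_add_finrank
  have h6 : Module.finrank ℤ (V ⧸ LinearMap.ker (S - 1)) =
      Module.finrank ℤ (LinearMap.range (S - 1)) := (LinearMap.quotKerEquivRange (S - 1)).finrank_eq
  rw [← h5, h6, ht]
  unfold Nat.ModEq
  rw [add_comm, Nat.add_mul_mod_self_left]

end Pool.Agent.H.MP_ac3185_nt
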