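import Pool.Agent.H.MP_ac3185_nt.V10.Grp
import Pool.Agent.H.MP_ac3185_nt.V10.RankLin
import Pool.Agent.H.MP_ac3185_nt.S.Pts

/-! The rank over a `p`-extension, modulo `p - 1`. -/

set_option autoImplicit false

open CategoryTheory AlgebraicGeometry NumberField IsDedekindDomain
open scoped MonObj Pointwise

namespace Pool.Agent.H.MP_ac3185_nt

universe u

section fix

variable {Γ X : Type*} [Group Γ] [AddCommGroup X]

/-- The elements of `X` fixed by the elements of `G`. -/
def fixSub (a : Γ →* Module.End ℤ X) (G : Subgroup Γ) : Submodule ℤ X where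
  carrier := {x | ∀ s ∈ G, a s x = x}
  zero_mem' := fun s _ => map_zero (a s)
  add_mem' := fun hx hy s hs => by rw [map_add, hx s hs, hy s hs]
  smul_mem' := fun c x hx s hs => by rw [map_smul, hx s hs]

theorem v10_fix_step {p : ℕ} (hp : p.Prime) (a : Γ →* Module.End ℤ X) (G' G : Subgroup Γ)
    (h : CycStep p G' G) [Module.Finite ℤ (fixSub a G')] :
    Module.finrank ℤ (fixSub a G') ≡ Module.finrank ℤ (fixSub a G) [MOD (p - 1)] := by
  by_cases hG : ∃ σ ∈ G, σ ∉ G'
  · obtain ⟨σ, hσ, hσ'⟩ := hG
    obtain ⟨hσp, hgen⟩ := h.gen σ hσ hσ'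
    have hst : ∀ x ∈ fixSub a G', a σ x ∈ fixSub a G' := by
      intro x hx s hs
      have h1 : s * σ = σ * (σ⁻¹ * s * σ) := by group
      have h2 : a s (a σ x) = a σ (a (σ⁻¹ * s * σ) x) := by
        rw [← Module.End.mul_apply, ← map_mul, h1, map_mul, Module.End.mul_apply]
      rw [h2, hx _ (h.conj σ hσ s hs)]
    have hS : ((a σ).restrict hst) ^ p = 1 := by
      rw [Module.End.pow_restrict p hst]
      ext ⟨x, hx⟩
      rw [LinearMap.restrict_coe_apply]
      rw [← map_pow]
      exact hx _ hσp
    have h3 := v10_rank_step hp (fixSub a G') ((a σ).restrict hst) hS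
    have h4 : (LinearMap.ker ((a σ).restrict hst - 1)).map (fixSub a G').subtype = fixSub a G := by
      ext x
      simp only [Submodule.mem_map, LinearMap.mem_ker]
      constructor
      · rintro ⟨⟨y, hy⟩, h5, rfl⟩ s hs
        have h6 : a σ y = y := by
          rw [LinearMap.sub_apply, sub_eq_zero] at h5
          exact congrArg Subtype.val h5
        obtain ⟨i, hip, hi⟩ := hgen s hs
        have h7 : s = σ ^ i * ((σ ^ i)⁻¹ * s) := by group
        have h8 : a s y = (a σ ^ i) (a ((σ ^ i)⁻¹ * s) y) := by
          rw [← map_pow, ← Module.End.mul_apply, ← map_mul, ← h7]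
        show a s y = y
        rw [h8, hy _ hi]
        clear h8 h7 hi hip
        induction i with
        | zero => simp
        | succ i ih => rw [pow_succ, Module.End.mul_apply, h6, ih]
      · intro hx
        have hx' : x ∈ fixSub a G' := fun s hs => hx s (h.le hs)
        refine ⟨⟨x, hx'⟩, ?_, rfl⟩
        rw [LinearMap.sub_apply, sub_eq_zero]
        exact Subtype.ext (hx σ hσ)
    rw [← h4]
    rw [← (Submodule.equivMapOfInjective (fixSub a G').subtype (Submodule.injective_subtype _)
      (LinearMap.ker ((a σ).restrict hst - 1))).finrank_eq]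
    exact h3
  · have h1 : G' = G := by
      apply le_antisymm h.le
      intro s hs
      by_contra hc
      exact hG ⟨s, hs, hc⟩
    rw [h1]

end fix

section main

variable {K : Type u} [Field K]

/-- The action of the Galois group on `A(Kbar)`, by linear maps. -/
noncomputable def galEnd (A : Over (Spec (.of K))) [GrpObj A] [IsAbVar A] :
    (AlgebraicClosure K ≃ₐ[K] AlgebraicClosure K) →*
      Module.End ℤ (Pts A (AlgebraicClosure K)) where
  toFun s := (galHom A s).toIntLinearMap
  map_one' := by
    ext x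
    exact congrArg (fun f : Pts A (AlgebraicClosure K) →+ Pts A (AlgebraicClosure K) => f x)
      (ptsb_galHom_one A)
  map_mul' s t := by
    ext x
    exact congrArg (fun f : Pts A (AlgebraicClosure K) →+ Pts A (AlgebraicClosure K) => f x)
      (ptsb_galHom_mul A s t)

/-- The points over `L` are the points over the algebraic closure which are fixed by `Gal(Kbar/L)`. -/
theorem v10_rk_fix [CharZero K] (A : Over (Spec (.of K))) [GrpObj A] [IsAbVar A]
    (L : IntermediateField K (AlgebraicClosure K)) :
    Nonempty (Pts A L ≃ₗ[ℤ] fixSub (galEnd A) L.fixingSubgroup) := by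
  refine ⟨LinearEquiv.ofBijective ((toBar A L).toIntLinearMap.codRestrict
    (fixSub (galEnd A) L.fixingSubgroup) fun y s hs => sp_bar_fix A L s hs y) ⟨?_, ?_⟩⟩
  · intro x y h
    exact sp_bar_inj A L (congrArg Subtype.val h)
  · rintro ⟨x, hx⟩
    obtain ⟨y, hy⟩ := sp_bar_of_fixed A L x hx
    exact ⟨y, Subtype.ext hy⟩

end main

variable {K : Type u} [Field K] [NumberField K]

/-- The rank over a `p`-extension `M` is congruent to the rank over `K` modulo `p - 1`. -/
theorem v10_rank_mod {p : ℕ} (hp : p.Prime) (M E : IntermediateField K (AlgebraicClosure K))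
    [FiniteDimensional K M] [FiniteDimensional K E] [IsGalois K E] (hME : M ≤ E)
    (hE : IsPGroup p (E ≃ₐ[K] E)) (A : Over (Spec (.of K))) [GrpObj A] [IsAbVar A]
    (hfin : Module.Finite ℤ (Pts A M)) : rk A M ≡ rk A ⊥ [MOD (p - 1)] := by
  obtain ⟨eM⟩ := v10_rk_fix A M
  have hfinM : Module.Finite ℤ (fixSub (galEnd A) M.fixingSubgroup) := Module.Finite.equiv eM
  have h1 : rk A M = Module.finrank ℤ (fixSub (galEnd A) M.fixingSubgroup) := eM.finrank_eq
  rw [h1]
  refine v10_ind hp M E hME hE
    (fun _ G => Module.finrank ℤ (fixSub (galEnd A) G) ≡ rk A ⊥ [MOD (p - 1)]) ?_ ?_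
  · obtain ⟨e⟩ := v10_rk_fix A (⊥ : IntermediateField K (AlgebraicClosure K))
    have h2 : rk A (⊥ : IntermediateField K (AlgebraicClosure K)) =
      Module.finrank ℤ (fixSub (galEnd A)
        (⊥ : IntermediateField K (AlgebraicClosure K)).fixingSubgroup) := e.finrank_eq
    rw [IntermediateField.fixingSubgroup_bot] at h2
    show Module.finrank ℤ (fixSub (galEnd A) ⊤) ≡
      rk A (⊥ : IntermediateField K (AlgebraicClosure K)) [MOD (p - 1)]
    rw [h2]
  · intro d G' G hM hc h2
    have hle : fixSub (galEnd A) G' ≤ fixSub (galEnd A) M.fixingSubgroup :=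
      fun x hx s hs => hx s (hM hs)
    have hfin' : Module.Finite ℤ (fixSub (galEnd A) G') :=
      Module.Finite.of_injective (Submodule.inclusion hle) (Submodule.inclusion_injective hle)
    exact (v10_fix_step hp (galEnd A) G' G hc).trans h2

end Pool.Agent.H.MP_ac3185_nt
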