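import Pool.Agent.H.MP_ac3185_nt.V10.Chain
import Pool.Agent.H.MP_ac3185_nt.V10.Par
import Pool.Agent.H.MP_ac3185_nt.V10.Cover
import Pool.Agent.H.MP_ac3185_nt.V4.Root
import Pool.Agent.H.MP_ac3185_nt.V10.RankMod
import Pool.Agent.H.MP_ac3185_nt.helper85.AllP
import Pool.Agent.H.MP_ac3185_nt.W.DivPts

/-! The main theorem for the fields `LM`, where `M` lies in a Galois extension of degree a power of
`p`. -/

set_option autoImplicit false

open CategoryTheory AlgebraicGeometry NumberField IsDedekindDomain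
open scoped MonObj Pointwise

namespace Pool.Agent.H.MP_ac3185_nt

universe u

variable {K : Type u} [Field K] [NumberField K]

/-- The rank of `A(LM)` over `A(M)`. -/
theorem v10_rk {p : ℕ} (hp : p.Prime) (L : IntermediateField K (AlgebraicClosure K))
    [FiniteDimensional K L] (hn : (Module.finrank K L).Coprime p)
    (M E : IntermediateField K (AlgebraicClosure K)) [FiniteDimensional K M]
    [FiniteDimensional K E] [IsGalois K E] (hME : M ≤ E) (hE : IsPGroup p (E ≃ₐ[K] E))
    (A : Over (Spec (.of K))) [GrpObj A] [IsAbVar A] (m b : ℕ)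
    (N : AddSubgroup (Pts A (AlgebraicClosure K))) (hN : ∀ x, x ∈ N ↔ (p ^ m : ℕ) • x = 0)
    (hc : TowerChain p L M A N b) :
    MulCoverOver A L M (p ^ m) (p ^ (b * Module.finrank K M)) ∧
    (b = 0 → 0 < m → ∀ x, FixPt A (L ⊔ M).fixingSubgroup x →
      ∃ N : ℕ, N.Coprime p ∧ FixPt A M.fixingSubgroup (N • x)) ∧
    (b * Module.finrank K M < m → rk A (L ⊔ M) = rk A M) ∧
    (Module.Finite ℤ (Pts A (L ⊔ M : IntermediateField K (AlgebraicClosure K))) →
      rk A M ≤ rk A (L ⊔ M) ∧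
        m * (rk A (L ⊔ M) - rk A M) ≤ b * Module.finrank K M) := by
  have h1 := v10_cover A L M (p ^ m) (p ^ (b * Module.finrank K M)) N hN
    (gc_div A (p ^ m) (pow_ne_zero m hp.ne_zero)) (v10_chain hp L hn M E hME hE A N b hc)
  obtain ⟨h2, h3, h4⟩ := v10_rank hp L M A m (b * Module.finrank K M) h1
  exact ⟨h1, fun hb => h2 (by rw [hb, zero_mul]), h3, h4⟩

/-- `[M : K]` is odd, if `p` is. -/
theorem v10_odd {p : ℕ} (hp : p.Prime) (h2 : p ≠ 2)
    (M E : IntermediateField K (AlgebraicClosure K)) [FiniteDimensional K M]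
    [FiniteDimensional K E] [IsGalois K E] (hME : M ≤ E) (hE : IsPGroup p (E ≃ₐ[K] E)) :
    Odd (Module.finrank K M) := by
  refine v10_ind hp M E hME hE (fun d _ => Odd d) odd_one fun d _ _ _ _ hd => ?_
  exact (hp.odd_of_ne_two h2).mul hd

theorem v10_two {p : ℕ} (hp : p.Prime) (h2 : p ≠ 2) {a b : ℕ} (h : a ≡ b [MOD (p - 1)]) :
    a ≡ b [MOD 2] := by
  refine h.of_dvd ?_
  obtain ⟨k, hk⟩ := hp.odd_of_ne_two h2
  exact ⟨k, by omega⟩

/-- The exponents of the signs for `LM` and `L`. -/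
theorem v10_exp {p : ℕ} (hp : p.Prime) (h2 : p ≠ 2)
    (L : IntermediateField K (AlgebraicClosure K))
    [FiniteDimensional K L] (hn : (Module.finrank K L).Coprime p)
    (M E : IntermediateField K (AlgebraicClosure K)) [FiniteDimensional K M]
    [FiniteDimensional K E] [IsGalois K E] (hME : M ≤ E) (hE : IsPGroup p (E ≃ₐ[K] E)) (g : ℕ)
    (T : Finset (HeightOneSpectrum (𝓞 K))) (r : HeightOneSpectrum (𝓞 K) → ℕ) :
    Module.finrank K (L ⊔ M : IntermediateField K (AlgebraicClosure K)) ≡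
      Module.finrank K L [MOD 2] ∧
      signExp (L ⊔ M) g T r ≡ signExp L g T r [MOD 2] := by
  have hT : TransOn L M.fixingSubgroup := by
    have h := v10_trans_sub hp L M E hn hME hE ⊤ (fun s => ⟨s, Subgroup.mem_top s, by
      rw [inv_mul_cancel]
      exact L.fixingSubgroup.one_mem⟩)
    rwa [top_inf_eq] at h
  have hd : Module.finrank K (L ⊔ M : IntermediateField K (AlgebraicClosure K)) ≡
      Module.finrank K L [MOD 2] := by
    rw [v4r_degree L M hT]
    have h3 : Module.finrank K M ≡ 1 [MOD 2] := Nat.odd_iff.1 (v10_odd hp h2 M E hME hE)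
    have h4 := h3.mul_left (Module.finrank K L)
    rwa [mul_one] at h4
  refine ⟨hd, ?_⟩
  unfold signExp
  refine Nat.ModEq.add (Nat.ModEq.mul_left g (Nat.ModEq.add
    (v10_two hp h2 (v10_inf_mod hp L M E hME hE)) (hd.mul_right _))) ?_
  have h5 : ∀ s : Finset (HeightOneSpectrum (𝓞 K)),
      ∑ v ∈ s, r v * (placeCount (L ⊔ M) v +
        Module.finrank K (L ⊔ M : IntermediateField K (AlgebraicClosure K))) ≡
      ∑ v ∈ s, r v * (placeCount L v + Module.finrank K L) [MOD 2] := by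
    classical
    intro s
    induction s using Finset.induction_on with
    | empty => exact Nat.ModEq.refl _
    | insert a s ha ih =>
      rw [Finset.sum_insert ha, Finset.sum_insert ha]
      exact Nat.ModEq.add (Nat.ModEq.mul_left _ (Nat.ModEq.add
        (v10_two hp h2 (v10_place_mod hp L M E hME hE a)) hd)) ih
  exact h5 T

/-- Powers of `-1` with congruent exponents. -/
theorem v10_pow {a b : ℕ} {s : ℤ} (hs : s = 1 ∨ s = -1) (h : a ≡ b [MOD 2]) : s ^ a = s ^ b := by
  rcases hs with rfl | rfl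
  · rw [one_pow, one_pow]
  · rcases Nat.even_or_odd a with ha | ha
    · have hb : Even b := by
        rw [Nat.even_iff] at ha ⊢
        rw [← ha]
        exact h.symm
      rw [ha.neg_one_pow, hb.neg_one_pow]
    · have hb : Odd b := by
        rw [Nat.odd_iff] at ha ⊢
        rw [← ha]
        exact h.symm
      rw [ha.neg_one_pow, hb.neg_one_pow]

/-- The main theorem for an odd prime number `p`. -/
theorem v10_main {p : ℕ} (hp : p.Prime) (h2 : p ≠ 2)
    (L : IntermediateField K (AlgebraicClosure K))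
    [FiniteDimensional K L] (hn : (Module.finrank K L).Coprime p)
    (M E : IntermediateField K (AlgebraicClosure K)) [FiniteDimensional K M]
    [FiniteDimensional K E] [IsGalois K E] (hME : M ≤ E) (hE : IsPGroup p (E ≃ₐ[K] E))
    (A : Over (Spec (.of K))) [GrpObj A] [IsAbVar A] (m b : ℕ)
    (N : AddSubgroup (Pts A (AlgebraicClosure K))) (hN : ∀ x, x ∈ N ↔ (p ^ m : ℕ) • x = 0)
    (hc : TowerChain p L M A N b)
    (g : ℕ) (W : LocalSigns K) (hW : IsRootNumbers A W)
    (T : Finset (HeightOneSpectrum (𝓞 K))) (r : HeightOneSpectrum (𝓞 K) → ℕ)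
    (hT : ∀ v ∈ T, SplitTorus A v (r v) ∨ (QuadTorus A v (r v) ∧ OddRam (L ⊔ M) v) ∨
      (EvenSign W v (r v) ∧ UnrIn (L ⊔ M) v))
    (hT' : ∀ v ∉ T, ∀ 𝔓, Above 𝔓 v → GoodAt A 𝔓) :
    signOver W g (L ⊔ M) = (-1) ^ signExp L g T r * signOver W g ⊥ ^ Module.finrank K L ∧
      (b * Module.finrank K M < m → Module.Finite ℤ (Pts A M) →
        rk A (L ⊔ M) ≡ rk A ⊥ [MOD (p - 1)] ∧
        (Even (Module.finrank K L) →
          (ParityFor A g W (L ⊔ M) ↔ Even (rk A ⊥ + signExp L g T r))) ∧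
        (Odd (Module.finrank K L) →
          ((ParityFor A g W (L ⊔ M) ↔ ParityFor A g W ⊥) ↔ Even (signExp L g T r)))) := by
  have hfd : FiniteDimensional K (L ⊔ M : IntermediateField K (AlgebraicClosure K)) :=
    IntermediateField.finiteDimensional_sup L M
  obtain ⟨hd, he⟩ := v10_exp hp h2 L hn M E hME hE g T r
  have hs1 := signOver_sign A W hW g (⊥ : IntermediateField K (AlgebraicClosure K))
  have hs : signOver W g (L ⊔ M) =
      (-1) ^ signExp L g T r * signOver W g ⊥ ^ Module.finrank K L := by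
    rw [v9_sign (L ⊔ M) A g W hW T r hT hT', v10_pow (Or.inr rfl) he, v10_pow hs1 hd]
  refine ⟨hs, fun hb hfin => ?_⟩
  have hrk := (v10_rk hp L hn M E hME hE A m b N hN hc).2.2.1 hb
  have hmod : rk A (L ⊔ M) ≡ rk A ⊥ [MOD (p - 1)] := by
    rw [hrk]
    exact v10_rank_mod hp M E hME hE A hfin
  have hpar : (-1 : ℤ) ^ rk A (L ⊔ M) = (-1) ^ rk A ⊥ :=
    v10_pow (Or.inr rfl) (v10_two hp h2 hmod)
  have hsq : signOver W g ⊥ * signOver W g ⊥ = 1 := by
    rcases hs1 with h | h <;> rw [h] <;> norm_num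
  refine ⟨hmod, fun hev => ?_, fun hod => ?_⟩
  · obtain ⟨k, hk⟩ := hev
    have h1 : signOver W g ⊥ ^ Module.finrank K L = 1 := by
      rw [hk, pow_add, ← mul_pow, hsq, one_pow]
    unfold ParityFor
    rw [hs, h1, mul_one, hpar]
    exact wg_signs _ _
  · obtain ⟨k, hk⟩ := hod
    have h1 : signOver W g ⊥ ^ Module.finrank K L = signOver W g ⊥ := by
      rw [hk, pow_succ, pow_mul, sq, hsq, one_pow, one_mul]
    rw [h1] at hs
    have h3 := v2_signs (rk A ⊥) 0 (signExp L g T r) _ _ hs1 hs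
    unfold ParityFor
    rw [hpar]
    rw [add_zero] at h3
    refine h3.trans ?_
    rw [← Nat.not_even_iff_odd]
    simp

omit [NumberField K] in
/-- The local conditions for a subfield. -/
theorem v10_cond {L' M : IntermediateField K (AlgebraicClosure K)} (h : M ≤ L')
    {A : Over (Spec (.of K))} [GrpObj A] [IsAbVar A] {W : LocalSigns K}
    {T : Finset (HeightOneSpectrum (𝓞 K))} {r : HeightOneSpectrum (𝓞 K) → ℕ}
    (hT : ∀ v ∈ T, SplitTorus A v (r v) ∨ (QuadTorus A v (r v) ∧ OddRam L' v) ∨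
      (EvenSign W v (r v) ∧ UnrIn L' v)) :
    ∀ v ∈ T, SplitTorus A v (r v) ∨ (QuadTorus A v (r v) ∧ OddRam M v) ∨
      (EvenSign W v (r v) ∧ UnrIn M v) := by
  have hle : L'.fixingSubgroup ≤ M.fixingSubgroup := IntermediateField.fixingSubgroup_antitone h
  intro v hv
  rcases hT v hv with h1 | ⟨h1, h2⟩ | ⟨h1, h2⟩
  · exact Or.inl h1
  · exact Or.inr (Or.inl ⟨h1, fun 𝔓 h𝔓 =>
      Odd.of_dvd_nat (h2 𝔓 h𝔓) (Subgroup.relIndex_dvd_of_le_left _ hle)⟩)
  · exact Or.inr (Or.inr ⟨h1, fun 𝔓 h𝔓 s hs => hle (h2 𝔓 h𝔓 hs)⟩)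

/-- The comparison with `M`, for `[L : K]` odd and all prime numbers `p`. -/
theorem v10_main_over {p : ℕ} (hp : p.Prime)
    (L : IntermediateField K (AlgebraicClosure K))
    [FiniteDimensional K L] (hn : (Module.finrank K L).Coprime p)
    (hodd : Odd (Module.finrank K L))
    (M E : IntermediateField K (AlgebraicClosure K)) [FiniteDimensional K M]
    [FiniteDimensional K E] [IsGalois K E] (hME : M ≤ E) (hE : IsPGroup p (E ≃ₐ[K] E))
    (A : Over (Spec (.of K))) [GrpObj A] [IsAbVar A] (m b : ℕ)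
    (N : AddSubgroup (Pts A (AlgebraicClosure K))) (hN : ∀ x, x ∈ N ↔ (p ^ m : ℕ) • x = 0)
    (hc : TowerChain p L M A N b)
    (g : ℕ) (W : LocalSigns K) (hW : IsRootNumbers A W)
    (T : Finset (HeightOneSpectrum (𝓞 K))) (r : HeightOneSpectrum (𝓞 K) → ℕ)
    (hT : ∀ v ∈ T, SplitTorus A v (r v) ∨ (QuadTorus A v (r v) ∧ OddRam (L ⊔ M) v) ∨
      (EvenSign W v (r v) ∧ UnrIn (L ⊔ M) v))
    (hT' : ∀ v ∉ T, ∀ 𝔓, Above 𝔓 v → GoodAt A 𝔓) :
    signOver W g (L ⊔ M) = (-1) ^ (signExp (L ⊔ M) g T r + signExp M g T r) * signOver W g M ∧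
      (b * Module.finrank K M < m →
        ((ParityFor A g W (L ⊔ M) ↔ ParityFor A g W M) ↔
          Even (signExp (L ⊔ M) g T r + signExp M g T r))) := by
  have hfd : FiniteDimensional K (L ⊔ M : IntermediateField K (AlgebraicClosure K)) :=
    IntermediateField.finiteDimensional_sup L M
  have hTr : TransOn L M.fixingSubgroup := by
    have h := v10_trans_sub hp L M E hn hME hE ⊤ (fun s => ⟨s, Subgroup.mem_top s, by
      rw [inv_mul_cancel]
      exact L.fixingSubgroup.one_mem⟩)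
    rwa [top_inf_eq] at h
  have hd : Module.finrank K (L ⊔ M : IntermediateField K (AlgebraicClosure K)) ≡
      Module.finrank K M [MOD 2] := by
    rw [v4r_degree L M hTr]
    have h3 : Module.finrank K L ≡ 1 [MOD 2] := Nat.odd_iff.1 hodd
    have h4 := h3.mul_right (Module.finrank K M)
    rwa [one_mul] at h4
  have hs1 := signOver_sign A W hW g (⊥ : IntermediateField K (AlgebraicClosure K))
  have hsM := v9_sign M A g W hW T r (v10_cond le_sup_right hT) hT'
  have hs : signOver W g (L ⊔ M) =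
      (-1) ^ (signExp (L ⊔ M) g T r + signExp M g T r) * signOver W g M := by
    have h1 : ((-1 : ℤ) ^ signExp M g T r) * (-1) ^ signExp M g T r = 1 := by
      rw [← mul_pow]
      norm_num
    rw [v9_sign (L ⊔ M) A g W hW T r hT hT', hsM, v10_pow hs1 hd, pow_add, mul_assoc,
      ← mul_assoc ((-1 : ℤ) ^ signExp M g T r), h1, one_mul]
  refine ⟨hs, fun hb => ?_⟩
  have hrk := (v10_rk hp L hn M E hME hE A m b N hN hc).2.2.1 hb
  have h3 := v2_signs (rk A M) 0 (signExp (L ⊔ M) g T r + signExp M g T r) _ _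
    (signOver_sign A W hW g M) hs
  unfold ParityFor
  rw [hrk]
  rw [add_zero] at h3
  refine h3.trans ?_
  rw [← Nat.not_even_iff_odd]
  simp

end Pool.Agent.H.MP_ac3185_nt
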