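import Mathlib

/-! The rank of the invariants of a finite group of odd order, modulo `2`. -/

set_option autoImplicit false

namespace Pool.Agent.H.MP_ac3185_nt

section matrix

variable {Γ : Type*} [Group Γ] [Fintype Γ] {n : Type*} [Fintype n] [DecidableEq n]

/-- The traces of `g` and of its inverse agree: there is an invariant positive definite form. -/
theorem v10t_matrix (M : Γ →* Matrix n n ℤ) (g : Γ) : (M g).trace = (M g⁻¹).trace := by
  set S : Matrix n n ℤ := ∑ h, (M h).transpose * M h with hS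
  have h1 : (M g).transpose * S * M g = S := by
    rw [hS, Finset.mul_sum, Finset.sum_mul]
    refine Fintype.sum_equiv (Equiv.mulRight g) _ _ fun h => ?_
    rw [Equiv.coe_mulRight, map_mul, Matrix.transpose_mul]
    simp only [Matrix.mul_assoc]
  have h2 : S * M g = (M g⁻¹).transpose * S := by
    have h3 : (M g⁻¹).transpose * (M g).transpose = 1 := by
      rw [← Matrix.transpose_mul, ← map_mul, mul_inv_cancel, map_one, Matrix.transpose_one]
    calc S * M g = (M g⁻¹).transpose * (M g).transpose * (S * M g) := by rw [h3, Matrix.one_mul]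
      _ = (M g⁻¹).transpose * ((M g).transpose * S * M g) := by simp only [Matrix.mul_assoc]
      _ = _ := by rw [h1]
  have h3 : S.det ≠ 0 := by
    intro h4
    obtain ⟨v, hv, hv0⟩ := Matrix.exists_mulVec_eq_zero_iff.2 h4
    apply hv
    have h5 : v ⬝ᵥ (S.mulVec v) = ∑ h, (M h).mulVec v ⬝ᵥ (M h).mulVec v := by
      rw [hS, Matrix.sum_mulVec, dotProduct_sum]
      refine Finset.sum_congr rfl fun h _ => ?_
      rw [← Matrix.mulVec_mulVec, Matrix.dotProduct_mulVec, Matrix.vecMul_transpose]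
    rw [hv0, dotProduct_zero] at h5
    have h6 := (Finset.sum_eq_zero_iff_of_nonneg (fun h _ => by
      exact Finset.sum_nonneg fun i _ => mul_self_nonneg _)).1 h5.symm 1 (Finset.mem_univ _)
    rw [map_one, Matrix.one_mulVec] at h6
    exact dotProduct_self_eq_zero.1 h6
  apply mul_left_cancel₀ h3
  calc S.det * (M g).trace = (S.adjugate * (S * M g)).trace := by
        rw [← Matrix.mul_assoc, Matrix.adjugate_mul, Matrix.smul_mul, Matrix.one_mul,
          Matrix.trace_smul, smul_eq_mul]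
    _ = (S * (S.adjugate * (M g⁻¹).transpose)).trace := by
        rw [h2, ← Matrix.mul_assoc, Matrix.trace_mul_comm]
    _ = S.det * (M g⁻¹).trace := by
        rw [← Matrix.mul_assoc, Matrix.mul_adjugate, Matrix.smul_mul, Matrix.one_mul,
          Matrix.trace_smul, smul_eq_mul, Matrix.trace_transpose]

end matrix

section group

variable {Γ X : Type*} [Group Γ] [Fintype Γ] [AddCommGroup X] [Module.Finite ℤ X]

theorem v10t_free [Module.Free ℤ X] (a : Γ →* Module.End ℤ X) (g : Γ) :
    LinearMap.trace ℤ X (a g) = LinearMap.trace ℤ X (a g⁻¹) := by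
  let b := Module.Free.chooseBasis ℤ X
  rw [LinearMap.trace_eq_matrix_trace ℤ b, LinearMap.trace_eq_matrix_trace ℤ b]
  exact v10t_matrix ((LinearMap.toMatrixAlgEquiv b).toRingEquiv.toMonoidHom.comp a) g

theorem v10t_torsion (f : Module.End ℤ X) :
    Submodule.torsion ℤ X ≤ (Submodule.torsion ℤ X).comap f := by
  rintro x ⟨c, hc⟩
  refine ⟨c, ?_⟩
  have h1 : (c : ℤ) • x = 0 := hc
  show (c : ℤ) • f x = 0
  rw [← map_smul, h1, map_zero]

/-- The action on the quotient by the torsion. -/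
def v10tQ (a : Γ →* Module.End ℤ X) : Γ →* Module.End ℤ (X ⧸ Submodule.torsion ℤ X) where
  toFun g := (Submodule.torsion ℤ X).mapQ (Submodule.torsion ℤ X) (a g) (v10t_torsion (a g))
  map_one' := by
    ext x
    simp
  map_mul' g h := by
    ext x
    simp

theorem v10t_trace (a : Γ →* Module.End ℤ X) (g : Γ) :
    LinearMap.trace ℚ (TensorProduct ℤ ℚ X) ((a g).baseChange ℚ) =
      ((LinearMap.trace ℤ (X ⧸ Submodule.torsion ℤ X) (v10tQ a g) : ℤ) : ℚ) := by
  let π : X →ₗ[ℤ] X ⧸ Submodule.torsion ℤ X := (Submodule.torsion ℤ X).mkQ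
  have h1 : Module.finrank ℚ (TensorProduct ℤ ℚ X) =
      Module.finrank ℚ (TensorProduct ℤ ℚ (X ⧸ Submodule.torsion ℤ X)) := by
    rw [(TensorProduct.isBaseChange ℤ X ℚ).finrank_eq,
      (TensorProduct.isBaseChange ℤ (X ⧸ Submodule.torsion ℤ X) ℚ).finrank_eq,
      finrank_quotient_eq_of_le_torsion le_rfl]
  have h2 : Function.Surjective (π.baseChange ℚ) :=
    LinearMap.lTensor_surjective ℚ (Submodule.mkQ_surjective _)
  have h3 : Function.Injective (π.baseChange ℚ) :=
    (LinearMap.injective_iff_surjective_of_finrank_eq_finrank h1).2 h2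
  let e := LinearEquiv.ofBijective (π.baseChange ℚ) ⟨h3, h2⟩
  have h4 : e.conj ((a g).baseChange ℚ) = (v10tQ a g).baseChange ℚ := by
    have h5 : (π.baseChange ℚ) ∘ₗ ((a g).baseChange ℚ) =
        ((v10tQ a g).baseChange ℚ) ∘ₗ (π.baseChange ℚ) := by
      rw [← LinearMap.baseChange_comp, ← LinearMap.baseChange_comp]
      rfl
    apply LinearMap.ext
    intro y
    obtain ⟨x, rfl⟩ := e.surjective y
    rw [LinearEquiv.conj_apply]
    simp only [LinearMap.comp_apply, LinearEquiv.coe_coe, LinearEquiv.symm_apply_apply]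
    exact congrArg (fun f : TensorProduct ℤ ℚ X →ₗ[ℚ] _ => f x) h5
  rw [← LinearMap.trace_conj' _ e, h4, LinearMap.trace_baseChange]
  rfl

/-- The order of the group times the rank of the invariants is the sum of the traces. -/
theorem v10t_sum (a : Γ →* Module.End ℤ X) (Y : Submodule ℤ X)
    (hY : ∀ x, x ∈ Y ↔ ∀ g, a g x = x) :
    ((Fintype.card Γ * Module.finrank ℤ Y : ℕ) : ℚ) =
      ∑ g, LinearMap.trace ℚ (TensorProduct ℤ ℚ X) ((a g).baseChange ℚ) := by
  have hc : ((Fintype.card Γ : ℕ) : ℚ) ≠ 0 := by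
    exact_mod_cast Fintype.card_ne_zero
  let N : X →ₗ[ℤ] Y := (∑ g, a g).codRestrict Y (by
    intro x
    rw [hY]
    intro g
    rw [LinearMap.sum_apply, map_sum]
    refine Fintype.sum_equiv (Equiv.mulLeft g) _ _ fun h => ?_
    rw [Equiv.coe_mulLeft, map_mul, Module.End.mul_apply])
  have hN : Y.subtype ∘ₗ N = ∑ g, a g := by
    ext x
    rfl
  let j : TensorProduct ℤ ℚ Y →ₗ[ℚ] TensorProduct ℤ ℚ X := Y.subtype.baseChange ℚ
  have hj : Function.Injective j :=
    Module.Flat.lTensor_preserves_injective_linearMap Y.subtype Y.injective_subtype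
  let s : TensorProduct ℤ ℚ X →ₗ[ℚ] TensorProduct ℤ ℚ X := ∑ g, (a g).baseChange ℚ
  have hs : s = j ∘ₗ N.baseChange ℚ := by
    rw [← LinearMap.baseChange_comp, hN]
    have h1 : LinearMap.baseChange ℚ (∑ g, a g) =
        (LinearMap.baseChangeHom ℤ ℚ X X) (∑ g, a g) := rfl
    rw [h1, map_sum]
    rfl
  have hfix : ∀ g, (a g).baseChange ℚ ∘ₗ j = j := by
    intro g
    rw [← LinearMap.baseChange_comp]
    congr 1
    ext y
    exact (hY _).1 y.2 g
  have hsj : ∀ y, s (j y) = (Fintype.card Γ : ℚ) • j y := by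
    intro y
    show (∑ g, (a g).baseChange ℚ) (j y) = _
    rw [LinearMap.sum_apply]
    have h1 : ∀ g, (a g).baseChange ℚ (j y) = j y := fun g =>
      congrArg (fun f : TensorProduct ℤ ℚ Y →ₗ[ℚ] _ => f y) (hfix g)
    simp only [h1, Finset.sum_const, Finset.card_univ]
    rw [Nat.cast_smul_eq_nsmul]
  have hproj : LinearMap.IsProj (LinearMap.range j) ((Fintype.card Γ : ℚ)⁻¹ • s) := by
    constructor
    · intro x
      rw [LinearMap.smul_apply, hs]
      exact Submodule.smul_mem _ _ ⟨_, rfl⟩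
    · rintro _ ⟨y, rfl⟩
      rw [LinearMap.smul_apply, hsj, smul_smul, inv_mul_cancel₀ hc, one_smul]
  have h1 := hproj.trace
  rw [LinearMap.finrank_range_of_inj hj, (TensorProduct.isBaseChange ℤ Y ℚ).finrank_eq,
    map_smul, map_sum, smul_eq_mul, inv_mul_eq_iff_eq_mul₀ hc] at h1
  rw [h1]
  push_cast
  rfl

/-- The rank of the invariants of a group of odd order. -/
theorem v10t_parity (hodd : Odd (Fintype.card Γ)) (a : Γ →* Module.End ℤ X) (Y : Submodule ℤ X)
    (hY : ∀ x, x ∈ Y ↔ ∀ g, a g x = x) :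
    Module.finrank ℤ Y ≡ Module.finrank ℤ X [MOD 2] := by
  classical
  let t : Γ → ℤ := fun g => LinearMap.trace ℤ (X ⧸ Submodule.torsion ℤ X) (v10tQ a g)
  have h1 := v10t_sum a Y hY
  simp only [v10t_trace] at h1
  have h2 : ((Fintype.card Γ * Module.finrank ℤ Y : ℕ) : ℤ) = ∑ g, t g := by
    have h3 : (((Fintype.card Γ * Module.finrank ℤ Y : ℕ) : ℤ) : ℚ) = ((∑ g, t g : ℤ) : ℚ) := by
      push_cast at h1 ⊢
      exact h1
    exact_mod_cast h3
  have h3 : t 1 = Module.finrank ℤ X := by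
    show LinearMap.trace ℤ (X ⧸ Submodule.torsion ℤ X) (v10tQ a 1) = _
    rw [map_one, Module.End.one_eq_id, LinearMap.trace_id,
      finrank_quotient_eq_of_le_torsion le_rfl]
  have h4 : ∑ g ∈ Finset.univ.erase (1 : Γ), ((t g : ℤ) : ZMod 2) = 0 := by
    refine Finset.sum_involution (fun g _ => g⁻¹) ?_ ?_ ?_ ?_
    · intro g _
      have h5 : t g = t g⁻¹ := v10t_free (v10tQ a) g
      rw [← h5]
      exact CharTwo.add_self_eq_zero _
    · intro g hg _ h5
      rw [Finset.mem_erase] at hg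
      apply hg.1
      have h6 : g ^ 2 = 1 := by
        rw [pow_two]
        nth_rewrite 1 [← h5]
        exact inv_mul_cancel g
      have h7 : g ^ Fintype.card Γ = 1 := pow_card_eq_one
      obtain ⟨k, hk⟩ := hodd
      rw [hk, pow_succ, pow_mul, h6, one_pow, one_mul] at h7
      exact h7
    · intro g hg
      rw [Finset.mem_erase] at hg ⊢
      exact ⟨inv_ne_one.2 hg.1, Finset.mem_univ _⟩
    · intro g _
      exact inv_inv g
  have h5 : ((Fintype.card Γ : ℕ) : ZMod 2) = 1 := by
    rw [← Nat.cast_one, ZMod.natCast_eq_natCast_iff]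
    exact Nat.odd_iff.1 hodd
  have h6 : (((Fintype.card Γ * Module.finrank ℤ Y : ℕ) : ℤ) : ZMod 2) =
      ((∑ g, t g : ℤ) : ZMod 2) := congrArg _ h2
  rw [← Finset.add_sum_erase Finset.univ t (Finset.mem_univ 1), h3] at h6
  push_cast at h6
  rw [h4, add_zero, h5, one_mul] at h6
  exact (ZMod.natCast_eq_natCast_iff _ _ _).1 h6

end group

end Pool.Agent.H.MP_ac3185_nt
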