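import Pool.Agent.H.MP_ac3185_nt.V10.RankMod
import Pool.Agent.H.MP_ac3185_nt.V10.RankOddLin

/-! The parity of the rank over `LM`, for `M` in a Galois extension of `K` of odd degree. -/

set_option autoImplicit false

open CategoryTheory AlgebraicGeometry NumberField IsDedekindDomain
open scoped MonObj Pointwise

namespace Pool.Agent.H.MP_ac3185_nt

universe u

section group

variable {Γ X : Type*} [Group Γ] [AddCommGroup X]

/-- The action of `H` on the elements fixed by `N`. -/
def v10tAct (a : Γ →* Module.End ℤ X) (N H : Subgroup Γ)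
    (hn : ∀ h ∈ H, ∀ s ∈ N, h⁻¹ * s * h ∈ N) : H →* Module.End ℤ (fixSub a N) where
  toFun h := (a h).restrict (by
    intro x hx s hs
    have h1 : s * h = h * ((h : Γ)⁻¹ * s * h) := by group
    rw [← Module.End.mul_apply, ← map_mul, h1, map_mul, Module.End.mul_apply,
      hx _ (hn h h.2 s hs)])
  map_one' := by
    ext x
    simp
  map_mul' g h := by
    ext x
    simp

/-- The ranks of the invariants of `N` and `H`, for `N` normal in `H` of odd index. -/
theorem v10t_fix (a : Γ →* Module.End ℤ X) (N H : Subgroup Γ) (hNH : N ≤ H)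
    (hn : ∀ h ∈ H, ∀ s ∈ N, h⁻¹ * s * h ∈ N) (hodd : Odd (N.relIndex H))
    [Module.Finite ℤ (fixSub a N)] :
    Module.finrank ℤ (fixSub a H) ≡ Module.finrank ℤ (fixSub a N) [MOD 2] := by
  have hnor : (N.subgroupOf H).Normal := by
    refine ⟨fun s hs h => ?_⟩
    rw [Subgroup.mem_subgroupOf] at hs ⊢
    have h1 := hn (h : Γ)⁻¹ (H.inv_mem h.2) s hs
    rwa [inv_inv] at h1
  have hcard : Nat.card (H ⧸ N.subgroupOf H) = N.relIndex H := rfl
  have hfin : Finite (H ⧸ N.subgroupOf H) :=
    Nat.finite_of_card_ne_zero (by rw [hcard]; exact hodd.pos.ne')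
  have := Fintype.ofFinite (H ⧸ N.subgroupOf H)
  have htriv : ∀ s ∈ N.subgroupOf H, v10tAct a N H hn s = 1 := by
    intro s hs
    ext x
    exact x.2 s hs
  let c : (H ⧸ N.subgroupOf H) →* Module.End ℤ (fixSub a N) :=
    QuotientGroup.lift (N.subgroupOf H) (v10tAct a N H hn) htriv
  let Y : Submodule ℤ (fixSub a N) := (fixSub a H).comap (fixSub a N).subtype
  have hY : ∀ x, x ∈ Y ↔ ∀ g, c g x = x := by
    intro x
    constructor
    · intro hx g
      induction g using QuotientGroup.induction_on with
      | H h => exact Subtype.ext (hx h h.2)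
    · intro hx h hh
      exact congrArg Subtype.val (hx ((⟨h, hh⟩ : H) : H ⧸ N.subgroupOf H))
  have h1 := v10t_parity (by rw [← Nat.card_eq_fintype_card, hcard]; exact hodd) c Y hY
  have h2 : Module.finrank ℤ Y = Module.finrank ℤ (fixSub a H) := by
    have h3 : Y.map (fixSub a N).subtype = fixSub a H := by
      rw [Submodule.map_comap_eq, Submodule.range_subtype, inf_eq_right]
      exact fun x hx s hs => hx s (hNH hs)
    rw [← h3]
    exact (Submodule.equivMapOfInjective (fixSub a N).subtype (Submodule.injective_subtype _)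
      Y).finrank_eq
  rw [← h2]
  exact h1

end group

variable {K : Type u} [Field K] [NumberField K]

/-- For `M` in a Galois extension of `K` of odd degree the ranks over `LM` and over `L` have the same
parity. -/
theorem v10_rank_odd (L M E : IntermediateField K (AlgebraicClosure K)) [FiniteDimensional K L]
    [FiniteDimensional K M] [FiniteDimensional K E] [IsGalois K E] (hME : M ≤ E)
    (hE : Odd (Module.finrank K E)) (A : Over (Spec (.of K))) [GrpObj A] [IsAbVar A]
    (hfin : Module.Finite ℤ (Pts A (L ⊔ E : IntermediateField K (AlgebraicClosure K)))) :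
    rk A (L ⊔ M) ≡ rk A L [MOD 2] := by
  have hnormal : E.fixingSubgroup.Normal := E.restrictNormalHom_ker ▸ MonoidHom.normal_ker _
  set N : Subgroup (AlgebraicClosure K ≃ₐ[K] AlgebraicClosure K) :=
    (L ⊔ E : IntermediateField K (AlgebraicClosure K)).fixingSubgroup with hN
  have hN' : N = L.fixingSubgroup ⊓ E.fixingSubgroup := IntermediateField.fixingSubgroup_sup
  obtain ⟨eN⟩ := v10_rk_fix A (L ⊔ E : IntermediateField K (AlgebraicClosure K))
  have hfinN : Module.Finite ℤ (fixSub (galEnd A) N) := Module.Finite.equiv eN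
  have key : ∀ F : IntermediateField K (AlgebraicClosure K), L ≤ F → F ≤ L ⊔ E →
      rk A F ≡ Module.finrank ℤ (fixSub (galEnd A) N) [MOD 2] := by
    intro F hLF hFE
    obtain ⟨e⟩ := v10_rk_fix A F
    have h1 : rk A F = Module.finrank ℤ (fixSub (galEnd A) F.fixingSubgroup) := e.finrank_eq
    rw [h1]
    have hle : F.fixingSubgroup ≤ L.fixingSubgroup := IntermediateField.fixingSubgroup_antitone hLF
    have hNF : N ≤ F.fixingSubgroup := IntermediateField.fixingSubgroup_antitone hFE
    refine v10t_fix (galEnd A) N F.fixingSubgroup hNF ?_ ?_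
    · intro h hh s hs
      rw [hN'] at hs ⊢
      refine ⟨L.fixingSubgroup.mul_mem (L.fixingSubgroup.mul_mem
        (L.fixingSubgroup.inv_mem (hle hh)) hs.1) (hle hh), ?_⟩
      have h2 := hnormal.conj_mem s hs.2 h⁻¹
      rwa [inv_inv] at h2
    · have h2 : N.relIndex F.fixingSubgroup = E.fixingSubgroup.relIndex F.fixingSubgroup := by
        have h3 : N.subgroupOf F.fixingSubgroup = E.fixingSubgroup.subgroupOf F.fixingSubgroup := by
          ext x
          rw [Subgroup.mem_subgroupOf, Subgroup.mem_subgroupOf, hN']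
          exact ⟨fun h => h.2, fun h => ⟨hle x.2, h⟩⟩
        show (N.subgroupOf F.fixingSubgroup).index = (E.fixingSubgroup.subgroupOf _).index
        rw [h3]
      rw [h2]
      have h4 : E.fixingSubgroup.relIndex F.fixingSubgroup ∣ E.fixingSubgroup.index :=
        Subgroup.relIndex_dvd_index_of_normal _ _
      rw [← IntermediateField.finrank_eq_fixingSubgroup_index] at h4
      exact Odd.of_dvd_nat hE h4
  exact (key (L ⊔ M) le_sup_left (sup_le_sup_left hME L)).trans (key L le_rfl le_sup_left).symm

end Pool.Agent.H.MP_ac3185_nt
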