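import Pool.Agent.H.MP_ac3185_nt.V10.ParOdd
import Pool.Agent.H.MP_ac3185_nt.V10.RankOdd
import Pool.Agent.H.MP_ac3185_nt.V10.Main
import Pool.Agent.H.MP_ac3185_nt.helper85.AllP

/-! The parity conjecture over `LM`, where `M` lies in a Galois extension of odd degree. -/

set_option autoImplicit false

open CategoryTheory AlgebraicGeometry NumberField IsDedekindDomain
open scoped MonObj Pointwise

namespace Pool.Agent.H.MP_ac3185_nt

universe u

variable {K : Type u} [Field K] [NumberField K]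

/-- The root number and the parity conjecture over `LM` and `L`, if `M` lies in a Galois extension of
odd degree. -/
theorem v10o_main (L M E : IntermediateField K (AlgebraicClosure K))
    [FiniteDimensional K L] [FiniteDimensional K M] [FiniteDimensional K E] [IsGalois K E]
    (hME : M ≤ E) (hE : Odd (Module.finrank K E)) (A : Over (Spec (.of K))) [GrpObj A] [IsAbVar A]
    (hfin : Module.Finite ℤ (Pts A (L ⊔ E : IntermediateField K (AlgebraicClosure K))))
    (g : ℕ) (W : LocalSigns K) (hW : IsRootNumbers A W)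
    (T : Finset (HeightOneSpectrum (𝓞 K))) (r : HeightOneSpectrum (𝓞 K) → ℕ)
    (hT : ∀ v ∈ T, SplitTorus A v (r v) ∨ (QuadTorus A v (r v) ∧ OddRam (L ⊔ M) v) ∨
      (EvenSign W v (r v) ∧ UnrIn (L ⊔ M) v))
    (hT' : ∀ v ∉ T, ∀ 𝔓, Above 𝔓 v → GoodAt A 𝔓) :
    signOver W g (L ⊔ M) = signOver W g L ∧
      (ParityFor A g W (L ⊔ M) ↔ ParityFor A g W L) := by
  have hfd : FiniteDimensional K (L ⊔ M : IntermediateField K (AlgebraicClosure K)) :=
    IntermediateField.finiteDimensional_sup L M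
  have hs1 := signOver_sign A W hW g (⊥ : IntermediateField K (AlgebraicClosure K))
  have hs : signOver W g (L ⊔ M) = signOver W g L := by
    rw [v9_sign (L ⊔ M) A g W hW T r hT hT', v9_sign L A g W hW T r (v10_cond le_sup_left hT) hT',
      v10_pow (Or.inr rfl) (v10_exp_odd L M E hME hE g T r),
      v10_pow hs1 (v10_deg_odd L M E hME hE)]
  refine ⟨hs, ?_⟩
  unfold ParityFor
  rw [hs, v10_pow (Or.inr rfl) (v10_rank_odd L M E hME hE A hfin)]

omit [NumberField K] in
/-- The points over a subfield are finitely generated. -/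
theorem v10_fg {M E : IntermediateField K (AlgebraicClosure K)} (hME : M ≤ E)
    (A : Over (Spec (.of K))) [GrpObj A] [IsAbVar A] (h : Module.Finite ℤ (Pts A E)) :
    Module.Finite ℤ (Pts A M) :=
  Module.Finite.of_injective (ptsa_j A hME).toIntLinearMap (sp_j_inj A hME)

/-- The rank over `L`, from a chain for `M = K`. -/
theorem v10_base_rank {p : ℕ} (hp : p.Prime) (L : IntermediateField K (AlgebraicClosure K))
    [FiniteDimensional K L] (hn : (Module.finrank K L).Coprime p)
    (A : Over (Spec (.of K))) [GrpObj A] [IsAbVar A] (m b : ℕ)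
    (N : AddSubgroup (Pts A (AlgebraicClosure K))) (hN : ∀ x, x ∈ N ↔ (p ^ m : ℕ) • x = 0)
    (hc : TowerChain p L ⊥ A N b) :
    MulCover A L (p ^ m) (p ^ b) ∧
    (b < m → ¬ NewPoint A L ∧ rk A L = rk A ⊥) ∧
    (Module.Finite ℤ (Pts A L) → rk A ⊥ ≤ rk A L ∧ m * (rk A L - rk A ⊥) ≤ b) := by
  have hE : IsPGroup p ((⊥ : IntermediateField K (AlgebraicClosure K)) ≃ₐ[K]
      (⊥ : IntermediateField K (AlgebraicClosure K))) := by
    intro s
    refine ⟨0, ?_⟩
    rw [pow_zero, pow_one]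
    ext x
    obtain ⟨y, hy⟩ := IntermediateField.mem_bot.1 x.2
    have h1 : x = algebraMap K _ y := Subtype.ext hy.symm
    rw [h1, AlgEquiv.commutes, AlgEquiv.commutes]
  have h1 := (v10_rk hp L hn ⊥ ⊥ le_rfl hE A m b N hN hc).1
  rw [IntermediateField.finrank_bot, mul_one] at h1
  have h2 : MulCover A L (p ^ m) (p ^ b) := by
    unfold MulCoverOver at h1
    rw [sup_bot_eq] at h1
    obtain ⟨T, h3, h4, h5⟩ := h1
    refine ⟨T, h3, h4, fun y hy => ?_⟩
    obtain ⟨t, ht, y0, x, h6, h7, h8⟩ := h5 y hy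
    refine ⟨t, ht, y0, x, fun s => h6 s ?_, h7, h8⟩
    rw [IntermediateField.fixingSubgroup_bot]
    exact Subgroup.mem_top s
  have h3 := v9_concl p hp L hn A m b h2
  exact ⟨h2, h3.2.1, h3.2.2.1⟩

/-- The parity conjecture over `LM`, where `M` lies in a Galois extension of odd degree. -/
theorem v10_q1 {p : ℕ} (hp : p.Prime) (L : IntermediateField K (AlgebraicClosure K))
    [FiniteDimensional K L] (hn : (Module.finrank K L).Coprime p)
    (A : Over (Spec (.of K))) [GrpObj A] [IsAbVar A] (m b : ℕ)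
    (N : AddSubgroup (Pts A (AlgebraicClosure K))) (hN : ∀ x, x ∈ N ↔ (p ^ m : ℕ) • x = 0)
    (hc : TowerChain p L ⊥ A N b)
    (M E : IntermediateField K (AlgebraicClosure K)) [FiniteDimensional K M]
    [FiniteDimensional K E] [IsGalois K E] (hME : M ≤ E) (hE : Odd (Module.finrank K E))
    (hfin : Module.Finite ℤ (Pts A (L ⊔ E : IntermediateField K (AlgebraicClosure K))))
    (g : ℕ) (W : LocalSigns K) (hW : IsRootNumbers A W)
    (T : Finset (HeightOneSpectrum (𝓞 K))) (r : HeightOneSpectrum (𝓞 K) → ℕ)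
    (hT : ∀ v ∈ T, SplitTorus A v (r v) ∨ (QuadTorus A v (r v) ∧ OddRam (L ⊔ M) v) ∨
      (EvenSign W v (r v) ∧ UnrIn (L ⊔ M) v))
    (hT' : ∀ v ∉ T, ∀ 𝔓, Above 𝔓 v → GoodAt A 𝔓) :
    signOver W g (L ⊔ M) = signOver W g L ∧
      (ParityFor A g W (L ⊔ M) ↔ ParityFor A g W L) ∧
      signOver W g L = (-1) ^ signExp L g T r * signOver W g ⊥ ^ Module.finrank K L ∧
      (Even (Module.finrank K L) →
        (b < m → (ParityFor A g W L ↔ Even (rk A ⊥ + signExp L g T r))) ∧
        (b < 2 * m → (ParityFor A g W L ↔ (Odd (rk A ⊥ + signExp L g T r) ↔ NewPoint A L)))) ∧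
      (Odd (Module.finrank K L) →
        (b < m → ((ParityFor A g W L ↔ ParityFor A g W ⊥) ↔ Even (signExp L g T r))) ∧
        (b < 2 * m → ((ParityFor A g W L ↔ ParityFor A g W ⊥) ↔
          (Odd (signExp L g T r) ↔ NewPoint A L)))) := by
  obtain ⟨-, h1, h2⟩ := v10_base_rank hp L hn A m b N hN hc
  obtain ⟨h3, h4⟩ := v10o_main L M E hME hE A hfin g W hW T r hT hT'
  have hL : Module.Finite ℤ (Pts A L) := v10_fg le_sup_left A hfin
  obtain ⟨h5, h6, h7⟩ := wj_q1 L A m b h1 h2 g W hW T r (v10_cond le_sup_left hT) hT'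
  exact ⟨h3, h4, h5, fun he => ⟨(h6 he).1, fun hb => (h6 he).2 hb hL⟩,
    fun ho => ⟨(h7 ho).1, fun hb => (h7 ho).2 hb hL⟩⟩

end Pool.Agent.H.MP_ac3185_nt
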