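import Pool.Agent.H.MP_ac3185_nt.V10.Par
import Pool.Agent.H.MP_ac3185_nt.V9.Defs

/-! The number of places of `LM` modulo `m`, for `M` in a Galois extension `E` of `K` such that all
divisors of `[E : K]` are congruent to `1` modulo `m`, for example `m = 2` and `[E : K]` odd. -/

set_option autoImplicit false

open NumberField IsDedekindDomain
open scoped Pointwise

namespace Pool.Agent.H.MP_ac3185_nt

universe u

section group

/-- The number of orbits of a group, if all divisors of its order are `1` modulo `m`. -/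
theorem v10r_orb {m : ℕ} {G X : Type*} [Group G] [MulAction G X] [Finite X]
    (hG : ∀ d, d ∣ Nat.card G → d ≡ 1 [MOD m]) :
    Nat.card X ≡ Nat.card (MulAction.orbitRel.Quotient G X) [MOD m] := by
  have hfin : Finite (MulAction.orbitRel.Quotient G X) := Quotient.finite _
  rw [Nat.card_congr (MulAction.selfEquivSigmaOrbits' G X)]
  refine v10q_sum fun ω => ?_
  induction ω using Quotient.inductionOn' with
  | h x =>
    have h4 : Nat.card (MulAction.orbitRel.Quotient.orbit
        (Quotient.mk'' x : MulAction.orbitRel.Quotient G X)) =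
        (MulAction.orbit G x).ncard := rfl
    rw [h4, ← MulAction.index_stabilizer]
    exact hG _ (Subgroup.index_dvd_card _)

end group

section general

variable {N F : Type*} [Field N] [Field F] [NumberField F] [Algebra N F] [IsGalois N F]

theorem v10r_inf {m : ℕ} (hG : ∀ d, d ∣ Nat.card (F ≃ₐ[N] F) → d ≡ 1 [MOD m]) :
    Nat.card (InfinitePlace F) ≡ Nat.card (InfinitePlace N) [MOD m] := by
  rw [← Nat.card_congr (InfinitePlace.orbitRelEquiv (k := N) (K := F))]
  exact v10r_orb hG

theorem v10r_fib [NumberField N] {m : ℕ}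
    (hG : ∀ d, d ∣ Nat.card (F ≃ₐ[N] F) → d ≡ 1 [MOD m]) (y : HeightOneSpectrum (𝓞 N)) :
    Finite {w : HeightOneSpectrum (𝓞 F) // w.asIdeal.comap (algebraMap (𝓞 N) (𝓞 F)) = y.asIdeal} ∧
    Nat.card {w : HeightOneSpectrum (𝓞 F) //
      w.asIdeal.comap (algebraMap (𝓞 N) (𝓞 F)) = y.asIdeal} ≡ 1 [MOD m] := by
  have hyp : y.asIdeal.IsPrime := y.isPrime
  have hym : y.asIdeal.IsMaximal := y.isMaximal
  let e : {w : HeightOneSpectrum (𝓞 F) // w.asIdeal.comap (algebraMap (𝓞 N) (𝓞 F)) = y.asIdeal} ≃
      y.asIdeal.primesOver (𝓞 F) :=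
    { toFun := fun w => ⟨w.1.asIdeal, w.1.isPrime, ⟨w.2.symm⟩⟩
      invFun := fun P => ⟨⟨P.1, P.2.1, fun h => y.ne_bot (by
        have h1 := P.2.2.1
        rw [h] at h1
        rw [h1]
        exact Ideal.comap_bot_of_injective _ (FaithfulSMul.algebraMap_injective (𝓞 N) (𝓞 F)))⟩,
        P.2.2.1.symm⟩
      left_inv := fun w => rfl
      right_inv := fun P => rfl }
  have hfin : Finite (y.asIdeal.primesOver (𝓞 F)) :=
    Algebra.QuasiFinite.finite_primesOver y.asIdeal
  refine ⟨Finite.of_equiv _ e.symm, ?_⟩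
  rw [Nat.card_congr e]
  have h := Ideal.ncard_primesOver_mul_ramificationIdxIn_mul_inertiaDegIn y.asIdeal (𝓞 F)
    (F ≃ₐ[N] F)
  refine hG _ ?_
  rw [← h]
  exact Dvd.intro _ rfl

end general

section tower

variable {K : Type u} [Field K] [NumberField K]

/-- The order of `Gal(NE/N)` divides the order of `Gal(E/K)`. -/
theorem v10r_dvd (N E : IntermediateField K (AlgebraicClosure K)) [Normal K E]
    (F : IntermediateField K (AlgebraicClosure K)) (hF : F = N ⊔ E) (hN : N ≤ F) :
    letI _ : Algebra N F := (IntermediateField.inclusion hN).toRingHom.toAlgebra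
    Nat.card (F ≃ₐ[N] F) ∣ Nat.card (E ≃ₐ[K] E) := by
  let _ : Algebra N F := (IntermediateField.inclusion hN).toRingHom.toAlgebra
  have : IsScalarTower K N F := IsScalarTower.of_algebraMap_eq fun x => rfl
  have hE : E ≤ F := hF ▸ le_sup_right
  let _ : Algebra E F := (IntermediateField.inclusion hE).toRingHom.toAlgebra
  have : IsScalarTower K E F := IsScalarTower.of_algebraMap_eq fun x => rfl
  let φ : (F ≃ₐ[N] F) →* (E ≃ₐ[K] E) :=
    (AlgEquiv.restrictNormalHom (F := K) (K₁ := F) E).comp
      { toFun := fun g => g.restrictScalars K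
        map_one' := rfl
        map_mul' := fun _ _ => rfl }
  refine Subgroup.card_dvd_of_injective φ ?_
  rw [injective_iff_map_eq_one]
  intro g hg
  have hg1 : ∀ z : F, ((g z : F) : AlgebraicClosure K) =
      (g.restrictScalars K).liftNormal (AlgebraicClosure K) (z : AlgebraicClosure K) :=
    fun z => ((g.restrictScalars K).liftNormal_commutes (AlgebraicClosure K) z).symm
  set σ : AlgebraicClosure K ≃ₐ[K] AlgebraicClosure K :=
    (g.restrictScalars K).liftNormal (AlgebraicClosure K) with hσ
  have h1 : σ ∈ E.fixingSubgroup := by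
    rw [IntermediateField.mem_fixingSubgroup_iff]
    intro x hx
    have h2 := AlgEquiv.restrictNormal_commutes (g.restrictScalars K) E ⟨x, hx⟩
    have h3 : (g.restrictScalars K).restrictNormal E ⟨x, hx⟩ = ⟨x, hx⟩ := by
      have h4 : φ g ⟨x, hx⟩ = ⟨x, hx⟩ := by
        rw [hg, AlgEquiv.one_apply]
      exact h4
    rw [h3] at h2
    have h5 := hg1 (algebraMap E F ⟨x, hx⟩)
    have h6 : g (algebraMap E F ⟨x, hx⟩) = algebraMap E F ⟨x, hx⟩ := h2.symm
    rw [h6] at h5
    exact h5.symm
  have h2 : σ ∈ N.fixingSubgroup := by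
    rw [IntermediateField.mem_fixingSubgroup_iff]
    intro x hx
    have h3 := g.commutes ⟨x, hx⟩
    have h4 := hg1 (algebraMap N F ⟨x, hx⟩)
    rw [h3] at h4
    exact h4.symm
  have h3 : σ ∈ F.fixingSubgroup := by
    rw [hF, IntermediateField.fixingSubgroup_sup]
    exact ⟨h2, h1⟩
  ext z
  rw [hg1, AlgEquiv.one_apply]
  exact (IntermediateField.mem_fixingSubgroup_iff F _).1 h3 z z.2

variable {m : ℕ} (N E : IntermediateField K (AlgebraicClosure K))
  [FiniteDimensional K N] [FiniteDimensional K E] [IsGalois K E]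
  (hE : ∀ d, d ∣ Module.finrank K E → d ≡ 1 [MOD m])
  (F : IntermediateField K (AlgebraicClosure K)) (hF : F = N ⊔ E)

include hE hF

theorem v10r_infF : Nat.card (InfinitePlace F) ≡ Nat.card (InfinitePlace N) [MOD m] := by
  have hN : N ≤ F := hF ▸ le_sup_left
  have : FiniteDimensional K F := hF ▸ inferInstance
  have : NumberField F := NumberField.of_module_finite K F
  have : NumberField N := NumberField.of_module_finite K N
  let _ : Algebra N F := (IntermediateField.inclusion hN).toRingHom.toAlgebra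
  have : IsGalois N F := v10q_gal N E F hF hN
  exact v10r_inf fun d hd => hE d (by
    rw [← IsGalois.card_aut_eq_finrank K E]
    exact hd.trans (v10r_dvd N E F hF hN))

theorem v10r_placeF (v : HeightOneSpectrum (𝓞 K)) :
    placeCount F v ≡ placeCount N v [MOD m] := by
  have hN : N ≤ F := hF ▸ le_sup_left
  have : FiniteDimensional K F := hF ▸ inferInstance
  have : NumberField F := NumberField.of_module_finite K F
  have : NumberField N := NumberField.of_module_finite K N
  let _ : Algebra N F := (IntermediateField.inclusion hN).toRingHom.toAlgebra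
  have : IsGalois N F := v10q_gal N E F hF hN
  have hG : ∀ d, d ∣ Nat.card (F ≃ₐ[N] F) → d ≡ 1 [MOD m] := fun d hd => hE d (by
    rw [← IsGalois.card_aut_eq_finrank K E]
    exact hd.trans (v10r_dvd N E F hF hN))
  have hT : ∀ x : 𝓞 K, algebraMap (𝓞 N) (𝓞 F) (algebraMap (𝓞 K) (𝓞 N) x) =
      algebraMap (𝓞 K) (𝓞 F) x := by
    intro x
    apply RingOfIntegers.ext
    rfl
  have hc : ∀ w : HeightOneSpectrum (𝓞 F), (w.asIdeal.comap (algebraMap (𝓞 N) (𝓞 F))).comap
      (algebraMap (𝓞 K) (𝓞 N)) = w.asIdeal.comap (algebraMap (𝓞 K) (𝓞 F)) := by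
    intro w
    ext x
    rw [Ideal.mem_comap, Ideal.mem_comap, Ideal.mem_comap, hT]
  have hvp : v.asIdeal.IsPrime := v.isPrime
  have hfin0 : Finite (v.asIdeal.primesOver (𝓞 N)) :=
    Algebra.QuasiFinite.finite_primesOver v.asIdeal
  have hfin : Finite {y : HeightOneSpectrum (𝓞 N) // Divides N y v} :=
    Finite.of_injective (fun y => (⟨y.1.asIdeal, y.1.isPrime, ⟨(y.2 : _ = _).symm⟩⟩ :
      v.asIdeal.primesOver (𝓞 N))) fun y z h =>
        Subtype.ext (HeightOneSpectrum.ext (congrArg (fun P => P.1) h))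
  let e : {w : HeightOneSpectrum (𝓞 F) // Divides F w v} ≃
      Σ y : {y : HeightOneSpectrum (𝓞 N) // Divides N y v},
        {w : HeightOneSpectrum (𝓞 F) //
          w.asIdeal.comap (algebraMap (𝓞 N) (𝓞 F)) = y.1.asIdeal} :=
    { toFun := fun w => ⟨⟨⟨w.1.asIdeal.comap (algebraMap (𝓞 N) (𝓞 F)), Ideal.comap_isPrime _ _,
          fun h => v.ne_bot (by
            have h1 : w.1.asIdeal.comap (algebraMap (𝓞 K) (𝓞 F)) = v.asIdeal := w.2
            rw [← h1, ← hc, h]
            exact Ideal.comap_bot_of_injective _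
              (FaithfulSMul.algebraMap_injective (𝓞 K) (𝓞 N)))⟩, (hc w.1).trans w.2⟩,
          ⟨w.1, rfl⟩⟩
      invFun := fun q => ⟨q.2.1, by
        have h1 := hc q.2.1
        rw [q.2.2] at h1
        exact h1.symm.trans q.1.2⟩
      left_inv := fun w => rfl
      right_inv := fun q => by
        obtain ⟨⟨⟨I, hI, hI0⟩, hy⟩, ⟨w, hw⟩⟩ := q
        have h1 : w.asIdeal.comap (algebraMap (𝓞 N) (𝓞 F)) = I := hw
        subst h1
        rfl }
  unfold placeCount
  rw [Nat.card_congr e]
  have hfin2 : ∀ y : {y : HeightOneSpectrum (𝓞 N) // Divides N y v},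
      Finite {w : HeightOneSpectrum (𝓞 F) //
        w.asIdeal.comap (algebraMap (𝓞 N) (𝓞 F)) = y.1.asIdeal} := fun y =>
    (v10r_fib hG y.1).1
  exact v10q_sum fun y => (v10r_fib hG y.1).2

theorem v10r_degF (N' : IntermediateField K (AlgebraicClosure K)) (h1 : N ≤ N') (h2 : N' ≤ F) :
    Module.finrank K N' ≡ Module.finrank K N [MOD m] := by
  have hN : N ≤ F := hF ▸ le_sup_left
  have : FiniteDimensional K F := hF ▸ inferInstance
  let _ : Algebra N F := (IntermediateField.inclusion hN).toRingHom.toAlgebra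
  let _ : Algebra N N' := (IntermediateField.inclusion h1).toRingHom.toAlgebra
  let _ : Algebra N' F := (IntermediateField.inclusion h2).toRingHom.toAlgebra
  have : IsScalarTower K N F := IsScalarTower.of_algebraMap_eq fun x => rfl
  have : IsScalarTower K N N' := IsScalarTower.of_algebraMap_eq fun x => rfl
  have : IsScalarTower N N' F := IsScalarTower.of_algebraMap_eq fun x => rfl
  have : FiniteDimensional N F := FiniteDimensional.right K N F
  have : IsGalois N F := v10q_gal N E F hF hN
  have h3 : Module.finrank N N' ∣ Module.finrank K E := by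
    rw [← IsGalois.card_aut_eq_finrank K E]
    refine Dvd.dvd.trans ?_ (v10r_dvd N E F hF hN)
    rw [IsGalois.card_aut_eq_finrank N F, ← Module.finrank_mul_finrank N N' F]
    exact Dvd.intro _ rfl
  have h4 := (hE _ h3).mul_left (Module.finrank K N)
  rwa [Module.finrank_mul_finrank, mul_one] at h4

end tower

section main

variable {K : Type u} [Field K] [NumberField K] (L M E : IntermediateField K (AlgebraicClosure K))
    [FiniteDimensional K L] [FiniteDimensional K E] [IsGalois K E] (hME : M ≤ E)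

include hME

/-- The number of places of `LM` above `v` is the number of places of `L` above `v`, modulo `m`, if all
divisors of `[E : K]` are `1` modulo `m`. -/
theorem v10_place_cong [FiniteDimensional K M] {m : ℕ}
    (hE : ∀ d, d ∣ Module.finrank K E → d ≡ 1 [MOD m]) (v : HeightOneSpectrum (𝓞 K)) :
    placeCount (L ⊔ M) v ≡ placeCount L v [MOD m] :=
  (v10r_placeF (L ⊔ M) E hE (L ⊔ E) (by rw [sup_assoc, sup_eq_right.2 hME]) v).symm.trans
    (v10r_placeF L E hE (L ⊔ E) rfl v)

theorem v10_inf_cong [FiniteDimensional K M] {m : ℕ}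
    (hE : ∀ d, d ∣ Module.finrank K E → d ≡ 1 [MOD m]) :
    Nat.card (InfinitePlace (L ⊔ M : IntermediateField K (AlgebraicClosure K))) ≡
      Nat.card (InfinitePlace L) [MOD m] :=
  (v10r_infF (L ⊔ M) E hE (L ⊔ E) (by rw [sup_assoc, sup_eq_right.2 hME])).symm.trans
    (v10r_infF L E hE (L ⊔ E) rfl)

theorem v10_deg_cong {m : ℕ}
    (hE : ∀ d, d ∣ Module.finrank K E → d ≡ 1 [MOD m]) :
    Module.finrank K (L ⊔ M : IntermediateField K (AlgebraicClosure K)) ≡ Module.finrank K L
      [MOD m] :=
  v10r_degF L E hE (L ⊔ E) rfl (L ⊔ M) le_sup_left (sup_le_sup_left hME L)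

omit [NumberField K] [FiniteDimensional K L] [FiniteDimensional K E] [IsGalois K E] hME in
theorem v10_odd_dvd (hE : Odd (Module.finrank K E)) :
    ∀ d, d ∣ Module.finrank K E → d ≡ 1 [MOD 2] := fun _ hd =>
  Nat.odd_iff.1 (Odd.of_dvd_nat hE hd)

/-- The number of places of `LM` above `v` and the number of places of `L` above `v` have the same
parity, if `[E : K]` is odd. -/
theorem v10_place_odd [FiniteDimensional K M] (hE : Odd (Module.finrank K E))
    (v : HeightOneSpectrum (𝓞 K)) :
    placeCount (L ⊔ M) v ≡ placeCount L v [MOD 2] :=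
  v10_place_cong L M E hME (v10_odd_dvd E hE) v

theorem v10_inf_odd [FiniteDimensional K M] (hE : Odd (Module.finrank K E)) :
    Nat.card (InfinitePlace (L ⊔ M : IntermediateField K (AlgebraicClosure K))) ≡
      Nat.card (InfinitePlace L) [MOD 2] :=
  v10_inf_cong L M E hME (v10_odd_dvd E hE)

theorem v10_deg_odd (hE : Odd (Module.finrank K E)) :
    Module.finrank K (L ⊔ M : IntermediateField K (AlgebraicClosure K)) ≡ Module.finrank K L
      [MOD 2] :=
  v10_deg_cong L M E hME (v10_odd_dvd E hE)

/-- The sign exponents of `LM` and `L` have the same parity. -/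
theorem v10_exp_odd [FiniteDimensional K M] (hE : Odd (Module.finrank K E)) (g : ℕ)
    (T : Finset (HeightOneSpectrum (𝓞 K))) (r : HeightOneSpectrum (𝓞 K) → ℕ) :
    signExp (L ⊔ M) g T r ≡ signExp L g T r [MOD 2] := by
  have h1 := v10_inf_odd L M E hME hE
  have h2 := v10_deg_odd L M E hME hE
  have h3 : ∑ v ∈ T, r v * (placeCount (L ⊔ M) v +
        Module.finrank K (L ⊔ M : IntermediateField K (AlgebraicClosure K))) ≡
      ∑ v ∈ T, r v * (placeCount L v + Module.finrank K L) [MOD 2] := by
    rw [← ZMod.natCast_eq_natCast_iff]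
    push_cast
    refine Finset.sum_congr rfl fun v _ => ?_
    rw [(ZMod.natCast_eq_natCast_iff _ _ _).2 (v10_place_odd L M E hME hE v),
      (ZMod.natCast_eq_natCast_iff _ _ _).2 h2]
  exact ((h1.add (h2.mul_right _)).mul_left g).add h3

/-- The exponents `g #∞ + ∑ r_v g_v` of `LM` and `L` have the same parity. -/
theorem v10_sum_odd [FiniteDimensional K M] (hE : Odd (Module.finrank K E)) (g : ℕ)
    (T : Finset (HeightOneSpectrum (𝓞 K))) (r : HeightOneSpectrum (𝓞 K) → ℕ) :
    g * Nat.card (InfinitePlace (L ⊔ M : IntermediateField K (AlgebraicClosure K))) +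
        ∑ v ∈ T, r v * placeCount (L ⊔ M) v ≡
      g * Nat.card (InfinitePlace L) + ∑ v ∈ T, r v * placeCount L v [MOD 2] := by
  have h1 := v10_inf_odd L M E hME hE
  have h3 : ∑ v ∈ T, r v * placeCount (L ⊔ M) v ≡ ∑ v ∈ T, r v * placeCount L v [MOD 2] := by
    rw [← ZMod.natCast_eq_natCast_iff]
    push_cast
    refine Finset.sum_congr rfl fun v _ => ?_
    rw [(ZMod.natCast_eq_natCast_iff _ _ _).2 (v10_place_odd L M E hME hE v)]
  exact (h1.mul_left g).add h3

end main

end Pool.Agent.H.MP_ac3185_nt
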