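import Pool.Agent.H.MP_ac3185_nt.V10.Int
import Pool.Agent.H.MP_ac3185_nt.V7.Rel

/-! Products of powers of conjugates, and roots of unity. -/

set_option autoImplicit false

open NumberField IsDedekindDomain
open scoped Pointwise

namespace Pool.Agent.H.MP_ac3185_nt

universe u

section rel

variable {K : Type u} [Field K] [CharZero K] (F : IntermediateField K (AlgebraicClosure K))
  [FiniteDimensional K F]
  (S : Subgroup (AlgebraicClosure K ≃ₐ[K] AlgebraicClosure K))
  (c : ((AlgebraicClosure K ≃ₐ[K] AlgebraicClosure K) ⧸ F.fixingSubgroup) → ℤ)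

omit [CharZero K] [FiniteDimensional K F] in
theorem v10r_prod
    [Fintype ((AlgebraicClosure K ≃ₐ[K] AlgebraicClosure K) ⧸ F.fixingSubgroup)]
    (a : AlgebraicClosure K) : relP10 F S c a = ∏ q, repG F S q a ^ c q :=
  finprod_eq_prod_of_fintype _

theorem v10r_mul (a b : AlgebraicClosure K) :
    relP10 F S c (a * b) = relP10 F S c a * relP10 F S c b := by
  have := vn_finiteIndex F
  let _ := F.fixingSubgroup.fintypeQuotientOfFiniteIndex
  rw [v10r_prod, v10r_prod, v10r_prod, ← Finset.prod_mul_distrib]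
  exact Finset.prod_congr rfl fun q _ => by rw [map_mul, mul_zpow]

theorem v10r_pow (a : AlgebraicClosure K) (n : ℕ) :
    relP10 F S c (a ^ n) = relP10 F S c a ^ n := by
  have := vn_finiteIndex F
  let _ := F.fixingSubgroup.fintypeQuotientOfFiniteIndex
  rw [v10r_prod, v10r_prod, ← Finset.prod_pow]
  exact Finset.prod_congr rfl fun q _ => by rw [map_pow, ← zpow_natCast, ← zpow_natCast, ← zpow_mul,
    ← zpow_mul, mul_comm]

theorem v10r_inv (a : AlgebraicClosure K) :
    relP10 F S c a⁻¹ = (relP10 F S c a)⁻¹ := by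
  have := vn_finiteIndex F
  let _ := F.fixingSubgroup.fintypeQuotientOfFiniteIndex
  rw [v10r_prod, v10r_prod, ← Finset.prod_inv_distrib]
  exact Finset.prod_congr rfl fun q _ => by rw [map_inv₀, inv_zpow]

theorem v10r_ne {a : AlgebraicClosure K} (ha : a ≠ 0) : relP10 F S c a ≠ 0 := by
  have := vn_finiteIndex F
  let _ := F.fixingSubgroup.fintypeQuotientOfFiniteIndex
  rw [v10r_prod, Finset.prod_ne_zero_iff]
  intro q _
  refine zpow_ne_zero _ ?_
  rw [Ne, map_eq_zero]
  exact ha

omit [CharZero K] [FiniteDimensional K F] in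
/-- A smaller group of representatives. -/
theorem v10r_low {S' : Subgroup (AlgebraicClosure K ≃ₐ[K] AlgebraicClosure K)} (hle : S' ≤ S)
    (hT : TransOn F S') {a : AlgebraicClosure K} (ha : FixG (F.fixingSubgroup ⊓ S) a) :
    relP10 F S' c a = relP10 F S c a := by
  have hT' : TransOn F S := fun s => by
    obtain ⟨t, ht, h⟩ := hT s
    exact ⟨t, hle ht, h⟩
  refine finprod_congr fun q => ?_
  obtain ⟨h1, h2⟩ := v4_rep F S' hT q
  rw [(v4_rep_apply F S hT' ha q (hle h1) h2).symm]

/-- The action of an element which stabilizes `c`. -/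
theorem v10r_act {s : AlgebraicClosure K ≃ₐ[K] AlgebraicClosure K} (hs : ∀ q, c (s • q) = c q)
    {a a' : AlgebraicClosure K} (h : ∀ q, s (repG F S q a) = repG F S (s • q) a') :
    s (relP10 F S c a) = relP10 F S c a' := by
  have := vn_finiteIndex F
  let _ := F.fixingSubgroup.fintypeQuotientOfFiniteIndex
  rw [v10r_prod, v10r_prod, map_prod]
  refine Fintype.prod_equiv (MulAction.toPerm s) _ _ fun q => ?_
  rw [MulAction.toPerm_apply, map_zpow₀, h, hs]

/-- Translation of `c`. -/
theorem v10r_shift {σ : AlgebraicClosure K ≃ₐ[K] AlgebraicClosure K}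
    {a a' : AlgebraicClosure K} (h : ∀ q, repG F S (σ • q) a' = σ (repG F S q a)) :
    relP10 F S c a' = σ (relP10 F S (fun q => c (σ • q)) a) := by
  have := vn_finiteIndex F
  let _ := F.fixingSubgroup.fintypeQuotientOfFiniteIndex
  rw [v10r_prod, v10r_prod, map_prod]
  refine (Fintype.prod_equiv (MulAction.toPerm σ) _ _ fun q => ?_).symm
  rw [MulAction.toPerm_apply, map_zpow₀, h]

/-- The product is fixed by the elements of `S` which stabilize `c`. -/
theorem v10r_fix (hT : TransOn F S) {a : AlgebraicClosure K}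
    (ha : FixG (F.fixingSubgroup ⊓ S) a) : FixC S c (relP10 F S c a) :=
  fun _ hs hsc => v10r_act F S c hsc fun q => v7r_rep F S hT ha hs q

end rel

section mu

variable {K : Type u} [Field K]

/-- If `s ^ p` fixes a `p`-th root of unity, then `s` does (Fermat). -/
theorem v10_mu_fix {p : ℕ} (hp : p.Prime) {ζ : AlgebraicClosure K} (hζ : ζ ^ p = 1)
    {s : AlgebraicClosure K ≃ₐ[K] AlgebraicClosure K} (h : (s ^ p) ζ = ζ) : s ζ = ζ := by
  by_cases h1 : ζ = 1
  · rw [h1, map_one]
  have := Fact.mk hp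
  have hprim : IsPrimitiveRoot ζ p := IsPrimitiveRoot.iff_orderOf.2 (orderOf_eq_prime hζ h1)
  have : NeZero p := ⟨hp.ne_zero⟩
  obtain ⟨k, -, hk⟩ := hprim.eq_pow_of_pow_eq_one (ξ := s ζ) (by rw [← map_pow, hζ, map_one])
  have hpow : ∀ j : ℕ, (s ^ j) ζ = ζ ^ k ^ j := by
    intro j
    induction j with
    | zero => simp
    | succ j ih =>
      rw [pow_succ', AlgEquiv.mul_apply, ih, map_pow, ← hk, ← pow_mul, ← pow_succ']
  have h2 : ζ ^ k ^ p = ζ ^ k := by
    have h3 : k ^ p ≡ k [MOD p] := by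
      rw [← ZMod.natCast_eq_natCast_iff]
      push_cast
      exact ZMod.pow_card (k : ZMod p)
    rw [pow_eq_pow_mod (k ^ p) hζ, pow_eq_pow_mod k hζ]
    exact congrArg _ h3
  rw [← hk, ← h2, ← hpow, h]

/-- A `p`-th root of unity with `ζ ^ n = 1`, `n` prime to `p`, is `1`. -/
theorem v10_mu_one {p n : ℕ} (hn : n.Coprime p) {ζ : AlgebraicClosure K} (hζ : ζ ^ p = 1)
    (h : ζ ^ n = 1) : ζ = 1 := by
  have h1 := pow_gcd_eq_one.2 ⟨h, hζ⟩
  rwa [Nat.Coprime.gcd_eq_one hn, pow_one] at h1

theorem v10_mem_mu {p : ℕ} {s : AlgebraicClosure K ≃ₐ[K] AlgebraicClosure K} :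
    s ∈ (muField K p).fixingSubgroup ↔ ∀ z : AlgebraicClosure K, z ^ p = 1 → s z = z := by
  constructor
  · intro h z hz
    exact (IntermediateField.mem_fixingSubgroup_iff _ _).1 h z
      (IntermediateField.subset_adjoin K _ hz)
  · intro h
    have h1 : muField K p ≤ IntermediateField.fixedField (Subgroup.zpowers s) := by
      rw [muField, IntermediateField.adjoin_le_iff]
      intro z hz
      rw [SetLike.mem_coe, IntermediateField.mem_fixedField_iff]
      intro t ht
      obtain ⟨k, rfl⟩ := ht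
      have h2 : s ∈ MulAction.stabilizer (AlgebraicClosure K ≃ₐ[K] AlgebraicClosure K) z := h z hz
      exact (MulAction.stabilizer (AlgebraicClosure K ≃ₐ[K] AlgebraicClosure K) z).zpow_mem h2 k
    rw [IntermediateField.mem_fixingSubgroup_iff]
    intro x hx
    exact (IntermediateField.mem_fixedField_iff _ _).1 (h1 hx) s (Subgroup.mem_zpowers s)

end mu

end Pool.Agent.H.MP_ac3185_nt
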