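import Pool.Agent.H.MP_ac3185_nt.V10.Stab
import Pool.Agent.H.MP_ac3185_nt.V10.Base
import Pool.Agent.H.MP_ac3185_nt.V9.ChainP

/-! The classes with no condition at the places in `S`: their number is at most the number of the
classes in `charClasses` times `p ^ excessOver L F S`. -/

set_option autoImplicit false

open CategoryTheory AlgebraicGeometry NumberField IsDedekindDomain
open scoped MonObj Pointwise

namespace Pool.Agent.H.MP_ac3185_nt

universe u

variable {K : Type u} [Field K] [NumberField K] (L F : IntermediateField K (AlgebraicClosure K))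

/-- `towerClasses` in terms of the values in the algebraic closure. -/
theorem v10x_iff {p : ℕ}
    (Rel : Set (((AlgebraicClosure K ≃ₐ[K] AlgebraicClosure K) ⧸ F.fixingSubgroup) → ℤ))
    (T O : Set (HeightOneSpectrum (𝓞 F)))
    (a : (L ⊔ F : IntermediateField K (AlgebraicClosure K))) :
    a ∈ towerClasses p L F Rel T O ↔
      (a : AlgebraicClosure K) ∈ selP p L F Rel ⊤ (unrO p F T O) (divO p F T O) := by
  have hsup : (L ⊔ F : IntermediateField K (AlgebraicClosure K)).fixingSubgroup =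
      L.fixingSubgroup ⊓ F.fixingSubgroup := IntermediateField.fixingSubgroup_sup
  constructor
  · rintro ⟨ha0, ⟨d, hd, hN⟩, hRel, hU, hE⟩
    refine ⟨fun h => ha0 (Subtype.ext h), ?_, ?_, ?_, ?_, ?_⟩
    · rw [inf_top_eq]
      exact fun s hs => vn_fix _ a.2 (by rw [hsup]; exact hs)
    · rw [inf_top_eq]
      exact ⟨d, fun s hs => vn_fix _ hd hs, hN⟩
    · rw [inf_top_eq]
      intro c hc
      obtain ⟨d', h1, h2⟩ := hRel c hc
      exact ⟨d', fun s hs h3 => h1 s hs h3, h2⟩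
    · rw [inf_top_eq]
      rintro 𝔓 ⟨v, hv, h𝔓, hT⟩
      obtain ⟨z, hz, h1⟩ := hU v hv 𝔓 h𝔓 hT
      exact ⟨z, hz, fun s hs hsL => h1 s hs (by rw [hsup]; exact hsL)⟩
    · rw [inf_top_eq]
      rintro 𝔓 ⟨v, hv, h𝔓, hp, hT⟩
      obtain ⟨b, hb, hb0, h1⟩ := hE v hv 𝔓 h𝔓 hp hT
      exact ⟨b, fun s hs => vn_fix _ hb (by rw [hsup]; exact hs), hb0, h1⟩
  · rintro ⟨ha0, -, ⟨d, hd, hN⟩, hRel, hU, hE⟩
    rw [inf_top_eq] at hd hN hU hE hRel
    refine ⟨fun h => ha0 (congrArg Subtype.val h), ⟨d, vn_mem F hd, hN⟩, ?_, ?_, ?_⟩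
    · intro c hc
      obtain ⟨d', h1, h2⟩ := hRel c hc
      exact ⟨d', fun s hs h3 => h1 s hs h3, h2⟩
    · intro v hv 𝔓 h𝔓 hT
      obtain ⟨z, hz, h1⟩ := hU 𝔓 ⟨v, hv, h𝔓, hT⟩
      exact ⟨z, hz, fun s hs hsL => h1 s hs (by rw [← hsup]; exact hsL)⟩
    · intro v hv 𝔓 h𝔓 hp hT
      obtain ⟨b, hb, hb0, h1⟩ := hE 𝔓 ⟨v, hv, h𝔓, hp, hT⟩
      exact ⟨b, vn_mem _ fun s hs => hb s (by rw [← hsup]; exact hs), hb0, h1⟩

omit [NumberField K] in
theorem v10x_prime {p : ℕ} (T O : Set (HeightOneSpectrum (𝓞 F))) :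
    ∀ 𝔓 ∈ divO p F T O, 𝔓.IsPrime := by
  rintro 𝔓 ⟨v, -, h𝔓, -⟩
  exact h𝔓.1

theorem v10x_one {p : ℕ} [FiniteDimensional K L] [FiniteDimensional K F]
    (Rel : Set (((AlgebraicClosure K ≃ₐ[K] AlgebraicClosure K) ⧸ F.fixingSubgroup) → ℤ))
    (T O : Set (HeightOneSpectrum (𝓞 F))) :
    (1 : (L ⊔ F : IntermediateField K (AlgebraicClosure K))) ∈ towerClasses p L F Rel T O := by
  refine ⟨one_ne_zero, ⟨1, one_mem _, ?_⟩, fun c _ => ⟨1, fun s _ _ => map_one s, ?_⟩,
    fun v _ 𝔓 _ _ => ⟨1, ?_, fun s _ _ => map_one s⟩, fun v _ 𝔓 h𝔓 _ _ => ?_⟩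
  · rw [one_pow]
    unfold normG
    exact finprod_eq_one_of_forall_eq_one fun q => map_one _
  · rw [one_pow]
    refine finprod_eq_one_of_forall_eq_one fun q => ?_
    have h1 : repG F L.fixingSubgroup q (((1 : (L ⊔ F : IntermediateField K
      (AlgebraicClosure K))) : AlgebraicClosure K)) = 1 := map_one _
    rw [h1, one_zpow]
  · rw [one_pow]
    rfl
  · have h1 : (1 : 𝓞 (AlgebraicClosure K)) ∉ 𝔓 := fun h =>
      h𝔓.1.ne_top ((Ideal.eq_top_iff_one 𝔓).2 h)
    refine ⟨1, one_mem _, one_ne_zero, 1, 1, h1, h1, ?_⟩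
    rw [one_pow]
    rfl

theorem v10_relax {p : ℕ} (hp : p.Prime) [FiniteDimensional K L] [FiniteDimensional K F]
    (hn : (Module.finrank K L).Coprime p) (hT : TransOn L F.fixingSubgroup)
    (Rel : Set (((AlgebraicClosure K ≃ₐ[K] AlgebraicClosure K) ⧸ F.fixingSubgroup) → ℤ))
    (T : Set (HeightOneSpectrum (𝓞 F))) (S : Finset (HeightOneSpectrum (𝓞 F)))
    (hTS : ∀ v ∈ S, v ∉ T) (ρ : ℕ) (h : PowClasses p (charClasses p L F Rel T) (p ^ ρ)) :
    PowClasses p (towerClasses p L F Rel T (S : Set (HeightOneSpectrum (𝓞 F))))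
      (p ^ (ρ + excessOver L F S)) := by
  classical
  obtain ⟨O, hO⟩ : ∃ O : Set (HeightOneSpectrum (𝓞 F)), O = S := ⟨_, rfl⟩
  rw [← hO]
  have hOS : ∀ v, v ∈ O ↔ v ∈ S := fun v => by rw [hO]; exact Finset.mem_coe
  have hpr := v10x_prime F (p := p) T O
  let G : AddSubgroup (Additive (L ⊔ F : IntermediateField K (AlgebraicClosure K))ˣ) :=
    { carrier := {x | ((Additive.toMul x : (L ⊔ F : IntermediateField K (AlgebraicClosure K))ˣ) :
        (L ⊔ F : IntermediateField K (AlgebraicClosure K))) ∈ towerClasses p L F Rel T O}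
      zero_mem' := v10x_one L F Rel T O
      add_mem' := fun {a b} ha hb => by
        have h1 := (v10x_iff L F Rel T O _).1 ha
        have h2 := (v10x_iff L F Rel T O _).1 hb
        exact (v10x_iff L F Rel T O _).2 (v10_sel_mul L F Rel ⊤ _ _ hpr h1 h2)
      neg_mem' := fun {a} ha => by
        have h1 := (v10x_iff L F Rel T O _).1 ha
        have h2 := v10_sel_inv L F Rel ⊤ _ _ h1
        refine (v10x_iff L F Rel T O _).2 ?_
        have h3 : ((((Additive.toMul (-a) :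
            (L ⊔ F : IntermediateField K (AlgebraicClosure K))ˣ) :
            (L ⊔ F : IntermediateField K (AlgebraicClosure K)))) : AlgebraicClosure K) =
            ((((Additive.toMul a :
            (L ⊔ F : IntermediateField K (AlgebraicClosure K))ˣ) :
            (L ⊔ F : IntermediateField K (AlgebraicClosure K)))) : AlgebraicClosure K)⁻¹ := by
          rw [toMul_neg, Units.val_inv_eq_inv_val]
          rfl
        rw [h3]
        exact h2 }
  let D : AddSubgroup (Additive (L ⊔ F : IntermediateField K (AlgebraicClosure K))ˣ) :=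
    { carrier := {x | ∃ w : (L ⊔ F : IntermediateField K (AlgebraicClosure K)),
        ((Additive.toMul x : (L ⊔ F : IntermediateField K (AlgebraicClosure K))ˣ) :
        (L ⊔ F : IntermediateField K (AlgebraicClosure K))) = w ^ p}
      zero_mem' := ⟨1, by rw [one_pow]; rfl⟩
      add_mem' := fun {a b} ha hb => by
        obtain ⟨w, hw⟩ := ha
        obtain ⟨w', hw'⟩ := hb
        exact ⟨w * w', by rw [mul_pow, ← hw, ← hw']; rfl⟩
      neg_mem' := fun {a} ha => by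
        obtain ⟨w, hw⟩ := ha
        exact ⟨w⁻¹, by rw [inv_pow, ← hw, toMul_neg, Units.val_inv_eq_inv_val]⟩ }
  have hn' : ¬ p ∣ Module.finrank K L := fun h =>
    (Nat.Prime.coprime_iff_not_dvd hp).1 hn.symm h
  obtain ⟨i1, i2⟩ := v9_index hp L F hn' hT G D S (charClasses p L F Rel T) (p ^ ρ) h
    (fun x => ((Additive.toMul x : (L ⊔ F : IntermediateField K (AlgebraicClosure K))ˣ) :
        (L ⊔ F : IntermediateField K (AlgebraicClosure K))))
    (fun x => Units.ne_zero _) (fun x hx => hx.2.1)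
    (fun x _ y _ => ⟨1, one_ne_zero, by rw [one_pow, mul_one, toMul_add, Units.val_mul]⟩)
    (fun x _ hx => hx)
    (fun x hx hS => ⟨hx.1, hx.2.1, hx.2.2.1, fun v 𝔓 h𝔓 hcase => by
      by_cases hv : v ∈ S
      · have hpv : (p : 𝓞 F) ∉ v.asIdeal := hcase.resolve_right (hTS v hv)
        exact v9_unr p hp (L ⊔ F) (v6_finPrime h𝔓) (fun hm => hpv ((v9_p_mem h𝔓).1 hm))
          (Subtype.mem _) (hS v hv 𝔓 h𝔓)
      · exact hx.2.2.2.1 v (fun hv' => hv ((hOS v).1 hv')) 𝔓 h𝔓 hcase,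
      fun v 𝔓 h𝔓 hpv hvT => by
      by_cases hv : v ∈ S
      · exact hS v hv 𝔓 h𝔓
      · exact hx.2.2.2.2 v (fun hv' => hv ((hOS v).1 hv')) 𝔓 h𝔓 hpv hvT⟩)
  obtain ⟨T', hT', -, hcov⟩ := v8_cover_of_index G D (p ^ (ρ + excessOver L F S)) i1
    (i2.trans (le_of_eq (pow_add p ρ _).symm))
  refine ⟨T'.image fun x => ((Additive.toMul x :
    (L ⊔ F : IntermediateField K (AlgebraicClosure K))ˣ) :
        (L ⊔ F : IntermediateField K (AlgebraicClosure K))), Finset.card_image_le.trans hT', ?_⟩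
  intro a ha
  obtain ⟨t, ht, w, hw⟩ := hcov (Additive.ofMul (Units.mk0 a ha.1)) ha
  refine ⟨_, Finset.mem_image_of_mem _ ht, w, ?_, ?_⟩
  · rintro rfl
    rw [zero_pow hp.ne_zero] at hw
    exact Units.ne_zero _ hw
  · rw [← hw, toMul_sub, toMul_ofMul, Units.val_div_eq_div_val, Units.val_mk0]
    rw [mul_div_cancel₀ _ (Units.ne_zero _)]

omit [NumberField K] in
/-- More relations give fewer classes. -/
theorem v10_relMono {p : ℕ}
    {Rel Rel' : Set (((AlgebraicClosure K ≃ₐ[K] AlgebraicClosure K) ⧸ F.fixingSubgroup) → ℤ)}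
    (h : Rel ⊆ Rel') (T O : Set (HeightOneSpectrum (𝓞 F))) :
    towerClasses p L F Rel' T O ⊆ towerClasses p L F Rel T O :=
  fun _ ha => ⟨ha.1, ha.2.1, fun c hc => ha.2.2.1 c (h hc), ha.2.2.2⟩

end Pool.Agent.H.MP_ac3185_nt
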